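import Pool.Agent.Y342.LE.Formula
import Pool.Agent.TH378.LCBase

/-!
# The 1-factorization of a multigraph with a nonzero signed number
-/

set_option autoImplicit false
set_option linter.unusedSectionVars false

namespace Pool.Agent.Y342.LE

open Finset Pool.Agent.W426.LE Pool.Agent.TH378.LC

section

variable {A E : Type} [Fintype A] [Fintype E] [DecidableEq A] [DecidableEq E] {d : ℕ}
variable (θ : E × Bool ≃ (A × Fin d) × Bool)

theorem sg_of_bij (f : Fin d → Fin d) (π : Equiv.Perm (Fin d)) (h : ∀ i, π i = f i) :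
    sg (Equiv.refl (Fin d)) f = ((Equiv.Perm.sign π : ℤˣ) : ℤ) := by
  have hf : f = π := funext fun i => (h i).symm
  subst hf
  unfold sg
  rw [dif_pos π.bijective]
  have hs' : ∀ (i1 i2 : DecidableEq (Fin d)) (τ τ' : Equiv.Perm (Fin d)), τ = τ' →
      ((@Equiv.Perm.sign _ i1 _ τ : ℤˣ) : ℤ) = ((@Equiv.Perm.sign _ i2 _ τ' : ℤˣ) : ℤ) :=
    fun i1 i2 τ τ' h => by rw [Subsingleton.elim i1 i2, h]
  exact hs' _ _ _ _ (Equiv.ext fun _ => rfl)

/-- the half-edge at the slot `j` of `v` -/
def hf (v : A × Bool) (j : Fin d) : E × Bool := θ.symm ((v.1, j), v.2)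

/-- the slot of a half-edge -/
def sl (h : E × Bool) : Fin d := (θ h).1.2

/-- the vertex of a half-edge -/
def vt (h : E × Bool) : A × Bool := ((θ h).1.1, (θ h).2)

theorem vt_hf (v : A × Bool) (j : Fin d) : vt θ (hf θ v j) = v := by
  unfold vt hf
  rw [Equiv.apply_symm_apply]

theorem sl_hf (v : A × Bool) (j : Fin d) : sl θ (hf θ v j) = j := by
  unfold sl hf
  rw [Equiv.apply_symm_apply]

theorem hf_vt (h : E × Bool) : hf θ (vt θ h) (sl θ h) = h := by
  unfold hf vt sl
  rw [Equiv.symm_apply_eq]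

theorem inc_eq (v : A × Bool) (j : Fin d) : inc θ v j = (hf θ v j).1 := rfl

/-- the other half of an edge -/
def op (h : E × Bool) : E × Bool := (h.1, !h.2)

theorem op_op (h : E × Bool) : op (op h) = h := by
  unfold op
  simp

variable (x : E → Fin d) (g : A × Bool → Equiv.Perm (Fin d)) (hg : ∀ v j, g v j = x (inc θ v j))

/-- the factor belonging to the colour `i` -/
def FF1 (i : Fin d) (v : A × Bool) : A × Bool := vt θ (op (hf θ v ((g v).symm i)))

include hg in
theorem hf_FF1 (i : Fin d) (v : A × Bool) :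
    hf θ (FF1 θ g i v) ((g (FF1 θ g i v)).symm i) = op (hf θ v ((g v).symm i)) := by
  have h1 : (g (FF1 θ g i v)).symm i = sl θ (op (hf θ v ((g v).symm i))) := by
    rw [Equiv.symm_apply_eq, hg, inc_eq]
    unfold FF1
    rw [hf_vt]
    have h2 := hg v ((g v).symm i)
    rw [Equiv.apply_symm_apply, inc_eq] at h2
    exact h2
  rw [h1]
  unfold FF1
  exact hf_vt θ _

include hg in
theorem FF1_inv (i : Fin d) (v : A × Bool) : FF1 θ g i (FF1 θ g i v) = v := by
  have h1 := hf_FF1 θ x g hg i v
  have h2 : FF1 θ g i (FF1 θ g i v) = vt θ (op (hf θ (FF1 θ g i v) ((g (FF1 θ g i v)).symm i))) := rfl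
  rw [h2, h1, op_op, vt_hf]

theorem FF1_ne (hl : ∀ e, vt θ (e, false) ≠ vt θ (e, true)) (i : Fin d) (v : A × Bool) :
    FF1 θ g i v ≠ v := by
  intro h
  have h1 : vt θ (hf θ v ((g v).symm i)) = v := vt_hf θ v _
  unfold FF1 at h
  rw [← h1] at h
  rw [h1] at h
  generalize hz : hf θ v ((g v).symm i) = z at *
  rw [← h1] at h
  obtain ⟨e, b⟩ := z
  cases b
  · exact hl e (by simpa [op] using h.symm)
  · exact hl e (by simpa [op] using h)

include hg in
theorem AT_FF1 : AT (FF1 θ g) = (∏ v, ((Equiv.Perm.sign (g v) : ℤˣ) : ℤ)) *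
    NN (Equiv.refl (Fin d)) (inc θ) := by
  classical
  have hAT : AT (FF1 θ g) = ∑ σ ∈ univ.filter (fun σ : (A × Bool) → Equiv.Perm (Fin d) =>
      Cons (FF1 θ g) σ), ∏ w, ((Equiv.Perm.sign (σ w) : ℤˣ) : ℤ) := by
    unfold AT
    refine Finset.sum_congr ?_ fun _ _ => rfl
    ext σ
    simp only [Finset.mem_filter, Finset.mem_univ, true_and]
  rw [hAT]
  have hNN : NN (Equiv.refl (Fin d)) (inc θ) =
      ∑ y : E → Fin d, ∏ v, sg (Equiv.refl (Fin d)) (fun i => y (inc θ v i)) := by
    unfold NN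
    refine Finset.sum_congr ?_ fun _ _ => rfl
    ext y
    simp only [Finset.mem_univ]
  rw [hNN]
  have h0 : ∑ y : E → Fin d, ∏ v, sg (Equiv.refl (Fin d)) (fun i => y (inc θ v i)) =
      ∑ y ∈ univ.filter (fun y : E → Fin d => ∀ v, Function.Bijective (fun i => y (inc θ v i))),
        ∏ v, sg (Equiv.refl (Fin d)) (fun i => y (inc θ v i)) := by
    rw [Finset.sum_filter]
    refine Finset.sum_congr rfl fun y _ => ?_
    split_ifs with h
    · rfl
    · push Not at h
      obtain ⟨v, hv⟩ := h
      refine Finset.prod_eq_zero (Finset.mem_univ v) ?_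
      unfold sg
      rw [dif_neg hv]
  rw [h0, Finset.mul_sum]
  symm
  refine Finset.sum_bij' (fun y hy v => (g v).symm.trans (Equiv.ofBijective _
      ((Finset.mem_filter.1 hy).2 v)))
    (fun σ _ e => σ (vt θ (e, false)) (x e)) ?_ ?_ ?_ ?_ ?_
  · intro y hy
    rw [Finset.mem_filter]
    refine ⟨Finset.mem_univ _, fun v i => ?_⟩
    show y (inc θ (FF1 θ g i v) ((g (FF1 θ g i v)).symm i)) = y (inc θ v ((g v).symm i))
    rw [inc_eq, inc_eq, hf_FF1 θ x g hg]
    rfl
  · intro σ hσ
    rw [Finset.mem_filter] at hσ ⊢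
    refine ⟨Finset.mem_univ _, fun v => ?_⟩
    have h1 : ∀ j, σ (vt θ ((inc θ v j), false)) (x (inc θ v j)) = σ v (g v j) := by
      intro j
      rw [← hg]
      have h2 : vt θ (hf θ v j) = v := vt_hf θ v j
      by_cases hb : (hf θ v j).2 = false
      · have h3 : (inc θ v j, false) = hf θ v j := Prod.ext rfl hb.symm
        rw [h3, h2]
      · have h3 : (inc θ v j, false) = op (hf θ v j) := by
          refine Prod.ext rfl ?_
          show false = !(hf θ v j).2
          rw [Bool.not_eq_false] at hb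
          rw [hb]
          rfl
        have h4 : FF1 θ g (g v j) v = vt θ (op (hf θ v j)) := by
          unfold FF1
          rw [Equiv.symm_apply_apply]
        rw [h3, ← h4]
        exact hσ.2 v (g v j)
    show Function.Bijective (fun j => σ (vt θ ((inc θ v j), false)) (x (inc θ v j)))
    simp only [h1]
    exact (σ v).bijective.comp (g v).bijective
  · intro y hy
    funext e
    show y (inc θ (vt θ (e, false)) ((g (vt θ (e, false))).symm (x e))) = y e
    congr 1
    have h1 : (g (vt θ (e, false))).symm (x e) = sl θ (e, false) := by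
      rw [Equiv.symm_apply_eq, hg, inc_eq, hf_vt]
    rw [h1, inc_eq, hf_vt]
  · intro σ hσ
    rw [Finset.mem_filter] at hσ
    funext v
    ext1 i
    show σ (vt θ ((inc θ v ((g v).symm i)), false)) (x (inc θ v ((g v).symm i))) = σ v i
    have h5 : x (inc θ v ((g v).symm i)) = i := by
      rw [← hg, Equiv.apply_symm_apply]
    rw [h5]
    have h2 : vt θ (hf θ v ((g v).symm i)) = v := vt_hf θ v _
    by_cases hb : (hf θ v ((g v).symm i)).2 = false
    · have h3 : (inc θ v ((g v).symm i), false) = hf θ v ((g v).symm i) := Prod.ext rfl hb.symm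
      rw [h3, h2]
    · have h3 : (inc θ v ((g v).symm i), false) = op (hf θ v ((g v).symm i)) := by
        refine Prod.ext rfl ?_
        show false = !(hf θ v ((g v).symm i)).2
        rw [Bool.not_eq_false] at hb
        rw [hb]
        rfl
      rw [h3]
      exact hσ.2 v i
  · intro y hy
    rw [← Finset.prod_mul_distrib]
    refine Finset.prod_congr rfl fun v _ => ?_
    rw [sg_of_bij (fun i => y (inc θ v i)) (Equiv.ofBijective _ ((Finset.mem_filter.1 hy).2 v))
      (fun i => rfl), ← Units.val_mul]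
    congr 1
    have h6 : (g v).symm.trans (Equiv.ofBijective _ ((Finset.mem_filter.1 hy).2 v)) =
        (Equiv.ofBijective _ ((Finset.mem_filter.1 hy).2 v) : Equiv.Perm (Fin d)) * (g v)⁻¹ := rfl
    show _ = Equiv.Perm.sign ((g v).symm.trans (Equiv.ofBijective _ ((Finset.mem_filter.1 hy).2 v)))
    rw [h6, Equiv.Perm.sign_mul, Equiv.Perm.sign_inv, mul_comm]

end

end Pool.Agent.Y342.LE
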