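import Pool.Agent.Y342.LE.Ops

/-!
# Basic graphs
-/

set_option autoImplicit false
set_option linter.unusedSectionVars false

namespace Pool.Agent.Y342.LE

open Finset Pool.Agent.W426.LE Pool.Agent.TH378.LC

theorem NZ_complete {p : ℕ} (hp : p.Prime) (hp2 : p ≠ 2) (V : Type) [Fintype V]
    (hV : Fintype.card V = p - 1) : NZ p (p - 2) (⊤ : SimpleGraph V) := by
  classical
  have h2 := hp.two_le
  have : Fact p.Prime := ⟨hp⟩
  obtain ⟨m, hm⟩ := hp.odd_of_ne_two hp2
  obtain ⟨ν, hν⟩ := exists_nu m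
  have hcard : Fintype.card (Fin m × Bool) = 2 * m := by
    simp [mul_comm]
  have hdv : ∀ v : Fin m × Bool, Nonempty ({w : Fin m × Bool // w ≠ v} ≃ Fin (p - 2)) := by
    intro v
    refine ⟨Fintype.equivOfCardEq ?_⟩
    rw [Fintype.card_fin, Fintype.card_subtype_compl, hcard, Fintype.card_subtype_eq]
    omega
  let dv : ∀ v : Fin m × Bool, {w : Fin m × Bool // w ≠ v} ≃ Fin (p - 2) := fun v => (hdv v).some
  have hvt : ∀ x, vt (thK ν dv) x = vK ν x := fun x => rfl
  have hvo : ∀ x, vt (thK ν dv) (op x) = wK ν x := by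
    rintro ⟨⟨⟨u, v⟩, huv⟩, b⟩
    cases b <;> rfl
  have hrep : Rep (thK ν dv) (⊤ : SimpleGraph (Fin m × Bool)) := by
    constructor
    · intro v w
      rw [SimpleGraph.top_adj]
      constructor
      · intro hvw
        rcases lt_trichotomy (ν v) (ν w) with h | h | h
        · exact ⟨(⟨(v, w), h⟩, false), rfl, rfl⟩
        · exact absurd (ν.injective h) hvw
        · exact ⟨(⟨(w, v), h⟩, true), rfl, rfl⟩
      · rintro ⟨x, rfl, rfl⟩
        rw [hvt, hvo]
        exact (wK_ne ν x).symm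
    · rintro ⟨⟨⟨u, v⟩, huv⟩, b⟩ ⟨⟨⟨u', v'⟩, huv'⟩, b'⟩ h1 h3
      rw [hvt, hvt] at h1
      rw [hvo, hvo] at h3
      have huv1 : ν u < ν v := huv
      have huv2 : ν u' < ν v' := huv'
      cases b <;> cases b' <;>
        simp only [vK, wK, Bool.false_eq_true, if_false, if_true] at h1 h3 <;> subst h1 <;> subst h3
      · rfl
      · exact absurd huv1 (not_lt.2 huv2.le)
      · exact absurd huv1 (not_lt.2 huv2.le)
      · rfl
  have hN : ((NN (Equiv.refl (Fin (p - 2))) (inc (thK ν dv)) : ℤ) : ZMod p) ≠ 0 := by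
    intro h0
    rw [Psi_zero_iff] at h0
    have h5 : gp (ZMod p) (vx (thK ν dv)) =
        Vn (fun i => (MvPolynomial.X (ν.symm i) : MvPolynomial (Fin m × Bool) (ZMod p))) := by
      rw [Vn_eq_det, ← prod_EK ν (fun v => (MvPolynomial.X v : MvPolynomial (Fin m × Bool) (ZMod p)))]
      rfl
    rw [h5] at h0
    exact Psi_K_ne p hp hp2 m hm ν hν h0
  have h6 := hrep.NZ p hN
  have e : V ≃ Fin m × Bool := Fintype.equivOfCardEq (by rw [hcard, hV]; omega)
  exact h6.iso (SimpleGraph.Iso.completeGraph e.symm)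

theorem NZ_cocycle {p : ℕ} (hp : p.Prime) (hp2 : p ≠ 2) :
    NZ p (p - 2) (SimpleGraph.cycleGraph (p + 1))ᶜ := by
  classical
  have : Fact p.Prime := ⟨hp⟩
  obtain ⟨m, hm⟩ := hp.odd_of_ne_two hp2
  obtain ⟨N, θ, hθ, hN⟩ := CC_ne p hp hp2 m hm
  have hm2 : p + 1 = 2 * m + 2 := by omega
  rw [hm2]
  let H := (SimpleGraph.cycleGraph (2 * m + 2))ᶜ
  have hvt : ∀ x, vt θ x = N.symm (eH H x) := fun x => hθ x
  have hvo : ∀ x, vt θ (op x) = N.symm (oH H x) := by
    intro x
    rw [hvt]
    obtain ⟨⟨⟨u, v⟩, huv⟩, b⟩ := x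
    cases b <;> rfl
  have hrep : Rep θ (H.comap N) := by
    constructor
    · intro v w
      rw [SimpleGraph.comap_adj]
      constructor
      · intro hvw
        rcases lt_trichotomy (N v) (N w) with h | h | h
        · refine ⟨(⟨(N v, N w), h, hvw⟩, false), ?_, ?_⟩
          · rw [hvt]
            exact N.symm_apply_apply v
          · rw [hvo]
            exact N.symm_apply_apply w
        · exact absurd h hvw.ne
        · refine ⟨(⟨(N w, N v), h, hvw.symm⟩, true), ?_, ?_⟩
          · rw [hvt]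
            exact N.symm_apply_apply v
          · rw [hvo]
            exact N.symm_apply_apply w
      · rintro ⟨x, rfl, rfl⟩
        rw [hvt, hvo, Equiv.apply_symm_apply, Equiv.apply_symm_apply]
        exact adj_eH H x
    · intro x x' h1 h3
      rw [hvt, hvt] at h1
      rw [hvo, hvo] at h3
      have h1' := N.symm.injective h1
      have h3' := N.symm.injective h3
      obtain ⟨⟨⟨u, v⟩, huv, h4⟩, b⟩ := x
      obtain ⟨⟨⟨u', v'⟩, huv', h4'⟩, b'⟩ := x'
      have huv1 : u < v := huv
      have huv2 : u' < v' := huv'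
      cases b <;> cases b' <;>
        simp only [eH, oH, Bool.false_eq_true, if_false, if_true] at h1' h3'
      · subst h1' h3'
        rfl
      · subst h1' h3'
        exact absurd huv1 (not_lt.2 huv2.le)
      · subst h1' h3'
        exact absurd huv1 (not_lt.2 huv2.le)
      · subst h1' h3'
        rfl
  exact (hrep.NZ p hN).iso (SimpleGraph.Iso.comap N H)

end Pool.Agent.Y342.LE
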