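import Mathlib

/-!
# Signs of permutations commuting with an involution, and counting fixed colourings
-/

set_option autoImplicit false

namespace Pool.Agent.Y342.LE

open Finset

/-- a permutation of `A × Bool` commuting with the flip -/
theorem comm_data {A : Type} (ζ : Equiv.Perm (A × Bool))
    (h : ∀ a b, ζ (a, !b) = ((ζ (a, b)).1, !(ζ (a, b)).2)) :
    Function.Injective (fun a => (ζ (a, false)).1) := by
  intro a a' haa
  simp only at haa
  by_cases hb : (ζ (a, false)).2 = (ζ (a', false)).2
  · have := ζ.injective (Prod.ext haa hb)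
    exact congrArg Prod.fst this
  · exfalso
    have h1 := h a' false
    have h2 : ζ (a, false) = ζ (a', !false) := by
      rw [h1]
      refine Prod.ext haa ?_
      show (ζ (a, false)).2 = !(ζ (a', false)).2
      revert hb
      cases (ζ (a, false)).2 <;> cases (ζ (a', false)).2 <;> simp
    have h3 := congrArg Prod.snd (ζ.injective h2)
    simp at h3

theorem sign_comm_flip {A : Type} [Fintype A] [DecidableEq A] (ζ : Equiv.Perm (A × Bool))
    (h : ∀ a b, ζ (a, !b) = ((ζ (a, b)).1, !(ζ (a, b)).2)) :
    Equiv.Perm.sign ζ = ∏ a : A, (if (ζ (a, false)).2 = true then (-1 : ℤˣ) else 1) := by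
  let s : Equiv.Perm A := Equiv.ofBijective _ (Finite.injective_iff_bijective.1 (comm_data ζ h))
  let c : A → Equiv.Perm Bool := fun a => if (ζ (a, false)).2 = true then Equiv.swap true false else 1
  have h1 : ζ = (Equiv.prodCongrLeft (fun _ : Bool => s)) * (Equiv.prodCongrRight c) := by
    ext ⟨a, b⟩ : 1
    have hs : (s a) = (ζ (a, false)).1 := rfl
    rw [Equiv.Perm.mul_apply, Equiv.prodCongrRight_apply, Equiv.prodCongrLeft_apply]
    have ht := h a false
    cases b
    · refine Prod.ext hs.symm ?_
      simp only [c]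
      cases h5 : (ζ (a, false)).2 <;> simp
    · rw [show (true : Bool) = !false from rfl, ht]
      refine Prod.ext hs.symm ?_
      simp only [c]
      cases h5 : (ζ (a, false)).2 <;> simp
  have h2 : Equiv.Perm.sign (Equiv.prodCongrLeft (fun _ : Bool => s)) = 1 := by
    rw [Equiv.Perm.sign_prodCongrLeft, Finset.prod_const, Finset.card_univ, Fintype.card_bool]
    rcases Int.units_eq_one_or (Equiv.Perm.sign s) with h | h <;> rw [h] <;> norm_num
  rw [h1, Equiv.Perm.sign_mul, h2, one_mul, Equiv.Perm.sign_prodCongrRight]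
  refine Finset.prod_congr rfl fun a _ => ?_
  rw [← h1]
  simp only [c]
  split_ifs
  · exact Equiv.Perm.sign_swap (by decide)
  · exact map_one _

/-- colourings of `Fin n` fixed by a permutation, with `-1` colours -/
theorem card_fix_fin {R : Type} [CommRing R] {K : Type} [Finite K] (hK : ((Nat.card K : ℕ) : R) = -1)
    (n : ℕ) (ρ : Equiv.Perm (Fin n)) :
    ((Nat.card {x : Fin n → K // ∀ e, x (ρ e) = x e} : ℕ) : R) =
      (-1) ^ n * ((Equiv.Perm.sign ρ : ℤ) : R) := by
  induction n with
  | zero =>
    have h1 : Nat.card {x : Fin 0 → K // ∀ e, x (ρ e) = x e} = 1 := by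
      rw [Nat.card_eq_one_iff_unique]
      refine ⟨⟨fun a b => Subtype.ext (funext fun i => i.elim0)⟩, ⟨⟨fun i => i.elim0, fun i => i.elim0⟩⟩⟩
    rw [h1]
    simp [Subsingleton.elim ρ 1]
  | succ n ih =>
    obtain ⟨⟨q, e⟩, rfl⟩ := Equiv.Perm.decomposeFin.symm.surjective ρ
    rw [Equiv.Perm.decomposeFin.symm_sign]
    refine Fin.cases ?_ ?_ q
    · -- q = 0
      have hE : {x : Fin (n + 1) → K // ∀ k, x (Equiv.Perm.decomposeFin.symm (0, e) k) = x k} ≃
          K × {x : Fin n → K // ∀ k, x (e k) = x k} :=
        { toFun := fun x => (x.1 0, ⟨fun k => x.1 k.succ, fun k => by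
            have := x.2 k.succ
            rw [Equiv.Perm.decomposeFin_symm_apply_succ, Equiv.swap_self] at this
            exact this⟩)
          invFun := fun z => ⟨Fin.cons z.1 z.2.1, fun k => by
            refine Fin.cases ?_ (fun j => ?_) k
            · rw [Equiv.Perm.decomposeFin_symm_apply_zero]
            · rw [Equiv.Perm.decomposeFin_symm_apply_succ, Equiv.swap_self]
              simp only [Equiv.refl_apply, Fin.cons_succ]
              exact z.2.2 j⟩
          left_inv := fun x => by
            refine Subtype.ext (funext fun k => ?_)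
            refine Fin.cases ?_ (fun j => ?_) k
            · simp
            · simp
          right_inv := fun z => by
            refine Prod.ext ?_ (Subtype.ext (funext fun k => ?_))
            · simp
            · simp }
      rw [Nat.card_congr hE, Nat.card_prod, Nat.cast_mul, hK, ih e, if_pos rfl, one_mul]
      ring
    · intro q
      have hE : {x : Fin (n + 1) → K // ∀ k, x (Equiv.Perm.decomposeFin.symm (q.succ, e) k) = x k} ≃
          {x : Fin n → K // ∀ k, x (e k) = x k} :=
        { toFun := fun x => ⟨fun k => x.1 k.succ, fun k => by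
            have h0 := x.2 0
            rw [Equiv.Perm.decomposeFin_symm_apply_zero] at h0
            have h1 := x.2 k.succ
            rw [Equiv.Perm.decomposeFin_symm_apply_succ] at h1
            show x.1 (e k).succ = x.1 k.succ
            rw [← h1]
            by_cases h2 : (e k).succ = q.succ
            · rw [h2, Equiv.swap_apply_right, h0]
            · rw [Equiv.swap_apply_of_ne_of_ne (Fin.succ_ne_zero _) h2]⟩
          invFun := fun z => ⟨Fin.cons (z.1 q) z.1, fun k => by
            refine Fin.cases ?_ (fun j => ?_) k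
            · rw [Equiv.Perm.decomposeFin_symm_apply_zero]
              simp
            · rw [Equiv.Perm.decomposeFin_symm_apply_succ]
              by_cases h2 : (e j).succ = q.succ
              · rw [h2, Equiv.swap_apply_right]
                rw [Fin.succ_inj] at h2
                simp only [Fin.cons_zero, Fin.cons_succ]
                rw [← h2]
                exact z.2 j
              · rw [Equiv.swap_apply_of_ne_of_ne (Fin.succ_ne_zero _) h2]
                simp only [Fin.cons_succ]
                exact z.2 j⟩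
          left_inv := fun x => by
            refine Subtype.ext (funext fun k => ?_)
            refine Fin.cases ?_ (fun j => ?_) k
            · have h0 := x.2 0
              rw [Equiv.Perm.decomposeFin_symm_apply_zero] at h0
              simpa using h0
            · simp
          right_inv := fun z => by
            refine (Subtype.ext (funext fun k => ?_))
            simp }
      rw [Nat.card_congr hE, ih e, if_neg (Fin.succ_ne_zero q)]
      push_cast
      ring

theorem card_fix {R : Type} [CommRing R] {K : Type} [Finite K] (hK : ((Nat.card K : ℕ) : R) = -1)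
    {E : Type} [Fintype E] [DecidableEq E] (ρ : Equiv.Perm E) :
    ((Nat.card {x : E → K // ∀ e, x (ρ e) = x e} : ℕ) : R) =
      (-1) ^ (Fintype.card E) * ((Equiv.Perm.sign ρ : ℤ) : R) := by
  let f := Fintype.equivFin E
  have h1 := card_fix_fin hK (Fintype.card E) ((f.symm.trans ρ).trans f)
  have h2 : Equiv.Perm.sign ((f.symm.trans ρ).trans f) = Equiv.Perm.sign ρ :=
    Equiv.Perm.sign_symm_trans_trans ρ f
  rw [h2] at h1
  rw [← h1]
  congr 1
  refine Nat.card_congr
    { toFun := fun x => ⟨fun k => x.1 (f.symm k), fun k => by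
        have := x.2 (f.symm k)
        simpa using this⟩
      invFun := fun x => ⟨fun e => x.1 (f e), fun e => by
        have := x.2 (f e)
        simpa using this⟩
      left_inv := fun x => by ext; simp
      right_inv := fun x => by ext; simp }

/-- the union of two perfect matchings is bipartite -/
theorem exists_alt {H : Type} [Finite H] (ι κ : H → H) (hι : ∀ h, ι (ι h) = h) (hι' : ∀ h, ι h ≠ h)
    (hκ : ∀ h, κ (κ h) = h) (hκ' : ∀ h, κ h ≠ h) :
    ∃ y : H → Bool, (∀ h, y (ι h) = !y h) ∧ ∀ h, y (κ h) = !y h := by
  classical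
  let I : Equiv.Perm H := ⟨ι, ι, hι, hι⟩
  let J : Equiv.Perm H := ⟨κ, κ, hκ, hκ⟩
  have hI : I * I = 1 := by ext h; exact hι h
  have hJ : J * J = 1 := by ext h; exact hκ h
  have hI' : I⁻¹ = I := inv_eq_of_mul_eq_one_left hI
  have hJ' : J⁻¹ = J := inv_eq_of_mul_eq_one_left hJ
  let ρ : Equiv.Perm H := J * I
  have hρ : I * ρ * I⁻¹ = ρ⁻¹ := by
    show I * (J * I) * I⁻¹ = (J * I)⁻¹
    rw [mul_inv_rev, hI', hJ', mul_assoc, mul_assoc, hI, mul_one]
  have hconj : ∀ i : ℤ, I * ρ ^ i = ρ ^ (-i) * I := by
    intro i
    have h1 : I * ρ ^ i * I⁻¹ = ρ ^ (-i) := by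
      rw [← conj_zpow, hρ, inv_zpow, zpow_neg]
    rw [← h1]
    simp
  have hJρ : J = ρ * I := by
    show J = J * I * I
    rw [mul_assoc, hI, mul_one]
  have key : ∀ h, ¬ Equiv.Perm.SameCycle ρ h (ι h) := by
    rintro h ⟨i, hi⟩
    rcases Int.even_or_odd' i with ⟨j, rfl | rfl⟩
    · apply hι' ((ρ ^ j) h)
      show (I * ρ ^ j) h = (ρ ^ j) h
      rw [hconj]
      show (ρ ^ (-j)) (ι h) = _
      rw [← hi, ← Equiv.Perm.mul_apply, ← zpow_add]
      congr 2
      ring
    · apply hκ' ((ρ ^ (j + 1)) h)
      show (J * ρ ^ (j + 1)) h = _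
      rw [hJρ, mul_assoc, hconj]
      show (ρ * ρ ^ (-(j + 1))) (ι h) = _
      rw [← hi, ← Equiv.Perm.mul_apply, ← zpow_one_add, ← zpow_add]
      congr 2
      ring
  let Q := Quotient (Equiv.Perm.SameCycle.setoid ρ)
  obtain ⟨n, ⟨f⟩⟩ := Finite.exists_equiv_fin Q
  let q : H → Fin n := fun h => f (Quotient.mk _ h)
  have hq : ∀ g h, q g = q h ↔ Equiv.Perm.SameCycle ρ g h := by
    intro g h
    show f _ = f _ ↔ _
    rw [f.injective.eq_iff]
    exact Quotient.eq
  have hne : ∀ h, q h ≠ q (ι h) := fun h => by
    rw [Ne, hq]; exact key h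
  refine ⟨fun h => decide (q h < q (ι h)), ?_, ?_⟩
  · intro h
    simp only [hι]
    rcases lt_trichotomy (q h) (q (ι h)) with h1 | h1 | h1
    · simp [h1, not_lt.2 h1.le]
    · exact absurd h1 (hne h)
    · simp [h1, not_lt.2 h1.le]
  · intro h
    -- κ h = ρ (ι h)
    have h1 : q (κ h) = q (ι h) := by
      rw [hq]
      refine ⟨-1, ?_⟩
      have : κ h = ρ (ι h) := by
        show J h = (ρ * I) h
        rw [← hJρ]
      rw [this]
      simp
    have h2 : q (ι (κ h)) = q h := by
      rw [hq]
      refine ⟨1, ?_⟩
      show (ρ ^ (1 : ℤ)) (ι (κ h)) = h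
      rw [zpow_one]
      show κ (ι (ι (κ h))) = h
      rw [hι, hκ]
    simp only [h1, h2]
    rcases lt_trichotomy (q h) (q (ι h)) with h3 | h3 | h3
    · simp [h3, not_lt.2 h3.le]
    · exact absurd h3 (hne h)
    · simp [h3, not_lt.2 h3.le]

/-- functions constant along a relation -/
theorem card_const {E C : Type} [Finite E] [Finite C] (r : E → E → Prop) :
    Nat.card {x : E → C // ∀ e e', r e e' → x e = x e'} = (Nat.card C) ^ (Nat.card (Quot r)) := by
  rw [← Nat.card_fun]
  exact Nat.card_congr
    { toFun := fun x => Quot.lift x.1 x.2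
      invFun := fun f => ⟨fun e => f (Quot.mk r e), fun e e' h => by
        show f (Quot.mk r e) = f (Quot.mk r e')
        rw [Quot.sound h]⟩
      left_inv := fun x => rfl
      right_inv := fun f => funext fun q => by
        induction q using Quot.ind
        rfl }

end Pool.Agent.Y342.LE
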