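import Pool.Agent.Y342.LE.Eik

/-!
# The graph polynomial of the complement of a cycle
-/

set_option autoImplicit false

namespace Pool.Agent.Y342.LE

open Finset

section ring

variable {S : Type} [CommRing S]

/-- the Vandermonde product -/
def Vn {n : ℕ} (y : Fin n → S) : S := ∏ i, ∏ j, if i < j then y j - y i else 1

/-- neighbours on the cycle `0, …, n - 1` (for `i < j`) -/
def cadj {n : ℕ} (i j : Fin n) : Prop := (j : ℕ) = i + 1 ∨ ((i : ℕ) = 0 ∧ (j : ℕ) + 1 = n)

instance {n : ℕ} (i j : Fin n) : Decidable (cadj i j) := by unfold cadj; infer_instance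

/-- the product over the complement of the cycle -/
def Pc {n : ℕ} (y : Fin n → S) : S := ∏ i, ∏ j, if i < j ∧ ¬ cadj i j then y j - y i else 1

/-- the product over the cycle -/
def cyc {n : ℕ} (y : Fin n → S) : S := ∏ i, ∏ j, if i < j ∧ cadj i j then y j - y i else 1

theorem Vn_eq_det {n : ℕ} (y : Fin n → S) : Vn y = (Matrix.vandermonde y).det := by
  rw [Matrix.det_vandermonde, Vn]
  refine Finset.prod_congr rfl fun i _ => ?_
  rw [Finset.prod_ite, Finset.prod_const_one, mul_one]
  refine Finset.prod_congr ?_ fun _ _ => rfl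
  ext j
  simp

theorem Vn_perm {n : ℕ} (y : Fin n → S) (π : Equiv.Perm (Fin n)) :
    Vn (fun i => y (π i)) = ((Equiv.Perm.sign π : ℤ) : S) * Vn y := by
  rw [Vn_eq_det, Vn_eq_det, ← Matrix.det_permute]
  rfl

theorem Pc_mul_cyc {n : ℕ} (y : Fin n → S) : Pc y * cyc y = Vn y := by
  unfold Pc cyc Vn
  rw [← Finset.prod_mul_distrib]
  refine Finset.prod_congr rfl fun i _ => ?_
  rw [← Finset.prod_mul_distrib]
  refine Finset.prod_congr rfl fun j _ => ?_
  by_cases h1 : i < j <;> by_cases h2 : cadj i j <;> simp [h1, h2]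

/-- the inner vertices -/
def mid {k : ℕ} (i : Fin k) : Fin (k + 2) := i.castSucc.succ

theorem Vn_split {k : ℕ} (y : Fin (k + 2) → S) :
    Vn y = (y (Fin.last _) - y 0) * (∏ i, ((y (mid i) - y 0) * (y (Fin.last _) - y (mid i)))) *
      Vn (fun i => y (mid i)) := by
  unfold Vn
  rw [Fin.prod_univ_succ, Fin.prod_univ_succ, Fin.prod_univ_castSucc, Fin.prod_univ_castSucc]
  simp only [lt_self_iff_false, if_false, Fin.succ_pos, if_true, one_mul,
    Fin.succ_last]
  have h1 : ∀ i : Fin k, (∏ j : Fin (k + 2), if i.castSucc.succ < j then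
      y j - y i.castSucc.succ else 1) =
      (y (Fin.last _) - y (mid i)) * ∏ j : Fin k, if i < j then y (mid j) - y (mid i) else 1 := by
    intro i
    rw [Fin.prod_univ_succ, Fin.prod_univ_castSucc]
    simp only [Fin.not_lt_zero, if_false, one_mul, Fin.succ_last, mid]
    have h2 : i.castSucc.succ < Fin.last (k + 1) := by
      rw [Fin.lt_def]
      simp
    rw [if_pos h2, mul_comm]
    congr 1
    refine Finset.prod_congr rfl fun j _ => ?_
    by_cases h : i < j
    · rw [if_pos h, if_pos (by rw [Fin.lt_def] at h ⊢; simpa using h)]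
    · rw [if_neg h, if_neg (by rw [Fin.lt_def] at h ⊢; simpa using h)]
  rw [Finset.prod_congr rfl fun i _ => h1 i, Finset.prod_mul_distrib]
  have h3 : (∏ j : Fin (k + 2), if Fin.last (k + 1) < j then y j - y (Fin.last (k + 1)) else 1) = 1 := by
    refine Finset.prod_eq_one fun j _ => if_neg ?_
    exact not_lt.2 (Fin.le_last j)
  rw [h3, mul_one, Finset.prod_mul_distrib, if_pos (show (0 : Fin (k + 2)) < Fin.last k.succ from
    Fin.last_pos)]
  simp only [mid, Nat.succ_eq_add_one]
  ring

theorem cyc_eq {k : ℕ} (hk : k ≠ 0) (y : Fin (k + 2) → S) :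
    cyc y = (y (Fin.last _) - y 0) * ∏ i : Fin (k + 1), (y i.succ - y i.castSucc) := by
  unfold cyc
  have hopt := Fintype.prod_option (fun o : Option (Fin (k + 1)) => match o with
      | none => y (Fin.last _) - y 0
      | some i => y i.succ - y i.castSucc)
  simp only at hopt
  rw [← Fintype.prod_prod_type' (fun i j : Fin (k + 2) => if i < j ∧ cadj i j then y j - y i else 1),
    ← hopt, Finset.prod_ite, Finset.prod_const_one, mul_one]
  symm
  refine Finset.prod_bij (fun (o : Option (Fin (k + 1))) _ => (match o with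
      | none => ((0, Fin.last _) : Fin (k + 2) × Fin (k + 2))
      | some i => (i.castSucc, i.succ))) ?_ ?_ ?_ ?_
  · rintro (_ | i) _
    · rw [Finset.mem_filter]
      refine ⟨Finset.mem_univ _, ?_, ?_⟩
      · exact Fin.last_pos
      · right
        simp
    · rw [Finset.mem_filter]
      refine ⟨Finset.mem_univ _, ?_, ?_⟩
      · exact Fin.castSucc_lt_succ
      · left
        simp
  · rintro (_ | i) _ (_ | j) _ h
    · rfl
    · exfalso
      simp only [Prod.mk.injEq, Fin.ext_iff, Fin.val_zero, Fin.val_last, Fin.val_castSucc,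
        Fin.val_succ] at h
      omega
    · exfalso
      simp only [Prod.mk.injEq, Fin.ext_iff, Fin.val_zero, Fin.val_last, Fin.val_castSucc,
        Fin.val_succ] at h
      omega
    · simp only [Prod.mk.injEq] at h
      rw [Fin.succ_injective _ h.2]
  · rintro ⟨i, j⟩ h
    rw [Finset.mem_filter] at h
    obtain ⟨-, h1, h2⟩ := h
    rcases h2 with h2 | ⟨h2, h3⟩
    · refine ⟨some ⟨i, ?_⟩, Finset.mem_univ _, ?_⟩
      · have := j.isLt
        simp only at h2
        omega
      · simp only at h2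
        refine Prod.ext (Fin.ext rfl) (Fin.ext ?_)
        simp [h2]
    · refine ⟨none, Finset.mem_univ _, ?_⟩
      simp only at h2 h3
      refine Prod.ext (Fin.ext ?_) (Fin.ext ?_)
      · simp [h2]
      · simp
        omega
  · rintro (_ | i) _ <;> rfl

/-- the extension of a permutation of the inner vertices -/
def midEquiv (k : ℕ) : Fin k ≃ {j : Fin (k + 2) // j ≠ 0 ∧ j ≠ Fin.last _} where
  toFun i := ⟨mid i, by
    constructor
    · exact Fin.succ_ne_zero _
    · intro h
      have := congrArg Fin.val h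
      simp [mid] at this
      have := i.isLt
      omega⟩
  invFun j := ⟨(j.1 : ℕ) - 1, by
    have h1 : (j.1 : ℕ) ≠ 0 := fun h => j.2.1 (Fin.ext (by simpa using h))
    have h2 : (j.1 : ℕ) ≠ k + 1 := fun h => j.2.2 (Fin.ext (by simpa using h))
    have := j.1.isLt
    omega⟩
  left_inv i := by simp [mid]
  right_inv j := by
    refine Subtype.ext (Fin.ext ?_)
    have h1 : (j.1 : ℕ) ≠ 0 := fun h => j.2.1 (Fin.ext (by simpa using h))
    simp [mid]
    omega

/-- the extension of a permutation of the inner vertices -/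
def pext {k : ℕ} (σ : Equiv.Perm (Fin k)) : Equiv.Perm (Fin (k + 2)) :=
  σ.extendDomain (midEquiv k)

theorem sign_pext {k : ℕ} (σ : Equiv.Perm (Fin k)) : Equiv.Perm.sign (pext σ) = Equiv.Perm.sign σ :=
  Equiv.Perm.sign_extendDomain _ _

theorem pext_mid {k : ℕ} (σ : Equiv.Perm (Fin k)) (i : Fin k) : pext σ (mid i) = mid (σ i) :=
  Equiv.Perm.extendDomain_apply_image σ (midEquiv k) i

theorem pext_zero {k : ℕ} (σ : Equiv.Perm (Fin k)) : pext σ 0 = 0 :=
  Equiv.Perm.extendDomain_apply_not_subtype _ _ (fun h => h.1 rfl)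

theorem pext_last {k : ℕ} (σ : Equiv.Perm (Fin k)) : pext σ (Fin.last _) = Fin.last _ :=
  Equiv.Perm.extendDomain_apply_not_subtype _ _ (fun h => h.2 rfl)

end ring

theorem ch_eq {K : Type} [Field K] : ∀ (k : ℕ) (z : Fin (k + 2) → K),
    ch (z (Fin.last _)) k (z 0) (fun i => z (mid i)) =
      ∏ i : Fin (k + 1), (z i.succ - z i.castSucc)⁻¹ := by
  intro k
  induction k with
  | zero =>
    intro z
    simp [ch]
  | succ k ih =>
    intro z
    rw [Fin.prod_univ_succ]
    have h := ih (fun j => z j.succ)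
    simp only [ch]
    congr 1

theorem cycle_sum_field {K : Type} [Field K] {k : ℕ} (hk : k ≠ 0) (y : Fin (k + 2) → K)
    (hy : Function.Injective y) :
    ∑ σ : Equiv.Perm (Fin k), ((Equiv.Perm.sign σ : ℤ) : K) * Pc (fun i => y (pext σ i)) =
      (y (Fin.last _) - y 0) ^ (k - 1) * Vn (fun i => y (mid i)) := by
  have hmid : Function.Injective (fun i : Fin k => y (mid i)) := by
    intro a b h
    have h1 := hy h
    exact Fin.castSucc_injective _ (Fin.succ_injective _ h1)
  have h0 : ∀ i : Fin k, y (mid i) ≠ y 0 := fun i h => Fin.succ_ne_zero _ (hy h)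
  have hl : ∀ i : Fin k, y (mid i) ≠ y (Fin.last _) := fun i h =>
    ((midEquiv k) i).2.2 (hy h)
  have h0l : y 0 ≠ y (Fin.last _) := fun h => absurd (hy h) (Fin.last_pos).ne
  have h1 : ∀ σ : Equiv.Perm (Fin k), ((Equiv.Perm.sign σ : ℤ) : K) * Pc (fun i => y (pext σ i)) =
      Vn y * (y (Fin.last _) - y 0)⁻¹ *
        ch (y (Fin.last _)) k (y 0) (fun i => y (mid (σ i))) := by
    intro σ
    have h2 := ch_eq k (fun i => y (pext σ i))
    simp only [pext_last, pext_zero, pext_mid] at h2
    rw [h2]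
    have h3 := Pc_mul_cyc (fun i => y (pext σ i))
    rw [Vn_perm y (pext σ), sign_pext, cyc_eq hk, pext_last, pext_zero] at h3
    have h4 : y (Fin.last (k + 1)) - y 0 ≠ 0 := sub_ne_zero.2 h0l.symm
    have h5 : ∏ i : Fin (k + 1), (y (pext σ i.succ) - y (pext σ i.castSucc)) ≠ 0 := by
      rw [Finset.prod_ne_zero_iff]
      intro i _
      refine sub_ne_zero.2 fun h => ?_
      have := (pext σ).injective (hy h)
      exact absurd this (Fin.castSucc_lt_succ).ne'
    have h6 : ((Equiv.Perm.sign σ : ℤ) : K) * ((Equiv.Perm.sign σ : ℤ) : K) = 1 := by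
      rcases Int.units_eq_one_or (Equiv.Perm.sign σ) with h | h <;> rw [h] <;> simp
    rw [Finset.prod_inv_distrib]
    field_simp
    linear_combination ((Equiv.Perm.sign σ : ℤ) : K) * h3 + Vn y * h6
  rw [Finset.sum_congr rfl fun σ _ => h1 σ, ← Finset.mul_sum, eik (y (Fin.last _)) k (y 0)
    (fun i => y (mid i)) hmid h0 hl h0l, Vn_split y]
  have h4 : y (Fin.last (k + 1)) - y 0 ≠ 0 := sub_ne_zero.2 h0l.symm
  have h7 : (∏ i, ((y (mid i) - y 0) * (y (Fin.last (k + 1)) - y (mid i)))) ≠ 0 := by
    rw [Finset.prod_ne_zero_iff]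
    intro i _
    exact mul_ne_zero (sub_ne_zero.2 (h0 i)) (sub_ne_zero.2 (hl i).symm)
  rw [Finset.prod_inv_distrib]
  obtain ⟨l, rfl⟩ := Nat.exists_eq_succ_of_ne_zero hk
  simp only [Nat.succ_eq_add_one, Nat.add_sub_cancel]
  field_simp
  ring

theorem cycle_sum {S : Type} [CommRing S] [IsDomain S] {k : ℕ} (hk : k ≠ 0) (y : Fin (k + 2) → S)
    (hy : Function.Injective y) :
    ∑ σ : Equiv.Perm (Fin k), ((Equiv.Perm.sign σ : ℤ) : S) * Pc (fun i => y (pext σ i)) =
      (y (Fin.last _) - y 0) ^ (k - 1) * Vn (fun i => y (mid i)) := by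
  have hinj := IsFractionRing.injective S (FractionRing S)
  apply hinj
  have h := cycle_sum_field (K := FractionRing S) hk (fun i => algebraMap S (FractionRing S) (y i))
    (fun a b h => hy (hinj h))
  have hP : ∀ (z : Fin (k + 2) → S), algebraMap S (FractionRing S) (Pc z) =
      Pc (fun i => algebraMap S (FractionRing S) (z i)) := by
    intro z
    unfold Pc
    rw [map_prod]
    refine Finset.prod_congr rfl fun i _ => ?_
    rw [map_prod]
    refine Finset.prod_congr rfl fun j _ => ?_
    split_ifs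
    · rw [map_sub]
    · rw [map_one]
  have hV : ∀ (z : Fin k → S), algebraMap S (FractionRing S) (Vn z) =
      Vn (fun i => algebraMap S (FractionRing S) (z i)) := by
    intro z
    unfold Vn
    rw [map_prod]
    refine Finset.prod_congr rfl fun i _ => ?_
    rw [map_prod]
    refine Finset.prod_congr rfl fun j _ => ?_
    split_ifs
    · rw [map_sub]
    · rw [map_one]
  rw [map_sum, map_mul, map_pow, map_sub, hV, ← h]
  refine Finset.sum_congr rfl fun σ _ => ?_
  rw [map_mul, hP, map_intCast]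

end Pool.Agent.Y342.LE
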