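import Pool.Agent.Y342.LE.KP

/-!
# The list edge colouring conjecture for the complete graph on `p - 1` vertices
-/

set_option autoImplicit false
set_option linter.unusedSectionVars false

namespace Pool.Agent.Y342.LE

open Finset Pool.Agent.W426.LE Nat

/-- the symmetric numbering of `Fin m × Bool` -/
theorem exists_nu (m : ℕ) : ∃ ν : Fin m × Bool ≃ Fin (2 * m),
    ∀ a, ν (a, true) = Fin.rev (ν (a, false)) := by
  let f : Fin m × Bool → Fin (2 * m) := fun v =>
    if v.2 = true then Fin.rev ⟨v.1, by have := v.1.isLt; omega⟩ else ⟨v.1, by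
      have := v.1.isLt; omega⟩
  have hf : Function.Injective f := by
    rintro ⟨⟨a, ha⟩, b⟩ ⟨⟨a', ha'⟩, b'⟩ h
    cases b <;> cases b' <;> simp [f, Fin.ext_iff, Fin.val_rev] at h ⊢ <;> omega
  have hb : Function.Bijective f := (Fintype.bijective_iff_injective_and_card f).2 ⟨hf, by
    simp [mul_comm]⟩
  refine ⟨Equiv.ofBijective f hb, fun a => ?_⟩
  show f (a, true) = Fin.rev (f (a, false))
  simp [f]

/-- the number of permutations commuting with the reversal -/
theorem card_valid_dvd (n : ℕ) :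
    Nat.card {σ : Equiv.Perm (Fin n) // ∀ i, σ (Fin.rev i) = Fin.rev (σ i)} ∣ n ! := by
  let H : Subgroup (Equiv.Perm (Fin n)) :=
    { carrier := {σ | ∀ i, σ (Fin.rev i) = Fin.rev (σ i)}
      mul_mem' := by
        intro σ τ hσ hτ i
        rw [Equiv.Perm.mul_apply, Equiv.Perm.mul_apply, hτ, hσ]
      one_mem' := fun i => rfl
      inv_mem' := by
        intro σ hσ i
        rw [Equiv.Perm.inv_eq_iff_eq, hσ, permApplyInv] }
  have h1 := Subgroup.card_subgroup_dvd_card H
  rw [Nat.card_eq_fintype_card (α := Equiv.Perm (Fin n)), Fintype.card_perm, Fintype.card_fin] at h1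
  exact h1

section

variable {A D : Type} [Fintype A] [Fintype D] [DecidableEq A] [DecidableEq D]
variable {n : ℕ} (ν : A × Bool ≃ Fin n) (hν : ∀ a, ν (a, true) = Fin.rev (ν (a, false)))
variable (dv : ∀ v : A × Bool, {w : A × Bool // w ≠ v} ≃ D)

include hν in
/-- the signed number for the complete graph -/
theorem NN_K {R : Type} [CommRing R] (hn : Even n) (hD : Fintype.card D + 1 = n)
    (hR : ((n : ℕ) : R) = -1) {C : Type} [Fintype C] (ρ : D ≃ C) :
    ∃ ε : ℤ, (ε = 1 ∨ ε = -1) ∧ ((NN ρ (inc (thK ν dv)) : ℤ) : R) = (ε : R) *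
      (((∏ j : Fin n, (j : ℕ)!) *
        Nat.card {σ : Equiv.Perm (Fin n) // ∀ i, σ (Fin.rev i) = Fin.rev (σ i)} : ℕ) : R) := by
  classical
  have hC : ((Nat.card C : ℕ) : R) = -2 := by
    have h1 : Nat.card C + 1 = n := by
      rw [Nat.card_eq_fintype_card, ← Fintype.card_congr ρ]
      exact hD
    have h2 : ((Nat.card C + 1 : ℕ) : R) = ((n : ℕ) : R) := by rw [h1]
    push_cast at h2
    rw [hR] at h2
    have h3 : ((Nat.card C : ℕ) : R) = -1 - 1 := by rw [← h2]; ring
    rw [h3]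
    norm_num
  have hβ : Nonempty (EK ν ≃ A × D) := by
    have h1 := Fintype.card_congr (thK ν dv)
    rw [Fintype.card_prod, Fintype.card_prod (A × D), Fintype.card_bool] at h1
    exact ⟨Fintype.equivOfCardEq (by omega)⟩
  obtain ⟨β⟩ := hβ
  have h0 := graph_formula (thK ν dv) ρ hC (Fin n) (by
    rw [Nat.card_eq_fintype_card, Fintype.card_fin]
    exact hR) β
  -- the polynomial
  have h1 : ∀ e : EK ν, (MvPolynomial.C ((sv (vx (thK ν dv) (e, false)) : ℤ) : R) *
          MvPolynomial.X (vx (thK ν dv) (e, true)) -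
        MvPolynomial.C ((sv (vx (thK ν dv) (e, true)) : ℤ) : R) *
          MvPolynomial.X (vx (thK ν dv) (e, false))) =
      MvPolynomial.C ((sv e.1.1 * sv e.1.2 : ℤ) : R) *
        ((MvPolynomial.C ((sv e.1.2 : ℤ) : R) * MvPolynomial.X e.1.2) -
          (MvPolynomial.C ((sv e.1.1 : ℤ) : R) * MvPolynomial.X e.1.1)) := by
    intro e
    have h2 : vx (thK ν dv) (e, false) = e.1.1 := rfl
    have h3 : vx (thK ν dv) (e, true) = e.1.2 := rfl
    rw [h2, h3, mul_sub, ← mul_assoc, ← mul_assoc, ← MvPolynomial.C_mul, ← MvPolynomial.C_mul,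
      ← Int.cast_mul, ← Int.cast_mul]
    congr 4
    · rw [mul_assoc, sv_sq, mul_one]
    · rw [mul_comm (sv e.1.1) (sv e.1.2), mul_assoc, sv_sq, mul_one]
  rw [Finset.prod_congr rfl fun e _ => h1 e, Finset.prod_mul_distrib, ← map_prod,
    ← MvPolynomial.smul_eq_C_mul, map_smul,
    prod_EK ν (fun v => (MvPolynomial.C ((sv v : ℤ) : R) * MvPolynomial.X v :
      MvPolynomial (A × Bool) R)), LL_vand] at h0
  have hFF : ∀ σ : Equiv.Perm (Fin n), ((Equiv.Perm.sign σ : ℤ) : R) *
      ((∏ v : A × Bool, (sv v) ^ ((σ (ν v) : Fin n) : ℕ) : ℤ) : R) *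
        ((FF (Fintype.card D) (mS ν σ) : ℕ) : R) =
      if (∀ i, σ (Fin.rev i) = Fin.rev (σ i)) then
        ((∏ a : A, (-1 : ℤ) ^ ((ν (a, true) : Fin n) : ℕ) : ℤ) : R) *
          ((∏ j : Fin n, (j : ℕ)! : ℕ) : R) else 0 := by
    intro σ
    rw [FF_mS ν hν _ hD]
    by_cases h : ∀ i, σ (Fin.rev i) = Fin.rev (σ i)
    · rw [if_pos h, if_pos h, ← Int.cast_mul, sign_valid ν hν hn σ h]
    · rw [if_neg h, if_neg h, Nat.cast_zero, mul_zero]
  rw [Finset.sum_congr rfl fun σ _ => hFF σ, Finset.sum_ite, Finset.sum_const_zero, add_zero,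
    Finset.sum_const, nsmul_eq_mul, ← Fintype.card_subtype] at h0
  refine ⟨(-1) ^ (Fintype.card (EK ν)) *
    ((Equiv.Perm.sign ((β.prodCongr (Equiv.refl Bool)).trans (thK ν dv).symm) : ℤˣ) : ℤ) *
    ((∏ e : EK ν, (sv e.1.1 * sv e.1.2)) *
      ∏ a : A, (-1 : ℤ) ^ ((ν (a, true) : Fin n) : ℕ)), ?_, ?_⟩
  · have hone : ∀ x y : ℤ, (x = 1 ∨ x = -1) → (y = 1 ∨ y = -1) → (x * y = 1 ∨ x * y = -1) := by
      rintro x y (rfl | rfl) (rfl | rfl) <;> norm_num
    have hprod : ∀ (X : Type) [Fintype X] (f : X → ℤ), (∀ x, f x = 1 ∨ f x = -1) →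
        (∏ x, f x = 1 ∨ ∏ x, f x = -1) := by
      intro X _ f hf
      exact Finset.prod_induction f (fun z => z = 1 ∨ z = -1) (fun x y hx hy => hone x y hx hy)
        (Or.inl rfl) (fun x _ => hf x)
    have hpow : ∀ k : ℕ, (-1 : ℤ) ^ k = 1 ∨ (-1 : ℤ) ^ k = -1 := fun k => neg_one_pow_eq_or ℤ k
    have hsv : ∀ v : A × Bool, sv v = 1 ∨ sv v = -1 := by
      intro v
      unfold sv
      split_ifs
      · exact Or.inr rfl
      · exact Or.inl rfl
    refine hone _ _ (hone _ _ (hpow _) ?_) (hone _ _ (hprod _ _ fun e => hone _ _ (hsv _) (hsv _))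
      (hprod _ _ fun a => hpow _))
    rcases Int.units_eq_one_or
      (Equiv.Perm.sign ((β.prodCongr (Equiv.refl Bool)).trans (thK ν dv).symm)) with h | h
    · exact Or.inl (by rw [h]; rfl)
    · exact Or.inr (by rw [h]; rfl)
  · rw [h0, smul_eq_mul, Nat.card_eq_fintype_card]
    push_cast
    ring

/-- edge choosability of the complete graph on `A × Bool` -/
theorem K_EL (p : ℕ) (hp : p.Prime) (hp2 : p ≠ 2) (V : Type) [Fintype V]
    (hV : Fintype.card V = p - 1) : EL.EL (⊤ : SimpleGraph V) (p - 2) := by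
  classical
  have h2 := hp.two_le
  obtain ⟨m, hm⟩ := hp.odd_of_ne_two hp2
  obtain ⟨ν, hν⟩ := exists_nu m
  have hcard : Fintype.card (Fin m × Bool) = 2 * m := by
    simp [mul_comm]
  have hdv : ∀ v : Fin m × Bool, Nonempty ({w : Fin m × Bool // w ≠ v} ≃ Fin (p - 2)) := by
    intro v
    refine ⟨Fintype.equivOfCardEq ?_⟩
    rw [Fintype.card_fin, Fintype.card_subtype_compl, hcard, Fintype.card_subtype_eq]
    omega
  let dv : ∀ v : Fin m × Bool, {w : Fin m × Bool // w ≠ v} ≃ Fin (p - 2) := fun v => (hdv v).some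
  have hR : (((2 * m : ℕ) : ℕ) : ZMod p) = -1 := by
    have h3 : ((2 * m + 1 : ℕ) : ZMod p) = 0 := by
      rw [← hm]
      exact ZMod.natCast_self p
    push_cast at h3 ⊢
    exact eq_neg_of_add_eq_zero_left h3
  obtain ⟨ε, hε, hN⟩ := NN_K (R := ZMod p) ν hν dv (even_two_mul m) (by
    rw [Fintype.card_fin]; omega) hR (Equiv.refl (Fin (p - 2)))
  have hne : NN (Equiv.refl (Fin (p - 2))) (inc (thK ν dv)) ≠ 0 := by
    intro h0
    rw [h0, Int.cast_zero] at hN
    have : Fact p.Prime := ⟨hp⟩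
    have h3 : (((∏ j : Fin (2 * m), (j : ℕ)!) * Nat.card {σ : Equiv.Perm (Fin (2 * m)) //
        ∀ i, σ (Fin.rev i) = Fin.rev (σ i)} : ℕ) : ZMod p) = 0 := by
      rcases hε with rfl | rfl
      · rw [Int.cast_one, one_mul] at hN
        exact hN.symm
      · rw [Int.cast_neg, Int.cast_one, neg_one_mul, eq_comm, neg_eq_zero] at hN
        exact hN
    rw [ZMod.natCast_eq_zero_iff, hp.dvd_mul] at h3
    rcases h3 with h3 | h3
    · rw [Prime.dvd_finsetProd_iff hp.prime] at h3
      obtain ⟨j, _, hj⟩ := h3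
      rw [hp.dvd_factorial] at hj
      have := j.isLt
      omega
    · have h4 := h3.trans (card_valid_dvd (2 * m))
      rw [hp.dvd_factorial] at h4
      omega
  have hadj : ∀ e : EK ν, s(e.1.1, e.1.2) ∈ (⊤ : SimpleGraph (Fin m × Bool)).edgeSet := by
    intro e
    rw [SimpleGraph.mem_edgeSet, SimpleGraph.top_adj]
    intro h
    exact absurd e.2 (by rw [h]; exact lt_irrefl _)
  let ψ0 : EK ν → (⊤ : SimpleGraph (Fin m × Bool)).edgeSet := fun e => ⟨s(e.1.1, e.1.2), hadj e⟩
  have hψ : Function.Bijective ψ0 := by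
    constructor
    · rintro ⟨⟨u, v⟩, huv⟩ ⟨⟨u', v'⟩, huv'⟩ h
      have h1 : s(u, v) = s(u', v') := congrArg Subtype.val h
      rw [Sym2.eq_iff] at h1
      rcases h1 with ⟨rfl, rfl⟩ | ⟨rfl, rfl⟩
      · rfl
      · exact absurd (show ν u < ν v from huv) (not_lt.2 (le_of_lt (show ν v < ν u from huv')))
    · rintro ⟨e, he⟩
      induction e using Sym2.ind with
      | _ u v =>
        rw [SimpleGraph.mem_edgeSet, SimpleGraph.top_adj] at he
        rcases lt_trichotomy (ν u) (ν v) with h | h | h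
        · exact ⟨⟨(u, v), h⟩, rfl⟩
        · exact absurd (ν.injective h) he
        · exact ⟨⟨(v, u), h⟩, Subtype.ext Sym2.eq_swap⟩
  let ψ : EK ν ≃ (⊤ : SimpleGraph (Fin m × Bool)).edgeSet := Equiv.ofBijective ψ0 hψ
  have hψa : ∀ e : EK ν, (ψ e : Sym2 (Fin m × Bool)) = s(e.1.1, e.1.2) := fun e => rfl
  have h5 := EL.sGRE (Fin m × Bool) (EK ν) (Fin (p - 2)) (Fin (p - 2)) (Equiv.refl _)
    (inc (thK ν dv)) ⊤ ψ (by
      intro v i
      rw [hψa]
      rcases inc_thK ν dv v i with h | h <;> rw [h] <;> simp) (by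
      intro v e he
      rw [hψa, Sym2.mem_iff] at he
      obtain ⟨⟨u, w⟩, huw⟩ := e
      have huw' : ν u < ν w := huw
      rcases he with he | he
      · have he' : v = u := he
        subst he'
        have hne' : w ≠ v := by rintro rfl; exact lt_irrefl _ huw'
        refine ⟨dv v ⟨w, hne'⟩, Subtype.ext ?_⟩
        rcases inc_thK ν dv v (dv v ⟨w, hne'⟩) with h | h
        · rw [h, Equiv.symm_apply_apply]
        · exfalso
          have h6 := (inc (thK ν dv) v (dv v ⟨w, hne'⟩)).2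
          rw [h, Equiv.symm_apply_apply] at h6
          exact absurd huw' (not_lt.2 (le_of_lt h6))
      · have he' : v = w := he
        subst he'
        have hne' : u ≠ v := by rintro rfl; exact lt_irrefl _ huw'
        refine ⟨dv v ⟨u, hne'⟩, Subtype.ext ?_⟩
        rcases inc_thK ν dv v (dv v ⟨u, hne'⟩) with h | h
        · exfalso
          have h6 := (inc (thK ν dv) v (dv v ⟨u, hne'⟩)).2
          rw [h, Equiv.symm_apply_apply] at h6
          exact absurd huw' (not_lt.2 (le_of_lt h6))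
        · rw [h, Equiv.symm_apply_apply]) (by
      intro v i j hij
      have h6 : s((inc (thK ν dv) v i).1.1, (inc (thK ν dv) v i).1.2) =
          s((inc (thK ν dv) v j).1.1, (inc (thK ν dv) v j).1.2) := by rw [hij]
      have h7 : ∀ k, s((inc (thK ν dv) v k).1.1, (inc (thK ν dv) v k).1.2) =
          s(v, ((dv v).symm k).1) := by
        intro k
        rcases inc_thK ν dv v k with h | h
        · rw [h]
        · rw [h]
          exact Sym2.eq_swap
      rw [h7, h7, Sym2.congr_right] at h6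
      exact (dv v).symm.injective (Subtype.ext h6)) hne
  rw [Fintype.card_fin] at h5
  have e : V ≃ Fin m × Bool := Fintype.equivOfCardEq (by rw [hcard, hV]; omega)
  exact EL.mono _ _ e e.injective (by
      intro u v h
      rw [SimpleGraph.top_adj] at h ⊢
      exact fun h' => h (e.injective h')) _ h5

end

end Pool.Agent.Y342.LE
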