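import Pool.Agent.Y342.LE.Psi
import Pool.Agent.Y342.LE.Cyc
import Pool.Agent.Y342.LE.KPF

/-!
# The signed number of colourings of the complement of the cycle `C_{p+1}`
-/

set_option autoImplicit false
set_option linter.unusedSectionVars false

namespace Pool.Agent.Y342.LE

open Finset Pool.Agent.W426.LE Nat

section opt

variable {A : Type} [Fintype A] [DecidableEq A] {R : Type} [CommRing R]

/-- the inclusion of the vertices -/
def emb (v : A × Bool) : Option A × Bool := (some v.1, v.2)

theorem emb_inj : Function.Injective (emb : A × Bool → Option A × Bool) := by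
  rintro ⟨a, b⟩ ⟨a', b'⟩ h
  simp only [emb, Prod.mk.injEq, Option.some.injEq] at h
  exact Prod.ext h.1 h.2

theorem LL_mono (F : ((A × Bool) →₀ ℕ) → R) (m : (A × Bool) →₀ ℕ) (c : R) :
    LL F (MvPolynomial.monomial m c) = c * F m := by
  have h : (MvPolynomial.monomial m c : MvPolynomial (A × Bool) R) =
      c • MvPolynomial.monomial m 1 := by
    rw [MvPolynomial.smul_monomial, smul_eq_mul, mul_one]
  rw [h, map_smul, LL_monomial, smul_eq_mul]

theorem FF_opt (d i j : ℕ) (hij : i + j = d) (m : (A × Bool) →₀ ℕ) :
    FF d (Finsupp.mapDomain emb m + Finsupp.single (none, false) i +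
      Finsupp.single (none, true) j : (Option A × Bool) →₀ ℕ) = i ! * j ! * FF d m := by
  unfold FF
  rw [Fintype.prod_option]
  have h0 : ∀ b, Finsupp.mapDomain emb m ((none, b) : Option A × Bool) = 0 := by
    intro b
    refine Finsupp.mapDomain_of_notMem_range _ _ ?_
    rintro ⟨v, hv⟩
    simp [emb] at hv
  have h1 : ∀ v : A × Bool, Finsupp.mapDomain emb m ((some v.1, v.2) : Option A × Bool) = m v := by
    intro v
    exact Finsupp.mapDomain_apply emb_inj m v
  congr 1
  · simp only [Finsupp.add_apply, h0, zero_add]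
    rw [Finsupp.single_apply, Finsupp.single_apply, Finsupp.single_apply, Finsupp.single_apply]
    simp [hij]
  · refine Finset.prod_congr rfl fun a _ => ?_
    have h2 : ∀ b, (Finsupp.mapDomain emb m + Finsupp.single ((none, false) : Option A × Bool) i +
      Finsupp.single ((none, true) : Option A × Bool) j) (some a, b) = m (a, b) := by
      intro b
      rw [Finsupp.add_apply, Finsupp.add_apply, Finsupp.single_apply, Finsupp.single_apply]
      have := h1 (a, b)
      simp only at this
      rw [this]
      simp
    rw [h2, h2]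

theorem LL_opt (d : ℕ) (Q : MvPolynomial (A × Bool) R) :
    LL (fun m => ((FF d m : ℕ) : R)) (MvPolynomial.rename emb Q *
      (MvPolynomial.X (none, false) + MvPolynomial.X (none, true)) ^ d) =
    (((d + 1)! : ℕ) : R) * LL (fun m => ((FF d m : ℕ) : R)) Q := by
  induction Q using MvPolynomial.induction_on' with
  | monomial m c =>
    rw [LL_mono, MvPolynomial.rename_monomial, add_pow, Finset.mul_sum, map_sum]
    have h1 : ∀ i ∈ Finset.range (d + 1), LL (fun m => ((FF d m : ℕ) : R))
        (MvPolynomial.monomial (Finsupp.mapDomain emb m) c *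
          ((MvPolynomial.X ((none, false) : Option A × Bool)) ^ i *
            (MvPolynomial.X ((none, true) : Option A × Bool)) ^ (d - i) *
              ((d.choose i : ℕ) : MvPolynomial (Option A × Bool) R))) =
        ((d ! : ℕ) : R) * (c * ((FF d m : ℕ) : R)) := by
      intro i hi
      rw [Finset.mem_range] at hi
      have h2 : (MvPolynomial.monomial (Finsupp.mapDomain emb m) c *
          ((MvPolynomial.X ((none, false) : Option A × Bool)) ^ i *
            (MvPolynomial.X ((none, true) : Option A × Bool)) ^ (d - i) *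
              ((d.choose i : ℕ) : MvPolynomial (Option A × Bool) R))) =
          MvPolynomial.monomial (Finsupp.mapDomain emb m + Finsupp.single (none, false) i +
            Finsupp.single (none, true) (d - i)) (c * ((d.choose i : ℕ) : R)) := by
        rw [MvPolynomial.X_pow_eq_monomial, MvPolynomial.X_pow_eq_monomial,
          show ((d.choose i : ℕ) : MvPolynomial (Option A × Bool) R) =
            MvPolynomial.monomial 0 ((d.choose i : ℕ) : R) from by
              rw [← MvPolynomial.C_apply, map_natCast],
          MvPolynomial.monomial_mul, MvPolynomial.monomial_mul, MvPolynomial.monomial_mul]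
        rw [add_zero, ← add_assoc, one_mul, one_mul]
      rw [h2, LL_mono, FF_opt d i (d - i) (by omega) m]
      have h3 : d.choose i * i ! * (d - i)! = d ! := Nat.choose_mul_factorial_mul_factorial (by omega)
      rw [← h3]
      push_cast
      ring
    rw [Finset.sum_congr rfl h1, Finset.sum_const, Finset.card_range, nsmul_eq_mul,
      Nat.factorial_succ]
    push_cast
    ring
  | add P Q hP hQ =>
    rw [map_add, add_mul, map_add, hP, hQ, map_add]
    ring

theorem phi_emb (Q : MvPolynomial (A × Bool) R) :
    phi (Option A) R (MvPolynomial.rename emb Q) = MvPolynomial.rename emb (phi A R Q) := by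
  have h : (phi (Option A) R).comp (MvPolynomial.rename emb) =
      (MvPolynomial.rename emb).comp (phi A R) := by
    refine MvPolynomial.algHom_ext fun v => ?_
    rw [AlgHom.comp_apply, AlgHom.comp_apply, MvPolynomial.rename_X, phi_X, phi_X, map_mul,
      MvPolynomial.rename_X, MvPolynomial.rename_C]
    rfl
  exact DFunLike.congr_fun h Q

theorem Psi_opt (d : ℕ) (Q : MvPolynomial (A × Bool) R) :
    Psi (Option A) R d ((MvPolynomial.X (none, true) - MvPolynomial.X (none, false)) ^ d *
      MvPolynomial.rename emb Q) = (-1) ^ d * (((d + 1)! : ℕ) : R) * Psi A R d Q := by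
  have h1 : Psi (Option A) R d ((MvPolynomial.X (none, true) - MvPolynomial.X (none, false)) ^ d *
      MvPolynomial.rename emb Q) = LL (fun m => ((FF d m : ℕ) : R)) (phi (Option A) R
        ((MvPolynomial.X (none, true) - MvPolynomial.X (none, false)) ^ d *
      MvPolynomial.rename emb Q)) := rfl
  have h2 : phi (Option A) R ((MvPolynomial.X (none, true) - MvPolynomial.X (none, false)) ^ d *
      MvPolynomial.rename emb Q) = ((-1 : R) ^ d) • (MvPolynomial.rename emb (phi A R Q) *
        (MvPolynomial.X (none, false) + MvPolynomial.X (none, true)) ^ d) := by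
    rw [map_mul, phi_emb, map_pow, map_sub, phi_X, phi_X, MvPolynomial.smul_eq_C_mul]
    have h3 : (MvPolynomial.C ((sv ((none, true) : Option A × Bool) : ℤ) : R) *
        MvPolynomial.X (none, true) - MvPolynomial.C ((sv ((none, false) : Option A × Bool) : ℤ) : R) *
          MvPolynomial.X (none, false) : MvPolynomial (Option A × Bool) R) =
        MvPolynomial.C (-1) * (MvPolynomial.X (none, false) + MvPolynomial.X (none, true)) := by
      simp [sv]
      ring
    rw [h3, mul_pow, ← map_pow]
    ring
  rw [h1, h2, map_smul, LL_opt, smul_eq_mul]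
  have h4 : Psi A R d Q = LL (fun m => ((FF d m : ℕ) : R)) (phi A R Q) := rfl
  rw [h4]
  ring

end opt

section nonzero

variable (p : ℕ) (hp : p.Prime) (hp2 : p ≠ 2) (m : ℕ) (hm : p = 2 * m + 1)
variable (ν : Fin m × Bool ≃ Fin (2 * m)) (hν : ∀ a, ν (a, true) = Fin.rev (ν (a, false)))

include hm in
theorem cast_two_m : ((2 * m : ℕ) : ZMod p) = -1 := by
  have h3 : ((2 * m + 1 : ℕ) : ZMod p) = 0 := by
    rw [← hm]
    exact ZMod.natCast_self p
  push_cast at h3 ⊢
  exact eq_neg_of_add_eq_zero_left h3

include hm in
theorem cast_fin : ((Nat.card (Fin (p - 2)) : ℕ) : ZMod p) = -2 := by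
  have h2 := cast_two_m p m hm
  rw [Nat.card_eq_fintype_card, Fintype.card_fin]
  by_cases hm0 : m = 0
  · subst hm0
    have : p = 1 := by omega
    subst this
    exact Subsingleton.elim _ _
  · have h1 : 2 * m = (p - 2) + 1 := by omega
    rw [h1] at h2
    push_cast at h2
    have h3 : ((p - 2 : ℕ) : ZMod p) = -1 - 1 := by rw [← h2]; ring
    rw [h3]
    norm_num

include hp hp2 hm hν in
/-- the value at the graph polynomial of the complete graph -/
theorem Psi_K_ne : Psi (Fin m) (ZMod p) (p - 2)
    (Vn (fun i => (MvPolynomial.X (ν.symm i) : MvPolynomial (Fin m × Bool) (ZMod p)))) ≠ 0 := by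
  classical
  have h2 := hp.two_le
  have hcard : Fintype.card (Fin m × Bool) = 2 * m := by
    simp [mul_comm]
  have hdv : ∀ v : Fin m × Bool, Nonempty ({w : Fin m × Bool // w ≠ v} ≃ Fin (p - 2)) := by
    intro v
    refine ⟨Fintype.equivOfCardEq ?_⟩
    rw [Fintype.card_fin, Fintype.card_subtype_compl, hcard, Fintype.card_subtype_eq]
    omega
  let dv : ∀ v : Fin m × Bool, {w : Fin m × Bool // w ≠ v} ≃ Fin (p - 2) := fun v => (hdv v).some
  have hR := cast_two_m p m hm
  obtain ⟨ε, hε, hN⟩ := NN_K (R := ZMod p) ν hν dv (even_two_mul m) (by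
    rw [Fintype.card_fin]; omega) hR (Equiv.refl (Fin (p - 2)))
  have : Fact p.Prime := ⟨hp⟩
  have h3 : (((∏ j : Fin (2 * m), (j : ℕ)!) * Nat.card {σ : Equiv.Perm (Fin (2 * m)) //
      ∀ i, σ (Fin.rev i) = Fin.rev (σ i)} : ℕ) : ZMod p) ≠ 0 := by
    intro h3
    rw [ZMod.natCast_eq_zero_iff, hp.dvd_mul] at h3
    rcases h3 with h3 | h3
    · rw [Prime.dvd_finsetProd_iff hp.prime] at h3
      obtain ⟨j, _, hj⟩ := h3
      rw [hp.dvd_factorial] at hj
      have := j.isLt
      omega
    · have h4 := h3.trans (card_valid_dvd (2 * m))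
      rw [hp.dvd_factorial] at h4
      omega
  have hne : ((NN (Equiv.refl (Fin (p - 2))) (inc (thK ν dv)) : ℤ) : ZMod p) ≠ 0 := by
    rw [hN]
    refine mul_ne_zero ?_ h3
    rcases hε with rfl | rfl
    · simp
    · simp
  have hβ : Nonempty (EK ν ≃ Fin m × Fin (p - 2)) := by
    have h1 := Fintype.card_congr (thK ν dv)
    rw [Fintype.card_prod, Fintype.card_prod (Fin m × Fin (p - 2)), Fintype.card_bool] at h1
    exact ⟨Fintype.equivOfCardEq (by omega)⟩
  obtain ⟨β⟩ := hβ
  have hK : ((Nat.card (Fin (2 * m)) : ℕ) : ZMod p) = -1 := by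
    rw [Nat.card_eq_fintype_card, Fintype.card_fin]
    exact hR
  have hf := formula_Psi (thK ν dv) (Equiv.refl (Fin (p - 2))) (cast_fin p m hm)
    (Fin (2 * m)) hK β
  intro h0
  apply hne
  rw [hf, Fintype.card_fin]
  have h5 : gp (ZMod p) (vx (thK ν dv)) =
      Vn (fun i => (MvPolynomial.X (ν.symm i) : MvPolynomial (Fin m × Bool) (ZMod p))) := by
    rw [Vn_eq_det, ← prod_EK ν (fun v => (MvPolynomial.X v : MvPolynomial (Fin m × Bool) (ZMod p)))]
    rfl
  rw [h5, h0, mul_zero]

end nonzero

end Pool.Agent.Y342.LE
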