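import Pool.Agent.Y342.LE.CC
import Pool.Agent.Y342.LE.ATF

/-!
# The signed number of colourings of the complement of the cycle `C_{p+1}`, final part
-/

set_option autoImplicit false
set_option linter.unusedSectionVars false

namespace Pool.Agent.Y342.LE

open Finset Pool.Agent.W426.LE Nat

/-- the numbering of the vertices -/
theorem exists_N (m : ℕ) (ν : Fin m × Bool ≃ Fin (2 * m)) :
    ∃ N : Option (Fin m) × Bool ≃ Fin (2 * m + 2), N (none, false) = 0 ∧
      N (none, true) = Fin.last _ ∧ ∀ v : Fin m × Bool, N (emb v) = mid (ν v) := by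
  let f : Option (Fin m) × Bool → Fin (2 * m + 2) := fun z => match z with
    | (none, false) => 0
    | (none, true) => Fin.last _
    | (some a, b) => mid (ν (a, b))
  have hm0 : ∀ i : Fin (2 * m), mid i ≠ 0 := fun i => ((midEquiv (2 * m)) i).2.1
  have hml : ∀ i : Fin (2 * m), mid i ≠ Fin.last _ := fun i => ((midEquiv (2 * m)) i).2.2
  have hmi : Function.Injective (mid : Fin (2 * m) → Fin (2 * m + 2)) := fun a b h =>
    (midEquiv (2 * m)).injective (Subtype.ext h)
  have h0l : (0 : Fin (2 * m + 2)) ≠ Fin.last _ := (Fin.last_pos).ne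
  have hf : Function.Injective f := by
    rintro ⟨_ | a, b⟩ ⟨_ | a', b'⟩ h
    · cases b <;> cases b'
      · rfl
      · exact absurd h h0l
      · exact absurd h h0l.symm
      · rfl
    · cases b
      · exact absurd h.symm (hm0 _)
      · exact absurd h.symm (hml _)
    · cases b'
      · exact absurd h (hm0 _)
      · exact absurd h (hml _)
    · have h1 := ν.injective (hmi h)
      simp only [Prod.mk.injEq] at h1
      rw [h1.1, h1.2]
  have hb : Function.Bijective f := (Fintype.bijective_iff_injective_and_card f).2 ⟨hf, by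
    rw [Fintype.card_prod, Fintype.card_option, Fintype.card_fin, Fintype.card_bool,
      Fintype.card_fin]
    ring⟩
  exact ⟨Equiv.ofBijective f hb, rfl, rfl, fun v => rfl⟩

section graph

variable {n : ℕ} (H : SimpleGraph (Fin n))

/-- the edges of `H` -/
abbrev EH : Type := {q : Fin n × Fin n // q.1 < q.2 ∧ H.Adj q.1 q.2}

/-- the vertex of a half-edge -/
def eH (h : EH H × Bool) : Fin n := if h.2 = true then h.1.1.2 else h.1.1.1

/-- the other vertex of a half-edge -/
def oH (h : EH H × Bool) : Fin n := if h.2 = true then h.1.1.1 else h.1.1.2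

theorem adj_eH (h : EH H × Bool) : H.Adj (eH H h) (oH H h) := by
  obtain ⟨⟨⟨u, v⟩, h1, h2⟩, b⟩ := h
  cases b
  · exact h2
  · exact h2.symm

theorem card_fibre (v : Fin n) : Nat.card {x : EH H × Bool // eH H x = v} =
    Nat.card {w // H.Adj v w} := by
  refine Nat.card_eq_of_bijective (fun x => (⟨oH H x.1, by
    have h := adj_eH H x.1
    rwa [x.2] at h⟩ : {w // H.Adj v w})) ?_
  constructor
  · rintro ⟨⟨⟨⟨u, w⟩, h1, h2⟩, b⟩, h3⟩ ⟨⟨⟨⟨u', w'⟩, h1', h2'⟩, b'⟩, h3'⟩ h4
    have h5 := congrArg Subtype.val h4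
    have h1a : u < w := h1
    have h1b : u' < w' := h1'
    cases b <;> cases b' <;>
      simp only [eH, oH, Bool.false_eq_true, if_false, if_true] at h3 h3' h5
    · subst h3 h3' h5
      rfl
    · subst h3 h3' h5
      exact absurd h1a (not_lt.2 h1b.le)
    · subst h3 h3' h5
      exact absurd h1a (not_lt.2 h1b.le)
    · subst h3 h3' h5
      rfl
  · rintro ⟨w, hw⟩
    rcases lt_trichotomy v w with h | h | h
    · exact ⟨⟨(⟨(v, w), h, hw⟩, false), rfl⟩, rfl⟩
    · exact absurd h hw.ne
    · exact ⟨⟨(⟨(w, v), h, hw.symm⟩, true), rfl⟩, rfl⟩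

end graph

theorem cycle_adj_iff {k : ℕ} (i j : Fin (k + 2)) (hij : i < j) :
    (SimpleGraph.cycleGraph (k + 2)).Adj i j ↔ cadj i j := by
  rw [SimpleGraph.cycleGraph_adj']
  have h1 : (i : ℕ) < j := hij
  have h2 := j.isLt
  have h3 : ((j - i : Fin (k + 2)) : ℕ) = j - i := Fin.sub_val_of_le hij.le
  have h4 : ((i - j : Fin (k + 2)) : ℕ) = k + 2 + i - j := by
    rw [Fin.coe_sub_iff_lt.2 hij]
  rw [h3, h4]
  unfold cadj
  omega

theorem card_nbr (m : ℕ) (hm : m ≠ 0) (v : Fin (2 * m + 2)) :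
    Nat.card {w // ((SimpleGraph.cycleGraph (2 * m + 2))ᶜ).Adj v w} = 2 * m - 1 := by
  classical
  obtain ⟨r, rfl⟩ := Nat.exists_eq_succ_of_ne_zero hm
  have h1 : Nat.card {w // ((SimpleGraph.cycleGraph (2 * (r + 1) + 2))ᶜ).Adj v w} =
      ((SimpleGraph.cycleGraph (2 * (r + 1) + 2))ᶜ).degree v := by
    rw [Nat.card_eq_fintype_card, ← SimpleGraph.card_neighborSet_eq_degree]
    rfl
  show Nat.card {w // ((SimpleGraph.cycleGraph (2 * (r + 1) + 2))ᶜ).Adj v w} = 2 * (r + 1) - 1
  rw [h1, SimpleGraph.degree_compl, Fintype.card_fin]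
  have h2 : (SimpleGraph.cycleGraph (2 * (r + 1) + 2)).degree v = 2 :=
    SimpleGraph.cycleGraph_degree_three_le (n := 2 * r + 1) (v := v)
  rw [h2]
  omega

theorem CC_ne (p : ℕ) (hp : p.Prime) (hp2 : p ≠ 2) (m : ℕ) (hm : p = 2 * m + 1) :
    ∃ (N : Option (Fin m) × Bool ≃ Fin (2 * m + 2))
      (θ : EH ((SimpleGraph.cycleGraph (2 * m + 2))ᶜ) × Bool ≃
        (Option (Fin m) × Fin (p - 2)) × Bool),
      (∀ x, vx θ x = N.symm (eH _ x)) ∧
      ((NN (Equiv.refl (Fin (p - 2))) (inc θ) : ℤ) : ZMod p) ≠ 0 := by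
  classical
  have h2 := hp.two_le
  have hm0 : m ≠ 0 := by rintro rfl; omega
  obtain ⟨ν, hν⟩ := exists_nu m
  obtain ⟨N, hN0, hN1, hN2⟩ := exists_N m ν
  let H := (SimpleGraph.cycleGraph (2 * m + 2))ᶜ
  obtain ⟨θ, hθ⟩ := exists_theta (D := Fin (p - 2)) (fun x : EH H × Bool => N.symm (eH H x)) (by
    intro v
    have h3 : Nat.card {x : EH H × Bool // N.symm (eH H x) = v} =
        Nat.card {x : EH H × Bool // eH H x = N v} :=
      Nat.card_congr (Equiv.subtypeEquivRight fun x => by rw [Equiv.symm_apply_eq])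
    rw [h3, card_fibre, card_nbr m hm0, Fintype.card_fin]
    omega)
  refine ⟨N, θ, hθ, fun h0 => ?_⟩
  have : Fact p.Prime := ⟨hp⟩
  have hβ : Nonempty (EH H ≃ Option (Fin m) × Fin (p - 2)) := by
    have h1 := Fintype.card_congr θ
    rw [Fintype.card_prod, Fintype.card_prod (Option (Fin m) × Fin (p - 2)),
      Fintype.card_bool] at h1
    exact ⟨Fintype.equivOfCardEq (by omega)⟩
  obtain ⟨β⟩ := hβ
  have hK : ((Nat.card (Fin (2 * m)) : ℕ) : ZMod p) = -1 := by
    rw [Nat.card_eq_fintype_card, Fintype.card_fin]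
    exact cast_two_m p m hm
  have hC := cast_fin p m hm
  -- the value of the functional vanishes
  have hPsi : Psi (Option (Fin m)) (ZMod p) (p - 2) (gp (ZMod p) (vx θ)) = 0 := by
    have hf := formula_Psi θ (Equiv.refl (Fin (p - 2))) hC (Fin (2 * m)) hK β
    rw [h0, Fintype.card_fin] at hf
    have h3 : (((cst (Option (Fin m)) (Fin (p - 2)) (EH H) : ℤ) : ZMod p) = 0 ∨
        ((Equiv.Perm.sign ((β.prodCongr (Equiv.refl Bool)).trans θ.symm) : ℤ) : ZMod p) = 0) ∨
        Psi (Option (Fin m)) (ZMod p) (p - 2) (gp (ZMod p) (vx θ)) = 0 := by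
      rcases mul_eq_zero.1 hf.symm with h | h
      · exact Or.inl (mul_eq_zero.1 h)
      · exact Or.inr h
    rcases h3 with (h3 | h3) | h3
    · exfalso
      have h4 : ∀ v : Option (Fin m) × Bool, ((sv v : ℤ) : ZMod p) ≠ 0 := by
        intro v
        unfold sv
        split_ifs <;> simp
      unfold cst at h3
      push_cast at h3
      rcases mul_eq_zero.1 h3 with h3 | h3
      · exact absurd h3 (pow_ne_zero _ (by simp))
      · exact absurd h3 (pow_ne_zero _ (Finset.prod_ne_zero_iff.2 fun v _ => h4 v))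
    · exfalso
      rcases Int.units_eq_one_or (Equiv.Perm.sign ((β.prodCongr (Equiv.refl Bool)).trans θ.symm))
        with h | h <;> rw [h] at h3 <;> simp at h3
    · exact h3
  let y : Fin (2 * m + 2) → MvPolynomial (Option (Fin m) × Bool) (ZMod p) := fun i =>
    MvPolynomial.X (N.symm i)
  have hy : Function.Injective y := fun a b h => N.symm.injective (MvPolynomial.X_injective h)
  have hgp : ∀ π : Equiv.Perm (Fin (2 * m + 2)), Pc (fun i => y (π i)) =
      gp (ZMod p) (fun h => ((N.trans π).trans N.symm) (vx θ h)) := by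
    intro π
    unfold Pc gp
    rw [← Fintype.prod_prod_type' (fun i j : Fin (2 * m + 2) => if i < j ∧ ¬ cadj i j then
      y (π j) - y (π i) else 1), Finset.prod_ite, Finset.prod_const_one, mul_one]
    symm
    refine Finset.prod_bij (fun (e : EH H) _ => e.1) ?_ ?_ ?_ ?_
    · intro e _
      rw [Finset.mem_filter]
      refine ⟨Finset.mem_univ _, e.2.1, fun h => ?_⟩
      have h3 := e.2.2
      rw [SimpleGraph.compl_adj] at h3
      exact h3.2 ((cycle_adj_iff _ _ e.2.1).2 h)
    · intro a _ b _ h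
      exact Subtype.ext h
    · intro q hq
      rw [Finset.mem_filter] at hq
      refine ⟨⟨q, hq.2.1, ?_⟩, Finset.mem_univ _, rfl⟩
      rw [SimpleGraph.compl_adj]
      exact ⟨hq.2.1.ne, fun h => hq.2.2 ((cycle_adj_iff _ _ hq.2.1).1 h)⟩
    · intro e _
      show MvPolynomial.X (N.symm (π (N (vx θ (e, true))))) -
        MvPolynomial.X (N.symm (π (N (vx θ (e, false))))) = _
      rw [hθ, hθ, Equiv.apply_symm_apply, Equiv.apply_symm_apply]
      rfl
  have hzero : ∀ σ : Equiv.Perm (Fin (2 * m)), Psi (Option (Fin m)) (ZMod p) (p - 2)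
      (Pc (fun i => y (pext σ i))) = 0 := by
    intro σ
    rw [hgp]
    have h3 := Psi_relabel θ (Equiv.refl (Fin (p - 2))) hC (Fin (2 * m)) hK β
      ((N.trans (pext σ)).trans N.symm)
    rw [Fintype.card_fin] at h3
    rw [h3, hPsi, mul_zero]
  have hsum := congrArg (Psi (Option (Fin m)) (ZMod p) (p - 2))
    (cycle_sum (k := 2 * m) (by omega) y hy)
  rw [map_sum] at hsum
  have h5 : ∀ σ : Equiv.Perm (Fin (2 * m)), Psi (Option (Fin m)) (ZMod p) (p - 2)
      (((Equiv.Perm.sign σ : ℤ) : MvPolynomial (Option (Fin m) × Bool) (ZMod p)) *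
        Pc (fun i => y (pext σ i))) = 0 := by
    intro σ
    have h6 : (((Equiv.Perm.sign σ : ℤ) : MvPolynomial (Option (Fin m) × Bool) (ZMod p)) *
        Pc (fun i => y (pext σ i))) = ((Equiv.Perm.sign σ : ℤ) : ZMod p) •
          Pc (fun i => y (pext σ i)) := by
      rw [MvPolynomial.smul_eq_C_mul, map_intCast]
    rw [h6, map_smul, hzero, smul_zero]
  rw [Finset.sum_congr rfl fun σ _ => h5 σ, Finset.sum_const_zero] at hsum
  have h7 : (y (Fin.last _) - y 0) ^ (2 * m - 1) * Vn (fun i => y (mid i)) =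
      (MvPolynomial.X (none, true) - MvPolynomial.X (none, false)) ^ (p - 2) *
        MvPolynomial.rename emb (Vn (fun i => (MvPolynomial.X (ν.symm i) :
          MvPolynomial (Fin m × Bool) (ZMod p)))) := by
    have h8 : N.symm 0 = (none, false) := by rw [Equiv.symm_apply_eq, hN0]
    have h9 : N.symm (Fin.last _) = (none, true) := by rw [Equiv.symm_apply_eq, hN1]
    have h10 : ∀ i, N.symm (mid i) = emb (ν.symm i) := by
      intro i
      rw [Equiv.symm_apply_eq, hN2, Equiv.apply_symm_apply]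
    simp only [y]
    rw [h8, h9]
    congr 1
    · congr 1
      omega
    · unfold Vn
      rw [map_prod]
      refine Finset.prod_congr rfl fun i _ => ?_
      rw [map_prod]
      refine Finset.prod_congr rfl fun j _ => ?_
      split_ifs
      · rw [map_sub, MvPolynomial.rename_X, MvPolynomial.rename_X]
        beta_reduce
        rw [h10, h10]
      · rw [map_one]
  rw [h7, Psi_opt] at hsum
  have h11 := Psi_K_ne p hp hp2 m hm ν hν
  have h12 : (((p - 2 + 1)! : ℕ) : ZMod p) ≠ 0 := by
    intro h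
    rw [ZMod.natCast_eq_zero_iff, hp.dvd_factorial] at h
    omega
  exact absurd hsum.symm (mul_ne_zero (mul_ne_zero (pow_ne_zero _ (by simp)) h12) h11)

end Pool.Agent.Y342.LE
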