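import Mathlib

/-!
# Functions on perfect matchings satisfying the three-term relation
-/

set_option autoImplicit false
set_option linter.unusedSectionVars false

namespace Pool.Agent.Y342.LE.Cfg

open Finset Equiv

variable {H V K : Type} [Fintype H] [DecidableEq H] [Field K]

/-- perfect matchings as fixed point free involutions -/
def Mt (τ : Perm H) : Prop := (∀ h, τ (τ h) = h) ∧ ∀ h, τ h ≠ h

/-- conjugation by a transposition -/
def cj (x y : H) (τ : Perm H) : Perm H := swap x y * τ * swap x y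

/-- the axioms -/
structure Ax (D : ℕ) (F : Perm H → K) (v : H → V) : Prop where
  three : ∀ τ, Mt τ → ∀ a c, c ≠ a → c ≠ τ a →
    F τ + F (cj (τ a) c τ) + F (cj (τ a) (τ c) τ) = 0
  alt : ∀ τ, Mt τ → ∀ g : Fin (D + 1) ↪ H, ∑ σ : Perm (Fin (D + 1)), ((Perm.sign σ : ℤ) : K) *
    F (Perm.viaEmbeddingHom g σ * τ * (Perm.viaEmbeddingHom g σ)⁻¹) = 0
  fac : (((D + 1).factorial : ℕ) : K) ≠ 0
  loop : ∀ τ, Mt τ → F τ ≠ 0 → ∀ h, v (τ h) ≠ v h

/-- invariant sets -/
def Inv (R : Finset H) (τ : Perm H) : Prop := ∀ h, h ∈ R → τ h ∈ R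

/-- equality outside of `R` -/
def Off (R : Finset H) (τ τ0 : Perm H) : Prop := ∀ h, h ∉ R → τ h = τ0 h

theorem conj_Mt (σ : Perm H) {τ : Perm H} (h : Mt τ) : Mt (σ * τ * σ⁻¹) := by
  refine ⟨fun x => ?_, fun x hx => ?_⟩
  · show σ (τ (σ⁻¹ (σ (τ (σ⁻¹ x))))) = x
    rw [show σ⁻¹ (σ (τ (σ⁻¹ x))) = τ (σ⁻¹ x) from σ.symm_apply_apply _, h.1]
    exact σ.apply_symm_apply x
  · simp only [Perm.mul_apply] at hx
    apply h.2 (σ⁻¹ x)
    rw [Perm.eq_inv_iff_eq]
    exact hx

theorem cj_eq (x y : H) (τ : Perm H) : cj x y τ = swap x y * τ * (swap x y)⁻¹ := by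
  unfold cj
  rw [swap_inv]

theorem cj_Mt (x y : H) {τ : Perm H} (h : Mt τ) : Mt (cj x y τ) := by
  rw [cj_eq]
  exact conj_Mt _ h

theorem cj_cj (x y : H) (τ : Perm H) : cj x y (cj x y τ) = τ := by
  unfold cj
  rw [mul_assoc, mul_assoc, mul_assoc, swap_mul_self, mul_one, ← mul_assoc, swap_mul_self, one_mul]

theorem Inv.compl {R : Finset H} {τ : Perm H} (hR : Inv R τ) (h : Mt τ) : ∀ x, x ∉ R → τ x ∉ R := by
  intro x hx h1
  apply hx
  have := hR _ h1
  rwa [h.1] at this

theorem Inv.of_off {R : Finset H} {τ τ0 : Perm H} (hR : Inv R τ0) (h0 : Mt τ0) (h : Mt τ)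
    (ho : Off R τ τ0) : Inv R τ := by
  intro x hx
  by_contra h1
  have h2 := hR.compl h0 _ h1
  rw [← ho _ h1, h.1] at h2
  exact h2 hx

theorem conj_off {R : Finset H} {τ τ0 : Perm H} (hR : Inv R τ0) (h0 : Mt τ0) (ho : Off R τ τ0)
    (σ : Perm H) (hσ : ∀ x, x ∉ R → σ x = x) : Off R (σ * τ * σ⁻¹) τ0 := by
  intro x hx
  have h1 : σ⁻¹ x = x := by
    rw [Perm.inv_eq_iff_eq]
    exact (hσ x hx).symm
  simp only [Perm.mul_apply]
  rw [h1, ho x hx, hσ _ (hR.compl h0 x hx)]

theorem cj_off {R : Finset H} {τ τ0 : Perm H} (hR : Inv R τ0) (h0 : Mt τ0) (ho : Off R τ τ0)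
    {x y : H} (hx : x ∈ R) (hy : y ∈ R) : Off R (cj x y τ) τ0 := by
  rw [cj_eq]
  refine conj_off hR h0 ho _ fun z hz => ?_
  refine swap_apply_of_ne_of_ne ?_ ?_
  · rintro rfl; exact hz hx
  · rintro rfl; exact hz hy

section vals

variable {τ : Perm H} (h : Mt τ) {a c : H} (hca : c ≠ a) (hcb : c ≠ τ a)

include h hca hcb

theorem cj1_a : cj (τ a) c τ a = c := by
  unfold cj
  simp only [Perm.mul_apply]
  rw [swap_apply_of_ne_of_ne (h.2 a).symm hca.symm, swap_apply_left]

theorem cj2_a : cj (τ a) (τ c) τ a = τ c := by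
  have h1 : a ≠ τ c := by
    intro h1
    apply hcb
    rw [h1, h.1]
  unfold cj
  simp only [Perm.mul_apply]
  rw [swap_apply_of_ne_of_ne (h.2 a).symm h1, swap_apply_left]

theorem cj2_b : cj (τ a) (τ c) τ (τ a) = c := by
  unfold cj
  simp only [Perm.mul_apply]
  rw [swap_apply_left, h.1, swap_apply_of_ne_of_ne hcb (h.2 c).symm]

end vals

variable {D : ℕ} {F : Perm H → K} {v : H → V}

/-- `i` and `j` are matched by a good extension -/
def Good (F : Perm H → K) (R : Finset H) (τ0 : Perm H) (i j : H) : Prop :=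
  ∃ τ, Mt τ ∧ F τ ≠ 0 ∧ Off R τ τ0 ∧ τ i = j

theorem Good.symm {R : Finset H} {τ0 : Perm H} {i j : H} (h : Good F R τ0 i j) :
    Good F R τ0 j i := by
  obtain ⟨τ, h1, h2, h3, h4⟩ := h
  exact ⟨τ, h1, h2, h3, by rw [← h4, h1.1]⟩

theorem Good.tri (hF : Ax D F v) {R : Finset H} {τ0 : Perm H} (hR : Inv R τ0) (h0 : Mt τ0)
    {i j k : H} (hi : i ∈ R) (hj : j ∈ R) (hij : i ≠ j) (hjk : j ≠ k)
    (h : Good F R τ0 i k) : Good F R τ0 i j ∨ Good F R τ0 j k := by
  obtain ⟨τ, h1, h2, h3, h4⟩ := h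
  have hR' := hR.of_off h0 h1 h3
  subst h4
  have h5 := hF.three τ h1 i j hij.symm hjk
  by_cases h6 : F (cj (τ i) j τ) = 0
  · right
    have h7 : F (cj (τ i) (τ j) τ) ≠ 0 := by
      intro h7
      rw [h6, h7, add_zero, add_zero] at h5
      exact h2 h5
    refine Good.symm ⟨_, cj_Mt _ _ h1, h7, cj_off hR h0 h3 (hR' _ hi) (hR' _ hj), ?_⟩
    exact cj2_b h1 hij.symm hjk
  · left
    exact ⟨_, cj_Mt _ _ h1, h6, cj_off hR h0 h3 (hR' _ hi) hj, cj1_a h1 hij.symm hjk⟩

theorem via_swap {n : ℕ} (g : Fin n ↪ H) (x y : Fin n) :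
    Perm.viaEmbeddingHom g (swap x y) = swap (g x) (g y) := by
  ext z : 1
  rw [Perm.viaEmbeddingHom_apply]
  by_cases hz : z ∈ Set.range g
  · obtain ⟨w, rfl⟩ := hz
    rw [Perm.viaEmbedding_apply, g.injective.map_swap]
  · rw [Perm.viaEmbedding_apply_of_notMem _ _ _ hz, swap_apply_of_ne_of_ne]
    · rintro rfl; exact hz ⟨x, rfl⟩
    · rintro rfl; exact hz ⟨y, rfl⟩

theorem vanish (hF : Ax D F v) {R : Finset H} {τ0 : Perm H} (hR : Inv R τ0) (h0 : Mt τ0)
    (g : Fin (D + 1) ↪ H) (hg : ∀ i, g i ∈ R) (hb : ∀ i j, i ≠ j → ¬ Good F R τ0 (g i) (g j)) :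
    F τ0 = 0 := by
  have key : ∀ (σ : Perm (Fin (D + 1))), F (Perm.viaEmbeddingHom g σ * τ0 *
      (Perm.viaEmbeddingHom g σ)⁻¹) = ((Perm.sign σ : ℤ) : K) * F τ0 := by
    intro σ
    induction σ using Perm.swap_induction_on with
    | one => simp
    | swap_mul f x y hxy ih =>
      have h1 : Perm.viaEmbeddingHom g (swap x y * f) * τ0 *
          (Perm.viaEmbeddingHom g (swap x y * f))⁻¹ =
          cj (g x) (g y) (Perm.viaEmbeddingHom g f * τ0 * (Perm.viaEmbeddingHom g f)⁻¹) := by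
        rw [map_mul, via_swap, cj_eq]
        group
      rw [h1, Perm.sign_mul, Perm.sign_swap hxy]
      push_cast
      have hM : Mt (Perm.viaEmbeddingHom g f * τ0 * (Perm.viaEmbeddingHom g f)⁻¹) := conj_Mt _ h0
      have hO : Off R (Perm.viaEmbeddingHom g f * τ0 * (Perm.viaEmbeddingHom g f)⁻¹) τ0 := by
        refine conj_off hR h0 (fun _ _ => rfl) _ fun z hz => ?_
        rw [Perm.viaEmbeddingHom_apply]
        refine Perm.viaEmbedding_apply_of_notMem _ _ _ ?_
        rintro ⟨w, rfl⟩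
        exact hz (hg w)
      rw [show (-1 * ((Perm.sign f : ℤ) : K)) * F τ0 = -(((Perm.sign f : ℤ) : K) * F τ0) by ring,
        ← ih]
      generalize Perm.viaEmbeddingHom g f * τ0 * (Perm.viaEmbeddingHom g f)⁻¹ = τ at *
      have hR' := hR.of_off h0 hM hO
      have hgxy : g x ≠ g y := fun h => hxy (g.injective h)
      by_cases h2 : τ (g x) = g y
      · -- both zero
        have h3 : F τ = 0 := by
          by_contra h3
          exact hb x y hxy ⟨τ, hM, h3, hO, h2⟩
        have h4 : cj (g x) (g y) τ = τ := by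
          unfold cj
          ext z : 1
          simp only [Perm.mul_apply]
          by_cases hz1 : z = g x
          · rw [hz1, swap_apply_left, ← h2, hM.1, h2, swap_apply_left]
          · by_cases hz2 : z = g y
            · have h5 : τ (g y) = g x := by rw [← h2, hM.1]
              rw [hz2, swap_apply_right, h2, swap_apply_right, h5]
            · rw [swap_apply_of_ne_of_ne hz1 hz2, swap_apply_of_ne_of_ne]
              · intro h5
                apply hz2
                rw [← h2, ← h5, hM.1]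
              · intro h5
                apply hz1
                have := congrArg τ h5
                rw [hM.1, ← h2, hM.1] at this
                exact this
        rw [h4, h3, neg_zero]
      · -- three-term relation with a = τ (g x), c = g y
        have h3 := hF.three τ hM (τ (g x)) (g y) (Ne.symm h2) (by rw [hM.1]; exact hgxy.symm)
        rw [hM.1] at h3
        have h4 : F (cj (g x) (τ (g y)) τ) = 0 := by
          by_contra h4
          refine hb x y hxy ⟨_, cj_Mt _ _ hM, h4, cj_off hR h0 hO (hg x) (hR' _ (hg y)), ?_⟩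
          have h5 := cj2_b hM (a := τ (g x)) (c := g y) (Ne.symm h2) (by rw [hM.1]; exact hgxy.symm)
          rw [hM.1] at h5
          exact h5
        rw [h4, add_zero] at h3
        exact eq_neg_of_add_eq_zero_right h3
  have h1 := hF.alt τ0 h0 g
  have h2 : ∀ σ : Perm (Fin (D + 1)), ((Perm.sign σ : ℤ) : K) *
      F (Perm.viaEmbeddingHom g σ * τ0 * (Perm.viaEmbeddingHom g σ)⁻¹) = F τ0 := by
    intro σ
    rw [key, ← mul_assoc]
    rcases Int.units_eq_one_or (Perm.sign σ) with h | h <;> rw [h] <;> simp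
  rw [Finset.sum_congr rfl fun σ _ => h2 σ, Finset.sum_const, Finset.card_univ, Fintype.card_perm,
    Fintype.card_fin, nsmul_eq_mul] at h1
  rcases mul_eq_zero.1 h1 with h | h
  · exact absurd h hF.fac
  · exact h

open Classical in
theorem bad_card (hF : Ax D F v) {R : Finset H} {τ0 : Perm H} (hR : Inv R τ0) (h0 : Mt τ0)
    (ha : F τ0 ≠ 0) {i : H} (hi : i ∈ R) :
    (R.filter (fun j => j ≠ i ∧ ¬ Good F R τ0 i j)).card < D := by
  by_contra hlt
  push Not at hlt
  obtain ⟨T, hT, hTc⟩ := Finset.exists_subset_card_eq hlt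
  have hiT : i ∉ T := by
    intro h
    have := (Finset.mem_filter.1 (hT h)).2.1
    exact this rfl
  have hc : (insert i T).card = D + 1 := by
    rw [Finset.card_insert_of_notMem hiT, hTc]
  let e : Fin (D + 1) ≃ (insert i T : Finset H) := (Finset.equivFinOfCardEq hc).symm
  let g : Fin (D + 1) ↪ H := e.toEmbedding.trans (Function.Embedding.subtype _)
  have hgm : ∀ x, g x ∈ insert i T := fun x => (e x).2
  have hbad : ∀ j, j ∈ T → ¬ Good F R τ0 i j := fun j hj => (Finset.mem_filter.1 (hT hj)).2.2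
  have hne : ∀ j, j ∈ T → j ≠ i := fun j hj => (Finset.mem_filter.1 (hT hj)).2.1
  have hmR : ∀ j, j ∈ T → j ∈ R := fun j hj => (Finset.mem_filter.1 (hT hj)).1
  refine ha (vanish hF hR h0 g ?_ ?_)
  · intro x
    rcases Finset.mem_insert.1 (hgm x) with h | h
    · rw [h]; exact hi
    · exact hmR _ h
  · intro x y hxy hG
    have hgxy : g x ≠ g y := fun h => hxy (g.injective h)
    rcases Finset.mem_insert.1 (hgm x) with h1 | h1
    · rcases Finset.mem_insert.1 (hgm y) with h2 | h2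
      · exact hgxy (h1.trans h2.symm)
      · rw [h1] at hG
        exact hbad _ h2 hG
    · rcases Finset.mem_insert.1 (hgm y) with h2 | h2
      · rw [h2] at hG
        exact hbad _ h1 hG.symm
      · rcases hG.tri hF hR h0 (hmR _ h1) hi (hne _ h1) (hne _ h2).symm with h | h
        · exact hbad _ h1 h.symm
        · exact hbad _ h2 h

end Pool.Agent.Y342.LE.Cfg
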