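import Pool.Agent.Y342.LE.Cfg

/-!
# Counting the good configurations
-/

set_option autoImplicit false
set_option linter.unusedSectionVars false

namespace Pool.Agent.Y342.LE.Cfg

open Finset Equiv

variable {H V K : Type} [Fintype H] [DecidableEq H] [Field K]
variable {D : ℕ} {F : Perm H → K} {v : H → V}

/-- there are no parallel edges outside of `S` -/
def Simp (v : H → V) (S : Finset H) (τ : Perm H) : Prop :=
  ∀ h h', h ∉ S → h' ∉ S → v h = v h' → v (τ h) = v (τ h') → h = h'

/-- there are few parallel edges -/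
def Few (v : H → V) (c : ℕ) (τ : Perm H) : Prop :=
  ∃ S : Finset H, S.card ≤ c ∧ Inv S τ ∧ Simp v S τ

open Classical in
/-- the extensions -/
noncomputable def EX (R : Finset H) (τ0 : Perm H) : Finset (Perm H) :=
  univ.filter (fun τ => Mt τ ∧ Off R τ τ0)

theorem mem_EX {R : Finset H} {τ0 τ : Perm H} : τ ∈ EX R τ0 ↔ Mt τ ∧ Off R τ τ0 := by
  classical
  unfold EX
  rw [Finset.mem_filter]
  exact ⟨fun h => h.2, fun h => ⟨Finset.mem_univ _, h⟩⟩

theorem card_erase2 {R : Finset H} {h j : H} {m : ℕ} (hR : R.card = 2 * (m + 1)) (hh : h ∈ R)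
    (hj : j ∈ R) (hjh : j ≠ h) : ((R.erase h).erase j).card = 2 * m := by
  rw [Finset.card_erase_of_mem (Finset.mem_erase.2 ⟨hjh, hj⟩), Finset.card_erase_of_mem hh, hR]
  omega

theorem inv_erase2 {R : Finset H} {τ : Perm H} (hR : Inv R τ) (hM : Mt τ) {h j : H}
    (hj : τ h = j) : Inv ((R.erase h).erase j) τ := by
  intro x hx
  rw [Finset.mem_erase, Finset.mem_erase] at hx ⊢
  obtain ⟨h1, h2, h3⟩ := hx
  refine ⟨fun h4 => h2 ?_, fun h4 => h1 ?_, hR _ h3⟩
  · rw [← hj] at h4
    exact τ.injective h4
  · rw [← hj, ← h4, hM.1]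

open Classical in
theorem count_low (hF : Ax D F v) (hfib : ∀ u : V, (univ.filter (fun x => v x = u)).card ≤ D) :
    ∀ (m : ℕ) (R : Finset H) (τ0 : Perm H), R.card = 2 * m → Inv R τ0 → Mt τ0 → F τ0 ≠ 0 →
      Simp v R τ0 → ∏ i ∈ range m, max 1 (2 * (i + 1) - (D + D * D)) ≤
        ((EX R τ0).filter (fun τ => F τ ≠ 0 ∧ Few v (D + D * D) τ)).card := by
  intro m
  induction m with
  | zero =>
    intro R τ0 hc hR h0 ha hs
    rw [Finset.range_zero, Finset.prod_empty]
    refine Finset.card_pos.2 ⟨τ0, ?_⟩
    rw [Finset.mem_filter, mem_EX]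
    exact ⟨⟨h0, fun _ _ => rfl⟩, ha, R, by omega, hR, hs⟩
  | succ m ih =>
    intro R τ0 hc hR h0 ha hs
    by_cases hsmall : 2 * (m + 1) ≤ D + D * D
    · have h1 : ∏ i ∈ range (m + 1), max 1 (2 * (i + 1) - (D + D * D)) = 1 := by
        refine Finset.prod_eq_one fun i hi => ?_
        rw [Finset.mem_range] at hi
        have : 2 * (i + 1) - (D + D * D) = 0 := by omega
        rw [this]
        rfl
      rw [h1]
      refine Finset.card_pos.2 ⟨τ0, ?_⟩
      rw [Finset.mem_filter, mem_EX]
      exact ⟨⟨h0, fun _ _ => rfl⟩, ha, R, by omega, hR, hs⟩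
    · push Not at hsmall
      have hne : R.Nonempty := by
        rw [← Finset.card_pos, hc]
        omega
      obtain ⟨h, hh⟩ := hne
      set J := R.filter (fun j => j ≠ h ∧ Good F R τ0 h j ∧
        ¬ ∃ x, x ∉ R ∧ v x = v h ∧ v (τ0 x) = v j) with hJ
      set B := R.filter (fun j => j ≠ h ∧ ¬ Good F R τ0 h j) with hB
      set C := (univ.filter (fun x => v x = v h)).biUnion
        (fun x => univ.filter (fun j => v j = v (τ0 x))) with hC
      have hBc : B.card < D := bad_card hF hR h0 ha hh
      have hCc : C.card ≤ D * D := by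
        refine Finset.card_biUnion_le_card_mul _ _ _ (fun x _ => hfib _) |>.trans ?_
        exact Nat.mul_le_mul_right _ (hfib _)
      have hsub : R ⊆ J ∪ ({h} ∪ (B ∪ C)) := by
        intro j hj
        rw [Finset.mem_union, Finset.mem_union, Finset.mem_union, Finset.mem_singleton]
        by_cases h1 : j = h
        · exact Or.inr (Or.inl h1)
        · by_cases h2 : Good F R τ0 h j
          · by_cases h3 : ∃ x, x ∉ R ∧ v x = v h ∧ v (τ0 x) = v j
            · refine Or.inr (Or.inr (Or.inr ?_))
              obtain ⟨x, -, h4, h5⟩ := h3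
              rw [hC, Finset.mem_biUnion]
              exact ⟨x, Finset.mem_filter.2 ⟨Finset.mem_univ _, h4⟩,
                Finset.mem_filter.2 ⟨Finset.mem_univ _, h5.symm⟩⟩
            · exact Or.inl (Finset.mem_filter.2 ⟨hj, h1, h2, h3⟩)
          · exact Or.inr (Or.inr (Or.inl (Finset.mem_filter.2 ⟨hj, h1, h2⟩)))
      have hJc : 2 * (m + 1) - (D + D * D) ≤ J.card := by
        have h1 := Finset.card_le_card hsub
        have h2 := Finset.card_union_le J ({h} ∪ (B ∪ C))
        have h3 := Finset.card_union_le {h} (B ∪ C)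
        have h4 := Finset.card_union_le B C
        rw [Finset.card_singleton] at h3
        omega
      rw [Finset.prod_range_succ]
      have hmax : max 1 (2 * (m + 1) - (D + D * D)) ≤ J.card := by
        rw [max_le_iff]
        exact ⟨by omega, hJc⟩
      refine (Nat.mul_le_mul_left _ hmax).trans ?_
      set T := (EX R τ0).filter (fun τ => F τ ≠ 0 ∧ Few v (D + D * D) τ) with hT
      have h5 : T.card = ∑ j : H, (T.filter (fun τ => τ h = j)).card :=
        Finset.card_eq_sum_card_fiberwise (fun τ _ => Finset.mem_coe.2 (Finset.mem_univ _))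
      rw [h5]
      have h6 : ∑ j ∈ J, (T.filter (fun τ => τ h = j)).card ≤
          ∑ j : H, (T.filter (fun τ => τ h = j)).card :=
        Finset.sum_le_univ_sum_of_nonneg fun _ => Nat.zero_le _
      refine le_trans ?_ h6
      rw [mul_comm, ← smul_eq_mul]
      refine Finset.card_nsmul_le_sum _ _ _ fun j hj => ?_
      obtain ⟨hjR, hjh, hG, hx⟩ := Finset.mem_filter.1 hj
      obtain ⟨τj, h7, h8, h9, h10⟩ := hG
      have hR' := hR.of_off h0 h7 h9
      have h10' : τj j = h := by rw [← h10, h7.1]
      have hnx : ∀ x, x ∉ R → τj x = τ0 x := h9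
      refine (ih ((R.erase h).erase j) τj (card_erase2 hc hh hjR hjh) (inv_erase2 hR' h7 h10) h7 h8
        ?_).trans ?_
      · -- simplicity
        have hcase : ∀ x, x ∉ (R.erase h).erase j → x ∉ R ∨ x = h ∨ x = j := by
          intro x hx
          rw [Finset.mem_erase, Finset.mem_erase] at hx
          by_cases h11 : x ∈ R
          · right
            by_cases h12 : x = h
            · exact Or.inl h12
            · right
              by_contra h13
              exact hx ⟨h13, h12, h11⟩
          · exact Or.inl h11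
        have hl := hF.loop τj h7 h8
        have hmix1 : ∀ x, x ∉ R → v x = v h → v (τj x) = v (τj h) → False := by
          intro x h11 h12 h13
          rw [hnx x h11, h10] at h13
          exact hx ⟨x, h11, h12, h13⟩
        have hmix2 : ∀ x, x ∉ R → v x = v j → v (τj x) = v (τj j) → False := by
          intro x h11 h12 h13
          refine hmix1 (τj x) (hR'.compl h7 x h11) ?_ ?_
          · rw [h13, h10']
          · rw [h7.1, h12, h10]
        intro x x' hx1 hx2 hv hv'
        rcases hcase x hx1 with h11 | rfl | rfl <;> rcases hcase x' hx2 with h12 | rfl | rfl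
        · rw [hnx x h11, hnx x' h12] at hv'
          exact hs x x' h11 h12 hv hv'
        · exact (hmix1 x h11 hv hv').elim
        · exact (hmix2 x h11 hv hv').elim
        · exact (hmix1 x' h12 hv.symm hv'.symm).elim
        · rfl
        · exact (hl x (by rw [h10, hv])).elim
        · exact (hmix2 x' h12 hv.symm hv'.symm).elim
        · exact (hl x' (by rw [h10, hv])).elim
        · rfl
      · refine Finset.card_le_card fun τ hτ => ?_
        rw [Finset.mem_filter, mem_EX] at hτ
        obtain ⟨⟨h11, h12⟩, h13⟩ := hτ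
        have hhR' : h ∉ (R.erase h).erase j := by
          rw [Finset.mem_erase, Finset.mem_erase]
          rintro ⟨-, h14, -⟩
          exact h14 rfl
        rw [Finset.mem_filter, hT, Finset.mem_filter, mem_EX]
        refine ⟨⟨⟨h11, fun x hx => ?_⟩, h13⟩, ?_⟩
        · rw [h12 x (fun h14 => hx (Finset.mem_of_mem_erase (Finset.mem_of_mem_erase h14))), hnx x hx]
        · rw [h12 h hhR', h10]

/-- near a good configuration -/
def NearA (F : Perm H → K) (a : ℕ) (τ : Perm H) : Prop :=
  ∃ τ', Mt τ' ∧ F τ' ≠ 0 ∧ ∃ S : Finset H, S.card ≤ 2 * a ∧ Inv S τ ∧ Off S τ' τ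

/-- the distance to a good configuration -/
noncomputable def aa (F : Perm H → K) (τ : Perm H) : ℕ := sInf {a | NearA F a τ}

theorem aa_le {a : ℕ} {τ : Perm H} (h : NearA F a τ) : aa F τ ≤ a := Nat.sInf_le h

open Classical in
theorem count_up (hF : Ax D F v) :
    ∀ (m c : ℕ) (R P : Finset H) (τ1 τ0 : Perm H), R.card = 2 * m → P.card = 2 * c →
      Disjoint R P → Inv R τ1 → Inv P τ1 → Mt τ1 → Mt τ0 → F τ0 ≠ 0 → Off (R ∪ P) τ0 τ1 →
      ∑ τ ∈ EX R τ1, 2 ^ (aa F τ) ≤ 2 ^ c * ∏ i ∈ range m, (2 * (i + 1) + D) := by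
  intro m
  induction m with
  | zero =>
    intro c R P τ1 τ0 hRc hPc hRP hR hP h1 h0 ha ho
    have hRe : R = ∅ := by
      rw [← Finset.card_eq_zero]; omega
    subst hRe
    have h2 : EX ∅ τ1 = {τ1} := by
      ext τ
      rw [mem_EX, Finset.mem_singleton]
      constructor
      · rintro ⟨-, h⟩
        exact Equiv.ext fun x => h x (Finset.notMem_empty x)
      · rintro rfl
        exact ⟨h1, fun _ _ => rfl⟩
    rw [h2, Finset.sum_singleton, Finset.range_zero, Finset.prod_empty, mul_one]
    refine Nat.pow_le_pow_right (by norm_num) (aa_le ⟨τ0, h0, ha, P, by omega, hP, ?_⟩)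
    rwa [Finset.empty_union] at ho
  | succ m ih =>
    intro c R P τ1 τ0 hRc hPc hRP hR hP h1 h0 ha ho
    have hne : R.Nonempty := by
      rw [← Finset.card_pos, hRc]
      omega
    obtain ⟨h, hh⟩ := hne
    have hhP : h ∉ P := fun h' => (Finset.disjoint_left.1 hRP) hh h'
    have hRP1 : Inv (R ∪ P) τ1 := by
      intro x hx
      rw [Finset.mem_union] at hx ⊢
      exact hx.imp (hR x) (hP x)
    have hRP0 : Inv (R ∪ P) τ0 := hRP1.of_off h1 h0 ho
    have hmaps : ∀ τ ∈ EX R τ1, τ h ∈ R.erase h := by
      intro τ hτ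
      rw [mem_EX] at hτ
      rw [Finset.mem_erase]
      exact ⟨hτ.1.2 h, hR.of_off h1 hτ.1 hτ.2 h hh⟩
    rw [← Finset.sum_fiberwise_of_maps_to hmaps]
    have hstep : ∀ j ∈ R.erase h, ∑ τ ∈ EX R τ1 with τ h = j, 2 ^ (aa F τ) ≤
        (2 ^ c * ∏ i ∈ range m, (2 * (i + 1) + D)) *
          (1 + if ¬ Good F (R ∪ P) τ0 h j then 1 else 0) := by
      intro j hj
      obtain ⟨hjh, hjR⟩ := Finset.mem_erase.1 hj
      have hjP : j ∉ P := fun h' => (Finset.disjoint_left.1 hRP) hjR h'
      -- an extension of `τ1` matching `h` and `j`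
      obtain ⟨τ1j, h3, h4, h5⟩ : ∃ τ, Mt τ ∧ Off R τ τ1 ∧ τ h = j := by
        by_cases h6 : j = τ1 h
        · exact ⟨τ1, h1, fun _ _ => rfl, h6.symm⟩
        · exact ⟨_, cj_Mt _ _ h1, cj_off hR h1 (fun _ _ => rfl) (hR _ hh) hjR,
            cj1_a h1 hjh h6⟩
      have h5' : τ1j j = h := by rw [← h5, h3.1]
      have hR1 := hR.of_off h1 h3 h4
      set R' := (R.erase h).erase j with hR'
      have hR'mem : ∀ x, x ∉ R' → x ∉ R ∨ x = h ∨ x = j := by
        intro x hx
        rw [hR', Finset.mem_erase, Finset.mem_erase] at hx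
        by_cases h11 : x ∈ R
        · right
          by_cases h12 : x = h
          · exact Or.inl h12
          · right
            by_contra h13
            exact hx ⟨h13, h12, h11⟩
        · exact Or.inl h11
      have hR'sub : ∀ x, x ∈ R' → x ∈ R := fun x hx =>
        Finset.mem_of_mem_erase (Finset.mem_of_mem_erase hx)
      have hsub : (EX R τ1).filter (fun τ => τ h = j) ⊆ EX R' τ1j := by
        intro τ hτ
        rw [Finset.mem_filter, mem_EX] at hτ
        obtain ⟨⟨h6, h7⟩, h8⟩ := hτ
        rw [mem_EX]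
        refine ⟨h6, fun x hx => ?_⟩
        rcases hR'mem x hx with h9 | rfl | rfl
        · rw [h7 x h9, h4 x h9]
        · rw [h8, h5]
        · rw [h5', ← h8, h6.1]
      refine (Finset.sum_le_sum_of_subset hsub).trans ?_
      have hcard := card_erase2 hRc hh hjR hjh
      have hPinv : Inv P τ1j := by
        intro x hx
        have hxR : x ∉ R := fun h' => (Finset.disjoint_left.1 hRP) h' hx
        rw [h4 x hxR]
        exact hP x hx
      by_cases hG : Good F (R ∪ P) τ0 h j
      · rw [if_neg (not_not.2 hG), add_zero, mul_one]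
        obtain ⟨τj, h6, h7, h8, h9⟩ := hG
        refine ih c R' P τ1j τj hcard hPc ?_ (inv_erase2 hR1 h3 h5) hPinv h3 h6 h7 ?_
        · rw [Finset.disjoint_left] at hRP ⊢
          exact fun x hx => hRP (hR'sub x hx)
        · intro x hx
          rw [Finset.mem_union, not_or] at hx
          have h9' : τj j = h := by rw [← h9, h6.1]
          rcases hR'mem x hx.1 with h10 | rfl | rfl
          · have h11 : x ∉ R ∪ P := by
              rw [Finset.mem_union, not_or]
              exact ⟨h10, hx.2⟩
            rw [h8 x h11, ho x h11, h4 x h10]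
          · rw [h9, h5]
          · rw [h9', h5']
      · rw [if_pos hG]
        have hjP' : j ∉ insert h P := by
          rw [Finset.mem_insert, not_or]
          exact ⟨hjh, hjP⟩
        have h6 := ih (c + 1) R' (insert j (insert h P)) τ1j τ0 hcard ?_ ?_
          (inv_erase2 hR1 h3 h5) ?_ h3 h0 ha ?_
        · refine h6.trans (le_of_eq ?_)
          rw [pow_succ]
          ring
        · rw [Finset.card_insert_of_notMem hjP', Finset.card_insert_of_notMem hhP, hPc]
          ring
        · rw [Finset.disjoint_left] at hRP ⊢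
          intro x hx h7
          rw [Finset.mem_insert, Finset.mem_insert] at h7
          rw [hR', Finset.mem_erase, Finset.mem_erase] at hx
          rcases h7 with h7 | h7 | h7
          · exact hx.1 h7
          · exact hx.2.1 h7
          · exact hRP hx.2.2 h7
        · intro x hx
          rw [Finset.mem_insert, Finset.mem_insert] at hx ⊢
          rcases hx with rfl | rfl | hx
          · exact Or.inr (Or.inl h5')
          · exact Or.inl h5
          · exact Or.inr (Or.inr (hPinv x hx))
        · intro x hx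
          rw [Finset.mem_union, not_or, Finset.mem_insert, Finset.mem_insert, not_or, not_or] at hx
          obtain ⟨h10, h11, h12, h13⟩ := hx
          rcases hR'mem x h10 with h14 | h14 | h14
          · rw [ho x (by rw [Finset.mem_union, not_or]; exact ⟨h14, h13⟩), h4 x h14]
          · exact absurd h14 h12
          · exact absurd h14 h11
    refine (Finset.sum_le_sum hstep).trans ?_
    rw [← Finset.mul_sum, Finset.prod_range_succ, ← mul_assoc]
    refine Nat.mul_le_mul_left _ ?_
    rw [Finset.sum_add_distrib, Finset.sum_const, Finset.card_erase_of_mem hh, hRc, smul_eq_mul,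
      mul_one, ← Finset.card_filter]
    have h7 := bad_card hF hRP0 h0 ha (Finset.mem_union_left P hh)
    have h8 : ((R.erase h).filter (fun j => ¬ Good F (R ∪ P) τ0 h j)).card ≤
        ((R ∪ P).filter (fun j => j ≠ h ∧ ¬ Good F (R ∪ P) τ0 h j)).card := by
      refine Finset.card_le_card fun x hx => ?_
      rw [Finset.mem_filter, Finset.mem_erase] at hx
      rw [Finset.mem_filter]
      exact ⟨Finset.mem_union_left _ hx.1.2, hx.1.1, hx.2⟩
    omega

end Pool.Agent.Y342.LE.Cfg
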