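import Pool.Agent.Y342.LE.Count

/-!
# Relabelling the vertices in the formula for the signed number of colourings
-/

set_option autoImplicit false
set_option linter.unusedSectionVars false

namespace Pool.Agent.Y342.LE

open Finset Pool.Agent.W426.LE Nat

/-- the polynomial of the multigraph with the ends `ends` -/
noncomputable def gp {V E : Type} [Fintype E] (R : Type) [CommRing R] (ends : E × Bool → V) :
    MvPolynomial V R :=
  ∏ e, (MvPolynomial.X (ends (e, true)) - MvPolynomial.X (ends (e, false)))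

section

variable {A D E C : Type} [Fintype A] [Fintype D] [Fintype E] [DecidableEq A] [DecidableEq D]
  [DecidableEq E]

theorem sv_mul_self (v : A × Bool) : sv v * sv v = 1 := by
  unfold sv
  split_ifs <;> norm_num

/-- changing the signs of the variables -/
noncomputable def phi (A : Type) (R : Type) [CommRing R] :
    MvPolynomial (A × Bool) R →ₐ[R] MvPolynomial (A × Bool) R :=
  MvPolynomial.bind₁ (fun v => MvPolynomial.C ((sv v : ℤ) : R) * MvPolynomial.X v)

theorem phi_X {R : Type} [CommRing R] (v : A × Bool) :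
    phi A R (MvPolynomial.X v) = MvPolynomial.C ((sv v : ℤ) : R) * MvPolynomial.X v :=
  MvPolynomial.bind₁_X_right _ _

/-- the linear functional on polynomials -/
noncomputable def Psi (A : Type) [Fintype A] (R : Type) [CommRing R] (d : ℕ) :
    MvPolynomial (A × Bool) R →ₗ[R] R :=
  (LL fun m => ((FF d m : ℕ) : R)) ∘ₗ (phi A R).toLinearMap

variable (θ : E × Bool ≃ (A × D) × Bool)

/-- the constant in the formula -/
noncomputable def cst (A D E : Type) [Fintype A] [Fintype D] [Fintype E] : ℤ :=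
  (-1) ^ (Fintype.card E) * (∏ v : A × Bool, sv v) ^ (Fintype.card D)

theorem formula_Psi {R : Type} [CommRing R] [Fintype C] (ρ : D ≃ C)
    (hC : ((Nat.card C : ℕ) : R) = -2) (K : Type) [Finite K] (hK : ((Nat.card K : ℕ) : R) = -1)
    (β : E ≃ A × D) :
    ((NN ρ (inc θ) : ℤ) : R) = ((cst A D E : ℤ) : R) *
      ((Equiv.Perm.sign ((β.prodCongr (Equiv.refl Bool)).trans θ.symm) : ℤ) : R) *
      Psi A R (Fintype.card D) (gp R (vx θ)) := by
  rw [graph_formula θ ρ hC K hK β]
  have h1 : ∀ e : E, (MvPolynomial.C ((sv (vx θ (e, false)) : ℤ) : R) *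
          MvPolynomial.X (vx θ (e, true)) -
        MvPolynomial.C ((sv (vx θ (e, true)) : ℤ) : R) * MvPolynomial.X (vx θ (e, false))) =
      MvPolynomial.C ((sv (vx θ (e, false)) * sv (vx θ (e, true)) : ℤ) : R) *
        phi A R (MvPolynomial.X (vx θ (e, true)) - MvPolynomial.X (vx θ (e, false))) := by
    intro e
    rw [map_sub, phi_X, phi_X, mul_sub, ← mul_assoc, ← mul_assoc, ← MvPolynomial.C_mul,
      ← MvPolynomial.C_mul, ← Int.cast_mul, ← Int.cast_mul]
    congr 4
    · rw [mul_assoc, sv_mul_self, mul_one]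
    · rw [mul_comm (sv (vx θ (e, false))), mul_assoc, sv_mul_self, mul_one]
  have h2 : ∏ e : E, (sv (vx θ (e, false)) * sv (vx θ (e, true))) =
      (∏ v : A × Bool, sv v) ^ (Fintype.card D) := by
    have h3 : ∏ e : E, (sv (vx θ (e, false)) * sv (vx θ (e, true))) =
        ∏ h : E × Bool, sv (vx θ h) := by
      rw [Fintype.prod_prod_type]
      refine Finset.prod_congr rfl fun e _ => ?_
      rw [Fintype.prod_bool, mul_comm]
    rw [h3]
    have h4 : ∏ h : E × Bool, sv (vx θ h) = ∏ z : (A × D) × Bool, sv (z.1.1, z.2) :=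
      Fintype.prod_equiv θ _ _ fun h => rfl
    rw [h4, Fintype.prod_prod_type, Fintype.prod_prod_type, Finset.prod_comm,
      Finset.prod_congr rfl fun d _ => (Fintype.prod_prod_type' (fun a b => sv (a, b))).symm,
      Finset.prod_const, Finset.card_univ]
  rw [Finset.prod_congr rfl fun e _ => h1 e, Finset.prod_mul_distrib, ← map_prod,
    ← MvPolynomial.smul_eq_C_mul, map_smul, ← map_prod, ← Int.cast_prod, h2]
  have h5 : Psi A R (Fintype.card D) (gp R (vx θ)) = (LL fun m => ((FF (Fintype.card D) m : ℕ) : R))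
      (phi A R (∏ e, (MvPolynomial.X (vx θ (e, true)) - MvPolynomial.X (vx θ (e, false))))) := rfl
  rw [h5, smul_eq_mul]
  unfold cst
  push_cast
  ring

/-- relabelling the slots -/
def slot (D : Type) (σ : Equiv.Perm (A × Bool)) : Equiv.Perm ((A × D) × Bool) where
  toFun z := (((σ (z.1.1, z.2)).1, z.1.2), (σ (z.1.1, z.2)).2)
  invFun z := (((σ.symm (z.1.1, z.2)).1, z.1.2), (σ.symm (z.1.1, z.2)).2)
  left_inv z := by simp
  right_inv z := by simp

theorem sign_slot (σ : Equiv.Perm (A × Bool)) :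
    Equiv.Perm.sign (slot D σ) = (Equiv.Perm.sign σ) ^ (Fintype.card D) := by
  let e : (A × D) × Bool ≃ (A × Bool) × D :=
    { toFun := fun z => ((z.1.1, z.2), z.1.2)
      invFun := fun z => ((z.1.1, z.2), z.1.2)
      left_inv := fun z => rfl
      right_inv := fun z => rfl }
  have h1 : (slot D σ) = (e.trans (Equiv.prodCongrLeft (fun _ : D => σ))).trans e.symm := by
    ext z : 1
    rfl
  rw [h1]
  have h2 := Equiv.Perm.sign_trans_trans_symm (Equiv.prodCongrLeft (fun _ : D => σ)) e
  rw [h2, Equiv.Perm.sign_prodCongrLeft, Finset.prod_const, Finset.card_univ]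

theorem NN_slot [Fintype C] (ρ : D ≃ C) (σ : Equiv.Perm (A × Bool)) :
    NN ρ (inc (θ.trans (slot D σ))) = NN ρ (inc θ) := by
  unfold NN
  refine Finset.sum_congr rfl fun x _ => ?_
  refine (Fintype.prod_equiv σ _ _ fun v => ?_).symm
  congr 1
  funext i
  congr 1
  unfold inc
  congr 1
  show θ.symm ((v.1, i), v.2) = θ.symm ((slot D σ).symm (((σ v).1, i), (σ v).2))
  congr 1
  rw [eq_comm, Equiv.symm_apply_eq]
  rfl

theorem Psi_relabel {R : Type} [CommRing R] [Fintype C] (ρ : D ≃ C)
    (hC : ((Nat.card C : ℕ) : R) = -2) (K : Type) [Finite K] (hK : ((Nat.card K : ℕ) : R) = -1)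
    (β : E ≃ A × D) (σ : Equiv.Perm (A × Bool)) :
    Psi A R (Fintype.card D) (gp R (fun h => σ (vx θ h))) =
      (((Equiv.Perm.sign σ : ℤ) : R)) ^ (Fintype.card D) *
        Psi A R (Fintype.card D) (gp R (vx θ)) := by
  have h1 := formula_Psi θ ρ hC K hK β
  have h2 := formula_Psi (θ.trans (slot D σ)) ρ hC K hK β
  rw [NN_slot, h1] at h2
  have h3 : vx (θ.trans (slot D σ)) = fun h => σ (vx θ h) := rfl
  rw [h3] at h2
  have h4 : (β.prodCongr (Equiv.refl Bool)).trans (θ.trans (slot D σ)).symm =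
      ((β.prodCongr (Equiv.refl Bool)).trans ((slot D σ)⁻¹)).trans θ.symm := rfl
  have h5 : Equiv.Perm.sign ((β.prodCongr (Equiv.refl Bool)).trans (θ.trans (slot D σ)).symm) =
      Equiv.Perm.sign ((β.prodCongr (Equiv.refl Bool)).trans θ.symm) *
        (Equiv.Perm.sign σ) ^ (Fintype.card D) := by
    have h6 : (β.prodCongr (Equiv.refl Bool)).trans (θ.trans (slot D σ)).symm =
        ((β.prodCongr (Equiv.refl Bool)).trans θ.symm) *
          (((β.prodCongr (Equiv.refl Bool)).trans ((slot D σ)⁻¹)).trans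
            (β.prodCongr (Equiv.refl Bool)).symm) := by
      ext h : 1
      show θ.symm ((slot D σ)⁻¹ ((β.prodCongr (Equiv.refl Bool)) h)) =
        θ.symm ((β.prodCongr (Equiv.refl Bool)) ((β.prodCongr (Equiv.refl Bool)).symm
          ((slot D σ)⁻¹ ((β.prodCongr (Equiv.refl Bool)) h))))
      rw [Equiv.apply_symm_apply]
    rw [h6, Equiv.Perm.sign_mul, Equiv.Perm.sign_trans_trans_symm, Equiv.Perm.sign_inv, sign_slot]
  rw [h5] at h2
  push_cast at h2
  -- cancel the units
  have hs : ∀ τ : Equiv.Perm (E × Bool), ((Equiv.Perm.sign τ : ℤ) : R) *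
      ((Equiv.Perm.sign τ : ℤ) : R) = 1 := by
    intro τ
    rcases Int.units_eq_one_or (Equiv.Perm.sign τ) with h | h <;> rw [h] <;> simp
  have hσ : ((Equiv.Perm.sign σ : ℤ) : R) * ((Equiv.Perm.sign σ : ℤ) : R) = 1 := by
    rcases Int.units_eq_one_or (Equiv.Perm.sign σ) with h | h <;> rw [h] <;> simp
  have hσ' : ((Equiv.Perm.sign σ : ℤ) : R) ^ (Fintype.card D) *
      ((Equiv.Perm.sign σ : ℤ) : R) ^ (Fintype.card D) = 1 := by
    rw [← mul_pow, hσ, one_pow]
  have hc : ((cst A D E : ℤ) : R) * ((cst A D E : ℤ) : R) = 1 := by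
    have h7 : (cst A D E) * (cst A D E) = 1 := by
      unfold cst
      have h8 : (∏ v : A × Bool, sv v) * (∏ v : A × Bool, sv v) = 1 := by
        rw [← Finset.prod_mul_distrib]
        exact Finset.prod_eq_one fun v _ => sv_mul_self v
      calc _ = ((-1 : ℤ) ^ (Fintype.card E) * (-1) ^ (Fintype.card E)) *
            ((∏ v : A × Bool, sv v) * (∏ v : A × Bool, sv v)) ^ (Fintype.card D) := by ring
        _ = 1 := by rw [h8, one_pow, ← mul_pow]; norm_num
    rw [← Int.cast_mul, h7, Int.cast_one]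
  have hs' := hs ((β.prodCongr (Equiv.refl Bool)).trans θ.symm)
  generalize ((Equiv.Perm.sign ((β.prodCongr (Equiv.refl Bool)).trans θ.symm) : ℤ) : R) = s at *
  generalize ((cst A D E : ℤ) : R) = c at *
  generalize ((Equiv.Perm.sign σ : ℤ) : R) ^ (Fintype.card D) = t at *
  generalize Psi A R (Fintype.card D) (gp R (vx θ)) = P at *
  generalize Psi A R (Fintype.card D) (gp R (fun h => σ (vx θ h))) = P' at *
  have h9 : t * (c * s) * (c * s * P) = t * (c * s) * (c * (s * t) * P') := by rw [h2]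
  calc P' = (t * t) * (c * c) * (s * s) * P' := by rw [hσ', hc, hs']; ring
    _ = t * (c * s) * (c * (s * t) * P') := by ring
    _ = t * (c * s) * (c * s * P) := h9.symm
    _ = t * (c * c) * (s * s) * P := by ring
    _ = t * P := by rw [hc, hs']; ring

/-- every function with fibres of the right size comes from an incidence structure -/
theorem exists_theta (ends : E × Bool → A × Bool)
    (h : ∀ v, Nat.card {x : E × Bool // ends x = v} = Fintype.card D) :
    ∃ θ : E × Bool ≃ (A × D) × Bool, ∀ x, vx θ x = ends x := by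
  have h1 : ∀ v, Nonempty ({x : E × Bool // ends x = v} ≃ D) := by
    intro v
    classical
    refine ⟨Fintype.equivOfCardEq ?_⟩
    rw [← h v, Nat.card_eq_fintype_card]
  let e1 : (Σ v, {x : E × Bool // ends x = v}) ≃ (Σ _ : A × Bool, D) :=
    Equiv.sigmaCongrRight fun v => (h1 v).some
  let e2 : (Σ _ : A × Bool, D) ≃ (A × D) × Bool :=
    { toFun := fun z => ((z.1.1, z.2), z.1.2)
      invFun := fun z => ⟨(z.1.1, z.2), z.1.2⟩
      left_inv := fun z => rfl
      right_inv := fun z => rfl }
  refine ⟨((Equiv.sigmaFiberEquiv ends).symm.trans e1).trans e2, fun x => rfl⟩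

end

end Pool.Agent.Y342.LE
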