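import Pool.Agent.Y342.LE.NZ
import Pool.Agent.Y342.LE.Psi

/-!
# Switching two edges
-/

set_option autoImplicit false
set_option linter.unusedSectionVars false

namespace Pool.Agent.Y342.LE

open Finset Pool.Agent.W426.LE Pool.Agent.TH378.LC

/-- equal up to sign -/
def Pm {S : Type} [Ring S] (x y : S) : Prop := x = y ∨ x = -y

theorem Pm.mul {S : Type} [CommRing S] {x y x' y' : S} (h : Pm x y) (h' : Pm x' y') :
    Pm (x * x') (y * y') := by
  rcases h with rfl | rfl <;> rcases h' with rfl | rfl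
  · exact Or.inl rfl
  · exact Or.inr (by ring)
  · exact Or.inr (by ring)
  · exact Or.inl (by ring)

theorem Pm.prod {S ι : Type} [CommRing S] (s : Finset ι) (f g : ι → S)
    (h : ∀ i ∈ s, Pm (f i) (g i)) : Pm (∏ i ∈ s, f i) (∏ i ∈ s, g i) := by
  classical
  induction s using Finset.induction_on with
  | empty => exact Or.inl rfl
  | insert i s hi ih =>
    rw [Finset.prod_insert hi, Finset.prod_insert hi]
    exact (h i (Finset.mem_insert_self i s)).mul (ih fun j hj => h j (Finset.mem_insert_of_mem hj))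

theorem Pm.map_zero {S R : Type} [CommRing S] [CommRing R] {x y : S} (h : Pm x y)
    (f : S → R) (hneg : ∀ z, f (-z) = - f z) (h0 : f y = 0) : f x = 0 := by
  rcases h with rfl | rfl
  · exact h0
  · rw [hneg, h0, neg_zero]

theorem Pm.symm {S : Type} [Ring S] {x y : S} (h : Pm x y) : Pm y x := by
  rcases h with rfl | rfl
  · exact Or.inl rfl
  · exact Or.inr (neg_neg _).symm

section rep

variable {V : Type} (G : SimpleGraph V)

/-- the vertex of a half-edge -/
noncomputable def eG (h : G.edgeSet × Bool) : V :=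
  if h.2 = true then (Quot.out h.1.1).2 else (Quot.out h.1.1).1

theorem out_eq' (s : Sym2 V) : s((Quot.out s).1, (Quot.out s).2) = s := Quot.out_eq s

theorem out_mk (a b : V) : Quot.out s(a, b) = (a, b) ∨ Quot.out s(a, b) = (b, a) := by
  have h := out_eq' s(a, b)
  rw [Sym2.eq_iff] at h
  rcases h with ⟨h1, h2⟩ | ⟨h1, h2⟩
  · exact Or.inl (Prod.ext h1 h2)
  · exact Or.inr (Prod.ext h1 h2)

theorem edge_eG (h : G.edgeSet × Bool) : s(eG G h, eG G (op h)) = h.1.1 := by
  obtain ⟨e, b⟩ := h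
  cases b
  · exact out_eq' e.1
  · show s((Quot.out e.1).2, (Quot.out e.1).1) = e.1
    rw [Sym2.eq_swap]
    exact out_eq' e.1

theorem adj_eG (h : G.edgeSet × Bool) : G.Adj (eG G h) (eG G (op h)) := by
  rw [← SimpleGraph.mem_edgeSet, edge_eG]
  exact h.1.2

theorem eG_inj (x x' : G.edgeSet × Bool) (h1 : eG G x = eG G x') (h2 : eG G (op x) = eG G (op x')) :
    x = x' := by
  have h3 : x.1 = x'.1 := by
    refine Subtype.ext ?_
    rw [← edge_eG, ← edge_eG, h1, h2]
  obtain ⟨e, b⟩ := x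
  obtain ⟨e', b'⟩ := x'
  simp only at h3
  subst h3
  have h4 := (adj_eG G (e, b)).ne
  cases b <;> cases b'
  · rfl
  · exact absurd h1 h4
  · exact absurd h1 h4
  · rfl

theorem eG_surj (v w : V) (h : G.Adj v w) : ∃ x : G.edgeSet × Bool, eG G x = v ∧ eG G (op x) = w := by
  have h1 : s(v, w) ∈ G.edgeSet := h
  rcases out_mk v w with h2 | h2
  · refine ⟨(⟨s(v, w), h1⟩, false), ?_, ?_⟩
    · show (Quot.out s(v, w)).1 = v
      rw [h2]
    · show (Quot.out s(v, w)).2 = w
      rw [h2]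
  · refine ⟨(⟨s(v, w), h1⟩, true), ?_, ?_⟩
    · show (Quot.out s(v, w)).2 = v
      rw [h2]
    · show (Quot.out s(v, w)).1 = w
      rw [h2]

theorem card_fibre' (v : V) : Nat.card {x : G.edgeSet × Bool // eG G x = v} =
    Nat.card {w // G.Adj v w} := by
  refine Nat.card_eq_of_bijective (fun x => (⟨eG G (op x.1), by
    have h := adj_eG G x.1
    rwa [x.2] at h⟩ : {w // G.Adj v w})) ?_
  constructor
  · intro x x' h
    exact Subtype.ext (eG_inj G _ _ (x.2.trans x'.2.symm) (congrArg Subtype.val h))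
  · rintro ⟨w, hw⟩
    obtain ⟨x, h1, h2⟩ := eG_surj G v w hw
    exact ⟨⟨x, h1⟩, Subtype.ext h2⟩

end rep

section

variable {A : Type} [Fintype A] [DecidableEq A] {d : ℕ}

open Classical in
theorem exists_rep (G : SimpleGraph (A × Bool)) (hG : ∀ v, Nat.card {w // G.Adj v w} = d) :
    ∃ θ : G.edgeSet × Bool ≃ (A × Fin d) × Bool, Rep θ G ∧ ∀ x, vx θ x = eG G x := by
  obtain ⟨θ, hθ⟩ := exists_theta (D := Fin d) (eG G) (by
    intro v
    rw [card_fibre', hG, Fintype.card_fin])
  refine ⟨θ, ⟨?_, ?_⟩, hθ⟩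
  · intro v w
    constructor
    · intro h
      obtain ⟨x, h1, h2⟩ := eG_surj G v w h
      exact ⟨x, (hθ x).trans h1, (hθ (op x)).trans h2⟩
    · rintro ⟨x, rfl, rfl⟩
      show G.Adj (vx θ x) (vx θ (op x))
      rw [hθ, hθ]
      exact adj_eG G x
  · intro x x' h1 h2
    refine eG_inj G x x' ?_ ?_
    · rw [← hθ, ← hθ]
      exact h1
    · rw [← hθ, ← hθ]
      exact h2

/-- the factor of a pair -/
noncomputable def fc {V : Type} (R : Type) [CommRing R] (s : Sym2 V) : MvPolynomial V R :=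
  MvPolynomial.X (Quot.out s).2 - MvPolynomial.X (Quot.out s).1

theorem fc_mk {V : Type} (R : Type) [CommRing R] (a b : V) :
    Pm (fc R s(a, b)) (MvPolynomial.X a - MvPolynomial.X b) := by
  unfold fc
  rcases out_mk a b with h | h <;> rw [h]
  · exact Or.inr (by ring)
  · exact Or.inl rfl

open Classical in
theorem gp_eq (R : Type) [CommRing R] (G : SimpleGraph (A × Bool))
    (θ : G.edgeSet × Bool ≃ (A × Fin d) × Bool) (hθ : ∀ x, vx θ x = eG G x) :
    gp R (vx θ) = ∏ s ∈ G.edgeFinset, fc R s := by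
  unfold gp
  have h1 : ∀ e : G.edgeSet, (MvPolynomial.X (vx θ (e, true)) - MvPolynomial.X (vx θ (e, false)) :
      MvPolynomial (A × Bool) R) = fc R e.1 := by
    intro e
    rw [hθ, hθ]
    rfl
  rw [Finset.prod_congr rfl fun e _ => h1 e]
  have h2 := Finset.prod_coe_sort G.edgeFinset (fun s => fc R s)
  rw [← h2]
  exact Fintype.prod_equiv (Equiv.subtypeEquivRight fun s => by simp) _ _ fun e => rfl

open Classical in
theorem gp_eq' (R : Type) [CommRing R] (G G' : SimpleGraph (A × Bool))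
    (θ : G.edgeSet × Bool ≃ (A × Fin d) × Bool) (hθ : ∀ x, vx θ x = eG G x)
    (σ : Equiv.Perm (A × Bool)) (hσ : ∀ v w, G.Adj v w ↔ G'.Adj (σ v) (σ w)) :
    Pm (∏ s ∈ G'.edgeFinset, fc R s) (gp R (fun h => σ (vx θ h))) := by
  have h1 : G'.edgeFinset = G.edgeFinset.image (Sym2.map σ) := by
    ext s
    rw [Finset.mem_image]
    constructor
    · intro h
      rw [SimpleGraph.mem_edgeFinset] at h
      refine ⟨Sym2.map σ.symm s, ?_, ?_⟩
      · rw [SimpleGraph.mem_edgeFinset]
        induction s using Sym2.ind with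
        | _ v w =>
          rw [Sym2.map_mk, SimpleGraph.mem_edgeSet, hσ]
          simpa using h
      · rw [Sym2.map_map]
        have : (σ ∘ σ.symm) = id := by
          funext v
          simp
        rw [this, Sym2.map_id]
        rfl
    · rintro ⟨s', h, rfl⟩
      rw [SimpleGraph.mem_edgeFinset] at h ⊢
      induction s' using Sym2.ind with
      | _ v w =>
        rw [Sym2.map_mk, SimpleGraph.mem_edgeSet, ← hσ]
        exact h
  rw [h1, Finset.prod_image (fun a _ b _ h => Sym2.map.injective σ.injective h)]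
  have h2 : gp R (fun h => σ (vx θ h)) = ∏ s ∈ G.edgeFinset,
      (MvPolynomial.X (σ (Quot.out s).2) - MvPolynomial.X (σ (Quot.out s).1) :
        MvPolynomial (A × Bool) R) := by
    unfold gp
    have h3 := Finset.prod_coe_sort G.edgeFinset (fun s =>
      (MvPolynomial.X (σ (Quot.out s).2) - MvPolynomial.X (σ (Quot.out s).1) :
        MvPolynomial (A × Bool) R))
    rw [← h3]
    refine Fintype.prod_equiv (Equiv.subtypeEquivRight fun s => by simp) _ _ fun e => ?_
    beta_reduce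
    rw [hθ, hθ]
    rfl
  rw [h2]
  refine Pm.prod _ _ _ fun s _ => ?_
  have h4 : Sym2.map σ s = s(σ (Quot.out s).2, σ (Quot.out s).1) := by
    conv_lhs => rw [← out_eq' s]
    rw [Sym2.map_mk, Sym2.eq_swap]
  rw [h4]
  exact fc_mk R _ _

theorem sv_cast_ne {p : ℕ} [Fact p.Prime] (v : A × Bool) : ((sv v : ℤ) : ZMod p) ≠ 0 := by
  unfold sv
  split_ifs <;> simp

theorem cst_cast_ne {p : ℕ} [Fact p.Prime] (D E : Type) [Fintype D] [Fintype E] :
    ((cst A D E : ℤ) : ZMod p) ≠ 0 := by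
  unfold cst
  push_cast
  exact mul_ne_zero (pow_ne_zero _ (by simp))
    (pow_ne_zero _ (Finset.prod_ne_zero_iff.2 fun v _ => sv_cast_ne v))

theorem cast_p1 {p : ℕ} (hp : p.Prime) : ((Nat.card (Fin (p - 1)) : ℕ) : ZMod p) = -1 := by
  have h2 := hp.two_le
  rw [Nat.card_eq_fintype_card, Fintype.card_fin, Nat.cast_sub (by omega), ZMod.natCast_self]
  simp

theorem cast_p2 {p : ℕ} (hp : p.Prime) : ((Nat.card (Fin (p - 2)) : ℕ) : ZMod p) = -2 := by
  have h2 := hp.two_le
  rw [Nat.card_eq_fintype_card, Fintype.card_fin, Nat.cast_sub h2, ZMod.natCast_self]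
  simp

theorem Psi_zero_iff {p : ℕ} [hp : Fact p.Prime] {E : Type} [Fintype E] [DecidableEq E]
    (θ : E × Bool ≃ (A × Fin (p - 2)) × Bool) :
    ((NN (Equiv.refl (Fin (p - 2))) (inc θ) : ℤ) : ZMod p) = 0 ↔
      Psi A (ZMod p) (p - 2) (gp (ZMod p) (vx θ)) = 0 := by
  have hβ : Nonempty (E ≃ A × Fin (p - 2)) := by
    have h1 := Fintype.card_congr θ
    rw [Fintype.card_prod, Fintype.card_prod (A × Fin (p - 2)), Fintype.card_bool] at h1
    exact ⟨Fintype.equivOfCardEq (by omega)⟩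
  obtain ⟨β⟩ := hβ
  have hf := formula_Psi θ (Equiv.refl (Fin (p - 2))) (cast_p2 hp.out) (Fin (p - 1))
    (cast_p1 hp.out) β
  rw [Fintype.card_fin] at hf
  rw [hf]
  constructor
  · intro h
    rcases mul_eq_zero.1 h with h | h
    · exfalso
      rcases mul_eq_zero.1 h with h | h
      · exact cst_cast_ne _ _ h
      · rcases Int.units_eq_one_or (Equiv.Perm.sign ((β.prodCongr (Equiv.refl Bool)).trans θ.symm))
          with h' | h' <;> rw [h'] at h <;> simp at h
    · exact h
  · intro h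
    rw [h, mul_zero]

theorem Psi_relabel_zero {p : ℕ} [hp : Fact p.Prime] {E : Type} [Fintype E] [DecidableEq E]
    (θ : E × Bool ≃ (A × Fin (p - 2)) × Bool) (σ : Equiv.Perm (A × Bool))
    (h : Psi A (ZMod p) (p - 2) (gp (ZMod p) (vx θ)) = 0) :
    Psi A (ZMod p) (p - 2) (gp (ZMod p) (fun h => σ (vx θ h))) = 0 := by
  have hβ : Nonempty (E ≃ A × Fin (p - 2)) := by
    have h1 := Fintype.card_congr θ
    rw [Fintype.card_prod, Fintype.card_prod (A × Fin (p - 2)), Fintype.card_bool] at h1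
    exact ⟨Fintype.equivOfCardEq (by omega)⟩
  obtain ⟨β⟩ := hβ
  have hf := Psi_relabel θ (Equiv.refl (Fin (p - 2))) (cast_p2 hp.out) (Fin (p - 1))
    (cast_p1 hp.out) β σ
  rw [Fintype.card_fin] at hf
  rw [hf, h, mul_zero]

open Classical in
/-- **Exchange property**, on the vertex set `A × Bool`. -/
theorem switch_core {p : ℕ} [hp : Fact p.Prime] (G G1 G2 : SimpleGraph (A × Bool))
    (a b c e : A × Bool) (E0 : Finset (Sym2 (A × Bool)))
    (hG : G.edgeFinset = insert s(a, b) (insert s(c, e) E0))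
    (h1 : s(a, b) ∉ insert s(c, e) E0) (h2 : s(c, e) ∉ E0)
    (hG1 : G1.edgeFinset = insert s(a, c) (insert s(b, e) E0))
    (h3 : s(a, c) ∉ insert s(b, e) E0) (h4 : s(b, e) ∉ E0)
    (hG2 : G2.edgeFinset = insert s(a, e) (insert s(b, c) E0))
    (h5 : s(a, e) ∉ insert s(b, c) E0) (h6 : s(b, c) ∉ E0)
    (hd : ∀ v, Nat.card {w // G.Adj v w} = p - 2)
    (hd1 : ∀ v, Nat.card {w // G1.Adj v w} = p - 2)
    (hd2 : ∀ v, Nat.card {w // G2.Adj v w} = p - 2)
    (h : NZ p (p - 2) G) : NZ p (p - 2) G1 ∨ NZ p (p - 2) G2 := by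
  obtain ⟨θ, hθ, hθv⟩ := exists_rep G hd
  obtain ⟨θ1, hθ1, hθ1v⟩ := exists_rep G1 hd1
  obtain ⟨θ2, hθ2, hθ2v⟩ := exists_rep G2 hd2
  by_contra hcon
  push Not at hcon
  have h0 : ((NN (Equiv.refl (Fin (p - 2))) (inc θ1) : ℤ) : ZMod p) = 0 := by
    by_contra h0
    exact hcon.1 (hθ1.NZ p h0)
  have h8 : ((NN (Equiv.refl (Fin (p - 2))) (inc θ2) : ℤ) : ZMod p) = 0 := by
    by_contra h0
    exact hcon.2 (hθ2.NZ p h0)
  refine hθ.NN_ne p h ?_
  rw [Psi_zero_iff] at h0 h8 ⊢
  rw [gp_eq _ G1 θ1 hθ1v, hG1, Finset.prod_insert h3, Finset.prod_insert h4] at h0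
  rw [gp_eq _ G2 θ2 hθ2v, hG2, Finset.prod_insert h5, Finset.prod_insert h6] at h8
  rw [gp_eq _ G θ hθv, hG, Finset.prod_insert h1, Finset.prod_insert h2]
  let x : A × Bool → MvPolynomial (A × Bool) (ZMod p) := MvPolynomial.X
  let R := ∏ s ∈ E0, fc (ZMod p) s
  have hm : ∀ u v w z : A × Bool, Pm (fc (ZMod p) s(u, v) * (fc (ZMod p) s(w, z) * R))
      ((x u - x v) * ((x w - x z) * R)) := fun u v w z =>
    (fc_mk (ZMod p) u v).mul ((fc_mk (ZMod p) w z).mul (Or.inl rfl))
  have h9 := (hm a c b e).symm.map_zero (Psi A (ZMod p) (p - 2)) (fun z => map_neg _ z) h0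
  have h10 := (hm a e b c).symm.map_zero (Psi A (ZMod p) (p - 2)) (fun z => map_neg _ z) h8
  refine (hm a b c e).map_zero (Psi A (ZMod p) (p - 2)) (fun z => map_neg _ z) ?_
  have h11 : (x a - x b) * ((x c - x e) * R) = (x a - x c) * ((x b - x e) * R) -
      (x a - x e) * ((x b - x c) * R) := by ring
  rw [h11, map_sub, h9, h10, sub_zero]

end

/-- the graph `G` without the edges `ab`, `ce` and with the new edges `ac`, `be` -/
def gswitch {V : Type} (G : SimpleGraph V) (a b c e : V) : SimpleGraph V :=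
  SimpleGraph.fromEdgeSet ((G.edgeSet \ {s(a, b), s(c, e)}) ∪ {s(a, c), s(b, e)})

theorem gswitch_edge {V : Type} (G : SimpleGraph V) (a b c e : V) (hac : a ≠ c) (hbe : b ≠ e) :
    (gswitch G a b c e).edgeSet = (G.edgeSet \ {s(a, b), s(c, e)}) ∪ {s(a, c), s(b, e)} := by
  unfold gswitch
  rw [SimpleGraph.edgeSet_fromEdgeSet]
  ext s
  simp only [Set.mem_sdiff, Set.mem_union, Set.mem_insert_iff, Set.mem_singleton_iff]
  constructor
  · exact fun h => h.1
  · intro h
    refine ⟨h, fun hs => ?_⟩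
    rcases h with h | rfl | rfl
    · exact SimpleGraph.not_isDiag_of_mem_edgeSet G h.1 hs
    · exact hac (Sym2.mk_isDiag_iff.1 hs)
    · exact hbe (Sym2.mk_isDiag_iff.1 hs)

theorem deg_eq {V : Type} [Fintype V] [DecidableEq V] (G : SimpleGraph V) [Fintype G.edgeSet]
    (v : V) : Nat.card {w // G.Adj v w} = (G.edgeFinset.filter (fun s => v ∈ s)).card := by
  classical
  have h1 : Nat.card {w // G.Adj v w} = G.degree v := by
    rw [Nat.card_eq_fintype_card, ← SimpleGraph.card_neighborSet_eq_degree]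
    rfl
  rw [h1, ← SimpleGraph.card_incidenceFinset_eq_degree, SimpleGraph.incidenceFinset_eq_filter]

theorem deg_switch {V : Type} [Fintype V] [DecidableEq V] (G G1 : SimpleGraph V)
    [Fintype G.edgeSet] [Fintype G1.edgeSet] (a b c e : V) (hab : a ≠ b) (hac : a ≠ c)
    (hae : a ≠ e) (hbc : b ≠ c) (hbe : b ≠ e) (hce : c ≠ e) (E0 : Finset (Sym2 V))
    (hG : G.edgeFinset = insert s(a, b) (insert s(c, e) E0))
    (h1 : s(a, b) ∉ insert s(c, e) E0) (h2 : s(c, e) ∉ E0)
    (hG1 : G1.edgeFinset = insert s(a, c) (insert s(b, e) E0))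
    (h3 : s(a, c) ∉ insert s(b, e) E0) (h4 : s(b, e) ∉ E0) (v : V) :
    Nat.card {w // G1.Adj v w} = Nat.card {w // G.Adj v w} := by
  rw [deg_eq, deg_eq, hG, hG1, Finset.card_filter, Finset.card_filter, Finset.sum_insert h1,
    Finset.sum_insert h2, Finset.sum_insert h3, Finset.sum_insert h4, ← add_assoc, ← add_assoc]
  congr 1
  simp only [Sym2.mem_iff]
  by_cases hva : v = a
  · subst hva
    simp [hab, hac, hae]
  · by_cases hvb : v = b
    · subst hvb
      simp [hva, hbc, hbe]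
    · by_cases hvc : v = c
      · subst hvc
        simp [hva, hvb, hce]
      · by_cases hve : v = e
        · subst hve
          simp [hva, hvb, hvc]
        · simp [hva, hvb, hvc, hve]

theorem Fac.card {V : Type} {d : ℕ} {G : SimpleGraph V} {F : Fin d → V → V} (hF : Fac d G F)
    (v : V) : Nat.card {w // G.Adj v w} = d := by
  have h : Nat.card {w // G.Adj v w} = Nat.card (Fin d) := by
    symm
    refine Nat.card_eq_of_bijective (fun i => (⟨F i v, (hF.adj _ _).2 ⟨i, rfl⟩⟩ : {w // G.Adj v w})) ?_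
    constructor
    · intro i j h
      exact hF.inj v i j (congrArg Subtype.val h)
    · rintro ⟨w, hw⟩
      obtain ⟨i, rfl⟩ := (hF.adj _ _).1 hw
      exact ⟨i, rfl⟩
  rw [h, Nat.card_eq_fintype_card, Fintype.card_fin]

theorem NZ.exchange_aux {A : Type} [Fintype A] [DecidableEq A] {p : ℕ} [hp : Fact p.Prime]
    (G : SimpleGraph (A × Bool)) (a b c e : A × Bool) (hab : G.Adj a b) (hce : G.Adj c e)
    (hac : a ≠ c) (hae : a ≠ e) (hbc : b ≠ c) (hbe : b ≠ e)
    (nac : ¬ G.Adj a c) (nae : ¬ G.Adj a e) (nbc : ¬ G.Adj b c) (nbe : ¬ G.Adj b e)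
    (h : NZ p (p - 2) G) :
    NZ p (p - 2) (gswitch G a b c e) ∨ NZ p (p - 2) (gswitch G a b e c) := by
  classical
  have hab' := hab.ne
  have hce' := hce.ne
  have h' := h
  obtain ⟨-, F, hF, -⟩ := h'
  let E0 : Finset (Sym2 (A × Bool)) := G.edgeFinset \ {s(a, b), s(c, e)}
  have nE : ∀ s : Sym2 (A × Bool), s ∉ G.edgeSet → s ∉ E0 := by
    intro s hs h1
    rw [Finset.mem_sdiff, SimpleGraph.mem_edgeFinset] at h1
    exact hs h1.1
  have hG : G.edgeFinset = insert s(a, b) (insert s(c, e) E0) := by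
    ext s
    simp only [E0, Finset.mem_insert, Finset.mem_sdiff, Finset.mem_singleton,
      SimpleGraph.mem_edgeFinset]
    constructor
    · intro hs
      by_cases h1 : s = s(a, b)
      · exact Or.inl h1
      · by_cases h2 : s = s(c, e)
        · exact Or.inr (Or.inl h2)
        · exact Or.inr (Or.inr ⟨hs, fun h3 => h3.elim h1 h2⟩)
    · rintro (rfl | rfl | h1)
      · exact hab
      · exact hce
      · exact h1.1
  have hG1 : (gswitch G a b c e).edgeFinset = insert s(a, c) (insert s(b, e) E0) := by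
    ext s
    rw [SimpleGraph.mem_edgeFinset, gswitch_edge G a b c e hac hbe]
    simp only [E0, Finset.mem_insert, Finset.mem_sdiff, Finset.mem_singleton,
      SimpleGraph.mem_edgeFinset, Set.mem_union, Set.mem_sdiff, Set.mem_insert_iff,
      Set.mem_singleton_iff]
    tauto
  have hG2 : (gswitch G a b e c).edgeFinset = insert s(a, e) (insert s(b, c) E0) := by
    ext s
    rw [SimpleGraph.mem_edgeFinset, gswitch_edge G a b e c hae hbc]
    simp only [E0, Finset.mem_insert, Finset.mem_sdiff, Finset.mem_singleton,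
      SimpleGraph.mem_edgeFinset, Set.mem_union, Set.mem_sdiff, Set.mem_insert_iff,
      Set.mem_singleton_iff, Sym2.eq_swap (a := e) (b := c)]
    tauto
  have h1 : s(a, b) ∉ insert s(c, e) E0 := by
    simp only [E0, Finset.mem_insert, Finset.mem_sdiff, Finset.mem_singleton, not_or]
    refine ⟨?_, fun h2 => h2.2.1 trivial⟩
    intro h2
    rw [Sym2.eq_iff] at h2
    rcases h2 with h2 | h2
    · exact hac h2.1
    · exact hae h2.1
  have h2 : s(c, e) ∉ E0 := by
    simp only [E0, Finset.mem_sdiff, Finset.mem_insert, Finset.mem_singleton]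
    exact fun h3 => h3.2 (Or.inr trivial)
  have h3 : s(a, c) ∉ insert s(b, e) E0 := by
    rw [Finset.mem_insert, not_or]
    refine ⟨?_, nE _ nac⟩
    intro h2
    rw [Sym2.eq_iff] at h2
    rcases h2 with h2 | h2
    · exact hab' h2.1
    · exact hae h2.1
  have h5 : s(a, e) ∉ insert s(b, c) E0 := by
    rw [Finset.mem_insert, not_or]
    refine ⟨?_, nE _ nae⟩
    intro h2
    rw [Sym2.eq_iff] at h2
    rcases h2 with h2 | h2
    · exact hab' h2.1
    · exact hac h2.1
  have hGc : G.edgeFinset = insert s(a, b) (insert s(e, c) E0) := by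
    rw [Sym2.eq_swap (a := e) (b := c)]
    exact hG
  have hd := hF.card
  refine switch_core G _ _ a b c e E0 hG h1 h2 hG1 h3 (nE _ nbe) hG2 h5 (nE _ nbc) hd ?_ ?_ h
  · intro v
    rw [deg_switch G _ a b c e hab' hac hae hbc hbe hce' E0 hG h1 h2 hG1 h3 (nE _ nbe)]
    exact hd v
  · intro v
    rw [deg_switch G _ a b e c hab' hae hac hbe hbc hce'.symm E0 hGc (by
      rw [Sym2.eq_swap (a := e) (b := c)]; exact h1) (by
      rw [Sym2.eq_swap (a := e) (b := c)]; exact h2) hG2 h5 (nE _ nbc)]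
    exact hd v

end Pool.Agent.Y342.LE
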