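import Pool.Agent.Y342.LE.CfgMain
import Pool.Agent.Y342.LE.SW

/-!
# The signed number of colourings of a configuration
-/

set_option autoImplicit false
set_option linter.unusedSectionVars false

namespace Pool.Agent.Y342.LE.Cfg

open Finset Equiv Pool.Agent.W426.LE Pool.Agent.Y342.LE

section defs

variable {A : Type} [Fintype A] [DecidableEq A] {D : ℕ}

/-- the half-edges -/
abbrev HH (A : Type) (D : ℕ) : Type := (A × Fin D) × Bool

/-- the vertex of a half-edge -/
def vt0 (h : HH A D) : A × Bool := (h.1.1, h.2)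

/-- the half-edge `i` at the vertex `u` -/
def mk0 (u : A × Bool) (i : Fin D) : HH A D := ((u.1, i), u.2)

theorem mk0_vt0 (h : HH A D) : mk0 (vt0 h) h.1.2 = h := rfl

theorem vt0_mk0 (u : A × Bool) (i : Fin D) : vt0 (mk0 u i) = u := rfl

/-- the weight of a colouring -/
noncomputable def ww (y : HH A D → Fin D) : ℤ :=
  ∏ u : A × Bool, sg (Equiv.refl (Fin D)) (fun i => y (mk0 u i))

open Classical in
/-- the signed number of colourings of a configuration -/
noncomputable def FZ (τ : Perm (HH A D)) : ℤ :=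
  ∑ y ∈ univ.filter (fun y : HH A D → Fin D => ∀ h, y (τ h) = y h), ww y

theorem FZ_loop {τ : Perm (HH A D)} (hM : Mt τ) (h0 : FZ τ ≠ 0) (h : HH A D) :
    vt0 (τ h) ≠ vt0 h := by
  intro hv
  apply h0
  unfold FZ
  refine Finset.sum_eq_zero fun y hy => ?_
  have hy' := (Finset.mem_filter.1 hy).2
  unfold ww
  refine Finset.prod_eq_zero (Finset.mem_univ (vt0 h)) ?_
  refine sg_of_not_inj _ _ fun hinj => ?_
  have h1 : y (mk0 (vt0 h) (τ h).1.2) = y (mk0 (vt0 h) h.1.2) := by
    rw [mk0_vt0, ← hv, mk0_vt0, hy']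
  have h2 := hinj h1
  apply hM.2 h
  calc τ h = mk0 (vt0 (τ h)) (τ h).1.2 := rfl
    _ = mk0 (vt0 h) h.1.2 := by rw [hv]; exact congrArg _ h2
    _ = h := rfl

theorem FZ_conj (ρ τ : Perm (HH A D)) : FZ (ρ * τ * ρ⁻¹) =
    ∑ z ∈ univ.filter (fun y : HH A D → Fin D => ∀ h, y (τ h) = y h), ww (fun h => z (ρ⁻¹ h)) := by
  classical
  unfold FZ
  refine Finset.sum_nbij' (fun y h => y (ρ h)) (fun z h => z (ρ⁻¹ h)) ?_ ?_ ?_ ?_ ?_
  · intro y hy
    rw [Finset.mem_filter] at hy ⊢
    refine ⟨Finset.mem_univ _, fun h => ?_⟩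
    have h1 := hy.2 (ρ h)
    simp only [Perm.mul_apply] at h1
    rw [show ρ⁻¹ (ρ h) = h from ρ.symm_apply_apply h] at h1
    exact h1
  · intro z hz
    rw [Finset.mem_filter] at hz ⊢
    refine ⟨Finset.mem_univ _, fun h => ?_⟩
    simp only [Perm.mul_apply]
    rw [show ρ⁻¹ (ρ (τ (ρ⁻¹ h))) = τ (ρ⁻¹ h) from ρ.symm_apply_apply _]
    exact hz.2 _
  · intro y _
    funext h
    show y (ρ (ρ⁻¹ h)) = y h
    rw [show ρ (ρ⁻¹ h) = h from ρ.apply_symm_apply h]
  · intro z _
    funext h
    show z (ρ⁻¹ (ρ h)) = z h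
    rw [show ρ⁻¹ (ρ h) = h from ρ.symm_apply_apply h]
  · intro y _
    congr 1
    funext h
    show y h = y (ρ (ρ⁻¹ h))
    rw [show ρ (ρ⁻¹ h) = h from ρ.apply_symm_apply h]

theorem FZ_alt (τ : Perm (HH A D)) (g : Fin (D + 1) ↪ HH A D) :
    ∑ σ : Perm (Fin (D + 1)), (Perm.sign σ : ℤ) *
      FZ (Perm.viaEmbeddingHom g σ * τ * (Perm.viaEmbeddingHom g σ)⁻¹) = 0 := by
  classical
  have h1 : ∀ σ : Perm (Fin (D + 1)), (Perm.sign σ : ℤ) *
      FZ (Perm.viaEmbeddingHom g σ * τ * (Perm.viaEmbeddingHom g σ)⁻¹) =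
      ∑ z ∈ univ.filter (fun y : HH A D → Fin D => ∀ h, y (τ h) = y h),
        (Perm.sign σ : ℤ) * ww (fun h => z ((Perm.viaEmbeddingHom g σ)⁻¹ h)) := by
    intro σ
    rw [FZ_conj, Finset.mul_sum]
  rw [Finset.sum_congr rfl fun σ _ => h1 σ, Finset.sum_comm]
  refine Finset.sum_eq_zero fun z _ => ?_
  obtain ⟨a, b, hab, hz⟩ := Fintype.exists_ne_map_eq_of_card_lt (fun i : Fin (D + 1) => z (g i))
    (by simp)
  have hsw : ∀ x, z (swap (g a) (g b) x) = z x := by
    intro x
    by_cases h1 : x = g a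
    · rw [h1, swap_apply_left, hz]
    · by_cases h2 : x = g b
      · rw [h2, swap_apply_right, hz]
      · rw [swap_apply_of_ne_of_ne h1 h2]
  refine Finset.sum_involution (fun σ _ => σ * swap a b) ?_ ?_ ?_ ?_
  · intro σ _
    have h2 : (fun h => z ((Perm.viaEmbeddingHom g (σ * swap a b))⁻¹ h)) =
        fun h => z ((Perm.viaEmbeddingHom g σ)⁻¹ h) := by
      funext h
      rw [map_mul, via_swap, mul_inv_rev, swap_inv, Perm.mul_apply, hsw]
    rw [h2, Perm.sign_mul, Perm.sign_swap hab]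
    push_cast
    ring
  · intro σ _ _ h
    have h2 : swap a b = 1 := by
      rw [← mul_right_inj σ, mul_one]
      exact h
    exact hab (swap_eq_one_iff.1 h2)
  · intro σ _
    exact Finset.mem_univ _
  · intro σ _
    rw [mul_assoc, swap_mul_self, mul_one]

/-- `θ` is a labelling of the edges of `τ` -/
def Cp (τ θ : Perm (HH A D)) : Prop := ∀ e b, τ (θ (e, b)) = θ (e, !b)

theorem Cp.cj {τ θ : Perm (HH A D)} (h : Cp τ θ) (x y : HH A D) :
    Cp (cj x y τ) (swap x y * θ) := by
  intro e b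
  unfold Cfg.cj
  simp only [Perm.mul_apply]
  rw [swap_apply_self, h]

theorem FZ_eq_NN {τ θ : Perm (HH A D)} (h : Cp τ θ) :
    FZ τ = NN (Equiv.refl (Fin D)) (inc θ) := by
  classical
  have hNN : NN (Equiv.refl (Fin D)) (inc θ) =
      ∑ x : A × Fin D → Fin D, ∏ v, sg (Equiv.refl (Fin D)) (fun i => x (inc θ v i)) := by
    unfold NN
    refine Finset.sum_congr ?_ fun _ _ => rfl
    ext x
    simp only [Finset.mem_univ]
  rw [hNN]
  unfold FZ
  refine Finset.sum_nbij' (fun y e => y (θ (e, false))) (fun x h => x (θ.symm h).1) ?_ ?_ ?_ ?_ ?_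
  · intro y _
    exact Finset.mem_univ _
  · intro x _
    rw [Finset.mem_filter]
    refine ⟨Finset.mem_univ _, fun z => ?_⟩
    obtain ⟨⟨e, b⟩, rfl⟩ := θ.surjective z
    show x (θ.symm (τ (θ (e, b)))).1 = x (θ.symm (θ (e, b))).1
    rw [h, Equiv.symm_apply_apply, Equiv.symm_apply_apply]
  · intro y hy
    rw [Finset.mem_filter] at hy
    funext z
    obtain ⟨⟨e, b⟩, rfl⟩ := θ.surjective z
    rw [Equiv.symm_apply_apply]
    cases b
    · rfl
    · rw [← hy.2 (θ (e, true)), h]
      rfl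
  · intro x _
    funext e
    simp
  · intro y hy
    rw [Finset.mem_filter] at hy
    unfold ww
    refine Finset.prod_congr rfl fun u _ => ?_
    congr 1
    funext i
    unfold inc
    show y (mk0 u i) = y (θ ((θ.symm (mk0 u i)).1, false))
    obtain ⟨⟨e, b⟩, hz⟩ := θ.surjective (mk0 u i)
    rw [← hz, Equiv.symm_apply_apply]
    cases b
    · rfl
    · rw [← hy.2 (θ (e, true)), h]
      rfl

theorem exists_Cp {τ : Perm (HH A D)} (hM : Mt τ) : ∃ θ, Cp τ θ := by
  classical
  let ν := Fintype.equivFin (HH A D)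
  let P : Type := {x : HH A D // ν x < ν (τ x)}
  let f : P × Bool → HH A D := fun q => if q.2 = true then τ q.1.1 else q.1.1
  have hf : Function.Bijective f := by
    constructor
    · rintro ⟨⟨x, hx⟩, b⟩ ⟨⟨x', hx'⟩, b'⟩ h
      cases b <;> cases b' <;> simp only [f, Bool.false_eq_true, if_false, if_true] at h
      · subst h; rfl
      · subst h
        rw [hM.1] at hx
        exact absurd hx (not_lt.2 hx'.le)
      · subst h
        rw [hM.1] at hx'
        exact absurd hx' (not_lt.2 hx.le)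
      · have := τ.injective h
        subst this; rfl
    · intro z
      rcases lt_trichotomy (ν z) (ν (τ z)) with h | h | h
      · exact ⟨(⟨z, h⟩, false), rfl⟩
      · exact absurd (ν.injective h).symm (hM.2 z)
      · refine ⟨(⟨τ z, by rw [hM.1]; exact h⟩, true), ?_⟩
        show τ (τ z) = z
        exact hM.1 z
  let e1 : P × Bool ≃ HH A D := Equiv.ofBijective f hf
  have hc : Fintype.card P = Fintype.card (A × Fin D) := by
    have h1 := Fintype.card_congr e1
    have h2 : Fintype.card (HH A D) = Fintype.card (A × Fin D) * Fintype.card Bool :=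
      Fintype.card_prod _ _
    have h3 : Fintype.card (P × Bool) = Fintype.card P * Fintype.card Bool := Fintype.card_prod _ _
    have h4 := h3.symm.trans (h1.trans h2)
    exact Nat.eq_of_mul_eq_mul_right (by simp) h4
  let e2 : A × Fin D ≃ P := (Fintype.equivOfCardEq hc).symm
  refine ⟨(e2.prodCongr (Equiv.refl Bool)).trans e1, fun e b => ?_⟩
  show τ (f (e2 e, b)) = f (e2 e, !b)
  cases b
  · rfl
  · show τ (τ (e2 e).1) = (e2 e).1
    exact hM.1 _

/-- changing the orientation of the edges -/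
def reor (E : Type) (ω : E → Bool) : Perm (E × Bool) where
  toFun z := (z.1, xor z.2 (ω z.1))
  invFun z := (z.1, xor z.2 (ω z.1))
  left_inv z := by simp
  right_inv z := by simp

theorem exists_Cp2 {τ : Perm (HH A D)} (hM : Mt τ) {a c : HH A D} (hca : c ≠ a) (hcb : c ≠ τ a) :
    ∃ θ, Cp τ θ ∧ ∃ e f, e ≠ f ∧ θ (e, false) = a ∧ θ (f, false) = c := by
  classical
  obtain ⟨θ, hθ⟩ := exists_Cp hM
  obtain ⟨⟨e, b⟩, he⟩ := θ.surjective a
  obtain ⟨⟨f, b'⟩, hf⟩ := θ.surjective c
  have hef : e ≠ f := by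
    rintro rfl
    by_cases hb : b = b'
    · subst hb
      exact hca (hf.symm.trans he)
    · have hb' : b' = !b := by
        cases b <;> cases b' <;> simp_all
      apply hcb
      rw [← he, hθ, ← hf, hb']
  let ω : A × Fin D → Bool := fun x => if x = e then b else if x = f then b' else false
  have hωe : ω e = b := if_pos rfl
  have hωf : ω f = b' := by
    show (if f = e then b else if f = f then b' else false) = b'
    rw [if_neg (Ne.symm hef), if_pos rfl]
  refine ⟨(reor _ ω).trans θ, ?_, e, f, hef, ?_, ?_⟩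
  · intro e' b''
    show τ (θ (e', xor b'' (ω e'))) = θ (e', xor (!b'') (ω e'))
    rw [hθ]
    congr 2
    cases b'' <;> cases ω e' <;> rfl
  · show θ (e, xor false (ω e)) = a
    rw [hωe, ← he]
    congr 2
    cases b <;> rfl
  · show θ (f, xor false (ω f)) = c
    rw [hωf, ← hf]
    congr 2
    cases b' <;> rfl

theorem prod_split {E M : Type} [Fintype E] [DecidableEq E] [CommMonoid M] (g : E → M) {e f : E}
    (hef : e ≠ f) : ∏ x, g x = g e * (g f * ∏ x ∈ (univ.erase e).erase f, g x) := by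
  rw [← Finset.mul_prod_erase univ g (Finset.mem_univ e),
    ← Finset.mul_prod_erase (univ.erase e) g (Finset.mem_erase.2 ⟨hef.symm, Finset.mem_univ f⟩)]

end defs

section prime

variable {A : Type} [Fintype A] [DecidableEq A] {p : ℕ}

/-- the signed number modulo `p` -/
noncomputable def Fp (p : ℕ) (τ : Perm (HH A (p - 2))) : ZMod p := ((FZ τ : ℤ) : ZMod p)

theorem Fp_formula (hp : p.Prime) {τ θ : Perm (HH A (p - 2))} (h : Cp τ θ) :
    Fp p τ = ((cst A (Fin (p - 2)) (A × Fin (p - 2)) : ℤ) : ZMod p) *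
      ((Perm.sign θ : ℤ) : ZMod p) * Psi A (ZMod p) (p - 2) (gp (ZMod p) (vx θ)) := by
  have hf := formula_Psi θ (Equiv.refl (Fin (p - 2))) (cast_p2 hp) (Fin (p - 1))
    (cast_p1 hp) (Equiv.refl _)
  rw [Fintype.card_fin] at hf
  unfold Fp
  rw [FZ_eq_NN h, hf]
  have h1 : (((Equiv.refl (A × Fin (p - 2))).prodCongr (Equiv.refl Bool)).trans θ.symm) = θ⁻¹ := by
    ext z : 1
    rfl
  rw [h1, Perm.sign_inv]

theorem Fp_three (hp : p.Prime) {τ : Perm (HH A (p - 2))} (hM : Mt τ) {a c : HH A (p - 2)}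
    (hca : c ≠ a) (hcb : c ≠ τ a) :
    Fp p τ + Fp p (cj (τ a) c τ) + Fp p (cj (τ a) (τ c) τ) = 0 := by
  obtain ⟨θ, hθ, e, f, hef, he, hf⟩ := exists_Cp2 hM hca hcb
  have hb : θ (e, true) = τ a := by rw [← he, hθ]; rfl
  have hd : θ (f, true) = τ c := by rw [← hf, hθ]; rfl
  have hda : τ c ≠ a := by
    intro h
    apply hcb
    rw [← h, hM.1]
  have hdb : τ c ≠ τ a := fun h => hca (τ.injective h)
  rw [Fp_formula hp hθ, Fp_formula hp (hθ.cj (τ a) c), Fp_formula hp (hθ.cj (τ a) (τ c)),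
    Perm.sign_mul, Perm.sign_mul, Perm.sign_swap hcb.symm, Perm.sign_swap hdb.symm]
  have key : gp (ZMod p) (vx θ) = gp (ZMod p) (vx (swap (τ a) c * θ)) +
      gp (ZMod p) (vx (swap (τ a) (τ c) * θ)) := by
    unfold gp
    rw [prod_split _ hef, prod_split _ hef, prod_split _ hef]
    have hrest : ∀ (y : HH A (p - 2)), (y = c ∨ y = τ c) →
        ∏ x ∈ (univ.erase e).erase f, ((MvPolynomial.X (vx (swap (τ a) y * θ) (x, true)) :
          MvPolynomial (A × Bool) (ZMod p)) - MvPolynomial.X (vx (swap (τ a) y * θ) (x, false))) =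
        ∏ x ∈ (univ.erase e).erase f, (MvPolynomial.X (vx θ (x, true)) -
          MvPolynomial.X (vx θ (x, false))) := by
      intro y hy
      refine Finset.prod_congr rfl fun x hx => ?_
      rw [Finset.mem_erase, Finset.mem_erase] at hx
      have h1 : ∀ b, (swap (τ a) y * θ) (x, b) = θ (x, b) := by
        intro b
        rw [Perm.mul_apply, swap_apply_of_ne_of_ne]
        · rw [← hb]
          intro h
          exact hx.2.1 (congrArg Prod.fst (θ.injective h))
        · rcases hy with rfl | rfl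
          · rw [← hf]
            intro h
            exact hx.1 (congrArg Prod.fst (θ.injective h))
          · rw [← hd]
            intro h
            exact hx.1 (congrArg Prod.fst (θ.injective h))
      unfold vx
      rw [h1, h1]
    rw [hrest c (Or.inl rfl), hrest (τ c) (Or.inr rfl)]
    have w1 : (swap (τ a) c * θ) (e, true) = c := by
      rw [Perm.mul_apply, hb, swap_apply_left]
    have w2 : (swap (τ a) c * θ) (e, false) = a := by
      rw [Perm.mul_apply, he, swap_apply_of_ne_of_ne (hM.2 a).symm hca.symm]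
    have w3 : (swap (τ a) c * θ) (f, true) = τ c := by
      rw [Perm.mul_apply, hd, swap_apply_of_ne_of_ne hdb (hM.2 c)]
    have w4 : (swap (τ a) c * θ) (f, false) = τ a := by
      rw [Perm.mul_apply, hf, swap_apply_right]
    have w5 : (swap (τ a) (τ c) * θ) (e, true) = τ c := by
      rw [Perm.mul_apply, hb, swap_apply_left]
    have w6 : (swap (τ a) (τ c) * θ) (e, false) = a := by
      rw [Perm.mul_apply, he, swap_apply_of_ne_of_ne (hM.2 a).symm hda.symm]
    have w7 : (swap (τ a) (τ c) * θ) (f, true) = τ a := by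
      rw [Perm.mul_apply, hd, swap_apply_right]
    have w8 : (swap (τ a) (τ c) * θ) (f, false) = c := by
      rw [Perm.mul_apply, hf, swap_apply_of_ne_of_ne hcb (hM.2 c).symm]
    unfold vx
    rw [w1, w2, w3, w4, w5, w6, w7, w8, he, hf, hb, hd]
    ring
  rw [key, map_add]
  push_cast
  ring

theorem fac_ne (hp : p.Prime) (hp2 : p ≠ 2) : (((p - 2 + 1).factorial : ℕ) : ZMod p) ≠ 0 := by
  have h2 := hp.two_le
  rw [Ne, ZMod.natCast_eq_zero_iff, hp.dvd_factorial]
  omega

theorem Fp_ax (hp : p.Prime) (hp2 : p ≠ 2) [Fact p.Prime] :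
    Ax (p - 2) (Fp (A := A) p) vt0 where
  three := fun τ hM a c hca hcb => Fp_three hp hM hca hcb
  alt := fun τ _ g => by
    have h1 := FZ_alt τ g
    have h2 := congrArg (fun z : ℤ => (z : ZMod p)) h1
    simp only [Int.cast_sum, Int.cast_mul, Int.cast_zero] at h2
    exact h2
  fac := fac_ne hp hp2
  loop := fun τ hM h0 h => FZ_loop hM (fun h1 => h0 (by unfold Fp; rw [h1]; simp)) h

theorem fib_card {D : ℕ} [DecidableEq (HH A D)] (u : A × Bool) [DecidablePred fun x : HH A D => vt0 x = u] :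
    (univ.filter (fun x : HH A D => vt0 x = u)).card ≤ D := by
  have h1 : univ.filter (fun x : HH A D => vt0 x = u) ⊆ univ.image (fun i : Fin D => mk0 u i) := by
    intro x hx
    rw [Finset.mem_filter] at hx
    rw [Finset.mem_image]
    exact ⟨x.1.2, Finset.mem_univ _, by rw [← hx.2]; rfl⟩
  refine (Finset.card_le_card h1).trans (Finset.card_image_le.trans ?_)
  rw [Finset.card_univ, Fintype.card_fin]

/-- the dipole configuration -/
def dip (A : Type) (D : ℕ) : Perm (HH A D) where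
  toFun z := (z.1, !z.2)
  invFun z := (z.1, !z.2)
  left_inv z := by simp
  right_inv z := by simp

theorem dip_Mt {D : ℕ} : Mt (dip A D) := by
  refine ⟨fun z => by simp [dip], fun z h => ?_⟩
  have h1 := congrArg Prod.snd h
  simp [dip] at h1

theorem FZ_dip {D : ℕ} : FZ (dip A D) = ((D.factorial : ℕ) : ℤ) ^ (Fintype.card A) := by
  classical
  have h0 : Cp (dip A D) 1 := fun e b => rfl
  rw [FZ_eq_NN h0]
  have hNN : NN (Equiv.refl (Fin D)) (inc (1 : Perm (HH A D))) =
      ∑ x : A × Fin D → Fin D, ∏ v : A × Bool, sg (Equiv.refl (Fin D)) (fun i => x (v.1, i)) := by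
    unfold NN
    refine Finset.sum_congr ?_ fun _ _ => rfl
    ext x
    simp only [Finset.mem_univ]
  rw [hNN]
  have h1 : ∀ x : A × Fin D → Fin D, ∏ v : A × Bool, sg (Equiv.refl (Fin D)) (fun i => x (v.1, i)) =
      ∏ a : A, (if Function.Bijective (fun i => x (a, i)) then 1 else 0) := by
    intro x
    rw [Fintype.prod_prod_type]
    refine Finset.prod_congr rfl fun a _ => ?_
    rw [Fintype.prod_bool]
    split_ifs with h
    · exact sg_sq _ _ h
    · rw [sg_of_not _ _ h, mul_zero]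
  rw [Finset.sum_congr rfl fun x _ => h1 x]
  have h2 : ∑ x : A × Fin D → Fin D, ∏ a : A,
      (if Function.Bijective (fun i => x (a, i)) then (1 : ℤ) else 0) =
      ∑ x : A → Fin D → Fin D, ∏ a : A, (if Function.Bijective (x a) then (1 : ℤ) else 0) :=
    Fintype.sum_equiv (Equiv.curry A (Fin D) (Fin D)) _ _ fun x => rfl
  rw [h2]
  have h3 := Finset.prod_univ_sum (fun _ : A => (univ : Finset (Fin D → Fin D)))
    (fun _ z => if Function.Bijective z then (1 : ℤ) else 0)
  rw [Fintype.piFinset_univ] at h3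
  rw [← h3, Finset.prod_const, Finset.card_univ]
  congr 1
  rw [Finset.sum_boole]
  congr 1
  have h4 : D.factorial = Fintype.card (Perm (Fin D)) := by
    rw [Fintype.card_perm, Fintype.card_fin]
  rw [h4, ← Fintype.card_subtype]
  refine Fintype.card_congr ⟨fun z => Equiv.ofBijective z.1 z.2, fun σ => ⟨σ, σ.bijective⟩,
    fun z => rfl, fun σ => ?_⟩
  ext i
  rfl

theorem base (hp : p.Prime) (hp2 : p ≠ 2) [Fact p.Prime] :
    ∃ τ0 : Perm (HH A (p - 2)), Mt τ0 ∧ Fp p τ0 ≠ 0 := by
  refine ⟨dip A (p - 2), dip_Mt, ?_⟩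
  unfold Fp
  rw [FZ_dip]
  push_cast
  refine pow_ne_zero _ ?_
  have h2 := hp.two_le
  rw [Ne, ZMod.natCast_eq_zero_iff, hp.dvd_factorial]
  omega

end prime

end Pool.Agent.Y342.LE.Cfg
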