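import Pool.Agent.Y342.LE.CfgG

/-!
# Random regular graphs
-/

set_option autoImplicit false
set_option linter.unusedSectionVars false

namespace Pool.Agent.Y342.LE.Cfg

open Finset Equiv Pool.Agent.W426.LE Pool.Agent.Y342.LE

/-- regular graphs -/
def Reg {V : Type} (D : ℕ) (G : SimpleGraph V) : Prop := ∀ v, (G.neighborSet v).ncard = D

/-- close to choosable -/
def Ch {V : Type} (D a : ℕ) (G : SimpleGraph V) : Prop :=
  ∃ S : Finset (Sym2 V), S.card ≤ a ∧ EL.EL (G.deleteEdges (S : Set (Sym2 V))) D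

section

variable {A : Type} [Fintype A] [DecidableEq A] {p : ℕ}

open Classical in
theorem near_Ch (hp : p.Prime) (hp2 : p ≠ 2) [Fact p.Prime] {a : ℕ}
    {G : SimpleGraph (A × Bool)} {τ : Perm (HH A (p - 2))} (hτ : IsC G τ)
    (ha : aa (Fp p) τ ≤ a) : Ch (p - 2) a G := by
  obtain ⟨hM, hs, hA⟩ := hτ
  have hne : {a | NearA (Fp p) a τ}.Nonempty := by
    obtain ⟨τ0, h1, h2⟩ := base (A := A) hp hp2
    refine ⟨Fintype.card (HH A (p - 2)), τ0, h1, h2, univ, ?_, fun _ _ => Finset.mem_univ _,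
      fun x hx => absurd (Finset.mem_univ x) hx⟩
    rw [Finset.card_univ]
    omega
  obtain ⟨τ', hM', h0, S, hSc, hS, ho⟩ := Nat.sInf_mem hne
  change S.card ≤ 2 * aa (Fp p) τ at hSc
  let f : HH A (p - 2) → Sym2 (A × Bool) := fun h => s(vt0 h, vt0 (τ h))
  have hf : ∀ h, f (τ h) = f h := by
    intro h
    show s(vt0 (τ h), vt0 (τ (τ h))) = s(vt0 h, vt0 (τ h))
    rw [hM.1, Sym2.eq_swap]
  refine ⟨S.image f, ?_, ?_⟩
  · have h1 : 2 * (S.image f).card ≤ S.card := by
      refine Finset.mul_card_image_le_card S 2 fun e he => ?_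
      obtain ⟨h, hh, rfl⟩ := Finset.mem_image.1 he
      have h2 : ({h, τ h} : Finset (HH A (p - 2))) ⊆ S.filter (fun x => f x = f h) := by
        intro x hx
        rw [Finset.mem_insert, Finset.mem_singleton] at hx
        rw [Finset.mem_filter]
        rcases hx with rfl | rfl
        · exact ⟨hh, rfl⟩
        · exact ⟨hS _ hh, hf _⟩
      have h3 := Finset.card_le_card h2
      rwa [Finset.card_pair (hM.2 h).symm] at h3
    omega
  · refine EL_of_alive hM' (fun h1 => h0 (by unfold Fp; rw [h1]; simp)) _ ?_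
    intro v w hvw
    rw [SimpleGraph.deleteEdges_adj] at hvw
    obtain ⟨h, rfl, rfl⟩ := (hA v w).1 hvw.1
    have hhS : h ∉ S := by
      intro h2
      apply hvw.2
      rw [Finset.mem_coe]
      exact Finset.mem_image.2 ⟨h, h2, rfl⟩
    exact ⟨h, rfl, by rw [ho h hhS]⟩

theorem fib_card' {D : ℕ} (u : A × Bool) (inst : DecidablePred fun x : HH A D => vt0 x = u) :
    (@Finset.filter (HH A D) (fun x => vt0 x = u) inst univ).card ≤ D := fib_card u

open Classical in
theorem core (hp : p.Prime) (hp2 : p ≠ 2) [Fact p.Prime] (hn : 5 * p ≤ Fintype.card (A × Bool)) (a : ℕ)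
    (Q : SimpleGraph (A × Bool) → Prop)
    (hQ : ∀ (G : SimpleGraph (A × Bool)) (τ : Perm (HH A (p - 2))), Q G → IsC G τ →
      a ≤ aa (Fp p) τ) :
    2 ^ a * Nat.card {G : SimpleGraph (A × Bool) // Reg (p - 2) G ∧ Q G} ≤
      (Fintype.card (A × Bool)) ^ (4 * p ^ 2) *
        Nat.card {G : SimpleGraph (A × Bool) // Reg (p - 2) G ∧ EL.EL G (p - 2)} := by
  have h2 := hp.two_le
  obtain ⟨D, rfl⟩ : ∃ D, p = D + 2 := ⟨p - 2, by omega⟩
  have hD : 1 ≤ D := by omega
  have hDD : D + 2 - 2 = D := by omega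
  have : Fintype (SimpleGraph (A × Bool)) := Fintype.ofFinite _
  set n := Fintype.card (A × Bool) with hnd
  have hnA : n = Fintype.card A * 2 := by rw [hnd, Fintype.card_prod, Fintype.card_bool]
  have hHc : Fintype.card (HH A (D + 2 - 2)) = 2 * (Fintype.card A * D) := by
    rw [Fintype.card_prod, Fintype.card_prod, Fintype.card_bool, Fintype.card_fin, hDD]
    ring
  have hHn : Fintype.card (HH A (D + 2 - 2)) = n * D := by rw [hHc, hnA]; ring
  obtain ⟨b, hb⟩ := Nat.even_mul_succ_self D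
  have hb' : 2 * b = (D + 2 - 2) + (D + 2 - 2) * (D + 2 - 2) := by
    rw [hDD]
    have : D * (D + 1) = D + D * D := by ring
    omega
  have hbig : (D + 2 - 2) + (D + 2 - 2) * (D + 2 - 2) + (4 * (D + 2 - 2) +
      4 * ((D + 2 - 2) * (D + 2 - 2))) < Fintype.card (HH A (D + 2 - 2)) := by
    rw [hHn, hDD]
    have h3 : 5 * (D + 2) * D ≤ n * D := Nat.mul_le_mul_right _ hn
    nlinarith
  have hmain := main_count (Fp_ax (A := A) hp hp2) (fun u => fib_card' u _) (Fintype.card A * D) b hb'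
    hHc hbig (base hp hp2)
  -- the configurations
  let TH : SimpleGraph (A × Bool) → Finset (Perm (HH A (D + 2 - 2))) := fun G =>
    univ.filter (fun τ => IsC G τ)
  have hTHdis : ∀ G G' : SimpleGraph (A × Bool), G ≠ G' → Disjoint (TH G) (TH G') := by
    intro G G' hGG'
    rw [Finset.disjoint_left]
    intro τ h3 h4
    apply hGG'
    have h5 := (Finset.mem_filter.1 h3).2.2.2
    have h6 := (Finset.mem_filter.1 h4).2.2.2
    ext v w
    rw [h5, h6]
  set good := (univ : Finset (SimpleGraph (A × Bool))).filter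
    (fun G => Reg (D + 2 - 2) G ∧ EL.EL G (D + 2 - 2)) with hgood
  set bad := (univ : Finset (SimpleGraph (A × Bool))).filter
    (fun G => Reg (D + 2 - 2) G ∧ Q G) with hbad
  have hTHc : ∀ G, Reg (D + 2 - 2) G → (TH G).card = (D + 2 - 2).factorial ^ n := by
    intro G hG
    exact card_IsC G hG
  have hI : (AA (Fp (A := A) (D + 2)) vt0 0).card ≤ good.card * (D + 2 - 2).factorial ^ n := by
    have h3 : AA (Fp (A := A) (D + 2)) vt0 0 ⊆ good.biUnion TH := by
      intro τ hτ
      rw [mem_AA] at hτ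
      obtain ⟨hM, h0, S, hSc, -, hs⟩ := hτ
      have hSe : S = ∅ := by
        rw [← Finset.card_eq_zero]; omega
      subst hSe
      have h0' : FZ τ ≠ 0 := fun h1 => h0 (by unfold Fp; rw [h1]; simp)
      have hl := FZ_loop hM h0'
      rw [Finset.mem_biUnion]
      refine ⟨Gr τ, ?_, Finset.mem_filter.2 ⟨Finset.mem_univ _, Gr_IsC hM hl hs⟩⟩
      rw [hgood, Finset.mem_filter]
      exact ⟨Finset.mem_univ _, Gr_reg hM hl hs, EL_of_alive hM h0' _
        (fun v w h => (Gr_adj hM hl v w).1 h)⟩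
    refine (Finset.card_le_card h3).trans ?_
    exact Finset.card_biUnion_le_card_mul _ _ _ fun G hG =>
      (hTHc G (Finset.mem_filter.1 hG).2.1).le
  have hII : 2 ^ a * bad.card * (D + 2 - 2).factorial ^ n ≤
      ∑ τ ∈ univ.filter (fun τ : Perm (HH A (D + 2 - 2)) => Mt τ), 2 ^ (aa (Fp (D + 2)) τ) := by
    have h3 : bad.biUnion TH ⊆ univ.filter (fun τ : Perm (HH A (D + 2 - 2)) => Mt τ) := by
      intro τ hτ
      obtain ⟨G, -, h4⟩ := Finset.mem_biUnion.1 hτ
      exact Finset.mem_filter.2 ⟨Finset.mem_univ _, (Finset.mem_filter.1 h4).2.1⟩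
    refine le_trans ?_ (Finset.sum_le_sum_of_subset h3)
    rw [Finset.sum_biUnion (fun G _ G' _ h => hTHdis G G' h)]
    have h4 : ∀ G ∈ bad, 2 ^ a * (D + 2 - 2).factorial ^ n ≤
        ∑ τ ∈ TH G, 2 ^ (aa (Fp (D + 2)) τ) := by
      intro G hG
      have h5 := (Finset.mem_filter.1 hG).2
      rw [← hTHc G h5.1, mul_comm, ← smul_eq_mul]
      refine Finset.card_nsmul_le_sum _ _ _ fun τ hτ => ?_
      exact Nat.pow_le_pow_right (by norm_num) (hQ G τ h5.2 (Finset.mem_filter.1 hτ).2)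
    have h5 := Finset.card_nsmul_le_sum bad _ _ h4
    rw [smul_eq_mul] at h5
    calc _ = bad.card * (2 ^ a * (D + 2 - 2).factorial ^ n) := by ring
      _ ≤ _ := h5
  have hpos : 0 < (D + 2 - 2).factorial ^ n := Nat.pow_pos (Nat.factorial_pos _)
  have hpow : (Fintype.card (HH A (D + 2 - 2))) ^ (4 * b + (D + 2 - 2)) ≤
      n ^ (4 * (D + 2) ^ 2) := by
    rw [hHn, hDD]
    have h3 : n * D ≤ n ^ 2 := by
      rw [sq]
      exact Nat.mul_le_mul_left _ (by omega)
    calc (n * D) ^ (4 * b + D) ≤ (n ^ 2) ^ (4 * b + D) := Nat.pow_le_pow_left h3 _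
      _ = n ^ (2 * (4 * b + D)) := by rw [← pow_mul]
      _ ≤ n ^ (4 * (D + 2) ^ 2) := by
        refine Nat.pow_le_pow_right (by omega) ?_
        have h4 : D * (D + 1) = D + D * D := by ring
        have h5 : 4 * (D + 2) ^ 2 = 4 * (D * D) + 16 * D + 16 := by ring
        omega
  have hfin : (2 ^ a * bad.card) * (D + 2 - 2).factorial ^ n ≤
      (n ^ (4 * (D + 2) ^ 2) * good.card) * (D + 2 - 2).factorial ^ n := by
    calc _ ≤ _ := hII
      _ ≤ _ := hmain
      _ ≤ n ^ (4 * (D + 2) ^ 2) * (good.card * (D + 2 - 2).factorial ^ n) :=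
        Nat.mul_le_mul hpow hI
      _ = _ := by ring
  have hres := Nat.le_of_mul_le_mul_right hfin hpos
  rw [Nat.card_eq_fintype_card, Nat.card_eq_fintype_card, Fintype.card_subtype,
    Fintype.card_subtype]
  exact hres

end

/-! ### Transport -/

theorem transport {V W : Type} (e : V ≃ W) (P : (X : Type) → SimpleGraph X → Prop)
    (hP : ∀ (X Y : Type) (f : X ≃ Y) (G : SimpleGraph X), P X G → P Y (G.comap f.symm)) :
    Nat.card {G : SimpleGraph V // P V G} = Nat.card {G : SimpleGraph W // P W G} := by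
  have hco : ∀ (X Y : Type) (f : X ≃ Y) (G : SimpleGraph X), (G.comap f.symm).comap f = G := by
    intro X Y f G
    ext v w
    simp
  refine Nat.card_congr
    { toFun := fun G => ⟨G.1.comap e.symm, hP _ _ e _ G.2⟩
      invFun := fun G => ⟨G.1.comap e, hP _ _ e.symm _ G.2⟩
      left_inv := fun G => Subtype.ext (hco _ _ e G.1)
      right_inv := fun G => Subtype.ext (hco _ _ e.symm G.1) }

theorem Reg.comap {X Y : Type} (f : X ≃ Y) {G : SimpleGraph X} {D : ℕ} (h : Reg D G) :
    Reg D (G.comap f.symm) := by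
  intro y
  have h1 : (G.comap f.symm).neighborSet y = f '' (G.neighborSet (f.symm y)) := by
    ext z
    rw [SimpleGraph.mem_neighborSet, SimpleGraph.comap_adj, Set.mem_image]
    constructor
    · intro h2
      exact ⟨f.symm z, h2, f.apply_symm_apply z⟩
    · rintro ⟨w, h2, rfl⟩
      rw [Equiv.symm_apply_apply]
      exact h2
  rw [h1, Set.ncard_image_of_injective _ f.injective, h]

theorem EL_comap {X Y : Type} (f : X ≃ Y) {G : SimpleGraph X} {D : ℕ} (h : EL.EL G D) :
    EL.EL (G.comap f.symm) D :=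
  EL.mono _ G f.symm f.symm.injective (fun _ _ h => h) D h

theorem Ch.comap {X Y : Type} (f : X ≃ Y) {G : SimpleGraph X} {D a : ℕ} (h : Ch D a G) :
    Ch D a (G.comap f.symm) := by
  classical
  obtain ⟨S, hS, h1⟩ := h
  refine ⟨S.image (Sym2.map f), Finset.card_image_le.trans hS, ?_⟩
  refine EL.mono _ (G.deleteEdges (S : Set (Sym2 X))) f.symm f.symm.injective ?_ D h1
  intro u v huv
  rw [SimpleGraph.deleteEdges_adj] at huv ⊢
  refine ⟨huv.1, fun h2 => huv.2 ?_⟩
  rw [Finset.mem_coe] at h2 ⊢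
  refine Finset.mem_image.2 ⟨_, h2, ?_⟩
  rw [Sym2.map_mk]
  simp

theorem final (p : ℕ) (hp : p.Prime) (hp2 : p ≠ 2) (n : ℕ) (hn : Even n) (hn5 : 5 * p ≤ n) :
    Nat.card {G : SimpleGraph (Fin n) // Reg (p - 2) G} ≤ n ^ (4 * p ^ 2) *
      Nat.card {G : SimpleGraph (Fin n) // Reg (p - 2) G ∧ EL.EL G (p - 2)} ∧
    ∀ a, 2 ^ a * Nat.card {G : SimpleGraph (Fin n) // Reg (p - 2) G ∧ ¬ Ch (p - 2) a G} ≤
      n ^ (4 * p ^ 2) * Nat.card {G : SimpleGraph (Fin n) // Reg (p - 2) G ∧
        EL.EL G (p - 2)} := by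
  have : Fact p.Prime := ⟨hp⟩
  obtain ⟨m, hm⟩ := hn
  have hc : Fintype.card (Fin m × Bool) = n := by
    rw [Fintype.card_prod, Fintype.card_fin, Fintype.card_bool, hm]
    ring
  let e : Fin n ≃ Fin m × Bool := Fintype.equivOfCardEq (by rw [hc, Fintype.card_fin])
  have t1 := transport e (fun X G => Reg (p - 2) G) (fun X Y f G h => h.comap f)
  have t2 := transport e (fun X G => Reg (p - 2) G ∧ EL.EL G (p - 2))
    (fun X Y f G h => ⟨h.1.comap f, EL_comap f h.2⟩)
  have t3 := fun a => transport e (fun X G => Reg (p - 2) G ∧ ¬ Ch (p - 2) a G)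
    (fun X Y f G h => ⟨h.1.comap f, fun h1 => h.2 (by
      have h2 := h1.comap f.symm
      have h3 : (G.comap f.symm).comap f.symm.symm = G := by
        ext v w
        simp
      rwa [h3] at h2)⟩)
  constructor
  · have h1 := core (A := Fin m) hp hp2 (by rw [hc]; exact hn5) 0 (fun _ => True)
      (fun _ _ _ _ => Nat.zero_le _)
    rw [pow_zero, one_mul, hc, ← t2] at h1
    rw [t1]
    have h2 : Nat.card {G : SimpleGraph (Fin m × Bool) // Reg (p - 2) G ∧ True} =
        Nat.card {G : SimpleGraph (Fin m × Bool) // Reg (p - 2) G} :=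
      Nat.card_congr (Equiv.subtypeEquivRight fun G => and_iff_left trivial)
    rwa [h2] at h1
  · intro a
    have h1 := core (A := Fin m) hp hp2 (by rw [hc]; exact hn5) a (fun G => ¬ Ch (p - 2) a G)
      (fun G τ hG hτ => by
        by_contra h2
        push Not at h2
        exact hG (near_Ch hp hp2 hτ h2.le))
    rw [hc, ← t2] at h1
    have h3 := t3 a
    rw [h3]
    exact h1

end Pool.Agent.Y342.LE.Cfg
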