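import Pool.Agent.Y342.LE.CfgF
import Pool.Agent.W426.LE.EL

/-!
# Configurations and graphs
-/

set_option autoImplicit false
set_option linter.unusedSectionVars false

namespace Pool.Agent.Y342.LE.Cfg

open Finset Equiv Pool.Agent.W426.LE Pool.Agent.Y342.LE

section

variable {A : Type} [Fintype A] [DecidableEq A] {D : ℕ}

open Classical in
theorem EL_of_alive {τ : Perm (HH A D)} (hM : Mt τ) (h0 : FZ τ ≠ 0) (G : SimpleGraph (A × Bool))
    (hG : ∀ v w, G.Adj v w → ∃ h : HH A D, vt0 h = v ∧ vt0 (τ h) = w) : EL.EL G D := by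
  obtain ⟨θ, hθ⟩ := exists_Cp hM
  have hN : NN (Equiv.refl (Fin D)) (inc θ) ≠ 0 := by
    rw [← FZ_eq_NN hθ]
    exact h0
  intro L hL
  have hch : ∀ e : G.edgeSet, ∃ h : HH A D, (e : Sym2 (A × Bool)) = s(vt0 h, vt0 (τ h)) := by
    rintro ⟨e, he⟩
    induction e using Sym2.ind with
    | _ a b =>
      obtain ⟨h, h1, h2⟩ := hG a b he
      exact ⟨h, by rw [h1, h2]⟩
  choose hh hhh using hch
  let ε : HH A D → A × Fin D := fun h => (θ.symm h).1
  have hετ : ∀ h, ε (τ h) = ε h := by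
    intro h
    obtain ⟨⟨x, b⟩, rfl⟩ := θ.surjective h
    show (θ.symm (τ (θ (x, b)))).1 = (θ.symm (θ (x, b))).1
    rw [hθ, Equiv.symm_apply_apply, Equiv.symm_apply_apply]
  have hεinj : ∀ h h', ε h = ε h' → h = h' ∨ h = τ h' := by
    intro h h' hε
    obtain ⟨⟨x, b⟩, rfl⟩ := θ.surjective h
    obtain ⟨⟨x', b'⟩, rfl⟩ := θ.surjective h'
    have h1 : x = x' := by
      have h2 : (θ.symm (θ (x, b))).1 = (θ.symm (θ (x', b'))).1 := hε
      rwa [Equiv.symm_apply_apply, Equiv.symm_apply_apply] at h2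
    subst h1
    by_cases hb : b = b'
    · left; rw [hb]
    · right
      rw [hθ]
      congr 2
      cases b <;> cases b' <;> simp_all
  have hεe : ∀ e e' : G.edgeSet, ε (hh e) = ε (hh e') → e = e' := by
    intro e e' hε
    refine Subtype.ext ?_
    rw [hhh e, hhh e']
    rcases hεinj _ _ hε with h | h
    · rw [h]
    · rw [h, hM.1, Sym2.eq_swap]
  have hcrit := Pool.Agent.W440.LE.Crit.main Pool.Agent.W346.LE.CF.main
  have hinc : ∀ z : HH A D, inc θ (vt0 z) z.1.2 = ε z := fun z => rfl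
  have htwo : ∀ x : A × Fin D, Fintype.card {q : (A × Bool) × Fin D // inc θ q.1 q.2 = x} = 2 := by
    intro x
    rw [← Fintype.card_bool]
    refine Fintype.card_congr
      { toFun := fun q => (θ.symm (mk0 q.1.1 q.1.2)).2
        invFun := fun b => ⟨(vt0 (θ (x, b)), (θ (x, b)).1.2), by
          rw [hinc]
          show (θ.symm (θ (x, b))).1 = x
          rw [Equiv.symm_apply_apply]⟩
        left_inv := ?_
        right_inv := ?_ }
    · rintro ⟨⟨u, i⟩, hq⟩
      have hq' : (θ.symm (mk0 u i)).1 = x := hq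
      have h1 : θ (x, (θ.symm (mk0 u i)).2) = mk0 u i := by
        rw [← hq']
        exact θ.apply_symm_apply _
      refine Subtype.ext ?_
      show (vt0 (θ (x, (θ.symm (mk0 u i)).2)), (θ (x, (θ.symm (mk0 u i)).2)).1.2) = (u, i)
      rw [h1]
      rfl
    · intro b
      show (θ.symm (mk0 (vt0 (θ (x, b))) (θ (x, b)).1.2)).2 = b
      rw [mk0_vt0, Equiv.symm_apply_apply]
  have htwo' : ∀ (x : A × Fin D) (i : Fintype {q : (A × Bool) × Fin D // inc θ q.1 q.2 = x}),
      @Fintype.card _ i = 2 := by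
    intro x i
    rw [← htwo x]
    exact congrArg (fun j => @Fintype.card _ j) (Subsingleton.elim _ _)
  obtain ⟨f, hf1, hf2⟩ := hcrit (A × Bool) (A × Fin D) (Fin D) (Fin D) (Equiv.refl _) (inc θ)
    (fun x => htwo' x _) hN
    (fun x => if hx : ∃ e, ε (hh e) = x then L hx.choose else range D) (by
      intro x
      rw [Fintype.card_fin]
      split_ifs with hx
      · exact hL _
      · rw [Finset.card_range])
  refine ⟨fun e => f (ε (hh e)), ?_, ?_⟩
  · intro e
    have h1 := hf1 (ε (hh e))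
    have hx : ∃ e', ε (hh e') = ε (hh e) := ⟨e, rfl⟩
    rw [dif_pos hx] at h1
    have h2 : hx.choose = e := hεe _ _ hx.choose_spec
    rw [h2] at h1
    exact h1
  · intro e e' hadj hfe
    rw [SimpleGraph.lineGraph_adj_iff_exists] at hadj
    obtain ⟨hne, u, hu, hu'⟩ := hadj
    have hz : ∀ e : G.edgeSet, u ∈ (e : Sym2 (A × Bool)) → ∃ z, vt0 z = u ∧ ε z = ε (hh e) := by
      intro e hu
      rw [hhh e, Sym2.mem_iff] at hu
      rcases hu with hu | hu
      · exact ⟨hh e, hu.symm, rfl⟩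
      · exact ⟨τ (hh e), hu.symm, hετ _⟩
    obtain ⟨z, hz1, hz2⟩ := hz e hu
    obtain ⟨z', hz1', hz2'⟩ := hz e' hu'
    have h3 : z.1.2 = z'.1.2 := by
      refine hf2 u ?_
      show f (inc θ u z.1.2) = f (inc θ u z'.1.2)
      have h4 : inc θ u z.1.2 = ε z := by rw [← hz1]; exact hinc z
      have h5 : inc θ u z'.1.2 = ε z' := by rw [← hz1']; exact hinc z'
      rw [h4, h5, hz2, hz2']
      exact hfe
    have h4 : z = z' := by
      rw [← mk0_vt0 z, ← mk0_vt0 z', hz1, hz1', h3]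
    refine hne (hεe _ _ ?_)
    rw [← hz2, ← hz2', h4]

/-- `τ` is a configuration of the simple graph `G` -/
def IsC (G : SimpleGraph (A × Bool)) (τ : Perm (HH A D)) : Prop :=
  Mt τ ∧ Simp vt0 ∅ τ ∧ ∀ v w, G.Adj v w ↔ ∃ h : HH A D, vt0 h = v ∧ vt0 (τ h) = w

/-- the labellings of the neighbours -/
def Phi (D : ℕ) (G : SimpleGraph (A × Bool)) : Type :=
  {f : A × Bool → Fin D → A × Bool // ∀ v, Function.Injective (f v) ∧
    ∀ w, G.Adj v w ↔ ∃ i, f v i = w}

theorem card_Phi (G : SimpleGraph (A × Bool)) (hG : ∀ v, (G.neighborSet v).ncard = D) :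
    Nat.card (Phi D G) = D.factorial ^ (Fintype.card (A × Bool)) := by
  have h1 : Nat.card (Phi D G) = Nat.card (∀ v, {g : Fin D → A × Bool // Function.Injective g ∧
      ∀ w, G.Adj v w ↔ ∃ i, g i = w}) :=
    Nat.card_congr (Equiv.subtypePiEquivPi (p := fun v (g : Fin D → A × Bool) =>
      Function.Injective g ∧ ∀ w, G.Adj v w ↔ ∃ i, g i = w))
  rw [h1, Nat.card_pi, Finset.prod_congr rfl, Finset.prod_const, Finset.card_univ]
  intro v _
  have h2 : {g : Fin D → A × Bool // Function.Injective g ∧ ∀ w, G.Adj v w ↔ ∃ i, g i = w} ≃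
      (Fin D ≃ G.neighborSet v) :=
    { toFun := fun g => Equiv.ofBijective (fun i => (⟨g.1 i, (g.2.2 _).2 ⟨i, rfl⟩⟩ :
        G.neighborSet v)) ⟨fun i j h => g.2.1 (congrArg Subtype.val h), fun w => by
          obtain ⟨i, hi⟩ := (g.2.2 w.1).1 w.2
          exact ⟨i, Subtype.ext hi⟩⟩
      invFun := fun e => ⟨fun i => (e i).1, fun i j h => e.injective (Subtype.ext h), fun w =>
        ⟨fun h => ⟨e.symm ⟨w, h⟩, by simp⟩, by
          rintro ⟨i, rfl⟩
          exact (e i).2⟩⟩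
      left_inv := fun g => Subtype.ext rfl
      right_inv := fun e => Equiv.ext fun i => rfl }
  rw [Nat.card_congr h2]
  classical
  have h3 : Nat.card (G.neighborSet v) = D := hG v
  have h4 : Nonempty (Fin D ≃ G.neighborSet v) := by
    have := Fintype.ofFinite (G.neighborSet v)
    rw [Nat.card_eq_fintype_card] at h3
    exact ⟨(Fintype.equivFinOfCardEq h3).symm⟩
  obtain ⟨e⟩ := h4
  have := Fintype.ofFinite (G.neighborSet v)
  rw [Nat.card_eq_fintype_card, Fintype.card_equiv e, Fintype.card_fin]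

/-- from configurations to labellings -/
def toPhi (G : SimpleGraph (A × Bool)) (τ : {τ : Perm (HH A D) // IsC G τ}) : Phi D G :=
  ⟨fun v i => vt0 (τ.1 (mk0 v i)), fun v => by
    obtain ⟨τ, hM, hs, hA⟩ := τ
    constructor
    · intro i j h
      have h1 := hs (mk0 v i) (mk0 v j) (Finset.notMem_empty _) (Finset.notMem_empty _) rfl h
      exact congrArg (fun z : HH A D => z.1.2) h1
    · intro w
      rw [hA]
      constructor
      · rintro ⟨h, rfl, h2⟩
        exact ⟨h.1.2, h2⟩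
      · rintro ⟨i, h⟩
        exact ⟨mk0 v i, rfl, h⟩⟩

theorem toPhi_bij (G : SimpleGraph (A × Bool)) : Function.Bijective (toPhi (D := D) G) := by
  constructor
  · rintro ⟨τ, hM, hs, hA⟩ ⟨τ', hM', hs', hA'⟩ h
    refine Subtype.ext (Equiv.ext fun z => ?_)
    have h1 : ∀ y : HH A D, vt0 (τ y) = vt0 (τ' y) := fun y =>
      congrFun (congrFun (congrArg Subtype.val h) (vt0 y)) y.1.2
    refine hs _ _ (Finset.notMem_empty _) (Finset.notMem_empty _) (h1 z) ?_
    show vt0 (τ (τ z)) = vt0 (τ (τ' z))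
    rw [hM.1, h1 (τ' z), hM'.1]
  · rintro ⟨f, hf⟩
    have h1 : ∀ v i, ∃ j, f (f v i) j = v := by
      intro v i
      have h2 : G.Adj v (f v i) := ((hf v).2 _).2 ⟨i, rfl⟩
      exact ((hf (f v i)).2 _).1 h2.symm
    choose j hj using h1
    have hjj : ∀ v i, j (f v i) (j v i) = i := by
      intro v i
      have h2 := hj (f v i) (j v i)
      rw [hj v i] at h2
      exact (hf v).1 h2
    let t : HH A D → HH A D := fun h => mk0 (f (vt0 h) h.1.2) (j (vt0 h) h.1.2)
    have ht : ∀ h, t (t h) = h := by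
      intro h
      show mk0 (f (f (vt0 h) h.1.2) (j (vt0 h) h.1.2)) (j (f (vt0 h) h.1.2) (j (vt0 h) h.1.2)) = h
      rw [hj, hjj]
      rfl
    let τ : Perm (HH A D) := ⟨t, t, ht, ht⟩
    have hvt : ∀ v i, vt0 (τ (mk0 v i)) = f v i := fun v i => rfl
    have hC : IsC G τ := by
      refine ⟨⟨ht, fun h h2 => ?_⟩, ?_, ?_⟩
      · have h3 : G.Adj (vt0 h) (f (vt0 h) h.1.2) := ((hf _).2 _).2 ⟨_, rfl⟩
        apply h3.ne
        exact (congrArg vt0 h2).symm
      · intro h h' _ _ h2 h3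
        have h4 : f (vt0 h) h.1.2 = f (vt0 h') h'.1.2 := h3
        rw [h2] at h4
        have h5 := (hf _).1 h4
        rw [← mk0_vt0 h, ← mk0_vt0 h', h2, h5]
      · intro v w
        rw [(hf v).2]
        constructor
        · rintro ⟨i, h2⟩
          exact ⟨mk0 v i, rfl, h2⟩
        · rintro ⟨h, rfl, h2⟩
          exact ⟨h.1.2, h2⟩
    exact ⟨⟨τ, hC⟩, Subtype.ext rfl⟩

open Classical in
theorem card_IsC (G : SimpleGraph (A × Bool)) (hG : ∀ v, (G.neighborSet v).ncard = D) :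
    (univ.filter (fun τ : Perm (HH A D) => IsC G τ)).card =
      D.factorial ^ (Fintype.card (A × Bool)) := by
  rw [← card_Phi G hG, ← Nat.card_congr (Equiv.ofBijective _ (toPhi_bij (D := D) G)),
    Nat.card_eq_fintype_card, Fintype.card_subtype]

/-- the graph of a configuration -/
def Gr (τ : Perm (HH A D)) : SimpleGraph (A × Bool) :=
  SimpleGraph.fromRel fun v w => ∃ h : HH A D, vt0 h = v ∧ vt0 (τ h) = w

theorem Gr_adj {τ : Perm (HH A D)} (hM : Mt τ) (hl : ∀ h, vt0 (τ h) ≠ vt0 h) (v w : A × Bool) :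
    (Gr τ).Adj v w ↔ ∃ h : HH A D, vt0 h = v ∧ vt0 (τ h) = w := by
  unfold Gr
  rw [SimpleGraph.fromRel_adj]
  constructor
  · rintro ⟨-, h | ⟨h, h1, h2⟩⟩
    · exact h
    · exact ⟨τ h, h2, by rw [hM.1]; exact h1⟩
  · rintro ⟨h, rfl, rfl⟩
    exact ⟨(hl h).symm, Or.inl ⟨h, rfl, rfl⟩⟩

theorem Gr_IsC {τ : Perm (HH A D)} (hM : Mt τ) (hl : ∀ h, vt0 (τ h) ≠ vt0 h)
    (hs : Simp vt0 ∅ τ) : IsC (Gr τ) τ :=
  ⟨hM, hs, Gr_adj hM hl⟩

theorem Gr_reg {τ : Perm (HH A D)} (hM : Mt τ) (hl : ∀ h, vt0 (τ h) ≠ vt0 h)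
    (hs : Simp vt0 ∅ τ) (v : A × Bool) : ((Gr τ).neighborSet v).ncard = D := by
  have h1 : (Gr τ).neighborSet v = Set.range (fun i : Fin D => vt0 (τ (mk0 v i))) := by
    ext w
    rw [SimpleGraph.mem_neighborSet, Gr_adj hM hl]
    constructor
    · rintro ⟨h, rfl, h2⟩
      exact ⟨h.1.2, h2⟩
    · rintro ⟨i, h⟩
      exact ⟨mk0 v i, rfl, h⟩
  rw [h1, ← Set.image_univ, Set.ncard_image_of_injective _ ?_, Set.ncard_univ, Nat.card_eq_fintype_card,
    Fintype.card_fin]
  intro i j h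
  exact ((toPhi (Gr τ) ⟨τ, Gr_IsC hM hl hs⟩).2 v).1 h

end

end Pool.Agent.Y342.LE.Cfg
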