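import Pool.Agent.Y342.LE.CfgRepair

/-!
# The main inequality
-/

set_option autoImplicit false
set_option linter.unusedSectionVars false

namespace Pool.Agent.Y342.LE.Cfg

open Finset Equiv

theorem num_up (D K : ℕ) : ∏ i ∈ range K, (2 * (i + 1) + D) ≤ 2 ^ K * (K + D).factorial := by
  induction K with
  | zero =>
    simp only [Finset.range_zero, Finset.prod_empty, pow_zero, one_mul, zero_add]
    exact Nat.factorial_pos D
  | succ K ih =>
    rw [Finset.prod_range_succ]
    calc (∏ i ∈ range K, (2 * (i + 1) + D)) * (2 * (K + 1) + D)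
        ≤ (2 ^ K * (K + D).factorial) * (2 * (K + D + 1)) :=
          Nat.mul_le_mul ih (by omega)
      _ = 2 ^ (K + 1) * (K + 1 + D).factorial := by
          rw [show K + 1 + D = (K + D) + 1 by ring, Nat.factorial_succ, pow_succ]
          ring

theorem num_low (b s : ℕ) : 2 ^ s * s.factorial ≤ ∏ i ∈ range (b + s), max 1 (2 * (i + 1) - 2 * b) := by
  induction s with
  | zero =>
    rw [pow_zero, Nat.factorial_zero, one_mul]
    exact Finset.one_le_prod' fun i _ => le_max_left _ _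
  | succ s ih =>
    rw [← add_assoc, Finset.prod_range_succ]
    calc 2 ^ (s + 1) * (s + 1).factorial = (2 ^ s * s.factorial) * (2 * (s + 1)) := by
          rw [pow_succ, Nat.factorial_succ]; ring
      _ ≤ _ := Nat.mul_le_mul ih (le_max_of_le_right (by omega))

theorem num_fac (s t : ℕ) : (s + t).factorial ≤ s.factorial * (s + t) ^ t := by
  rw [← Nat.factorial_mul_ascFactorial]
  exact Nat.mul_le_mul_left _ (Nat.ascFactorial_le_pow_add s t)

theorem num (D b K : ℕ) (hK : b ≤ K) (hD : D ≤ K) (hK1 : 1 ≤ K) :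
    ∏ i ∈ range K, (2 * (i + 1) + D) ≤
      (2 * K) ^ (2 * b + D) * ∏ i ∈ range K, max 1 (2 * (i + 1) - 2 * b) := by
  obtain ⟨s, rfl⟩ := Nat.exists_eq_add_of_le hK
  calc ∏ i ∈ range (b + s), (2 * (i + 1) + D) ≤ 2 ^ (b + s) * (b + s + D).factorial := num_up D _
    _ = 2 ^ b * 2 ^ s * (s + (b + D)).factorial := by rw [pow_add]; ring_nf
    _ ≤ 2 ^ b * 2 ^ s * (s.factorial * (s + (b + D)) ^ (b + D)) :=
        Nat.mul_le_mul_left _ (num_fac _ _)
    _ ≤ (2 * (b + s)) ^ b * 2 ^ s * (s.factorial * (2 * (b + s)) ^ (b + D)) := by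
        refine Nat.mul_le_mul (Nat.mul_le_mul_right _ (Nat.pow_le_pow_left (by omega) _))
          (Nat.mul_le_mul_left _ (Nat.pow_le_pow_left (by omega) _))
    _ = (2 * (b + s)) ^ (2 * b + D) * (2 ^ s * s.factorial) := by
        rw [show 2 * b + D = b + (b + D) by ring, pow_add]; ring
    _ ≤ _ := Nat.mul_le_mul_left _ (num_low b s)

variable {H V K : Type} [Fintype H] [DecidableEq H] [Field K]
variable {D : ℕ} {F : Perm H → K} {v : H → V}

open Classical in
theorem main_count (hF : Ax D F v)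
    (hfib : ∀ u : V, (univ.filter (fun x => v x = u)).card ≤ D) (k b : ℕ)
    (hb : 2 * b = D + D * D) (hk : Fintype.card H = 2 * k)
    (hH : D + D * D + (4 * D + 4 * (D * D)) < Fintype.card H)
    (hbase : ∃ τ0, Mt τ0 ∧ F τ0 ≠ 0) :
    ∑ τ ∈ univ.filter (fun τ : Perm H => Mt τ), 2 ^ (aa F τ) ≤
      (Fintype.card H) ^ (4 * b + D) * (AA F v 0).card := by
  obtain ⟨τ0, h0, ha⟩ := hbase
  have h1 := count_up hF k 0 univ ∅ τ0 τ0 (by rw [Finset.card_univ, hk]) (by simp) (by simp)
    (fun _ _ => Finset.mem_univ _) (fun _ h => absurd h (Finset.notMem_empty _)) h0 h0 ha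
    (fun _ _ => rfl)
  have h2 : EX univ τ0 = univ.filter (fun τ : Perm H => Mt τ) := by
    ext τ
    rw [mem_EX, Finset.mem_filter]
    exact ⟨fun h => ⟨Finset.mem_univ _, h.1⟩, fun h => ⟨h.2, fun x hx => absurd (Finset.mem_univ x) hx⟩⟩
  rw [h2, pow_zero, one_mul] at h1
  have h3 := count_low hF hfib k univ τ0 (by rw [Finset.card_univ, hk])
    (fun _ _ => Finset.mem_univ _) h0 ha (fun h h' hh => absurd (Finset.mem_univ h) hh)
  rw [h2] at h3
  have h4 : ((univ.filter (fun τ : Perm H => Mt τ)).filter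
      (fun τ => F τ ≠ 0 ∧ Few v (D + D * D) τ)).card ≤ (AA F v (2 * b)).card := by
    refine Finset.card_le_card fun τ hτ => ?_
    rw [Finset.mem_filter, Finset.mem_filter] at hτ
    rw [mem_AA, hb]
    exact ⟨hτ.1.2, hτ.2⟩
  have h5 := card_AA hF hfib b (by omega)
  have h6 := num D b k (by omega) (by omega) (by omega)
  rw [← hb] at h3 h4
  rw [hk] at h5 ⊢
  calc _ ≤ ∏ i ∈ range k, (2 * (i + 1) + D) := h1
    _ ≤ (2 * k) ^ (2 * b + D) * ∏ i ∈ range k, max 1 (2 * (i + 1) - 2 * b) := h6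
    _ ≤ (2 * k) ^ (2 * b + D) * ((2 * k) ^ (2 * b) * (AA F v 0).card) :=
        Nat.mul_le_mul_left _ (h3.trans (h4.trans h5))
    _ = (2 * k) ^ (4 * b + D) * (AA F v 0).card := by
        rw [show 4 * b + D = (2 * b + D) + 2 * b by ring, pow_add (2 * k) (2 * b + D) (2 * b)]
        ring

end Pool.Agent.Y342.LE.Cfg
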