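import Pool.Agent.Y342.LE.CfgCount

/-!
# Removing parallel edges by switching
-/

set_option autoImplicit false
set_option linter.unusedSectionVars false

namespace Pool.Agent.Y342.LE.Cfg

open Finset Equiv

variable {H V K : Type} [Fintype H] [DecidableEq H] [Field K]
variable {D : ℕ} {F : Perm H → K} {v : H → V}

/-- close to `v a` or `v b` -/
def Nr (v : H → V) (τ : Perm H) (a b : H) (u : V) : Prop :=
  u = v a ∨ u = v b ∨ ∃ x, (v x = v a ∨ v x = v b) ∧ v (τ x) = u

theorem repair_one {τ : Perm H} (hM : Mt τ) (hl : ∀ h, v (τ h) ≠ v h) {S : Finset H}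
    (hS : Inv S τ) (hs : Simp v S τ) {a c : H} (haS : a ∈ S) (hcS : c ∉ S)
    (h1 : ¬ Nr v τ a (τ a) (v c)) (h2 : ¬ Nr v τ a (τ a) (v (τ c))) :
    Inv ((S.erase a).erase (τ a)) (cj (τ a) c τ) ∧
      Simp v ((S.erase a).erase (τ a)) (cj (τ a) c τ) := by
  have hbS : τ a ∈ S := hS a haS
  have hdS : τ c ∉ S := hS.compl hM c hcS
  have hca : c ≠ a := by rintro rfl; exact hcS haS
  have hcb : c ≠ τ a := by rintro rfl; exact hcS hbS
  have hda : τ c ≠ a := by intro h; rw [h] at hdS; exact hdS haS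
  have hdb : τ c ≠ τ a := by intro h; rw [h] at hdS; exact hdS hbS
  have va : cj (τ a) c τ a = c := cj1_a hM hca hcb
  have hM' := cj_Mt (τ a) c hM
  have vc : cj (τ a) c τ c = a := by
    have := hM'.1 a
    rwa [va] at this
  have vb : cj (τ a) c τ (τ a) = τ c := by
    unfold cj
    simp only [Perm.mul_apply]
    rw [swap_apply_left, swap_apply_of_ne_of_ne hdb (hM.2 c)]
  have vd : cj (τ a) c τ (τ c) = τ a := by
    have := hM'.1 (τ a)
    rwa [vb] at this
  have vo : ∀ x, x ≠ a → x ≠ τ a → x ≠ c → x ≠ τ c → cj (τ a) c τ x = τ x := by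
    intro x h3 h4 h5 h6
    unfold cj
    simp only [Perm.mul_apply]
    rw [swap_apply_of_ne_of_ne h4 h5, swap_apply_of_ne_of_ne]
    · exact fun h => h3 (τ.injective h)
    · intro h
      apply h6
      rw [← h, hM.1]
  generalize cj (τ a) c τ = ρ at *
  constructor
  · intro x hx
    rw [Finset.mem_erase, Finset.mem_erase] at hx ⊢
    obtain ⟨h3, h4, h5⟩ := hx
    rw [vo x h4 h3 (fun h => hcS (h ▸ h5)) (fun h => hdS (h ▸ h5))]
    refine ⟨fun h => h4 (τ.injective h), fun h => h3 ?_, hS _ h5⟩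
    rw [← h, hM.1]
  · -- simplicity
    have hcase : ∀ x, x ∉ (S.erase a).erase (τ a) →
        (x ∉ S ∧ ρ x = τ x) ∨ (x = a ∨ x = τ a ∨ x = c ∨ x = τ c) := by
      intro x hx
      by_cases h3 : x = a ∨ x = τ a ∨ x = c ∨ x = τ c
      · exact Or.inr h3
      · push Not at h3
        obtain ⟨h4, h5, h6, h7⟩ := h3
        refine Or.inl ⟨fun h8 => hx ?_, vo x h4 h5 h6 h7⟩
        rw [Finset.mem_erase, Finset.mem_erase]
        exact ⟨h5, h4, h8⟩
    have hmix : ∀ x y, (x ∉ S ∧ ρ x = τ x) → (y = a ∨ y = τ a ∨ y = c ∨ y = τ c) →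
        v x = v y → v (ρ x) = v (ρ y) → False := by
      rintro x y ⟨h3, h4⟩ h5 h6 h7
      rw [h4] at h7
      rcases h5 with rfl | rfl | rfl | rfl
      · rw [va] at h7
        exact h1 (Or.inr (Or.inr ⟨x, Or.inl h6, h7⟩))
      · rw [vb] at h7
        exact h2 (Or.inr (Or.inr ⟨x, Or.inr h6, h7⟩))
      · rw [vc] at h7
        exact h1 (Or.inr (Or.inr ⟨τ x, Or.inl h7, by rw [hM.1, h6]⟩))
      · rw [vd] at h7
        exact h2 (Or.inr (Or.inr ⟨τ x, Or.inr h7, by rw [hM.1, h6]⟩))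
    have e1 : v (τ a) ≠ v a := hl a
    have e2 : v (τ c) ≠ v c := hl c
    have e3 : v c ≠ v a := fun h => h1 (Or.inl h)
    have e4 : v c ≠ v (τ a) := fun h => h1 (Or.inr (Or.inl h))
    have e5 : v (τ c) ≠ v a := fun h => h2 (Or.inl h)
    have e6 : v (τ c) ≠ v (τ a) := fun h => h2 (Or.inr (Or.inl h))
    intro x x' hx hx' hv hv'
    rcases hcase x hx with h3 | h3 <;> rcases hcase x' hx' with h4 | h4
    · rw [h3.2, h4.2] at hv'
      exact hs x x' h3.1 h4.1 hv hv'
    · exact (hmix x x' h3 h4 hv hv').elim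
    · exact (hmix x' x h4 h3 hv.symm hv'.symm).elim
    · rcases h3 with h3 | h3 | h3 | h3 <;> rcases h4 with h4 | h4 | h4 | h4 <;>
        rw [h3, h4] at hv <;> first | exact h3.trans h4.symm | exact absurd hv (by assumption) |
          exact absurd hv.symm (by assumption)

open Classical in
theorem exists_far (hfib : ∀ u : V, (univ.filter (fun x => v x = u)).card ≤ D) {τ : Perm H}
    (a b : H) (S : Finset H) (h : S.card + (4 * D + 4 * (D * D)) < Fintype.card H) :
    ∃ c, c ∉ S ∧ ¬ Nr v τ a b (v c) ∧ ¬ Nr v τ a b (v (τ c)) := by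
  set N1 := (univ.filter (fun x => v x = v a)) ∪ (univ.filter (fun x => v x = v b)) with hN1
  have hN1c : N1.card ≤ 2 * D := by
    have := Finset.card_union_le (univ.filter (fun x => v x = v a)) (univ.filter (fun x => v x = v b))
    have h1 := hfib (v a)
    have h2 := hfib (v b)
    rw [hN1]
    omega
  set N := N1 ∪ N1.biUnion (fun x => univ.filter (fun y => v y = v (τ x))) with hN
  have hNc : N.card ≤ 2 * D + 2 * (D * D) := by
    have h1 := Finset.card_union_le N1 (N1.biUnion (fun x => univ.filter (fun y => v y = v (τ x))))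
    have h2 : (N1.biUnion (fun x => univ.filter (fun y => v y = v (τ x)))).card ≤ N1.card * D :=
      Finset.card_biUnion_le_card_mul _ _ _ (fun x _ => hfib _)
    have h3 : N1.card * D ≤ 2 * D * D := Nat.mul_le_mul_right _ hN1c
    have h4 : 2 * D * D = 2 * (D * D) := by ring
    rw [hN]
    omega
  have hmem : ∀ y, Nr v τ a b (v y) → y ∈ N := by
    intro y hy
    rw [hN, Finset.mem_union]
    rcases hy with h1 | h1 | ⟨x, h1, h2⟩
    · left
      rw [hN1, Finset.mem_union, Finset.mem_filter]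
      exact Or.inl ⟨Finset.mem_univ _, h1⟩
    · left
      rw [hN1, Finset.mem_union, Finset.mem_filter, Finset.mem_filter]
      exact Or.inr ⟨Finset.mem_univ _, h1⟩
    · right
      rw [Finset.mem_biUnion]
      refine ⟨x, ?_, Finset.mem_filter.2 ⟨Finset.mem_univ _, h2.symm⟩⟩
      rw [hN1, Finset.mem_union, Finset.mem_filter, Finset.mem_filter]
      exact h1.imp (fun h => ⟨Finset.mem_univ _, h⟩) (fun h => ⟨Finset.mem_univ _, h⟩)
  set M := S ∪ (N ∪ N.image τ.symm) with hMd
  have hMc : M.card < Fintype.card H := by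
    have h1 := Finset.card_union_le S (N ∪ N.image τ.symm)
    have h2 := Finset.card_union_le N (N.image τ.symm)
    have h3 : (N.image τ.symm).card ≤ N.card := Finset.card_image_le
    rw [hMd]
    omega
  obtain ⟨c, hc⟩ : ∃ c, c ∉ M := by
    by_contra h1
    push Not at h1
    have h2 : M = univ := Finset.eq_univ_iff_forall.2 h1
    rw [h2, Finset.card_univ] at hMc
    exact lt_irrefl _ hMc
  rw [hMd, Finset.mem_union, Finset.mem_union, not_or, not_or] at hc
  refine ⟨c, hc.1, fun h1 => hc.2.1 (hmem _ h1), fun h1 => hc.2.2 ?_⟩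
  rw [Finset.mem_image]
  exact ⟨τ c, hmem _ h1, τ.symm_apply_apply c⟩

open Classical in
/-- the good configurations with few parallel edges -/
noncomputable def AA (F : Perm H → K) (v : H → V) (c : ℕ) : Finset (Perm H) :=
  univ.filter (fun τ => Mt τ ∧ F τ ≠ 0 ∧ Few v c τ)

theorem mem_AA {c : ℕ} {τ : Perm H} : τ ∈ AA F v c ↔ Mt τ ∧ F τ ≠ 0 ∧ Few v c τ := by
  classical
  unfold AA
  rw [Finset.mem_filter]
  exact ⟨fun h => h.2, fun h => ⟨Finset.mem_univ _, h⟩⟩

open Classical in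
theorem exists_repair (hF : Ax D F v) (hfib : ∀ u : V, (univ.filter (fun x => v x = u)).card ≤ D)
    {c : ℕ} (hH : c + 2 + (4 * D + 4 * (D * D)) < Fintype.card H) {τ : Perm H}
    (hτ : τ ∈ AA F v (c + 2)) : ∃ x y, cj x y τ ∈ AA F v c := by
  rw [mem_AA] at hτ
  obtain ⟨hM, ha, S, hSc, hS, hs⟩ := hτ
  rcases S.eq_empty_or_nonempty with rfl | ⟨a, haS⟩
  · have hne : Nonempty H := Fintype.card_pos_iff.1 (by omega)
    obtain ⟨x⟩ := hne
    refine ⟨x, x, ?_⟩
    have h1 : cj x x τ = τ := by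
      unfold cj
      rw [swap_self]
      rfl
    rw [h1, mem_AA]
    exact ⟨hM, ha, ∅, by simp, hS, hs⟩
  · have hl := hF.loop τ hM ha
    obtain ⟨c0, hc1, hc2, hc3⟩ := exists_far (v := v) (τ := τ) hfib a (τ a) S (by omega)
    have hca : c0 ≠ a := by rintro rfl; exact hc1 haS
    have hcb : c0 ≠ τ a := by rintro rfl; exact hc1 (hS a haS)
    have hcard : ((S.erase a).erase (τ a)).card ≤ c := by
      rw [Finset.card_erase_of_mem (Finset.mem_erase.2 ⟨hM.2 a, hS a haS⟩),
        Finset.card_erase_of_mem haS]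
      omega
    have h3 := hF.three τ hM a c0 hca hcb
    by_cases h4 : F (cj (τ a) c0 τ) = 0
    · have h5 : F (cj (τ a) (τ c0) τ) ≠ 0 := by
        intro h5
        rw [h4, h5, add_zero, add_zero] at h3
        exact ha h3
      have h6 := repair_one hM hl hS hs haS (hS.compl hM c0 hc1) hc3 (by rw [hM.1]; exact hc2)
      refine ⟨τ a, τ c0, ?_⟩
      rw [mem_AA]
      exact ⟨cj_Mt _ _ hM, h5, _, hcard, h6.1, h6.2⟩
    · have h6 := repair_one hM hl hS hs haS hc1 hc2 hc3
      refine ⟨τ a, c0, ?_⟩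
      rw [mem_AA]
      exact ⟨cj_Mt _ _ hM, h4, _, hcard, h6.1, h6.2⟩

open Classical in
theorem card_AA_step (hF : Ax D F v) (hfib : ∀ u : V, (univ.filter (fun x => v x = u)).card ≤ D)
    {c : ℕ} (hH : c + 2 + (4 * D + 4 * (D * D)) < Fintype.card H) :
    (AA F v (c + 2)).card ≤ (Fintype.card H) ^ 2 * (AA F v c).card := by
  have h1 : ∀ τ : Perm H, ∃ q : H × H, τ ∈ AA F v (c + 2) → cj q.1 q.2 τ ∈ AA F v c := by
    intro τ
    by_cases h : τ ∈ AA F v (c + 2)
    · obtain ⟨x, y, hxy⟩ := exists_repair hF hfib hH h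
      exact ⟨(x, y), fun _ => hxy⟩
    · have hne : Nonempty H := Fintype.card_pos_iff.1 (by omega)
      exact ⟨(hne.some, hne.some), fun h' => absurd h' h⟩
  choose q hq using h1
  have h2 : (AA F v (c + 2)).card ≤ ((univ : Finset (H × H)) ×ˢ (AA F v c)).card := by
    refine Finset.card_le_card_of_injOn (fun τ => (q τ, cj (q τ).1 (q τ).2 τ)) ?_ ?_
    · intro τ hτ
      rw [Finset.mem_coe] at hτ ⊢
      rw [Finset.mem_product]
      exact ⟨Finset.mem_univ _, hq τ hτ⟩
    · intro τ _ τ' _ h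
      have h3 : q τ = q τ' := congrArg Prod.fst h
      have h4 : cj (q τ).1 (q τ).2 τ = cj (q τ').1 (q τ').2 τ' := congrArg Prod.snd h
      rw [← cj_cj (q τ).1 (q τ).2 τ, h4, h3, cj_cj]
  rw [Finset.card_product, Finset.card_univ, Fintype.card_prod] at h2
  rw [sq]
  exact h2

open Classical in
theorem card_AA (hF : Ax D F v)
    (hfib : ∀ u : V, (univ.filter (fun x => v x = u)).card ≤ D) (k : ℕ)
    (hH : 2 * k + (4 * D + 4 * (D * D)) < Fintype.card H) :
    (AA F v (2 * k)).card ≤ (Fintype.card H) ^ (2 * k) * (AA F v 0).card := by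
  induction k with
  | zero => simp
  | succ k ih =>
    have h1 := card_AA_step hF hfib (c := 2 * k) (by omega)
    have h2 := ih (by omega)
    calc (AA F v (2 * (k + 1))).card = (AA F v (2 * k + 2)).card := by ring_nf
      _ ≤ (Fintype.card H) ^ 2 * (AA F v (2 * k)).card := h1
      _ ≤ (Fintype.card H) ^ 2 * ((Fintype.card H) ^ (2 * k) * (AA F v 0).card) :=
        Nat.mul_le_mul_left _ h2
      _ = _ := by ring

end Pool.Agent.Y342.LE.Cfg
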