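import Pool.Agent.Y342.LE.Main

/-!
# The main formula in terms of the graph polynomial
-/

set_option autoImplicit false
set_option linter.unusedSectionVars false

namespace Pool.Agent.Y342.LE

open Finset Pool.Agent.W426.LE Nat

theorem card_match {D : Type} [Fintype D] [DecidableEq D] (f g : D → Bool) :
    Nat.card {τ : Equiv.Perm D // ∀ i, g (τ i) = !f i} =
      if Nat.card {i // f i = true} + Nat.card {i // g i = true} = Fintype.card D then
        (Nat.card {i // f i = true})! * (Nat.card {i // g i = true})! else 0 := by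
  classical
  have hf : Nat.card {i // f i = true} + Nat.card {i // f i = false} = Fintype.card D := by
    rw [Nat.card_eq_fintype_card, Nat.card_eq_fintype_card, Fintype.card_subtype,
      Fintype.card_subtype, ← Finset.card_univ (α := D)]
    have := Finset.card_filter_add_card_filter_not (s := (univ : Finset D)) (fun i => f i = true)
    simpa using this
  have hg : Nat.card {i // g i = true} + Nat.card {i // g i = false} = Fintype.card D := by
    rw [Nat.card_eq_fintype_card, Nat.card_eq_fintype_card, Fintype.card_subtype,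
      Fintype.card_subtype, ← Finset.card_univ (α := D)]
    have := Finset.card_filter_add_card_filter_not (s := (univ : Finset D)) (fun i => g i = true)
    simpa using this
  split_ifs with h
  · have h1 : Nat.card {i // (!f i) = true} = Nat.card {i // g i = true} := by
      have h2 : Nat.card {i // (!f i) = true} = Nat.card {i // f i = false} :=
        Nat.card_congr (Equiv.subtypeEquivRight fun i => by simp)
      omega
    have h1' : Nat.card {i // (!f i) = false} = Nat.card {i // g i = false} := by
      have h2 : Nat.card {i // (!f i) = false} = Nat.card {i // f i = true} :=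
        Nat.card_congr (Equiv.subtypeEquivRight fun i => by simp)
      omega
    let τ0 : Equiv.Perm D := Equiv.ofFiberEquiv (f := fun i => !f i) (g := g) (fun c => by
      cases c
      · exact (Finite.card_eq.1 h1').some
      · exact (Finite.card_eq.1 h1).some)
    have h0 : ∀ i, g (τ0 i) = !f i := fun i => Equiv.ofFiberEquiv_map _ i
    have h2 : Nat.card {τ : Equiv.Perm D // ∀ i, g (τ i) = !f i} =
        Nat.card {τ : Equiv.Perm D // f ∘ τ = f} := by
      refine Nat.card_congr
        { toFun := fun τ => ⟨τ0⁻¹ * τ.1, ?_⟩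
          invFun := fun η => ⟨τ0 * η.1, ?_⟩
          left_inv := fun τ => Subtype.ext (by simp)
          right_inv := fun τ => Subtype.ext (by simp) }
      · funext i
        have h3 := h0 ((τ0⁻¹ * τ.1) i)
        have h4 : τ0 ((τ0⁻¹ * τ.1) i) = τ.1 i := permApplyInv τ0 _
        rw [h4, τ.2 i] at h3
        show f ((τ0⁻¹ * τ.1) i) = f i
        revert h3
        cases f ((τ0⁻¹ * τ.1) i) <;> cases f i <;> simp
      · intro i
        show g (τ0 (η.1 i)) = !f i
        rw [h0]
        have := congrFun η.2 i
        simp only [Function.comp_apply] at this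
        rw [this]
    rw [h2, Nat.card_eq_fintype_card, DomMulAct.stabilizer_card, Fintype.prod_bool,
      ← Nat.card_eq_fintype_card, ← Nat.card_eq_fintype_card]
    congr 2
    omega
  · rw [Nat.card_eq_zero]
    left
    refine ⟨fun τ => h ?_⟩
    have h1 : Nat.card {i // g i = true} = Nat.card {i // f i = false} := by
      refine (Nat.card_congr (Equiv.subtypeEquiv τ.1 fun i => ?_)).symm
      rw [τ.2 i]
      cases f i <;> simp
    omega

section

variable {A D E C : Type} [Fintype A] [Fintype D] [Fintype E] [DecidableEq A] [DecidableEq D]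
  [DecidableEq E]
variable (θ : E × Bool ≃ (A × D) × Bool)

/-- the vertex of a half-edge -/
def vx (h : E × Bool) : A × Bool := ((θ h).1.1, (θ h).2)

/-- the outdegrees of the orientation `y` -/
noncomputable def ky (y : E → Bool) : (A × Bool) →₀ ℕ :=
  ∑ e, Finsupp.single (vx θ (e, !y e)) 1

theorem ky_apply (y : E → Bool) (v : A × Bool) :
    ky θ y v = Nat.card {i // tt y (θ.symm ((v.1, i), v.2)) = true} := by
  classical
  have h1 : ky θ y v = Nat.card {e // vx θ (e, !y e) = v} := by
    unfold ky
    rw [Finsupp.finsetSum_apply, Nat.card_eq_fintype_card, Fintype.card_subtype,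
      Finset.card_filter]
    refine Finset.sum_congr rfl fun e _ => ?_
    rw [Finsupp.single_apply]
  rw [h1]
  have key : ∀ e, vx θ (e, !y e) = v →
      θ.symm ((v.1, (θ (e, !y e)).1.2), v.2) = (e, !y e) := by
    rintro e rfl
    rw [Equiv.symm_apply_eq]
    rfl
  refine Nat.card_congr
    { toFun := fun e => ⟨(θ (e.1, !y e.1)).1.2, ?_⟩
      invFun := fun i => ⟨(θ.symm ((v.1, i.1), v.2)).1, ?_⟩
      left_inv := fun e => Subtype.ext ?_
      right_inv := fun i => Subtype.ext ?_ }
  · rw [key e.1 e.2]
    simp [tt]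
  · have h2 := i.2
    simp only [tt] at h2
    have h3 : (!y (θ.symm ((v.1, i.1), v.2)).1) = (θ.symm ((v.1, i.1), v.2)).2 := by
      revert h2
      cases (θ.symm ((v.1, i.1), v.2)).2 <;> cases y (θ.symm ((v.1, i.1), v.2)).1 <;> simp
    rw [h3]
    show vx θ (θ.symm ((v.1, i.1), v.2)) = v
    unfold vx
    rw [Equiv.apply_symm_apply]
  · show (θ.symm ((v.1, (θ (e.1, !y e.1)).1.2), v.2)).1 = e.1
    rw [key e.1 e.2]
  · have h2 := i.2
    simp only [tt] at h2
    have h3 : (!y (θ.symm ((v.1, i.1), v.2)).1) = (θ.symm ((v.1, i.1), v.2)).2 := by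
      revert h2
      cases (θ.symm ((v.1, i.1), v.2)).2 <;> cases y (θ.symm ((v.1, i.1), v.2)).1 <;> simp
    show (θ ((θ.symm ((v.1, i.1), v.2)).1, !y (θ.symm ((v.1, i.1), v.2)).1)).1.2 = i.1
    rw [h3]
    show (θ (θ.symm ((v.1, i.1), v.2))).1.2 = i.1
    rw [Equiv.apply_symm_apply]

/-- the weight of a degree sequence -/
def FF (d : ℕ) (m : A × Bool → ℕ) : ℕ :=
  ∏ a, if m (a, false) + m (a, true) = d then (m (a, false))! * (m (a, true))! else 0

theorem card_Coh (y : E → Bool) : Nat.card {π : A → Equiv.Perm D // Coh θ π y} =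
    FF (Fintype.card D) (ky θ y) := by
  unfold FF
  have h1 : Nat.card {π : A → Equiv.Perm D // Coh θ π y} =
      Nat.card (∀ a : A, {τ : Equiv.Perm D // ∀ i, tt y (θ.symm ((a, τ i), true)) =
        !tt y (θ.symm ((a, i), false))}) :=
    Nat.card_congr (Equiv.subtypePiEquivPi (p := fun (a : A) (τ : Equiv.Perm D) =>
      ∀ i, tt y (θ.symm ((a, τ i), true)) = !tt y (θ.symm ((a, i), false))))
  rw [h1, Nat.card_pi]
  refine Finset.prod_congr rfl fun a _ => ?_
  rw [card_match (fun i => tt y (θ.symm ((a, i), false))) (fun i => tt y (θ.symm ((a, i), true))),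
    ky_apply, ky_apply]

/-- the sign of a vertex -/
def sv (v : A × Bool) : ℤ := if v.2 = true then -1 else 1

/-- the linear functional with the values `F m` at the monomials -/
noncomputable def LL {R : Type} [CommRing R] (F : ((A × Bool) →₀ ℕ) → R) :
    MvPolynomial (A × Bool) R →ₗ[R] R :=
  (MvPolynomial.basisMonomials (A × Bool) R).constr R F

theorem LL_monomial {R : Type} [CommRing R] (F : ((A × Bool) →₀ ℕ) → R) (m : (A × Bool) →₀ ℕ) :
    LL F (MvPolynomial.monomial m 1) = F m := by
  have h := (MvPolynomial.basisMonomials (A × Bool) R).constr_basis R F m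
  rwa [MvPolynomial.coe_basisMonomials] at h

theorem sum_wt {R : Type} [CommRing R] (F : ((A × Bool) →₀ ℕ) → R) :
    ∑ y : E → Bool, ((wt θ y : ℤ) : R) * F (ky θ y) =
      LL F (∏ e, (MvPolynomial.C ((sv (vx θ (e, false)) : ℤ) : R) *
          MvPolynomial.X (vx θ (e, true)) -
        MvPolynomial.C ((sv (vx θ (e, true)) : ℤ) : R) * MvPolynomial.X (vx θ (e, false)))) := by
  have h1 : ∀ e : E, (MvPolynomial.C ((sv (vx θ (e, false)) : ℤ) : R) *
          MvPolynomial.X (vx θ (e, true)) -
        MvPolynomial.C ((sv (vx θ (e, true)) : ℤ) : R) * MvPolynomial.X (vx θ (e, false))) =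
      ∑ b : Bool, MvPolynomial.C (((if b = true then (-1 : ℤ) else 1) *
        (if (θ (e, b)).2 = true then (-1 : ℤ) else 1) : ℤ) : R) *
          MvPolynomial.X (vx θ (e, !b)) := by
    intro e
    rw [Fintype.sum_bool]
    simp only [if_true, Bool.false_eq_true, if_false, Bool.not_true, Bool.not_false, sv, vx]
    generalize (MvPolynomial.X ((θ (e, true)).1.1, (θ (e, true)).2) :
      MvPolynomial (A × Bool) R) = X1
    generalize (MvPolynomial.X ((θ (e, false)).1.1, (θ (e, false)).2) :
      MvPolynomial (A × Bool) R) = X2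
    by_cases h5 : (θ (e, false)).2 = true <;> by_cases h6 : (θ (e, true)).2 = true <;>
      simp only [h5, h6, if_true, Bool.false_eq_true, if_false] <;> push_cast <;>
      simp only [mul_one, one_mul, neg_mul, neg_neg, MvPolynomial.C_neg, MvPolynomial.C_1] <;> ring
  rw [Finset.prod_congr rfl fun e _ => h1 e, Finset.prod_univ_sum, Fintype.piFinset_univ, map_sum]
  refine Finset.sum_congr rfl fun y _ => ?_
  rw [Finset.prod_mul_distrib, ← map_prod, ← MvPolynomial.smul_eq_C_mul, map_smul]
  have h2 : ∏ e, (MvPolynomial.X (vx θ (e, !y e)) : MvPolynomial (A × Bool) R) =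
      MvPolynomial.monomial (ky θ y) 1 := by
    unfold ky
    rw [MvPolynomial.monomial_sum_one]
    rfl
  rw [h2, LL_monomial, smul_eq_mul, ← Int.cast_prod, Finset.prod_mul_distrib]
  rfl

/-- **The formula for the signed number of colourings with `-2` colours** in terms of the graph
polynomial. -/
theorem graph_formula {R : Type} [CommRing R] [Fintype C] (ρ : D ≃ C)
    (hC : ((Nat.card C : ℕ) : R) = -2) (K : Type) [Finite K] (hK : ((Nat.card K : ℕ) : R) = -1)
    (β : E ≃ A × D) :
    ((NN ρ (inc θ) : ℤ) : R) = (-1) ^ (Fintype.card E) *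
      ((Equiv.Perm.sign ((β.prodCongr (Equiv.refl Bool)).trans θ.symm) : ℤ) : R) *
      LL (fun m => ((FF (Fintype.card D) m : ℕ) : R))
        (∏ e, (MvPolynomial.C ((sv (vx θ (e, false)) : ℤ) : R) *
          MvPolynomial.X (vx θ (e, true)) -
        MvPolynomial.C ((sv (vx θ (e, true)) : ℤ) : R) * MvPolynomial.X (vx θ (e, false)))) := by
  rw [main_formula θ ρ hC K hK β, ← sum_wt]
  congr 1
  refine Finset.sum_congr rfl fun y _ => ?_
  rw [card_Coh]

end

end Pool.Agent.Y342.LE
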