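import Pool.Agent.Y342.LE.Fin2

/-!
# Configurations with a given degree sequence
-/

set_option autoImplicit false
set_option linter.unusedSectionVars false

namespace Pool.Agent.Y342.LE.Cfg

open Finset Equiv Pool.Agent.W426.LE Pool.Agent.Y342.LE

/-! ### Restriction to a part of the half-edges -/

section sub

variable {H V K : Type} [Fintype H] [DecidableEq H] [Field K] {q : H → Prop} [DecidablePred q]

/-- extension by a fixed matching -/
def xt (ρ : Perm {h : H // ¬ q h}) (τ : Perm {h : H // q h}) : Perm H := Perm.subtypeCongr τ ρ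

theorem xt_act (ρ : Perm {h : H // ¬ q h}) (τ : Perm {h : H // q h}) (h : {h : H // q h}) :
    xt ρ τ h = τ h := by
  unfold xt
  simp

theorem xt_pas (ρ : Perm {h : H // ¬ q h}) (τ : Perm {h : H // q h}) (h : {h : H // ¬ q h}) :
    xt ρ τ h = ρ h := by
  unfold xt
  simp

theorem xt_Mt {ρ : Perm {h : H // ¬ q h}} {τ : Perm {h : H // q h}} (hρ : Mt ρ) (hτ : Mt τ) :
    Mt (xt ρ τ) := by
  constructor
  · intro h
    by_cases hh : q h
    · have h1 := xt_act ρ τ ⟨h, hh⟩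
      have h2 := xt_act ρ τ (τ ⟨h, hh⟩)
      rw [hτ.1] at h2
      rw [h1, h2]
    · have h1 := xt_pas ρ τ ⟨h, hh⟩
      have h2 := xt_pas ρ τ (ρ ⟨h, hh⟩)
      rw [hρ.1] at h2
      rw [h1, h2]
  · intro h
    by_cases hh : q h
    · have h1 := xt_act ρ τ ⟨h, hh⟩
      rw [h1]
      intro h2
      exact hτ.2 ⟨h, hh⟩ (Subtype.ext h2)
    · have h1 := xt_pas ρ τ ⟨h, hh⟩
      rw [h1]
      intro h2
      exact hρ.2 ⟨h, hh⟩ (Subtype.ext h2)

theorem xt_of {ρ : Perm {h : H // ¬ q h}} {σ : Perm H} (hσ : Mt σ)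
    (h : ∀ x : {h : H // ¬ q h}, σ x = ρ x) : ∃ τ : Perm {h : H // q h}, Mt τ ∧ xt ρ τ = σ := by
  have h1 : ∀ x, q x → q (σ x) := by
    intro x hx
    by_contra h2
    have h3 := h ⟨σ x, h2⟩
    rw [hσ.1] at h3
    exact (ρ ⟨σ x, h2⟩).2 (h3 ▸ hx)
  let t : {h : H // q h} → {h : H // q h} := fun x => ⟨σ x, h1 x x.2⟩
  have ht : ∀ x, t (t x) = x := fun x => Subtype.ext (hσ.1 x)
  refine ⟨⟨t, t, ht, ht⟩, ⟨ht, fun x hx => hσ.2 x (congrArg Subtype.val hx)⟩, Equiv.ext fun x => ?_⟩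
  by_cases hx : q x
  · exact xt_act ρ _ ⟨x, hx⟩
  · rw [xt_pas ρ _ ⟨x, hx⟩, ← h ⟨x, hx⟩]

theorem Bd.sub {β : ℕ} {F : Perm H → K} {v : H → V} (hF : Bd β F v)
    {ρ : Perm {h : H // ¬ q h}} (hρ : Mt ρ) :
    Bd β (fun τ => F (xt ρ τ)) (fun h : {h : H // q h} => v h) where
  bad := by
    classical
    intro R τ0 hR h0 ha i hi
    let ι : {h : H // q h} ↪ H := Function.Embedding.subtype q
    have hmem : ∀ x : {h : H // q h}, (x : H) ∈ R.map ι ↔ x ∈ R := fun x =>
      Finset.mem_map' ι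
    have hR' : Inv (R.map ι) (xt ρ τ0) := by
      intro x hx
      obtain ⟨y, hy, rfl⟩ := Finset.mem_map.1 hx
      have h1 : xt ρ τ0 (ι y) = ι (τ0 y) := xt_act ρ τ0 y
      rw [h1, Finset.mem_map' ι]
      exact hR y hy
    have h1 := hF.bad (R.map ι) (xt ρ τ0) hR' (xt_Mt hρ h0) ha (i : H) ((hmem i).2 hi)
    refine le_trans ?_ h1
    rw [← Finset.card_map ι]
    refine Finset.card_le_card fun x hx => ?_
    obtain ⟨j, hj, rfl⟩ := Finset.mem_map.1 hx
    rw [Finset.mem_filter] at hj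
    obtain ⟨hjR, hji, hjG⟩ := hj
    rw [Finset.mem_filter]
    refine ⟨(hmem j).2 hjR, fun h2 => hji (Subtype.ext h2), fun h2 => hjG ?_⟩
    obtain ⟨σ, h3, h4, h5, h6⟩ := h2
    obtain ⟨τ, h7, rfl⟩ := xt_of (ρ := ρ) h3 (fun x => by
      rw [h5 x (fun hx => ?_), xt_pas]
      obtain ⟨y, -, hy⟩ := Finset.mem_map.1 hx
      exact x.2 (hy ▸ y.2))
    refine ⟨τ, h7, h4, fun x hx => ?_, ?_⟩
    · have h8 := h5 x (fun h9 => hx ((hmem x).1 h9))
      rw [xt_act, xt_act] at h8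
      exact Subtype.ext h8
    · rw [xt_act] at h6
      exact Subtype.ext h6
  loop := by
    intro τ hτ h0 h
    have h1 := hF.loop (xt ρ τ) (xt_Mt hρ hτ) h0 h
    rw [xt_act] at h1
    exact h1

end sub

/-! ### Configurations and graphs -/

section gen

variable {H V : Type} {v : H → V}

/-- `τ` is a configuration of the simple graph `G` -/
def IsG (v : H → V) (G : SimpleGraph V) (τ : Perm H) : Prop :=
  Mt τ ∧ Simp v ∅ τ ∧ ∀ u w, G.Adj u w ↔ ∃ h : H, v h = u ∧ v (τ h) = w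

/-- from a configuration to the labellings of the neighbours -/
noncomputable def toE (G : SimpleGraph V) (τ : {τ : Perm H // IsG v G τ}) :
    ∀ u, {h : H // v h = u} ≃ G.neighborSet u := fun u =>
  Equiv.ofBijective (fun h => (⟨v (τ.1 h), (τ.2.2.2 _ _).2 ⟨h.1, h.2, rfl⟩⟩ : G.neighborSet u)) (by
    obtain ⟨τ, hM, hs, hA⟩ := τ
    constructor
    · intro x y h
      exact Subtype.ext (hs x y (Finset.notMem_empty _) (Finset.notMem_empty _)
        (x.2.trans y.2.symm) (congrArg Subtype.val h))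
    · rintro ⟨w, hw⟩
      obtain ⟨h, h1, h2⟩ := (hA u w).1 hw
      exact ⟨⟨h, h1⟩, Subtype.ext h2⟩)

theorem toE_bij (G : SimpleGraph V) : Function.Bijective (toE (v := v) G) := by
  constructor
  · rintro ⟨τ, hM, hs, hA⟩ ⟨τ', hM', hs', hA'⟩ h
    refine Subtype.ext (Equiv.ext fun z => ?_)
    have h1 : ∀ y : H, v (τ y) = v (τ' y) := fun y =>
      congrArg Subtype.val (DFunLike.congr_fun (congrFun h (v y)) (⟨y, rfl⟩ : {h : H // v h = v y}))
    refine hs _ _ (Finset.notMem_empty _) (Finset.notMem_empty _) (h1 z) ?_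
    show v (τ (τ z)) = v (τ (τ' z))
    rw [hM.1, h1 (τ' z), hM'.1]
  · intro e
    let f : H → V := fun h => (e (v h) ⟨h, rfl⟩).1
    have hf : ∀ (u : V) (x : {h : H // v h = u}), f x.1 = (e u x).1 := by
      rintro u ⟨x, rfl⟩
      rfl
    have hfa : ∀ h, G.Adj (v h) (f h) := fun h => (e (v h) ⟨h, rfl⟩).2
    have hinj : ∀ x y, v x = v y → f x = f y → x = y := by
      intro x y h1 h2
      have h3 : e (v y) ⟨x, h1⟩ = e (v y) ⟨y, rfl⟩ :=
        Subtype.ext ((hf _ ⟨x, h1⟩).symm.trans h2)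
      exact congrArg Subtype.val ((e (v y)).injective h3)
    let t : H → H := fun h => ((e (f h)).symm ⟨v h, (hfa h).symm⟩).1
    have hvt : ∀ h, v (t h) = f h := fun h => ((e (f h)).symm ⟨v h, (hfa h).symm⟩).2
    have hft : ∀ h, f (t h) = v h := by
      intro h
      have h1 := hf (f h) ((e (f h)).symm ⟨v h, (hfa h).symm⟩)
      rw [Equiv.apply_symm_apply] at h1
      exact h1
    have ht : ∀ h, t (t h) = h := fun h => hinj _ _ (by rw [hvt, hft]) (by rw [hft, hvt])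
    let τ : Perm H := ⟨t, t, ht, ht⟩
    have hC : IsG v G τ := by
      refine ⟨⟨ht, fun h h2 => ?_⟩, ?_, ?_⟩
      · apply (hfa h).ne
        rw [← hvt]
        exact (congrArg v h2).symm
      · intro h h' _ _ h2 h3
        refine hinj _ _ h2 ?_
        rw [← hvt, ← hvt]
        exact h3
      · intro u w
        constructor
        · intro h1
          refine ⟨((e u).symm ⟨w, h1⟩).1, ((e u).symm ⟨w, h1⟩).2, ?_⟩
          show v (t _) = w
          rw [hvt, hf, Equiv.apply_symm_apply]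
        · rintro ⟨h, rfl, rfl⟩
          show G.Adj (v h) (v (t h))
          rw [hvt]
          exact hfa h
    refine ⟨⟨τ, hC⟩, funext fun u => Equiv.ext fun x => Subtype.ext ?_⟩
    show v (t x) = _
    rw [hvt, hf]

open Classical in
theorem card_IsG [Fintype H] [DecidableEq H] [Fintype V] {δ : V → ℕ} (G : SimpleGraph V)
    (hδ : ∀ u, Nat.card {h : H // v h = u} = δ u)
    (hG : ∀ u, (G.neighborSet u).ncard = δ u) :
    (univ.filter (fun τ : Perm H => IsG v G τ)).card = ∏ u, (δ u).factorial := by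
  have h1 : (univ.filter (fun τ : Perm H => IsG v G τ)).card =
      Nat.card (∀ u, {h : H // v h = u} ≃ G.neighborSet u) := by
    rw [← Nat.card_congr (Equiv.ofBijective _ (toE_bij (v := v) G)),
      Nat.card_eq_fintype_card, Fintype.card_subtype]
  rw [h1, Nat.card_pi]
  refine Finset.prod_congr rfl fun u _ => ?_
  have h3 : Nat.card (G.neighborSet u) = δ u := hG u
  have h4 := hδ u
  have := Fintype.ofFinite (G.neighborSet u)
  have : Fintype {h : H // v h = u} := Fintype.ofFinite _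
  rw [Nat.card_eq_fintype_card] at h3 h4 ⊢
  have e : {h : H // v h = u} ≃ G.neighborSet u := Fintype.equivOfCardEq (h4.trans h3.symm)
  rw [Fintype.card_equiv e, h4]

/-- the graph of a configuration -/
def GrG (v : H → V) (τ : Perm H) : SimpleGraph V :=
  SimpleGraph.fromRel fun u w => ∃ h : H, v h = u ∧ v (τ h) = w

theorem GrG_adj {τ : Perm H} (hM : Mt τ) (hl : ∀ h, v (τ h) ≠ v h) (u w : V) :
    (GrG v τ).Adj u w ↔ ∃ h : H, v h = u ∧ v (τ h) = w := by
  unfold GrG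
  rw [SimpleGraph.fromRel_adj]
  constructor
  · rintro ⟨-, h | ⟨h, h1, h2⟩⟩
    · exact h
    · exact ⟨τ h, h2, by rw [hM.1]; exact h1⟩
  · rintro ⟨h, rfl, rfl⟩
    exact ⟨(hl h).symm, Or.inl ⟨h, rfl, rfl⟩⟩

theorem GrG_IsG {τ : Perm H} (hM : Mt τ) (hl : ∀ h, v (τ h) ≠ v h)
    (hs : Simp v ∅ τ) : IsG v (GrG v τ) τ :=
  ⟨hM, hs, GrG_adj hM hl⟩

theorem IsG.deg {G : SimpleGraph V} {τ : Perm H} (h : IsG v G τ) (u : V) :
    (G.neighborSet u).ncard = Nat.card {h : H // v h = u} :=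
  (Nat.card_congr (toE (v := v) G ⟨τ, h⟩ u)).symm

end gen

end Pool.Agent.Y342.LE.Cfg
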