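import Pool.Agent.Y342.LE.Dg

/-!
# Configurations without loops
-/

set_option autoImplicit false
set_option linter.unusedSectionVars false

namespace Pool.Agent.Y342.LE.Cfg

open Finset Equiv

theorem exists_Mt {X : Type} [Fintype X] (h : Even (Fintype.card X)) : ∃ τ : Perm X, Mt τ := by
  obtain ⟨m, hm⟩ := h
  have e : X ≃ Fin m × Bool := Fintype.equivOfCardEq (by
    rw [hm, Fintype.card_prod, Fintype.card_fin, Fintype.card_bool]
    ring)
  let t : X → X := fun x => e.symm ((e x).1, !(e x).2)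
  have ht : ∀ x, t (t x) = x := by
    intro x
    show e.symm ((e (e.symm _)).1, !(e (e.symm _)).2) = x
    rw [Equiv.apply_symm_apply]
    show e.symm ((e x).1, !!(e x).2) = x
    rw [Bool.not_not]
    exact e.symm_apply_apply x
  refine ⟨⟨t, t, ht, ht⟩, ht, fun x hx => ?_⟩
  have h1 : e.symm ((e x).1, !(e x).2) = x := hx
  have h2 := congrArg Prod.snd ((Equiv.symm_apply_eq e).1 h1)
  have h3 : (!(e x).2) = (e x).2 := h2
  revert h3
  cases (e x).2 <;> decide

variable {H V : Type} [Fintype H] [DecidableEq H] {v : H → V} {D : ℕ}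

theorem sw {τ : Perm H} (h : Mt τ) {a c : H} (hca : c ≠ a) (hcb : c ≠ τ a) :
    ∃ τ' : Perm H, Mt τ' ∧ τ' a = c ∧ τ' c = a ∧ τ' (τ a) = τ c ∧ τ' (τ c) = τ a ∧
      ∀ x, x ≠ a → x ≠ c → x ≠ τ a → x ≠ τ c → τ' x = τ x := by
  have hM := cj_Mt (τ a) c h
  have h1 := cj1_a h hca hcb
  have h2 : cj (τ a) c τ (τ a) = τ c := by
    unfold cj
    simp only [Perm.mul_apply]
    rw [swap_apply_left, swap_apply_of_ne_of_ne (fun h3 => hca (τ.injective h3)) (h.2 c)]
  refine ⟨cj (τ a) c τ, hM, h1, ?_, h2, ?_, fun x hxa hxc hxb hxd => ?_⟩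
  · have h3 := hM.1 a
    rwa [h1] at h3
  · have h3 := hM.1 (τ a)
    rwa [h2] at h3
  · unfold cj
    simp only [Perm.mul_apply]
    rw [swap_apply_of_ne_of_ne hxb hxc, swap_apply_of_ne_of_ne (fun h3 => hxa (τ.injective h3))
      (fun h3 => hxd (by rw [← h3, h.1]))]

open Classical in
/-- the indicator function of the configurations without loops -/
noncomputable def Fl (v : H → V) (τ : Perm H) : ℚ := if ∀ h, v (τ h) ≠ v h then 1 else 0

theorem Fl_ne {τ : Perm H} : Fl v τ ≠ 0 ↔ ∀ h, v (τ h) ≠ v h := by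
  unfold Fl
  split_ifs with h
  · exact ⟨fun _ => h, fun _ => one_ne_zero⟩
  · exact ⟨fun h1 => absurd rfl h1, fun h1 => absurd h1 h⟩

open Classical in
theorem avoid (hfib : ∀ u : V, (univ.filter (fun x => v x = u)).card ≤ D) {τ : Perm H}
    (hM : Mt τ) (R E : Finset H) (u : V) (h : 2 * D + E.card < R.card) :
    ∃ y ∈ R, y ∉ E ∧ v y ≠ u ∧ v (τ y) ≠ u := by
  by_contra h1
  push Not at h1
  have h2 : R ⊆ E ∪ (univ.filter (fun x => v x = u) ∪ (univ.filter (fun x => v x = u)).image τ) := by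
    intro y hy
    rw [Finset.mem_union, Finset.mem_union, Finset.mem_image]
    by_cases h3 : y ∈ E
    · exact Or.inl h3
    · by_cases h4 : v y = u
      · exact Or.inr (Or.inl (Finset.mem_filter.2 ⟨Finset.mem_univ _, h4⟩))
      · exact Or.inr (Or.inr ⟨τ y, Finset.mem_filter.2 ⟨Finset.mem_univ _, h1 y hy h3 h4⟩, hM.1 y⟩)
  have h3 := Finset.card_le_card h2
  have h4 := Finset.card_union_le E
    (univ.filter (fun x => v x = u) ∪ (univ.filter (fun x => v x = u)).image τ)
  have h5 := Finset.card_union_le (univ.filter (fun x => v x = u))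
    ((univ.filter (fun x => v x = u)).image τ)
  have h6 : ((univ.filter (fun x => v x = u)).image τ).card ≤ _ := Finset.card_image_le
  have h7 := hfib u
  omega

open Classical in
theorem base_Fl (hfib : ∀ u : V, (univ.filter (fun x => v x = u)).card ≤ D)
    (he : Even (Fintype.card H)) (hc : 2 * D < Fintype.card H) : ∃ τ0, Mt τ0 ∧ Fl v τ0 ≠ 0 := by
  obtain ⟨τ1, h1⟩ := exists_Mt he
  obtain ⟨τ, hτ, hmin⟩ := Finset.exists_min_image (univ.filter (fun τ : Perm H => Mt τ))
    (fun τ => (univ.filter (fun h => v (τ h) = v h)).card)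
    ⟨τ1, Finset.mem_filter.2 ⟨Finset.mem_univ _, h1⟩⟩
  have hM := (Finset.mem_filter.1 hτ).2
  refine ⟨τ, hM, Fl_ne.2 fun a ha => ?_⟩
  obtain ⟨y, -, -, h2, h3⟩ := avoid hfib hM univ ∅ (v a) (by
    rw [Finset.card_empty, Finset.card_univ]
    omega)
  obtain ⟨τ', h4, h5, h6, h7, h8, h9⟩ := sw hM (a := a) (c := y) (fun h => h2 (h ▸ rfl))
    (fun h => h2 (by rw [h]; exact ha))
  have h10 := hmin τ' (Finset.mem_filter.2 ⟨Finset.mem_univ _, h4⟩)
  have h11 : univ.filter (fun h => v (τ' h) = v h) ⊆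
      (univ.filter (fun h => v (τ h) = v h)).erase a := by
    intro x hx
    have hx' := (Finset.mem_filter.1 hx).2
    by_cases hxa : x = a
    · subst hxa
      rw [h5] at hx'
      exact absurd hx' h2
    · by_cases hxc : x = y
      · subst hxc
        rw [h6] at hx'
        exact absurd hx'.symm h2
      · by_cases hxb : x = τ a
        · subst hxb
          rw [h7] at hx'
          exact absurd (hx'.trans ha) h3
        · by_cases hxd : x = τ y
          · subst hxd
            rw [h8] at hx'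
            exact absurd (hx'.symm.trans ha) h3
          · rw [h9 x hxa hxc hxb hxd] at hx'
            exact Finset.mem_erase.2 ⟨hxa, Finset.mem_filter.2 ⟨Finset.mem_univ _, hx'⟩⟩
  have h12 := Finset.card_le_card h11
  have h13 : a ∈ univ.filter (fun h => v (τ h) = v h) :=
    Finset.mem_filter.2 ⟨Finset.mem_univ _, ha⟩
  rw [Finset.card_erase_of_mem h13] at h12
  have h14 := Finset.card_pos.2 ⟨a, h13⟩
  omega

open Classical in
theorem Bd_Fl (hfib : ∀ u : V, (univ.filter (fun x => v x = u)).card ≤ D) :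
    Bd (2 * D + 4) (Fl v) v where
  bad := by
    intro R τ0 hR h0 ha i hi
    rw [Fl_ne] at ha
    by_contra hlt
    push Not at hlt
    set J := R.filter (fun j => j ≠ i ∧ ¬ Good (Fl v) R τ0 i j) with hJ
    obtain ⟨j, hj, hji⟩ : ∃ j ∈ J, v j ≠ v i := by
      by_contra h1
      push Not at h1
      have h2 : J ⊆ univ.filter (fun x => v x = v i) := fun x hx =>
        Finset.mem_filter.2 ⟨Finset.mem_univ _, h1 x hx⟩
      have h3 := Finset.card_le_card h2
      have h4 := hfib (v i)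
      omega
    obtain ⟨hjR, hne, hbad⟩ := Finset.mem_filter.1 hj
    apply hbad
    by_cases h1 : j = τ0 i
    · exact ⟨τ0, h0, Fl_ne.2 ha, fun _ _ => rfl, h1.symm⟩
    obtain ⟨τ1, h2, h3, h4, h5, h6, h7⟩ := sw h0 hne h1
    by_cases h8 : v (τ0 i) = v (τ0 j)
    · have hJR : J.card ≤ R.card := by
        rw [hJ]
        exact Finset.card_le_card (Finset.filter_subset _ _)
      obtain ⟨y, hyR, hyE, hy1, hy2⟩ := avoid hfib h0 R {i, j, τ0 i, τ0 j} (v (τ0 i)) (by
        have : ({i, j, τ0 i, τ0 j} : Finset H).card ≤ 4 := Finset.card_le_four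
        omega)
      simp only [Finset.mem_insert, Finset.mem_singleton, not_or] at hyE
      obtain ⟨y1, y2, y3, y4⟩ := hyE
      obtain ⟨τ2, k2, k3, k4, k5, k6, k7⟩ := sw h2 (a := τ0 i) (c := y) y3 (by rw [h5]; exact y4)
      have hτ1y : τ1 y = τ0 y := h7 y y1 y2 y3 y4
      rw [h5, hτ1y] at k5
      rw [hτ1y, h5] at k6
      rw [h5, hτ1y] at k7
      have e1 : i ≠ τ0 i := (h0.2 i).symm
      have e2 : i ≠ τ0 j := fun h => h1 (by rw [h, h0.1])
      have e3 : i ≠ τ0 y := fun h => y3 (by rw [h, h0.1])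
      have e4 : j ≠ τ0 j := (h0.2 j).symm
      have e5 : j ≠ τ0 y := fun h => y4 (by rw [h, h0.1])
      have hi2 : τ2 i = j := by rw [k7 i e1 (Ne.symm y1) e2 e3, h3]
      have hj2 : τ2 j = i := by rw [k7 j h1 (Ne.symm y2) e4 e5, h4]
      refine ⟨τ2, k2, Fl_ne.2 fun x => ?_, fun x hx => ?_, hi2⟩
      · by_cases x1 : x = i
        · rw [x1, hi2]; exact hji
        by_cases x2 : x = j
        · rw [x2, hj2]; exact hji.symm
        by_cases x3 : x = τ0 i
        · rw [x3, k3]; exact hy1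
        by_cases x4 : x = τ0 j
        · rw [x4, k5, ← h8]; exact hy2
        by_cases x5 : x = y
        · rw [x5, k4]; exact hy1.symm
        by_cases x6 : x = τ0 y
        · rw [x6, k6, ← h8]; exact hy2.symm
        rw [k7 x x3 x5 x4 x6, h7 x x1 x2 x3 x4]
        exact ha x
      · have hiR := hR i hi
        have hjR' := hR j hjR
        have hyR' := hR y hyR
        have n : ∀ z, z ∈ R → x ≠ z := fun z hz h => hx (h ▸ hz)
        rw [k7 x (n _ hiR) (n _ hyR) (n _ hjR') (n _ hyR'), h7 x (n _ hi) (n _ hjR) (n _ hiR)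
          (n _ hjR')]
    · refine ⟨τ1, h2, Fl_ne.2 fun x => ?_, fun x hx => ?_, h3⟩
      · by_cases x1 : x = i
        · rw [x1, h3]; exact hji
        by_cases x2 : x = j
        · rw [x2, h4]; exact hji.symm
        by_cases x3 : x = τ0 i
        · rw [x3, h5]; exact fun h => h8 h.symm
        by_cases x4 : x = τ0 j
        · rw [x4, h6]; exact h8
        rw [h7 x x1 x2 x3 x4]
        exact ha x
      · have n : ∀ z, z ∈ R → x ≠ z := fun z hz h => hx (h ▸ hz)
        exact h7 x (n _ hi) (n _ hjR) (n _ (hR i hi)) (n _ (hR j hjR))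
  loop := fun τ _ h0 => Fl_ne.1 h0

open Classical in
theorem low_AA {K : Type} [Field K] {β : ℕ} {F : Perm H → K} (hF : Bd β F v)
    (hfib : ∀ u : V, (univ.filter (fun x => v x = u)).card ≤ D) (k b : ℕ)
    (hb : 1 + β + D * D ≤ 2 * b) (hk : Fintype.card H = 2 * k)
    (hH : 2 * ((2 * b + 2 * (β + 1) + 2) * (D + D * D)) < Fintype.card H)
    (hbase : ∃ τ0, Mt τ0 ∧ F τ0 ≠ 0) :
    ∏ i ∈ range k, max 1 (2 * (i + 1) - 2 * b) ≤
      (Fintype.card H) ^ (2 * (2 * β + 4) * b) * (AA F v 0).card := by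
  obtain ⟨τ0, h0, ha⟩ := hbase
  have h2 : EX univ τ0 = univ.filter (fun τ : Perm H => Mt τ) := by
    ext τ
    rw [mem_EX, Finset.mem_filter]
    exact ⟨fun h => ⟨Finset.mem_univ _, h.1⟩, fun h => ⟨h.2, fun x hx => absurd (Finset.mem_univ x) hx⟩⟩
  have h3 := low2 hF hfib (2 * b) hb k univ τ0 (by rw [Finset.card_univ, hk])
    (fun _ _ => Finset.mem_univ _) h0 ha (fun h h' hh => absurd (Finset.mem_univ h) hh)
  rw [h2] at h3
  refine h3.trans (le_trans (Finset.card_le_card (t := AA F v (2 * b)) fun τ hτ => ?_)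
    (card_AA2 hF hfib b hH))
  rw [Finset.mem_filter, Finset.mem_filter] at hτ
  rw [mem_AA]
  exact ⟨hτ.1.2, hτ.2⟩

open Classical in
theorem simple_low (hfib : ∀ u : V, (univ.filter (fun x => v x = u)).card ≤ D) (k b : ℕ)
    (hb : 1 + (2 * D + 4) + D * D ≤ 2 * b) (hk : Fintype.card H = 2 * k)
    (hH : 2 * ((2 * b + 2 * ((2 * D + 4) + 1) + 2) * (D + D * D)) < Fintype.card H) (hD : 1 ≤ D) :
    ∏ i ∈ range k, max 1 (2 * (i + 1) - 2 * b) ≤
      (Fintype.card H) ^ (2 * (2 * (2 * D + 4) + 4) * b) * (AA (Fl v) v 0).card := by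
  have h2D : 2 * D < Fintype.card H := by
    refine lt_of_le_of_lt ?_ hH
    refine Nat.mul_le_mul_left _ ?_
    refine le_trans ?_ (Nat.mul_le_mul (show 1 ≤ 2 * b + 2 * ((2 * D + 4) + 1) + 2 by omega)
      (Nat.le_add_right D (D * D)))
    omega
  exact low_AA (Bd_Fl hfib) hfib k b hb hk hH (base_Fl hfib ⟨k, by omega⟩ h2D)

end Pool.Agent.Y342.LE.Cfg
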