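import Pool.Agent.Y342.LE.Di

/-!
# Random graphs with a given degree sequence
-/

set_option autoImplicit false
set_option linter.unusedSectionVars false

namespace Pool.Agent.Y342.LE.Cfg

open Finset Equiv Pool.Agent.W426.LE Pool.Agent.Y342.LE

/-- `G` has the degrees `δ` -/
def Deg {V : Type} (δ : V → ℕ) (G : SimpleGraph V) : Prop := ∀ u, (G.neighborSet u).ncard = δ u

section fib

variable {H V : Type} [Fintype H] {v : H → V} {δ : V → ℕ}

open Classical in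
theorem fib_of (h : ∀ u, Nat.card {x : H // v x = u} = δ u) {D : ℕ} (hδ : ∀ u, δ u ≤ D) (u : V) :
    (univ.filter (fun x => v x = u)).card ≤ D := by
  have h1 := h u
  rw [Nat.card_eq_fintype_card, Fintype.card_subtype] at h1
  rw [h1]
  exact hδ u

theorem card_of [Fintype V] (h : ∀ u, Nat.card {x : H // v x = u} = δ u) :
    Fintype.card H = ∑ u, δ u := by
  rw [← Nat.card_eq_fintype_card, Nat.card_congr (Equiv.sigmaFiberEquiv v).symm, Nat.card_sigma]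
  exact Finset.sum_congr rfl fun u _ => h u

end fib

section legs

variable {A : Type} [Fintype A] [DecidableEq A] {D : ℕ}

/-- the legs -/
def qd (δ : A × Bool → ℕ) (h : HH A D) : Prop := (h.1.2 : ℕ) < δ (vt0 h)

instance (δ : A × Bool → ℕ) : DecidablePred (qd (D := D) δ) := fun _ => Nat.decLt _ _

/-- the type of the legs -/
abbrev Lg (D : ℕ) (δ : A × Bool → ℕ) : Type := {h : HH A D // qd δ h}

/-- a part of the legs -/
def q1 (δ δ' : A × Bool → ℕ) (h : Lg D δ') : Prop := qd δ h.1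

instance (δ δ' : A × Bool → ℕ) : DecidablePred (q1 (D := D) δ δ') := fun _ => Nat.decLt _ _

theorem card_fib_q1 {δ δ' : A × Bool → ℕ} (hle : ∀ u, δ u ≤ δ' u) (hδ : ∀ u, δ' u ≤ D)
    (u : A × Bool) : Nat.card {h : {h : Lg D δ' // q1 δ δ' h} // vt0 h.1.1 = u} = δ u := by
  rw [← Nat.card_fin (δ u)]
  refine Nat.card_congr
    { toFun := fun h => ⟨h.1.1.1.1.2, ?_⟩
      invFun := fun i => ⟨⟨⟨mk0 u (Fin.castLE ((hle u).trans (hδ u)) i),
        lt_of_lt_of_le i.2 (hle u)⟩, i.2⟩, rfl⟩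
      left_inv := ?_
      right_inv := ?_ }
  · have h1 : (h.1.1.1.1.2 : ℕ) < δ (vt0 h.1.1.1) := h.1.2
    rw [h.2] at h1
    exact h1
  · rintro ⟨⟨⟨⟨⟨a, i⟩, b⟩, h1⟩, h2⟩, rfl⟩
    rfl
  · intro i
    rfl

theorem card_fib_Lg {δ : A × Bool → ℕ} (hδ : ∀ u, δ u ≤ D)
    (u : A × Bool) : Nat.card {h : Lg D δ // vt0 h.1 = u} = δ u := by
  rw [← Nat.card_fin (δ u)]
  refine Nat.card_congr
    { toFun := fun h => ⟨h.1.1.1.2, ?_⟩
      invFun := fun i => ⟨⟨mk0 u (Fin.castLE (hδ u) i), i.2⟩, rfl⟩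
      left_inv := ?_
      right_inv := ?_ }
  · have h1 : (h.1.1.1.2 : ℕ) < δ (vt0 h.1.1) := h.1.2
    rw [h.2] at h1
    exact h1
  · rintro ⟨⟨⟨⟨a, i⟩, b⟩, h1⟩, rfl⟩
    rfl
  · intro i
    rfl

theorem qd_dip {δ : A × Bool → ℕ} (hsym : ∀ a b, δ (a, b) = δ (a, !b)) (h : HH A D)
    (hh : ¬ qd δ h) : ¬ qd δ (dip A D h) := by
  intro h1
  apply hh
  have h2 : (h.1.2 : ℕ) < δ (h.1.1, !h.2) := h1
  show (h.1.2 : ℕ) < δ (h.1.1, h.2)
  rw [hsym]
  exact h2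

/-- the dipoles at the other half-edges -/
def rd (δ : A × Bool → ℕ) (hsym : ∀ a b, δ (a, b) = δ (a, !b)) : Perm {h : HH A D // ¬ qd δ h} where
  toFun h := ⟨dip A D h.1, qd_dip hsym h.1 h.2⟩
  invFun h := ⟨dip A D h.1, qd_dip hsym h.1 h.2⟩
  left_inv h := Subtype.ext (dip_Mt.1 h.1)
  right_inv h := Subtype.ext (dip_Mt.1 h.1)

theorem rd_Mt {δ : A × Bool → ℕ} (hsym : ∀ a b, δ (a, b) = δ (a, !b)) :
    Mt (rd (D := D) δ hsym) :=
  ⟨fun h => Subtype.ext (dip_Mt.1 h.1), fun h h1 => dip_Mt.2 h.1 (congrArg Subtype.val h1)⟩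

/-- the restricted function -/
noncomputable def Fr (p : ℕ) (δ : A × Bool → ℕ) (hsym : ∀ a b, δ (a, b) = δ (a, !b))
    (τ : Perm (Lg D δ)) : ZMod p := Fq p (xt (rd δ hsym) τ)

theorem Bd_Fr {p : ℕ} (hp : p.Prime) [Fact p.Prime] {s : ℕ} (hs : Even s) (hs0 : 0 < s)
    (hDs : D + s = p) {δ : A × Bool → ℕ} (hsym : ∀ a b, δ (a, b) = δ (a, !b)) :
    Bd ((s - 1) * D) (Fr (D := D) p δ hsym) (fun h => vt0 h.1) :=
  (Bd_of_Ax2 (Fq_ax (A := A) hp hs hs0 hDs)).sub (rd_Mt hsym)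

theorem base_Fr {p : ℕ} (hp : p.Prime) [Fact p.Prime] (hD : D < p) {δ : A × Bool → ℕ}
    (hsym : ∀ a b, δ (a, b) = δ (a, !b)) :
    ∃ τ0 : Perm (Lg D δ), Mt τ0 ∧ Fr p δ hsym τ0 ≠ 0 := by
  obtain ⟨τ0, h1, h2⟩ := xt_of (ρ := rd (D := D) δ hsym) (σ := dip A D) dip_Mt (fun x => rfl)
  refine ⟨τ0, h1, ?_⟩
  unfold Fr
  rw [h2]
  unfold Fq
  rw [FZ_dip]
  push_cast
  refine pow_ne_zero _ ?_
  rw [Ne, ZMod.natCast_eq_zero_iff, hp.dvd_factorial]
  omega

theorem Fr_ne {p : ℕ} {δ : A × Bool → ℕ} {hsym : ∀ a b, δ (a, b) = δ (a, !b)}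
    {τ : Perm (Lg D δ)} (h : Fr p δ hsym τ ≠ 0) : FZ (xt (rd δ hsym) τ) ≠ 0 := by
  intro h1
  apply h
  unfold Fr Fq
  rw [h1]
  simp

open Classical in
theorem near_gen {p : ℕ} (hp : p.Prime) [Fact p.Prime] (hD : D < p) {a : ℕ}
    {δ δ' : A × Bool → ℕ} {hsym : ∀ a b, δ' (a, b) = δ' (a, !b)}
    {ρ : Perm {h : Lg D δ' // ¬ q1 δ δ' h}} {G : SimpleGraph (A × Bool)}
    {τ : Perm {h : Lg D δ' // q1 δ δ' h}} (hτ : IsG (fun h => vt0 h.1.1) G τ)
    (ha : aa (Fr p δ' hsym) (xt ρ τ) ≤ a) : Ch D a G := by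
  obtain ⟨hM, hs, hA⟩ := hτ
  have hne : {a | NearA (Fr p δ' hsym) a (xt ρ τ)}.Nonempty := by
    obtain ⟨τ0, h1, h2⟩ := base_Fr (A := A) (D := D) hp hD hsym
    refine ⟨Fintype.card (Lg D δ'), τ0, h1, h2, univ, ?_, fun _ _ => Finset.mem_univ _,
      fun x hx => absurd (Finset.mem_univ x) hx⟩
    rw [Finset.card_univ]
    omega
  obtain ⟨τ', hM', h0, S, hSc, hS, ho⟩ := Nat.sInf_mem hne
  change S.card ≤ 2 * aa (Fr p δ' hsym) (xt ρ τ) at hSc
  let f : {h : Lg D δ' // q1 δ δ' h} → Sym2 (A × Bool) := fun h => s(vt0 h.1.1, vt0 (τ h).1.1)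
  have hf : ∀ h, f (τ h) = f h := by
    intro h
    show s(vt0 (τ h).1.1, vt0 (τ (τ h)).1.1) = s(vt0 h.1.1, vt0 (τ h).1.1)
    rw [hM.1, Sym2.eq_swap]
  set S1 : Finset {h : Lg D δ' // q1 δ δ' h} := univ.filter (fun h => h.1 ∈ S) with hS1
  have hS1c : S1.card ≤ S.card := by
    rw [← Finset.card_map (Function.Embedding.subtype _)]
    refine Finset.card_le_card fun x hx => ?_
    obtain ⟨y, hy, rfl⟩ := Finset.mem_map.1 hx
    exact (Finset.mem_filter.1 hy).2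
  have hS1i : ∀ h, h ∈ S1 → τ h ∈ S1 := by
    intro h hh
    have h1 := hS _ (Finset.mem_filter.1 hh).2
    rw [xt_act] at h1
    exact Finset.mem_filter.2 ⟨Finset.mem_univ _, h1⟩
  refine ⟨S1.image f, ?_, ?_⟩
  · have h1 : 2 * (S1.image f).card ≤ S1.card := by
      refine Finset.mul_card_image_le_card S1 2 fun e he => ?_
      obtain ⟨h, hh, rfl⟩ := Finset.mem_image.1 he
      have h2 : ({h, τ h} : Finset {h : Lg D δ' // q1 δ δ' h}) ⊆
          S1.filter (fun x => f x = f h) := by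
        intro x hx
        rw [Finset.mem_insert, Finset.mem_singleton] at hx
        rw [Finset.mem_filter]
        rcases hx with rfl | rfl
        · exact ⟨hh, rfl⟩
        · exact ⟨hS1i _ hh, hf _⟩
      have h3 := Finset.card_le_card h2
      rwa [Finset.card_pair (hM.2 h).symm] at h3
    omega
  · refine EL_of_alive (xt_Mt (rd_Mt hsym) hM') (Fr_ne h0) _ ?_
    intro u w huw
    rw [SimpleGraph.deleteEdges_adj] at huw
    obtain ⟨h, rfl, rfl⟩ := (hA u w).1 huw.1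
    have hhS : h.1 ∉ S := by
      intro h2
      apply huw.2
      rw [Finset.mem_coe]
      exact Finset.mem_image.2 ⟨h, Finset.mem_filter.2 ⟨Finset.mem_univ _, h2⟩, rfl⟩
    refine ⟨h.1.1, rfl, ?_⟩
    rw [xt_act, ho h.1 hhS, xt_act]

open Classical in
/-- the graphs with the degrees `δ` and their configurations -/
theorem count_conf {H V : Type} [Fintype H] [DecidableEq H] [Fintype V] {v : H → V} {δ : V → ℕ}
    [Fintype (SimpleGraph V)] (hδ : ∀ u, Nat.card {h : H // v h = u} = δ u)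
    (X : Finset (SimpleGraph V)) (hX : ∀ G ∈ X, Deg δ G) (T : Finset (Perm H)) (w : Perm H → ℕ)
    (m : ℕ) (hT : ∀ G ∈ X, ∀ τ, IsG v G τ → τ ∈ T ∧ m ≤ w τ) :
    m * X.card * (∏ u, (δ u).factorial) ≤ ∑ τ ∈ T, w τ := by
  let TH : SimpleGraph V → Finset (Perm H) := fun G => univ.filter (fun τ => IsG v G τ)
  have hTHdis : ∀ G G' : SimpleGraph V, G ≠ G' → Disjoint (TH G) (TH G') := by
    intro G G' hGG'
    rw [Finset.disjoint_left]
    intro τ h3 h4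
    apply hGG'
    have h5 := (Finset.mem_filter.1 h3).2.2.2
    have h6 := (Finset.mem_filter.1 h4).2.2.2
    ext v w
    rw [h5, h6]
  have h3 : X.biUnion TH ⊆ T := by
    intro τ hτ
    obtain ⟨G, hG, h4⟩ := Finset.mem_biUnion.1 hτ
    exact (hT G hG τ (Finset.mem_filter.1 h4).2).1
  refine le_trans ?_ (Finset.sum_le_sum_of_subset h3)
  rw [Finset.sum_biUnion (fun G _ G' _ h => hTHdis G G' h)]
  have h4 : ∀ G ∈ X, m * (∏ u, (δ u).factorial) ≤ ∑ τ ∈ TH G, w τ := by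
    intro G hG
    rw [← card_IsG G hδ (hX G hG), mul_comm, ← smul_eq_mul]
    exact Finset.card_nsmul_le_sum _ _ _ fun τ hτ => (hT G hG τ (Finset.mem_filter.1 hτ).2).2
  have h5 := Finset.card_nsmul_le_sum X _ _ h4
  rw [smul_eq_mul] at h5
  calc _ = X.card * (m * ∏ u, (δ u).factorial) := by ring
    _ ≤ _ := h5

open Classical in
theorem count_conf' {H V : Type} [Fintype H] [DecidableEq H] [Fintype V] {v : H → V} {δ : V → ℕ}
    [Fintype (SimpleGraph V)] (hδ : ∀ u, Nat.card {h : H // v h = u} = δ u)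
    (X : Finset (SimpleGraph V)) (hX : ∀ G ∈ X, Deg δ G) (T : Finset (Perm H))
    (hT : ∀ τ ∈ T, ∃ G ∈ X, IsG v G τ) :
    T.card ≤ X.card * (∏ u, (δ u).factorial) := by
  have h3 : T ⊆ X.biUnion (fun G => univ.filter (fun τ => IsG v G τ)) := by
    intro τ hτ
    obtain ⟨G, hG, h4⟩ := hT τ hτ
    exact Finset.mem_biUnion.2 ⟨G, hG, Finset.mem_filter.2 ⟨Finset.mem_univ _, h4⟩⟩
  refine (Finset.card_le_card h3).trans ?_
  exact Finset.card_biUnion_le_card_mul _ _ _ fun G hG => (card_IsG G hδ (hX G hG)).le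

end legs

end Pool.Agent.Y342.LE.Cfg
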