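import Pool.Agent.Y342.LE.Dj

/-!
# Random graphs with a given degree sequence: the two main estimates
-/

set_option autoImplicit false
set_option linter.unusedSectionVars false

namespace Pool.Agent.Y342.LE.Cfg

open Finset Equiv Pool.Agent.W426.LE Pool.Agent.Y342.LE

section

variable {A : Type} [Fintype A] [DecidableEq A] {p D : ℕ}

theorem sum_sym {δ : A × Bool → ℕ} (hsym : ∀ a b, δ (a, b) = δ (a, !b)) :
    ∃ k, ∑ u, δ u = 2 * k := by
  refine ⟨∑ a, δ (a, false), ?_⟩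
  rw [Fintype.sum_prod_type, Finset.mul_sum]
  refine Finset.sum_congr rfl fun a _ => ?_
  rw [Fintype.sum_bool, hsym a true, two_mul]
  rfl

theorem sum_le_sq {δ : A × Bool → ℕ} (hδ : ∀ u, δ u ≤ D) (hD1 : 1 ≤ D)
    (hn : 100 * D ^ 4 ≤ ∑ u, δ u) : ∑ u, δ u ≤ (Fintype.card (A × Bool)) ^ 2 := by
  have h1 : ∑ u, δ u ≤ Fintype.card (A × Bool) * D := by
    rw [← Finset.card_univ]
    exact Finset.sum_le_card_nsmul _ _ _ fun u _ => hδ u
  have h2 : D ≤ Fintype.card (A × Bool) := by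
    by_contra h3
    push Not at h3
    have h4 : Fintype.card (A × Bool) * D ≤ D * D := Nat.mul_le_mul_right _ h3.le
    have h5 : D * D ≤ D ^ 4 := by
      rw [← sq]
      exact Nat.pow_le_pow_right hD1 (by norm_num)
    have h6 : 1 ≤ D ^ 4 := Nat.one_le_pow _ _ hD1
    omega
  refine h1.trans ?_
  rw [sq]
  exact Nat.mul_le_mul_left _ h2

open Classical in
theorem core_sym (hp : p.Prime) [Fact p.Prime] (hD1 : 1 ≤ D) {s : ℕ} (hs : Even s) (hs0 : 0 < s)
    (hsD : s ≤ D + 1) (hDs : D + s = p) {δ : A × Bool → ℕ} (hδ : ∀ u, δ u ≤ D)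
    (hsym : ∀ a b, δ (a, b) = δ (a, !b)) (hn : 100 * D ^ 4 ≤ ∑ u, δ u) :
    Nat.card {G : SimpleGraph (A × Bool) // Deg δ G} ≤
      (Fintype.card (A × Bool)) ^ (100 * D ^ 4) *
        Nat.card {G : SimpleGraph (A × Bool) // Deg δ G ∧ EL.EL G D} := by
  obtain ⟨hnum1, hnum2⟩ := num2 hD1 hsD
  have : Fintype (SimpleGraph (A × Bool)) := Fintype.ofFinite _
  obtain ⟨k, hk⟩ := sum_sym hsym
  have hfc := card_fib_Lg (D := D) hδ
  have hcard : Fintype.card (Lg D δ) = ∑ u, δ u := card_of hfc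
  have hN := sum_le_sq hδ hD1 hn
  have hmain := main_count2 (Bd_Fr (A := A) hp hs hs0 hDs hsym) (fib_of hfc hδ)
    k (1 + (s - 1) * D + D * D) le_rfl (hcard.trans hk) (by
      rw [hcard]
      exact lt_of_lt_of_le hnum2 hn) hD1 (base_Fr hp (by omega) hsym)
  set good := (univ : Finset (SimpleGraph (A × Bool))).filter
    (fun G => Deg δ G ∧ EL.EL G D) with hgood
  set all := (univ : Finset (SimpleGraph (A × Bool))).filter (fun G => Deg δ G) with hall
  have hI : (AA (Fr (D := D) p δ hsym) (fun h => vt0 h.1) 0).card ≤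
      good.card * ∏ u, (δ u).factorial := by
    refine count_conf' hfc good (fun G hG => (Finset.mem_filter.1 hG).2.1) _ fun τ hτ => ?_
    rw [mem_AA] at hτ
    obtain ⟨hM, h0, S, hSc, -, hs⟩ := hτ
    have hSe : S = ∅ := by
      rw [← Finset.card_eq_zero]; omega
    subst hSe
    have hl := (Bd_Fr (A := A) hp ‹Even s› hs0 hDs hsym).loop τ hM h0
    have hG := GrG_IsG hM hl hs
    refine ⟨_, ?_, hG⟩
    rw [hgood, Finset.mem_filter]
    refine ⟨Finset.mem_univ _, fun u => (hG.deg u).trans (hfc u), ?_⟩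
    refine EL_of_alive (xt_Mt (rd_Mt hsym) hM) (Fr_ne h0) _ ?_
    intro u w huw
    obtain ⟨h, rfl, rfl⟩ := (GrG_adj hM hl u w).1 huw
    exact ⟨h.1, rfl, by rw [xt_act]⟩
  have hII : 1 * all.card * ∏ u, (δ u).factorial ≤
      ∑ τ ∈ univ.filter (fun τ : Perm (Lg D δ) => Mt τ), 2 ^ (aa (Fr p δ hsym) τ) :=
    count_conf hfc all (fun G hG => (Finset.mem_filter.1 hG).2) _ _ 1 fun G _ τ hτ =>
      ⟨Finset.mem_filter.2 ⟨Finset.mem_univ _, hτ.1⟩, Nat.one_le_two_pow⟩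
  have hpos : 0 < ∏ u, (δ u).factorial := Finset.prod_pos fun _ _ => Nat.factorial_pos _
  have hpow : (Fintype.card (Lg D δ)) ^ (2 * (1 + (s - 1) * D + D * D) + (s - 1) * D +
      2 * (2 * ((s - 1) * D) + 4) * (1 + (s - 1) * D + D * D)) ≤
      (Fintype.card (A × Bool)) ^ (100 * D ^ 4) := by
    rw [hcard]
    refine (Nat.pow_le_pow_left hN _).trans ?_
    rw [← pow_mul]
    refine Nat.pow_le_pow_right ?_ hnum1
    have h6 : 1 ≤ D ^ 4 := Nat.one_le_pow _ _ hD1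
    by_contra h7
    have h8 : Fintype.card (A × Bool) = 0 := by omega
    rw [h8] at hN
    omega
  have hfin : all.card * (∏ u, (δ u).factorial) ≤
      ((Fintype.card (A × Bool)) ^ (100 * D ^ 4) * good.card) * (∏ u, (δ u).factorial) := by
    calc all.card * (∏ u, (δ u).factorial) = 1 * all.card * ∏ u, (δ u).factorial := by
          rw [one_mul]
      _ ≤ _ := hII
      _ ≤ _ := hmain
      _ ≤ (Fintype.card (A × Bool)) ^ (100 * D ^ 4) * (good.card * ∏ u, (δ u).factorial) :=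
        Nat.mul_le_mul hpow hI
      _ = _ := by ring
  have hres := Nat.le_of_mul_le_mul_right hfin hpos
  rw [Nat.card_eq_fintype_card, Nat.card_eq_fintype_card, Fintype.card_subtype,
    Fintype.card_subtype]
  exact hres

/-- the numerical estimates -/
theorem num3 {D s c : ℕ} (hD : 1 ≤ D) (hs : s ≤ D + 1) (hc : c ≤ 2 * (D * D)) :
    1 + (2 * D + 4) + D * D ≤ 2 * (4 * (D * D)) ∧
    2 * ((2 * (4 * (D * D)) + 2 * ((2 * D + 4) + 1) + 2) * (D + D * D)) < 300 * D ^ 4 ∧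
    4 * (D * D) * 2 ≤ 300 * D ^ 4 ∧ (s - 1) * D * 2 ≤ 300 * D ^ 4 ∧ 2 ≤ 300 * D ^ 4 ∧
    2 * (c + (2 * (4 * (D * D)) + (s - 1) * D) +
      2 * (2 * (2 * D + 4) + 4) * (4 * (D * D))) ≤ 300 * D ^ 4 := by
  have h1 : (s - 1) * D ≤ D * D := Nat.mul_le_mul_right _ (by omega)
  have h2 : 1 ≤ D * D := Nat.mul_pos hD hD
  have h3 : D ≤ D * D := Nat.le_mul_of_pos_left _ hD
  have h4 : D ^ 4 = (D * D) * (D * D) := by ring
  rw [h4]
  generalize hq : D * D = q at *
  generalize hβ : (s - 1) * D = β at *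
  have h7 : q ≤ q * q := Nat.le_mul_of_pos_left _ h2
  have h8 : (2 * (4 * q) + 2 * ((2 * D + 4) + 1) + 2) * (D + q) ≤ (24 * q) * (2 * q) :=
    Nat.mul_le_mul (by omega) (by omega)
  have h9 : (24 * q) * (2 * q) = 48 * (q * q) := by ring
  have h10 : 2 * (2 * (2 * D + 4) + 4) * (4 * q) ≤ (32 * q) * (4 * q) :=
    Nat.mul_le_mul (by omega) le_rfl
  have h11 : (32 * q) * (4 * q) = 128 * (q * q) := by ring
  refine ⟨by omega, by omega, by omega, by omega, by omega, by omega⟩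

set_option synthInstance.maxSize 2000 in
open Classical in
theorem core_gen (hp : p.Prime) [Fact p.Prime] (hD1 : 1 ≤ D) {s : ℕ} (hs : Even s) (hs0 : 0 < s)
    (hsD : s ≤ D + 1) (hDs : D + s = p) {δ δ' : A × Bool → ℕ} (hle : ∀ u, δ u ≤ δ' u)
    (hD' : ∀ u, δ' u ≤ D) (hsym : ∀ a b, δ' (a, b) = δ' (a, !b)) (c : ℕ)
    (hsum : ∑ u, δ' u = ∑ u, δ u + 2 * c) (hc : c ≤ 2 * (D * D))
    (hn : 300 * D ^ 4 ≤ ∑ u, δ u) (a : ℕ) :
    2 ^ a * Nat.card {G : SimpleGraph (A × Bool) // Deg δ G ∧ ¬ Ch D a G} ≤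
      (Fintype.card (A × Bool)) ^ (300 * D ^ 4) *
        Nat.card {G : SimpleGraph (A × Bool) // Deg δ G} := by
  obtain ⟨m1, m2, m3, m4, m5, m6⟩ := num3 hD1 hsD hc
  have : Fintype (SimpleGraph (A × Bool)) := Fintype.ofFinite _
  obtain ⟨k', hk'⟩ := sum_sym hsym
  obtain ⟨k, hk⟩ : ∃ k, ∑ u, δ u = 2 * k := ⟨k' - c, by omega⟩
  have hδ : ∀ u, δ u ≤ D := fun u => (hle u).trans (hD' u)
  have hfc := card_fib_q1 (D := D) hle hD'
  have hcard1 : Fintype.card {h : Lg D δ' // q1 δ δ' h} = ∑ u, δ u := card_of hfc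
  have hcard' : Fintype.card (Lg D δ') = ∑ u, δ' u := card_of (card_fib_Lg (D := D) hD')
  have hcard2 : Fintype.card {h : Lg D δ' // ¬ q1 δ δ' h} = 2 * c := by
    rw [Fintype.card_subtype_compl, hcard1, hcard', hsum]
    omega
  have h6 : 1 ≤ D ^ 4 := Nat.one_le_pow _ _ hD1
  have hN := sum_le_sq hδ hD1 (by omega)
  obtain ⟨ρ, hρ⟩ : ∃ ρ : Perm {h : Lg D δ' // ¬ q1 δ δ' h}, Mt ρ :=
    exists_Mt ⟨c, by rw [hcard2]; omega⟩
  obtain ⟨τ2, hτ2⟩ : ∃ τ2 : Perm {h : Lg D δ' // q1 δ δ' h}, Mt τ2 :=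
    exists_Mt ⟨k, by rw [hcard1, hk]; omega⟩
  obtain ⟨τ0, hτ0, ha0⟩ := base_Fr (A := A) (D := D) hp (by omega) hsym
  set R : Finset (Lg D δ') := univ.filter (fun h => q1 δ δ' h) with hR
  set P : Finset (Lg D δ') := univ.filter (fun h => ¬ q1 δ δ' h) with hP
  have hRc : R.card = 2 * k := by
    rw [hR, ← Fintype.card_subtype, hcard1, hk]
  have hPc : P.card = 2 * c := by
    rw [hP, ← Fintype.card_subtype, hcard2]
  have hup := up2 (Bd_Fr (A := A) hp hs hs0 hDs hsym) k c R P (xt ρ τ2) τ0 hRc hPc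
    (by
      rw [Finset.disjoint_left]
      intro x h1 h2
      exact (Finset.mem_filter.1 h2).2 (Finset.mem_filter.1 h1).2)
    (by
      intro x hx
      have h1 := xt_act ρ τ2 ⟨x, (Finset.mem_filter.1 hx).2⟩
      rw [h1]
      exact Finset.mem_filter.2 ⟨Finset.mem_univ _, (τ2 _).2⟩)
    (by
      intro x hx
      have h1 := xt_pas ρ τ2 ⟨x, (Finset.mem_filter.1 hx).2⟩
      rw [h1]
      exact Finset.mem_filter.2 ⟨Finset.mem_univ _, (ρ _).2⟩)
    (xt_Mt hρ hτ2) hτ0 ha0 (by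
      intro x hx
      exfalso
      apply hx
      rw [Finset.mem_union]
      by_cases h1 : q1 δ δ' x
      · exact Or.inl (Finset.mem_filter.2 ⟨Finset.mem_univ _, h1⟩)
      · exact Or.inr (Finset.mem_filter.2 ⟨Finset.mem_univ _, h1⟩))
  set T : Finset (Perm {h : Lg D δ' // q1 δ δ' h}) := univ.filter (fun τ => Mt τ) with hT
  have hinj : ∑ τ ∈ T, 2 ^ (aa (Fr (D := D) p δ' hsym) (xt ρ τ)) ≤
      ∑ τ ∈ EX R (xt ρ τ2), 2 ^ (aa (Fr (D := D) p δ' hsym) τ) := by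
    have hxi : Set.InjOn (fun τ : Perm {h : Lg D δ' // q1 δ δ' h} => xt ρ τ) (T : Set _) := by
      intro τ _ τ' _ h
      refine Equiv.ext fun x => Subtype.ext ?_
      have h1 : xt ρ τ x = xt ρ τ' x := DFunLike.congr_fun h x.1
      rwa [xt_act, xt_act] at h1
    rw [← Finset.sum_image (g := fun τ : Perm {h : Lg D δ' // q1 δ δ' h} => xt ρ τ)
      (f := fun τ => 2 ^ (aa (Fr (D := D) p δ' hsym) τ)) hxi]
    refine Finset.sum_le_sum_of_subset fun σ hσ => ?_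
    obtain ⟨τ, hτ, rfl⟩ := Finset.mem_image.1 hσ
    rw [mem_EX]
    refine ⟨xt_Mt hρ (Finset.mem_filter.1 hτ).2, fun x hx => ?_⟩
    have h1 : ¬ q1 δ δ' x := fun h => hx (Finset.mem_filter.2 ⟨Finset.mem_univ _, h⟩)
    rw [xt_pas ρ τ ⟨x, h1⟩, xt_pas ρ τ2 ⟨x, h1⟩]
  set bad := (univ : Finset (SimpleGraph (A × Bool))).filter
    (fun G => Deg δ G ∧ ¬ Ch D a G) with hbad
  set all := (univ : Finset (SimpleGraph (A × Bool))).filter (fun G => Deg δ G) with hall
  have hII : 2 ^ a * bad.card * ∏ u, (δ u).factorial ≤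
      ∑ τ ∈ T, 2 ^ (aa (Fr (D := D) p δ' hsym) (xt ρ τ)) :=
    count_conf hfc bad (fun G hG => (Finset.mem_filter.1 hG).2.1) _ _ _ fun G hG τ hτ =>
      ⟨Finset.mem_filter.2 ⟨Finset.mem_univ _, hτ.1⟩, Nat.pow_le_pow_right (by norm_num) (by
        by_contra h1
        push Not at h1
        exact (Finset.mem_filter.1 hG).2.2 (near_gen hp (by omega) hτ h1.le))⟩
  have hI : (AA (Fl (fun h : {h : Lg D δ' // q1 δ δ' h} => vt0 h.1.1))
      (fun h : {h : Lg D δ' // q1 δ δ' h} => vt0 h.1.1) 0).card ≤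
      all.card * ∏ u, (δ u).factorial := by
    refine count_conf' hfc all (fun G hG => (Finset.mem_filter.1 hG).2) _ fun τ hτ => ?_
    rw [mem_AA] at hτ
    obtain ⟨hM, h0, S, hSc, -, hs⟩ := hτ
    have hSe : S = ∅ := by
      rw [← Finset.card_eq_zero]; omega
    subst hSe
    have hG := GrG_IsG hM (Fl_ne.1 h0) hs
    refine ⟨_, ?_, hG⟩
    rw [hall, Finset.mem_filter]
    exact ⟨Finset.mem_univ _, fun u => (hG.deg u).trans (hfc u)⟩
  have hlow := simple_low (v := fun h : {h : Lg D δ' // q1 δ δ' h} => vt0 h.1.1)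
    (fib_of hfc hδ) k (4 * (D * D)) m1 (hcard1.trans hk) (by
      rw [hcard1]
      exact lt_of_lt_of_le m2 hn) hD1
  have hnum := num ((s - 1) * D) (4 * (D * D)) k (by omega) (by omega) (by omega)
  rw [hcard1, hk] at hlow
  have hn1 : 1 ≤ Fintype.card (A × Bool) := by
    by_contra h7
    have h8 : Fintype.card (A × Bool) = 0 := by omega
    rw [h8] at hN
    omega
  have hk2 : 2 ≤ 2 * k := by omega
  have hpow : 2 ^ c * ((2 * k) ^ (2 * (4 * (D * D)) + (s - 1) * D) *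
      (2 * k) ^ (2 * (2 * (2 * D + 4) + 4) * (4 * (D * D)))) ≤
      (Fintype.card (A × Bool)) ^ (300 * D ^ 4) := by
    calc _ ≤ (2 * k) ^ c * ((2 * k) ^ (2 * (4 * (D * D)) + (s - 1) * D) *
          (2 * k) ^ (2 * (2 * (2 * D + 4) + 4) * (4 * (D * D)))) :=
          Nat.mul_le_mul_right _ (Nat.pow_le_pow_left hk2 _)
      _ = (2 * k) ^ (c + (2 * (4 * (D * D)) + (s - 1) * D) +
          2 * (2 * (2 * D + 4) + 4) * (4 * (D * D))) := by
          rw [← pow_add, ← pow_add, ← add_assoc]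
      _ ≤ ((Fintype.card (A × Bool)) ^ 2) ^ (c + (2 * (4 * (D * D)) + (s - 1) * D) +
          2 * (2 * (2 * D + 4) + 4) * (4 * (D * D))) :=
          Nat.pow_le_pow_left (by rw [← hk]; exact hN) _
      _ ≤ _ := by
          rw [← pow_mul]
          exact Nat.pow_le_pow_right hn1 m6
  have hpos : 0 < ∏ u, (δ u).factorial := Finset.prod_pos fun _ _ => Nat.factorial_pos _
  have hfin : (2 ^ a * bad.card) * (∏ u, (δ u).factorial) ≤
      ((Fintype.card (A × Bool)) ^ (300 * D ^ 4) * all.card) * (∏ u, (δ u).factorial) := by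
    calc (2 ^ a * bad.card) * (∏ u, (δ u).factorial)
        ≤ ∑ τ ∈ EX R (xt ρ τ2), 2 ^ (aa (Fr (D := D) p δ' hsym) τ) := hII.trans hinj
      _ ≤ 2 ^ c * ∏ i ∈ range k, (2 * (i + 1) + (s - 1) * D) := hup
      _ ≤ 2 ^ c * ((2 * k) ^ (2 * (4 * (D * D)) + (s - 1) * D) *
          ((2 * k) ^ (2 * (2 * (2 * D + 4) + 4) * (4 * (D * D))) *
            (all.card * ∏ u, (δ u).factorial))) :=
          Nat.mul_le_mul_left _ (hnum.trans (Nat.mul_le_mul_left _
            (hlow.trans (Nat.mul_le_mul_left _ hI))))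
      _ = (2 ^ c * ((2 * k) ^ (2 * (4 * (D * D)) + (s - 1) * D) *
          (2 * k) ^ (2 * (2 * (2 * D + 4) + 4) * (4 * (D * D))))) *
            (all.card * ∏ u, (δ u).factorial) := by ring
      _ ≤ (Fintype.card (A × Bool)) ^ (300 * D ^ 4) * (all.card * ∏ u, (δ u).factorial) :=
          Nat.mul_le_mul_right _ hpow
      _ = _ := by ring
  have hres := Nat.le_of_mul_le_mul_right hfin hpos
  rw [Nat.card_eq_fintype_card, Nat.card_eq_fintype_card, Fintype.card_subtype,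
    Fintype.card_subtype]
  exact hres

end

end Pool.Agent.Y342.LE.Cfg
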