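import Pool.Agent.Y342.LE.Dk

/-!
# Random graphs with a given degree sequence: final form
-/

set_option autoImplicit false
set_option linter.unusedSectionVars false

namespace Pool.Agent.Y342.LE.Cfg

open Finset Equiv Pool.Agent.W426.LE Pool.Agent.Y342.LE

theorem transport2 {V W : Type} (e : V ≃ W) (P : SimpleGraph V → Prop) (Q : SimpleGraph W → Prop)
    (h1 : ∀ G, P G → Q (G.comap e.symm)) (h2 : ∀ G, Q G → P (G.comap e)) :
    Nat.card {G : SimpleGraph V // P G} = Nat.card {G : SimpleGraph W // Q G} := by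
  refine Nat.card_congr
    { toFun := fun G => ⟨G.1.comap e.symm, h1 _ G.2⟩
      invFun := fun G => ⟨G.1.comap e, h2 _ G.2⟩
      left_inv := fun G => Subtype.ext ?_
      right_inv := fun G => Subtype.ext ?_ }
  · ext v w
    simp
  · ext v w
    simp

theorem Deg.comap {X Y : Type} (f : X ≃ Y) {G : SimpleGraph X} {δ : X → ℕ} (h : Deg δ G) :
    Deg (fun y => δ (f.symm y)) (G.comap f.symm) := by
  intro y
  have h1 : (G.comap f.symm).neighborSet y = f '' (G.neighborSet (f.symm y)) := by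
    ext z
    rw [SimpleGraph.mem_neighborSet, SimpleGraph.comap_adj, Set.mem_image]
    constructor
    · intro h2
      exact ⟨f.symm z, h2, f.apply_symm_apply z⟩
    · rintro ⟨w, h2, rfl⟩
      rw [Equiv.symm_apply_apply]
      exact h2
  rw [h1, Set.ncard_image_of_injective _ f.injective, h]

theorem Deg.comap' {X Y : Type} (f : X ≃ Y) {G : SimpleGraph Y} {δ : X → ℕ}
    (h : Deg (fun y => δ (f.symm y)) G) : Deg δ (G.comap f) := by
  have h1 := h.comap f.symm
  have h2 : (fun y => (fun y => δ (f.symm y)) (f.symm.symm y)) = δ := by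
    funext x
    simp
  rw [h2] at h1
  exact h1

theorem EL_comap' {X Y : Type} (f : X ≃ Y) {G : SimpleGraph Y} {D : ℕ} (h : EL.EL G D) :
    EL.EL (G.comap f) D := EL_comap f.symm h

theorem Ch.comap' {X Y : Type} (f : X ≃ Y) {G : SimpleGraph Y} {D a : ℕ} (h : Ch D a G) :
    Ch D a (G.comap f) := Ch.comap f.symm h

theorem comap_cc {X Y : Type} (f : X ≃ Y) (G : SimpleGraph X) : (G.comap f.symm).comap f = G := by
  ext v w
  simp

theorem comap_cc' {X Y : Type} (f : X ≃ Y) (G : SimpleGraph Y) : (G.comap f).comap f.symm = G := by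
  ext v w
  simp

theorem exists_pairing {V : Type} [Fintype V] {D : ℕ} (δ : V → ℕ) (hb : ∀ v, δ v ≤ D)
    (hev : ∀ c, Even (Nat.card {v // δ v = c})) :
    ∃ (A : Type) (_ : Fintype A) (_ : DecidableEq A) (e : V ≃ A × Bool),
      ∀ a b, δ (e.symm (a, b)) = δ (e.symm (a, !b)) := by
  classical
  let κ : V → Fin (D + 1) := fun v => ⟨δ v, Nat.lt_succ_of_le (hb v)⟩
  have h1 : ∀ c : Fin (D + 1), ∃ m : ℕ, Nonempty ({v // κ v = c} ≃ Fin m × Bool) := by
    intro c
    obtain ⟨m, hm⟩ := hev c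
    refine ⟨m, ⟨Fintype.equivOfCardEq ?_⟩⟩
    rw [Fintype.card_prod, Fintype.card_fin, Fintype.card_bool, ← Nat.card_eq_fintype_card]
    have h2 : Nat.card {v // κ v = c} = Nat.card {v // δ v = c} :=
      Nat.card_congr (Equiv.subtypeEquivRight fun v => Fin.ext_iff)
    rw [h2, hm]
    ring
  choose m g using h1
  have g' := fun c => (g c).some
  let e : V ≃ (Σ c : Fin (D + 1), Fin (m c)) × Bool :=
    (Equiv.sigmaFiberEquiv κ).symm.trans
      ((Equiv.sigmaCongrRight g').trans (Equiv.sigmaProdDistrib _ _).symm)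
  have h3 : ∀ a b, κ (e.symm (a, b)) = a.1 := fun a b => ((g' a.1).symm (a.2, b)).2
  refine ⟨(Σ c : Fin (D + 1), Fin (m c)), inferInstance, inferInstance, e, fun a b => ?_⟩
  have h4 := congrArg Fin.val ((h3 a b).trans (h3 a (!b)).symm)
  exact h4

theorem raise {V : Type} [Fintype V] {D : ℕ} (δ : V → ℕ) (hb : ∀ v, δ v ≤ D)
    (hV : Even (Fintype.card V)) (hne : Nonempty V) :
    ∃ δ' : V → ℕ, (∀ v, δ v ≤ δ' v) ∧ (∀ v, δ' v ≤ D) ∧
      (∀ c, Even (Nat.card {v // δ' v = c})) ∧ ∑ v, δ' v ≤ ∑ v, δ v + D * D := by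
  classical
  let mu : ℕ → ℕ := fun c => (univ.filter (fun v => δ v = c)).card
  have h1 : ∀ c, ∃ v, Odd (mu c) → δ v = c := by
    intro c
    by_cases h2 : Odd (mu c)
    · obtain ⟨v, hv⟩ := Finset.card_pos.1 h2.pos
      exact ⟨v, fun _ => (Finset.mem_filter.1 hv).2⟩
    · exact ⟨hne.some, fun h => absurd h h2⟩
  choose rep hrep using h1
  set S : Finset V := univ.filter (fun v => δ v < D ∧ Odd (mu (δ v)) ∧ v = rep (δ v)) with hS
  have hSm : ∀ v, v ∈ S ↔ δ v < D ∧ Odd (mu (δ v)) ∧ v = rep (δ v) := by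
    intro v
    rw [hS, Finset.mem_filter]
    exact ⟨fun h => h.2, fun h => ⟨Finset.mem_univ _, h⟩⟩
  have hSc : S.card ≤ D := by
    rw [← Finset.card_range D]
    refine Finset.card_le_card_of_injOn δ (fun v hv => ?_) ?_
    · exact Finset.mem_coe.2 (Finset.mem_range.2 ((hSm v).1 (Finset.mem_coe.1 hv)).1)
    · intro v hv w hw h
      rw [((hSm v).1 (Finset.mem_coe.1 hv)).2.2, ((hSm w).1 (Finset.mem_coe.1 hw)).2.2, h]
  let δ' : V → ℕ := fun v => if v ∈ S then D else δ v
  have hδ'1 : ∀ v, v ∈ S → δ' v = D := fun v hv => if_pos hv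
  have hδ'2 : ∀ v, v ∉ S → δ' v = δ v := fun v hv => if_neg hv
  have hle : ∀ v, δ' v ≤ D := by
    intro v
    by_cases h : v ∈ S
    · rw [hδ'1 v h]
    · rw [hδ'2 v h]; exact hb v
  have hlow : ∀ c, c < D → Even (univ.filter (fun v => δ' v = c)).card := by
    intro c hc
    by_cases h2 : Odd (mu c)
    · have h3 : univ.filter (fun v => δ' v = c) = (univ.filter (fun v => δ v = c)).erase (rep c) := by
        ext v
        rw [Finset.mem_filter, Finset.mem_erase, Finset.mem_filter]
        constructor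
        · rintro ⟨-, h4⟩
          have hvS : v ∉ S := fun h => by
            rw [hδ'1 v h] at h4
            omega
          rw [hδ'2 v hvS] at h4
          refine ⟨fun h5 => hvS ?_, Finset.mem_univ _, h4⟩
          rw [hSm, h4]
          exact ⟨hc, h2, h5⟩
        · rintro ⟨h5, -, h4⟩
          refine ⟨Finset.mem_univ _, ?_⟩
          rw [hδ'2 v, h4]
          intro h6
          rw [hSm, h4] at h6
          exact h5 h6.2.2
      have h4 : rep c ∈ univ.filter (fun v => δ v = c) :=
        Finset.mem_filter.2 ⟨Finset.mem_univ _, hrep c h2⟩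
      rw [h3, Finset.card_erase_of_mem h4]
      exact Nat.Odd.sub_odd h2 odd_one
    · have h3 : univ.filter (fun v => δ' v = c) = univ.filter (fun v => δ v = c) := by
        ext v
        rw [Finset.mem_filter, Finset.mem_filter]
        constructor
        · rintro ⟨-, h4⟩
          have hvS : v ∉ S := fun h => by
            rw [hδ'1 v h] at h4
            omega
          rw [hδ'2 v hvS] at h4
          exact ⟨Finset.mem_univ _, h4⟩
        · rintro ⟨-, h4⟩
          refine ⟨Finset.mem_univ _, ?_⟩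
          rw [hδ'2 v, h4]
          intro h6
          rw [hSm, h4] at h6
          exact h2 h6.2.1
      rw [h3]
      exact Nat.not_odd_iff_even.1 h2
  have htop : Even (univ.filter (fun v => δ' v = D)).card := by
    have h2 : (univ : Finset V).card = ∑ c ∈ range (D + 1), (univ.filter (fun v => δ' v = c)).card :=
      Finset.card_eq_sum_card_fiberwise fun v _ =>
        Finset.mem_coe.2 (Finset.mem_range.2 (Nat.lt_succ_of_le (hle v)))
    rw [Finset.card_univ, Finset.sum_range_succ] at h2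
    have h3 : Even (∑ c ∈ range D, (univ.filter (fun v => δ' v = c)).card) :=
      Finset.even_sum _ fun c hc => hlow c (Finset.mem_range.1 hc)
    rw [h2] at hV
    exact (Nat.even_add.1 hV).1 h3
  refine ⟨δ', ?_, hle, ?_, ?_⟩
  · intro v
    by_cases h : v ∈ S
    · rw [hδ'1 v h]; exact hb v
    · rw [hδ'2 v h]
  · intro c
    rw [Nat.card_eq_fintype_card, Fintype.card_subtype]
    rcases lt_trichotomy c D with h | h | h
    · exact hlow c h
    · rw [h]; exact htop
    · have h3 : univ.filter (fun v => δ' v = c) = ∅ := by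
        rw [Finset.filter_eq_empty_iff]
        intro v _ h4
        have := hle v
        omega
      rw [h3]
      exact Even.zero
  · have h2 : ∀ v, δ' v ≤ δ v + if v ∈ S then D else 0 := by
      intro v
      by_cases h : v ∈ S
      · rw [hδ'1 v h, if_pos h]; omega
      · rw [hδ'2 v h, if_neg h]; omega
    calc ∑ v, δ' v ≤ ∑ v, (δ v + if v ∈ S then D else 0) := Finset.sum_le_sum fun v _ => h2 v
      _ = ∑ v, δ v + S.card * D := by
          rw [Finset.sum_add_distrib, Finset.sum_ite_mem, Finset.univ_inter, Finset.sum_const,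
            smul_eq_mul]
      _ ≤ _ := Nat.add_le_add_left (Nat.mul_le_mul_right _ hSc) _

/-- all degrees are taken an even number of times -/
theorem final_sym {V : Type} [Fintype V] (D : ℕ) (hD : Odd D) (δ : V → ℕ) (hδ : ∀ v, δ v ≤ D)
    (hev : ∀ c, Even (Nat.card {v // δ v = c})) (hn : 100 * D ^ 4 ≤ ∑ v, δ v) :
    Nat.card {G : SimpleGraph V // Deg δ G} ≤ (Fintype.card V) ^ (100 * D ^ 4) *
      Nat.card {G : SimpleGraph V // Deg δ G ∧ EL.EL G D} := by
  obtain ⟨p, s, hp, hs, hs0, hsD, hDs⟩ := exists_p D hD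
  have : Fact p.Prime := ⟨hp⟩
  obtain ⟨A, _, _, e, he⟩ := exists_pairing δ hδ hev
  have hsum : ∑ u, δ (e.symm u) = ∑ v, δ v := Equiv.sum_comp e.symm δ
  have h1 := core_sym (A := A) hp hD.pos hs hs0 hsD hDs (δ := fun u => δ (e.symm u))
    (fun u => hδ _) he (by rw [hsum]; exact hn)
  rw [transport2 e (fun G => Deg δ G) (fun G => Deg (fun u => δ (e.symm u)) G)
      (fun G h => h.comap e) (fun G h => h.comap' e),
    transport2 e (fun G => Deg δ G ∧ EL.EL G D)
      (fun G => Deg (fun u => δ (e.symm u)) G ∧ EL.EL G D)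
      (fun G h => ⟨h.1.comap e, EL_comap e h.2⟩) (fun G h => ⟨h.1.comap' e, EL_comap' e h.2⟩),
    Fintype.card_congr e]
  exact h1

/-- all degree sequences -/
theorem final_gen {V : Type} [Fintype V] (D : ℕ) (hD : Odd D) (δ : V → ℕ) (hδ : ∀ v, δ v ≤ D)
    (hV : Even (Fintype.card V)) (hs' : Even (∑ v, δ v)) (hn : 300 * D ^ 4 ≤ ∑ v, δ v) (a : ℕ) :
    2 ^ a * Nat.card {G : SimpleGraph V // Deg δ G ∧ ¬ Ch D a G} ≤
      (Fintype.card V) ^ (300 * D ^ 4) * Nat.card {G : SimpleGraph V // Deg δ G} := by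
  obtain ⟨p, s, hp, hs, hs0, hsD, hDs⟩ := exists_p D hD
  have : Fact p.Prime := ⟨hp⟩
  have hD1 := hD.pos
  have h6 : 1 ≤ D ^ 4 := Nat.one_le_pow _ _ hD1
  have hne : Nonempty V := by
    by_contra h
    rw [not_nonempty_iff] at h
    rw [Finset.univ_eq_empty, Finset.sum_empty] at hn
    omega
  obtain ⟨δ', h1, h2, h3, h4⟩ := raise δ hδ hV hne
  obtain ⟨A, _, _, e, he⟩ := exists_pairing δ' h2 h3
  have hsum : ∑ u, δ (e.symm u) = ∑ v, δ v := Equiv.sum_comp e.symm δ
  have hsum' : ∑ u, δ' (e.symm u) = ∑ v, δ' v := Equiv.sum_comp e.symm δ'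
  obtain ⟨k', hk'⟩ := sum_sym (δ := fun u => δ' (e.symm u)) he
  obtain ⟨k, hk⟩ := hs'
  have h5 : ∑ v, δ v ≤ ∑ v, δ' v := Finset.sum_le_sum fun v _ => h1 v
  have h7 := core_gen (A := A) hp hD1 hs hs0 hsD hDs (δ := fun u => δ (e.symm u))
    (δ' := fun u => δ' (e.symm u)) (fun u => h1 _) (fun u => h2 _) he (k' - k)
    (by
      have hk'' : ∑ u, δ' (e.symm u) = 2 * k' := hk'
      show ∑ u, δ' (e.symm u) = ∑ u, δ (e.symm u) + 2 * (k' - k)
      omega)
    (by
      have hk'' : ∑ u, δ' (e.symm u) = 2 * k' := hk'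
      omega) (by rw [hsum]; exact hn) a
  rw [transport2 e (fun G => Deg δ G) (fun G => Deg (fun u => δ (e.symm u)) G)
      (fun G h => h.comap e) (fun G h => h.comap' e),
    transport2 e (fun G => Deg δ G ∧ ¬ Ch D a G)
      (fun G => Deg (fun u => δ (e.symm u)) G ∧ ¬ Ch D a G)
      (fun G h => ⟨h.1.comap e, fun h8 => h.2 (by
        have h9 := h8.comap' e
        rwa [comap_cc] at h9)⟩)
      (fun G h => ⟨h.1.comap' e, fun h8 => h.2 (by
        have h9 := h8.comap e
        rwa [comap_cc'] at h9)⟩),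
    Fintype.card_congr e]
  exact h7

end Pool.Agent.Y342.LE.Cfg
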