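import Pool.Agent.Y342.LE.Dl

/-!
# Random graphs with a given degree sequence: removal of the parity conditions
-/

set_option autoImplicit false
set_option linter.unusedSectionVars false

namespace Pool.Agent.Y342.LE.Cfg

open Finset Equiv Pool.Agent.W426.LE Pool.Agent.Y342.LE

section opt

variable {V : Type}

/-- the new vertex has degree `0` -/
def dopt (δ : V → ℕ) : Option V → ℕ
  | none => 0
  | some v => δ v

/-- a new isolated vertex -/
def Gopt (G : SimpleGraph V) : SimpleGraph (Option V) := G.map Function.Embedding.some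

theorem Gopt_adj {G : SimpleGraph V} {u v : V} : (Gopt G).Adj (some u) (some v) ↔ G.Adj u v :=
  SimpleGraph.map_adj_apply (f := Function.Embedding.some)

theorem Gopt_none {G : SimpleGraph V} {x : Option V} : ¬ (Gopt G).Adj none x := by
  intro h
  obtain ⟨u, v, -, h1, -⟩ := (SimpleGraph.map_adj _ _ _ _).1 h
  exact absurd h1 (by simp)

theorem Gopt_comap (G : SimpleGraph V) : (Gopt G).comap some = G := by
  ext u v
  exact Gopt_adj

theorem Gopt_deg {δ : V → ℕ} {G : SimpleGraph V} (h : Deg δ G) : Deg (dopt δ) (Gopt G) := by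
  intro x
  cases x with
  | none =>
    have h1 : (Gopt G).neighborSet none = ∅ := by
      ext x
      exact ⟨fun h1 => absurd h1 Gopt_none, fun h1 => absurd h1 (Set.notMem_empty _)⟩
    rw [h1, Set.ncard_empty]
    rfl
  | some v =>
    have h1 : (Gopt G).neighborSet (some v) = some '' (G.neighborSet v) := by
      ext x
      rw [SimpleGraph.mem_neighborSet, Set.mem_image]
      cases x with
      | none => exact ⟨fun h1 => absurd h1.symm Gopt_none, by rintro ⟨w, -, h2⟩; simp at h2⟩
      | some w =>
        constructor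
        · exact fun h1 => ⟨w, Gopt_adj.1 h1, rfl⟩
        · rintro ⟨w', h1, h2⟩
          rw [← h2]
          exact Gopt_adj.2 h1
    rw [h1, Set.ncard_image_of_injective _ (Option.some_injective _), h]
    rfl

theorem none_iso [Finite V] {δ : V → ℕ} {G : SimpleGraph (Option V)} (h : Deg (dopt δ) G)
    (x : Option V) : ¬ G.Adj none x := by
  intro h1
  have h2 : (G.neighborSet none).ncard = 0 := h none
  rw [Set.ncard_eq_zero (Set.toFinite _)] at h2
  have h3 : x ∈ G.neighborSet none := h1
  rw [h2] at h3
  exact h3

theorem Gopt_of [Finite V] {δ : V → ℕ} {G : SimpleGraph (Option V)} (h : Deg (dopt δ) G) :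
    Gopt (G.comap some) = G := by
  ext x y
  cases x with
  | none => exact ⟨fun h1 => absurd h1 Gopt_none, fun h1 => absurd h1 (none_iso h _)⟩
  | some u =>
    cases y with
    | none => exact ⟨fun h1 => absurd h1.symm Gopt_none, fun h1 => absurd h1.symm (none_iso h _)⟩
    | some v => rw [Gopt_adj, SimpleGraph.comap_adj]

theorem Deg_of_opt [Finite V] {δ : V → ℕ} {G : SimpleGraph (Option V)} (h : Deg (dopt δ) G) :
    Deg δ (G.comap some) := by
  intro v
  have h1 : G.neighborSet (some v) = some '' ((G.comap some).neighborSet v) := by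
    ext x
    rw [SimpleGraph.mem_neighborSet, Set.mem_image]
    cases x with
    | none => exact ⟨fun h1 => absurd h1.symm (none_iso h _), by rintro ⟨w, -, h2⟩; simp at h2⟩
    | some w =>
      constructor
      · exact fun h1 => ⟨w, h1, rfl⟩
      · rintro ⟨w', h1, h2⟩
        rw [← h2]
        exact h1
  have h2 := h (some v)
  rw [h1, Set.ncard_image_of_injective _ (Option.some_injective _)] at h2
  exact h2

theorem opt_card [Finite V] {δ : V → ℕ} (P : SimpleGraph V → Prop) (Q : SimpleGraph (Option V) → Prop)
    (h : ∀ G, P G → Q (Gopt G)) : Nat.card {G : SimpleGraph V // Deg δ G ∧ P G} ≤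
      Nat.card {G : SimpleGraph (Option V) // Deg (dopt δ) G ∧ Q G} := by
  refine Nat.card_le_card_of_injective
    (Subtype.map Gopt fun G hG => ⟨Gopt_deg hG.1, h G hG.2⟩) ?_
  refine Subtype.map_injective _ fun G G' h1 => ?_
  rw [← Gopt_comap G, h1, Gopt_comap]

theorem opt_card' [Finite V] {δ : V → ℕ} (P : SimpleGraph V → Prop)
    (Q : SimpleGraph (Option V) → Prop)
    (h : ∀ G, Q G → P (G.comap some)) :
    Nat.card {G : SimpleGraph (Option V) // Deg (dopt δ) G ∧ Q G} ≤
      Nat.card {G : SimpleGraph V // Deg δ G ∧ P G} := by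
  refine Nat.card_le_card_of_injective
    (Subtype.map (fun G => G.comap some) fun G hG => ⟨Deg_of_opt hG.1, h G hG.2⟩) ?_
  rintro ⟨G, hG⟩ ⟨G', hG'⟩ h1
  have h2 : G.comap some = G'.comap some := congrArg Subtype.val h1
  refine Subtype.ext ?_
  show G = G'
  rw [← Gopt_of hG.1, h2, Gopt_of hG'.1]

theorem EL_opt {G : SimpleGraph (Option V)} {D : ℕ} (h : EL.EL G D) : EL.EL (G.comap some) D :=
  EL.mono _ G some (Option.some_injective _) (fun _ _ h => h) D h

theorem Ch_opt {G : SimpleGraph V} {D a : ℕ} (h : Ch D a (Gopt G)) : Ch D a G := by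
  classical
  obtain ⟨S, hS, h1⟩ := h
  have hinj : Function.Injective (Sym2.map (some : V → Option V)) :=
    Sym2.map.injective (Option.some_injective _)
  refine ⟨S.preimage (Sym2.map some) hinj.injOn, ?_, ?_⟩
  · refine le_trans ?_ hS
    exact Finset.card_le_card_of_injOn (Sym2.map some)
      (fun e he => Finset.mem_preimage.1 (Finset.mem_coe.1 he)) hinj.injOn
  · refine EL.mono _ ((Gopt G).deleteEdges (S : Set (Sym2 (Option V)))) some
      (Option.some_injective _) ?_ D h1
    intro u v huv
    rw [SimpleGraph.deleteEdges_adj] at huv ⊢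
    refine ⟨Gopt_adj.2 huv.1, fun h2 => huv.2 ?_⟩
    rw [Finset.mem_coe] at h2 ⊢
    rw [Finset.mem_preimage, Sym2.map_mk]
    exact h2

end opt

theorem card_true {V : Type} (P : SimpleGraph V → Prop) :
    Nat.card {G : SimpleGraph V // P G} = Nat.card {G : SimpleGraph V // P G ∧ True} :=
  Nat.card_congr (Equiv.subtypeEquivRight fun G => (and_iff_left trivial).symm)

theorem sum_dopt {V : Type} [Fintype V] (δ : V → ℕ) : ∑ x, dopt δ x = ∑ v, δ v := by
  rw [Fintype.sum_option]
  show 0 + ∑ v, δ v = _
  rw [zero_add]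

theorem even_sum_of_deg {V : Type} [Fintype V] {δ : V → ℕ} {G : SimpleGraph V} (h : Deg δ G) :
    Even (∑ v, δ v) := by
  classical
  have h1 := G.sum_degrees_eq_twice_card_edges
  have h2 : ∀ v, G.degree v = δ v := by
    intro v
    rw [← h v, ← SimpleGraph.card_neighborSet_eq_degree, Set.ncard_eq_toFinset_card',
      Set.toFinset_card]
  rw [← Finset.sum_congr rfl fun v _ => h2 v, h1]
  exact even_two_mul _

/-- almost all graphs, for all degree sequences -/
theorem final_gen2 {V : Type} [Fintype V] (D : ℕ) (hD : Odd D) (δ : V → ℕ) (hδ : ∀ v, δ v ≤ D)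
    (hn : 300 * D ^ 4 ≤ ∑ v, δ v) (a : ℕ) :
    2 ^ a * Nat.card {G : SimpleGraph V // Deg δ G ∧ ¬ Ch D a G} ≤
      (Fintype.card V + 1) ^ (300 * D ^ 4) * Nat.card {G : SimpleGraph V // Deg δ G} := by
  by_cases hG : ∃ G : SimpleGraph V, Deg δ G
  · obtain ⟨G0, hG0⟩ := hG
    have hev := even_sum_of_deg hG0
    by_cases hV : Even (Fintype.card V)
    · refine (final_gen D hD δ hδ hV hev hn a).trans (Nat.mul_le_mul_right _ ?_)
      exact Nat.pow_le_pow_left (Nat.le_succ _) _
    · have h1 := final_gen (V := Option V) D hD (dopt δ) (by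
          intro x
          cases x with
          | none => exact Nat.zero_le _
          | some v => exact hδ v) (by
          rw [Fintype.card_option]
          exact (Nat.not_even_iff_odd.1 hV).add_one) (by rw [sum_dopt]; exact hev)
        (by rw [sum_dopt]; exact hn) a
      rw [Fintype.card_option] at h1
      refine (Nat.mul_le_mul_left _ (opt_card (δ := δ) (fun G => ¬ Ch D a G)
        (fun G => ¬ Ch D a G) fun G h h2 => h (Ch_opt h2))).trans (h1.trans ?_)
      rw [card_true, card_true (V := V)]
      exact Nat.mul_le_mul_left _ (opt_card' _ _ fun _ _ => trivial)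
  · have h1 : Nat.card {G : SimpleGraph V // Deg δ G ∧ ¬ Ch D a G} = 0 := by
      rw [Nat.card_eq_zero]
      left
      exact ⟨fun G => hG ⟨G.1, G.2.1⟩⟩
    rw [h1, mul_zero]
    exact Nat.zero_le _

/-- each positive degree is taken an even number of times -/
theorem final_sym2 {V : Type} [Fintype V] (D : ℕ) (hD : Odd D) (δ : V → ℕ) (hδ : ∀ v, δ v ≤ D)
    (hev : ∀ c, 0 < c → Even (Nat.card {v // δ v = c})) (hn : 100 * D ^ 4 ≤ ∑ v, δ v) :
    Nat.card {G : SimpleGraph V // Deg δ G} ≤ (Fintype.card V + 1) ^ (100 * D ^ 4) *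
      Nat.card {G : SimpleGraph V // Deg δ G ∧ EL.EL G D} := by
  classical
  by_cases h0 : Even (Nat.card {v // δ v = 0})
  · refine (final_sym D hD δ hδ (fun c => ?_) hn).trans (Nat.mul_le_mul_right _ ?_)
    · rcases Nat.eq_zero_or_pos c with rfl | hc
      · exact h0
      · exact hev c hc
    · exact Nat.pow_le_pow_left (Nat.le_succ _) _
  · have hcount : ∀ c, Nat.card {x : Option V // dopt δ x = c} =
        Nat.card {v // δ v = c} + if c = 0 then 1 else 0 := by
      intro c
      rw [Nat.card_eq_fintype_card, Nat.card_eq_fintype_card, Fintype.card_subtype,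
        Fintype.card_subtype, Finset.card_filter, Finset.card_filter, Fintype.sum_option, add_comm]
      congr 1
      show (if 0 = c then 1 else 0) = _
      simp only [eq_comm]
    have h1 := final_sym (V := Option V) D hD (dopt δ) (by
        intro x
        cases x with
        | none => exact Nat.zero_le _
        | some v => exact hδ v) (by
        intro c
        rw [hcount]
        rcases Nat.eq_zero_or_pos c with rfl | hc
        · rw [if_pos rfl]
          exact (Nat.not_even_iff_odd.1 h0).add_one
        · rw [if_neg hc.ne', add_zero]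
          exact hev c hc) (by rw [sum_dopt]; exact hn)
    rw [Fintype.card_option] at h1
    have h2 : Nat.card {G : SimpleGraph V // Deg δ G} ≤
        Nat.card {G : SimpleGraph (Option V) // Deg (dopt δ) G} := by
      rw [card_true, card_true (V := Option V)]
      exact opt_card _ _ fun _ _ => trivial
    exact h2.trans (h1.trans (Nat.mul_le_mul_left _
      (opt_card' (fun G => EL.EL G D) (fun G => EL.EL G D) fun G h => EL_opt h)))

end Pool.Agent.Y342.LE.Cfg
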