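import Mathlib

/-!
# A partial fraction identity for sums over all orders
-/

set_option autoImplicit false

namespace Pool.Agent.Y342.LE

open Finset

/-- the product of the inverse differences along the sequence `u, x 0, …, x (k - 1), v` -/
def ch {K : Type} [Field K] (v : K) : (k : ℕ) → (u : K) → (Fin k → K) → K
  | 0, u, _ => (v - u)⁻¹
  | k + 1, u, x => (x 0 - u)⁻¹ * ch v k (x 0) (fun i => x i.succ)

theorem prod_swap_succ {M : Type} [CommMonoid M] (k : ℕ) (p : Fin (k + 1)) (f : Fin (k + 1) → M) :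
    ∏ i : Fin k, f (Equiv.swap 0 p i.succ) = ∏ j ∈ univ.erase p, f j := by
  have h1 : ∏ j ∈ univ.erase p, f j = ∏ j ∈ univ.erase (0 : Fin (k + 1)), f (Equiv.swap 0 p j) := by
    symm
    refine Finset.prod_bij (fun j _ => Equiv.swap 0 p j) ?_ ?_ ?_ ?_
    · intro j hj
      rw [Finset.mem_erase] at hj ⊢
      refine ⟨fun h => hj.1 ?_, Finset.mem_univ _⟩
      rw [Equiv.swap_apply_eq_iff, Equiv.swap_apply_right] at h
      exact h
    · intro a _ b _ h
      exact (Equiv.swap 0 p).injective h
    · intro j hj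
      rw [Finset.mem_erase] at hj
      refine ⟨Equiv.swap 0 p j, ?_, Equiv.swap_apply_self 0 p j⟩
      rw [Finset.mem_erase]
      refine ⟨fun h => hj.1 ?_, Finset.mem_univ _⟩
      rw [Equiv.swap_apply_eq_iff, Equiv.swap_apply_left] at h
      exact h
    · intro j _
      rfl
  rw [h1]
  have h2 : univ.erase (0 : Fin (k + 1)) = univ.map (Fin.succEmb k) := by
    ext j
    rw [Finset.mem_erase, Finset.mem_map]
    constructor
    · rintro ⟨h, -⟩
      exact ⟨j.pred h, Finset.mem_univ _, Fin.succ_pred j h⟩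
    · rintro ⟨i, -, rfl⟩
      exact ⟨Fin.succ_ne_zero i, Finset.mem_univ _⟩
  rw [h2, Finset.prod_map]
  rfl

theorem lagr {K : Type} [Field K] (k : ℕ) (u v : K) (x : Fin (k + 1) → K)
    (hx : Function.Injective x) (hu : ∀ i, x i ≠ u) :
    ∑ p, (x p - u)⁻¹ * (v - x p) ^ k * ∏ j ∈ univ.erase p, (x j - x p)⁻¹ =
      (v - u) ^ k * ∏ j, (x j - u)⁻¹ := by
  classical
  let y : Fin (k + 2) → K := Fin.cons (-u) (fun i => -x i)
  have hy : Function.Injective y := by
    rw [Fin.cons_injective_iff]
    refine ⟨?_, fun a b h => hx (neg_injective h)⟩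
    rintro ⟨i, hi⟩
    exact hu i (neg_injective hi)
  let P : Polynomial K := (Polynomial.X + Polynomial.C v) ^ k
  have hPd : P.degree = k := by
    simp only [P]
    rw [Polynomial.degree_pow, Polynomial.degree_X_add_C]
    simp
  have h1 := Lagrange.coeff_eq_sum (s := (univ : Finset (Fin (k + 2)))) (v := y) (P := P)
    (hy.injOn) (by
      rw [hPd, Finset.card_univ, Fintype.card_fin]
      exact_mod_cast (by omega : k < k + 2))
  have h2 : P.coeff (#(univ : Finset (Fin (k + 2))) - 1) = 0 := by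
    refine Polynomial.coeff_eq_zero_of_degree_lt ?_
    rw [hPd, Finset.card_univ, Fintype.card_fin]
    exact_mod_cast (by omega : k < k + 2 - 1)
  rw [h2, Fin.sum_univ_succ] at h1
  have h3 : P.eval (y 0) / ∏ j ∈ univ.erase (0 : Fin (k + 2)), (y 0 - y j) =
      (v - u) ^ k * ∏ j, (x j - u)⁻¹ := by
    have h4 := prod_swap_succ (k + 1) 0 (fun j => y 0 - y j)
    rw [← h4, div_eq_mul_inv, ← Finset.prod_inv_distrib]
    congr 1
    · simp [P, y]
      ring
    · refine Finset.prod_congr rfl fun j _ => ?_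
      simp [y]
      ring
  have h5 : ∀ p : Fin (k + 1), P.eval (y p.succ) / ∏ j ∈ univ.erase p.succ, (y p.succ - y j) =
      - ((x p - u)⁻¹ * (v - x p) ^ k * ∏ j ∈ univ.erase p, (x j - x p)⁻¹) := by
    intro p
    have h6 : univ.erase p.succ = insert (0 : Fin (k + 2)) ((univ.erase p).map (Fin.succEmb (k + 1))) := by
      ext j
      rw [Finset.mem_erase, Finset.mem_insert, Finset.mem_map]
      constructor
      · rintro ⟨h, -⟩
        by_cases hj : j = 0
        · exact Or.inl hj
        · refine Or.inr ⟨j.pred hj, ?_, Fin.succ_pred j hj⟩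
          rw [Finset.mem_erase]
          refine ⟨fun h7 => h ?_, Finset.mem_univ _⟩
          rw [← h7, Fin.succ_pred]
      · rintro (rfl | ⟨i, hi, rfl⟩)
        · exact ⟨(Fin.succ_ne_zero p).symm, Finset.mem_univ _⟩
        · rw [Finset.mem_erase] at hi
          exact ⟨fun h => hi.1 (Fin.succ_injective _ h), Finset.mem_univ _⟩
    rw [h6, Finset.prod_insert, Finset.prod_map, div_eq_mul_inv, mul_inv, ← Finset.prod_inv_distrib]
    · have h8 : ∀ j, (y p.succ - y ((Fin.succEmb (k + 1)) j))⁻¹ = (x j - x p)⁻¹ := by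
        intro j
        simp [y]
        ring
      rw [Finset.prod_congr rfl fun j _ => h8 j]
      have h9 : (y p.succ - y 0)⁻¹ = -(x p - u)⁻¹ := by
        simp only [y, Fin.cons_succ, Fin.cons_zero]
        rw [← inv_neg]
        congr 1
        ring
      rw [h9]
      simp only [P, y, Fin.cons_succ, Polynomial.eval_pow, Polynomial.eval_add,
        Polynomial.eval_X, Polynomial.eval_C]
      ring
    · rw [Finset.mem_map]
      rintro ⟨i, -, hi⟩
      exact Fin.succ_ne_zero i hi
  rw [h3, Finset.sum_congr rfl fun p _ => h5 p, Finset.sum_neg_distrib] at h1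
  linear_combination h1

theorem eik {K : Type} [Field K] (v : K) : ∀ (k : ℕ) (u : K) (x : Fin k → K),
    Function.Injective x → (∀ i, x i ≠ u) → (∀ i, x i ≠ v) → u ≠ v →
    ∑ σ : Equiv.Perm (Fin k), ch v k u (fun i => x (σ i)) =
      (v - u) ^ k * (v - u)⁻¹ * ∏ i, ((x i - u) * (v - x i))⁻¹ := by
  intro k
  induction k with
  | zero =>
    intro u x _ _ _ _
    simp [ch]
  | succ k ih =>
    intro u x hx hu hv huv
    rw [← Equiv.sum_comp Equiv.Perm.decomposeFin.symm, Fintype.sum_prod_type]
    have h1 : ∀ p : Fin (k + 1), ∑ e : Equiv.Perm (Fin k),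
        ch v (k + 1) u (fun i => x (Equiv.Perm.decomposeFin.symm (p, e) i)) =
        (∏ j, (v - x j)⁻¹) * ((x p - u)⁻¹ * (v - x p) ^ k * ∏ j ∈ univ.erase p, (x j - x p)⁻¹) := by
      intro p
      have h2 : ∀ e : Equiv.Perm (Fin k),
          ch v (k + 1) u (fun i => x (Equiv.Perm.decomposeFin.symm (p, e) i)) =
          (x p - u)⁻¹ * ch v k (x p) (fun i => (fun i : Fin k => x (Equiv.swap 0 p i.succ)) (e i)) := by
        intro e
        simp only [ch]
        rw [Equiv.Perm.decomposeFin_symm_apply_zero]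
        congr 2
        funext i
        rw [Equiv.Perm.decomposeFin_symm_apply_succ]
      rw [Finset.sum_congr rfl fun e _ => h2 e, ← Finset.mul_sum, ih (x p)
        (fun i => x (Equiv.swap 0 p i.succ))
        (fun a b h => Fin.succ_injective _ ((Equiv.swap 0 p).injective (hx h)))
        (fun i h => by
          have h3 := hx h
          rw [Equiv.swap_apply_eq_iff, Equiv.swap_apply_right] at h3
          exact Fin.succ_ne_zero i h3) (fun i => hv _) (hv p),
        prod_swap_succ k p (fun j => ((x j - x p) * (v - x j))⁻¹)]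
      have h4 : ∏ j ∈ univ.erase p, ((x j - x p) * (v - x j))⁻¹ =
          (∏ j ∈ univ.erase p, (x j - x p)⁻¹) * ∏ j ∈ univ.erase p, (v - x j)⁻¹ := by
        rw [← Finset.prod_mul_distrib]
        refine Finset.prod_congr rfl fun j _ => ?_
        rw [mul_inv]
      rw [h4, ← Finset.mul_prod_erase univ (fun j => (v - x j)⁻¹) (Finset.mem_univ p)]
      ring
    rw [Finset.sum_congr rfl fun p _ => h1 p, ← Finset.mul_sum, lagr k u v x hx hu]
    have h5 : ∏ i, ((x i - u) * (v - x i))⁻¹ = (∏ i, (x i - u)⁻¹) * ∏ i, (v - x i)⁻¹ := by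
      rw [← Finset.prod_mul_distrib]
      refine Finset.prod_congr rfl fun j _ => ?_
      rw [mul_inv]
    rw [h5, pow_succ, mul_assoc ((v - u) ^ k), mul_inv_cancel₀ (sub_ne_zero.2 huv.symm)]
    ring

end Pool.Agent.Y342.LE
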