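import Pool.Agent.Y342.LE.Gen
import Pool.Agent.Y342.LE.CfgMain

/-!
# Counting with a general bound for the number of bad partners
-/

set_option autoImplicit false
set_option linter.unusedSectionVars false

namespace Pool.Agent.Y342.LE.Cfg

open Finset Equiv

variable {H V K : Type} [Fintype H] [DecidableEq H] [Field K]

open Classical in
/-- every half-edge has at most `β` bad partners -/
structure Bd (β : ℕ) (F : Perm H → K) (v : H → V) : Prop where
  bad : ∀ (R : Finset H) (τ0 : Perm H), Inv R τ0 → Mt τ0 → F τ0 ≠ 0 → ∀ i, i ∈ R →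
    (R.filter (fun j => j ≠ i ∧ ¬ Good F R τ0 i j)).card ≤ β
  loop : ∀ τ, Mt τ → F τ ≠ 0 → ∀ h, v (τ h) ≠ v h

variable {D β : ℕ} {F : Perm H → K} {v : H → V}

open Classical in
theorem low2 (hF : Bd β F v) (hfib : ∀ u : V, (univ.filter (fun x => v x = u)).card ≤ D) (c2 : ℕ)
    (hc2 : 1 + β + D * D ≤ c2) :
    ∀ (m : ℕ) (R : Finset H) (τ0 : Perm H), R.card = 2 * m → Inv R τ0 → Mt τ0 → F τ0 ≠ 0 →
      Simp v R τ0 → ∏ i ∈ range m, max 1 (2 * (i + 1) - c2) ≤
        ((EX R τ0).filter (fun τ => F τ ≠ 0 ∧ Few v c2 τ)).card := by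
  intro m
  induction m with
  | zero =>
    intro R τ0 hc hR h0 ha hs
    rw [Finset.range_zero, Finset.prod_empty]
    refine Finset.card_pos.2 ⟨τ0, ?_⟩
    rw [Finset.mem_filter, mem_EX]
    exact ⟨⟨h0, fun _ _ => rfl⟩, ha, R, by omega, hR, hs⟩
  | succ m ih =>
    intro R τ0 hc hR h0 ha hs
    by_cases hsmall : 2 * (m + 1) ≤ c2
    · have h1 : ∏ i ∈ range (m + 1), max 1 (2 * (i + 1) - c2) = 1 := by
        refine Finset.prod_eq_one fun i hi => ?_
        rw [Finset.mem_range] at hi
        have : 2 * (i + 1) - c2 = 0 := by omega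
        rw [this]
        rfl
      rw [h1]
      refine Finset.card_pos.2 ⟨τ0, ?_⟩
      rw [Finset.mem_filter, mem_EX]
      exact ⟨⟨h0, fun _ _ => rfl⟩, ha, R, by omega, hR, hs⟩
    · push Not at hsmall
      have hne : R.Nonempty := by
        rw [← Finset.card_pos, hc]
        omega
      obtain ⟨h, hh⟩ := hne
      set J := R.filter (fun j => j ≠ h ∧ Good F R τ0 h j ∧
        ¬ ∃ x, x ∉ R ∧ v x = v h ∧ v (τ0 x) = v j) with hJ
      set B := R.filter (fun j => j ≠ h ∧ ¬ Good F R τ0 h j) with hB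
      set C := (univ.filter (fun x => v x = v h)).biUnion
        (fun x => univ.filter (fun j => v j = v (τ0 x))) with hC
      have hBc : B.card ≤ β := hF.bad R τ0 hR h0 ha h hh
      have hCc : C.card ≤ D * D := by
        refine Finset.card_biUnion_le_card_mul _ _ _ (fun x _ => hfib _) |>.trans ?_
        exact Nat.mul_le_mul_right _ (hfib _)
      have hsub : R ⊆ J ∪ ({h} ∪ (B ∪ C)) := by
        intro j hj
        rw [Finset.mem_union, Finset.mem_union, Finset.mem_union, Finset.mem_singleton]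
        by_cases h1 : j = h
        · exact Or.inr (Or.inl h1)
        · by_cases h2 : Good F R τ0 h j
          · by_cases h3 : ∃ x, x ∉ R ∧ v x = v h ∧ v (τ0 x) = v j
            · refine Or.inr (Or.inr (Or.inr ?_))
              obtain ⟨x, -, h4, h5⟩ := h3
              rw [hC, Finset.mem_biUnion]
              exact ⟨x, Finset.mem_filter.2 ⟨Finset.mem_univ _, h4⟩,
                Finset.mem_filter.2 ⟨Finset.mem_univ _, h5.symm⟩⟩
            · exact Or.inl (Finset.mem_filter.2 ⟨hj, h1, h2, h3⟩)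
          · exact Or.inr (Or.inr (Or.inl (Finset.mem_filter.2 ⟨hj, h1, h2⟩)))
      have hJc : 2 * (m + 1) - c2 ≤ J.card := by
        have h1 := Finset.card_le_card hsub
        have h2 := Finset.card_union_le J ({h} ∪ (B ∪ C))
        have h3 := Finset.card_union_le {h} (B ∪ C)
        have h4 := Finset.card_union_le B C
        rw [Finset.card_singleton] at h3
        omega
      rw [Finset.prod_range_succ]
      have hmax : max 1 (2 * (m + 1) - c2) ≤ J.card := by
        rw [max_le_iff]
        exact ⟨by omega, hJc⟩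
      refine (Nat.mul_le_mul_left _ hmax).trans ?_
      set T := (EX R τ0).filter (fun τ => F τ ≠ 0 ∧ Few v c2 τ) with hT
      have h5 : T.card = ∑ j : H, (T.filter (fun τ => τ h = j)).card :=
        Finset.card_eq_sum_card_fiberwise (fun τ _ => Finset.mem_coe.2 (Finset.mem_univ _))
      rw [h5]
      have h6 : ∑ j ∈ J, (T.filter (fun τ => τ h = j)).card ≤
          ∑ j : H, (T.filter (fun τ => τ h = j)).card :=
        Finset.sum_le_univ_sum_of_nonneg fun _ => Nat.zero_le _
      refine le_trans ?_ h6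
      rw [mul_comm, ← smul_eq_mul]
      refine Finset.card_nsmul_le_sum _ _ _ fun j hj => ?_
      obtain ⟨hjR, hjh, hG, hx⟩ := Finset.mem_filter.1 hj
      obtain ⟨τj, h7, h8, h9, h10⟩ := hG
      have hR' := hR.of_off h0 h7 h9
      have h10' : τj j = h := by rw [← h10, h7.1]
      have hnx : ∀ x, x ∉ R → τj x = τ0 x := h9
      refine (ih ((R.erase h).erase j) τj (card_erase2 hc hh hjR hjh) (inv_erase2 hR' h7 h10) h7 h8
        ?_).trans ?_
      · -- simplicity
        have hcase : ∀ x, x ∉ (R.erase h).erase j → x ∉ R ∨ x = h ∨ x = j := by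
          intro x hx
          rw [Finset.mem_erase, Finset.mem_erase] at hx
          by_cases h11 : x ∈ R
          · right
            by_cases h12 : x = h
            · exact Or.inl h12
            · right
              by_contra h13
              exact hx ⟨h13, h12, h11⟩
          · exact Or.inl h11
        have hl := hF.loop τj h7 h8
        have hmix1 : ∀ x, x ∉ R → v x = v h → v (τj x) = v (τj h) → False := by
          intro x h11 h12 h13
          rw [hnx x h11, h10] at h13
          exact hx ⟨x, h11, h12, h13⟩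
        have hmix2 : ∀ x, x ∉ R → v x = v j → v (τj x) = v (τj j) → False := by
          intro x h11 h12 h13
          refine hmix1 (τj x) (hR'.compl h7 x h11) ?_ ?_
          · rw [h13, h10']
          · rw [h7.1, h12, h10]
        intro x x' hx1 hx2 hv hv'
        rcases hcase x hx1 with h11 | rfl | rfl <;> rcases hcase x' hx2 with h12 | rfl | rfl
        · rw [hnx x h11, hnx x' h12] at hv'
          exact hs x x' h11 h12 hv hv'
        · exact (hmix1 x h11 hv hv').elim
        · exact (hmix2 x h11 hv hv').elim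
        · exact (hmix1 x' h12 hv.symm hv'.symm).elim
        · rfl
        · exact (hl x (by rw [h10, hv])).elim
        · exact (hmix2 x' h12 hv.symm hv'.symm).elim
        · exact (hl x' (by rw [h10, hv])).elim
        · rfl
      · refine Finset.card_le_card fun τ hτ => ?_
        rw [Finset.mem_filter, mem_EX] at hτ
        obtain ⟨⟨h11, h12⟩, h13⟩ := hτ
        have hhR' : h ∉ (R.erase h).erase j := by
          rw [Finset.mem_erase, Finset.mem_erase]
          rintro ⟨-, h14, -⟩
          exact h14 rfl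
        rw [Finset.mem_filter, hT, Finset.mem_filter, mem_EX]
        refine ⟨⟨⟨h11, fun x hx => ?_⟩, h13⟩, ?_⟩
        · rw [h12 x (fun h14 => hx (Finset.mem_of_mem_erase (Finset.mem_of_mem_erase h14))), hnx x hx]
        · rw [h12 h hhR', h10]

open Classical in
theorem up2 (hF : Bd β F v) :
    ∀ (m c : ℕ) (R P : Finset H) (τ1 τ0 : Perm H), R.card = 2 * m → P.card = 2 * c →
      Disjoint R P → Inv R τ1 → Inv P τ1 → Mt τ1 → Mt τ0 → F τ0 ≠ 0 → Off (R ∪ P) τ0 τ1 →
      ∑ τ ∈ EX R τ1, 2 ^ (aa F τ) ≤ 2 ^ c * ∏ i ∈ range m, (2 * (i + 1) + β) := by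
  intro m
  induction m with
  | zero =>
    intro c R P τ1 τ0 hRc hPc hRP hR hP h1 h0 ha ho
    have hRe : R = ∅ := by
      rw [← Finset.card_eq_zero]; omega
    subst hRe
    have h2 : EX ∅ τ1 = {τ1} := by
      ext τ
      rw [mem_EX, Finset.mem_singleton]
      constructor
      · rintro ⟨-, h⟩
        exact Equiv.ext fun x => h x (Finset.notMem_empty x)
      · rintro rfl
        exact ⟨h1, fun _ _ => rfl⟩
    rw [h2, Finset.sum_singleton, Finset.range_zero, Finset.prod_empty, mul_one]
    refine Nat.pow_le_pow_right (by norm_num) (aa_le ⟨τ0, h0, ha, P, by omega, hP, ?_⟩)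
    rwa [Finset.empty_union] at ho
  | succ m ih =>
    intro c R P τ1 τ0 hRc hPc hRP hR hP h1 h0 ha ho
    have hne : R.Nonempty := by
      rw [← Finset.card_pos, hRc]
      omega
    obtain ⟨h, hh⟩ := hne
    have hhP : h ∉ P := fun h' => (Finset.disjoint_left.1 hRP) hh h'
    have hRP1 : Inv (R ∪ P) τ1 := by
      intro x hx
      rw [Finset.mem_union] at hx ⊢
      exact hx.imp (hR x) (hP x)
    have hRP0 : Inv (R ∪ P) τ0 := hRP1.of_off h1 h0 ho
    have hmaps : ∀ τ ∈ EX R τ1, τ h ∈ R.erase h := by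
      intro τ hτ
      rw [mem_EX] at hτ
      rw [Finset.mem_erase]
      exact ⟨hτ.1.2 h, hR.of_off h1 hτ.1 hτ.2 h hh⟩
    rw [← Finset.sum_fiberwise_of_maps_to hmaps]
    have hstep : ∀ j ∈ R.erase h, ∑ τ ∈ EX R τ1 with τ h = j, 2 ^ (aa F τ) ≤
        (2 ^ c * ∏ i ∈ range m, (2 * (i + 1) + β)) *
          (1 + if ¬ Good F (R ∪ P) τ0 h j then 1 else 0) := by
      intro j hj
      obtain ⟨hjh, hjR⟩ := Finset.mem_erase.1 hj
      have hjP : j ∉ P := fun h' => (Finset.disjoint_left.1 hRP) hjR h'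
      -- an extension of `τ1` matching `h` and `j`
      obtain ⟨τ1j, h3, h4, h5⟩ : ∃ τ, Mt τ ∧ Off R τ τ1 ∧ τ h = j := by
        by_cases h6 : j = τ1 h
        · exact ⟨τ1, h1, fun _ _ => rfl, h6.symm⟩
        · exact ⟨_, cj_Mt _ _ h1, cj_off hR h1 (fun _ _ => rfl) (hR _ hh) hjR,
            cj1_a h1 hjh h6⟩
      have h5' : τ1j j = h := by rw [← h5, h3.1]
      have hR1 := hR.of_off h1 h3 h4
      set R' := (R.erase h).erase j with hR'
      have hR'mem : ∀ x, x ∉ R' → x ∉ R ∨ x = h ∨ x = j := by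
        intro x hx
        rw [hR', Finset.mem_erase, Finset.mem_erase] at hx
        by_cases h11 : x ∈ R
        · right
          by_cases h12 : x = h
          · exact Or.inl h12
          · right
            by_contra h13
            exact hx ⟨h13, h12, h11⟩
        · exact Or.inl h11
      have hR'sub : ∀ x, x ∈ R' → x ∈ R := fun x hx =>
        Finset.mem_of_mem_erase (Finset.mem_of_mem_erase hx)
      have hsub : (EX R τ1).filter (fun τ => τ h = j) ⊆ EX R' τ1j := by
        intro τ hτ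
        rw [Finset.mem_filter, mem_EX] at hτ
        obtain ⟨⟨h6, h7⟩, h8⟩ := hτ
        rw [mem_EX]
        refine ⟨h6, fun x hx => ?_⟩
        rcases hR'mem x hx with h9 | rfl | rfl
        · rw [h7 x h9, h4 x h9]
        · rw [h8, h5]
        · rw [h5', ← h8, h6.1]
      refine (Finset.sum_le_sum_of_subset hsub).trans ?_
      have hcard := card_erase2 hRc hh hjR hjh
      have hPinv : Inv P τ1j := by
        intro x hx
        have hxR : x ∉ R := fun h' => (Finset.disjoint_left.1 hRP) h' hx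
        rw [h4 x hxR]
        exact hP x hx
      by_cases hG : Good F (R ∪ P) τ0 h j
      · rw [if_neg (not_not.2 hG), add_zero, mul_one]
        obtain ⟨τj, h6, h7, h8, h9⟩ := hG
        refine ih c R' P τ1j τj hcard hPc ?_ (inv_erase2 hR1 h3 h5) hPinv h3 h6 h7 ?_
        · rw [Finset.disjoint_left] at hRP ⊢
          exact fun x hx => hRP (hR'sub x hx)
        · intro x hx
          rw [Finset.mem_union, not_or] at hx
          have h9' : τj j = h := by rw [← h9, h6.1]
          rcases hR'mem x hx.1 with h10 | rfl | rfl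
          · have h11 : x ∉ R ∪ P := by
              rw [Finset.mem_union, not_or]
              exact ⟨h10, hx.2⟩
            rw [h8 x h11, ho x h11, h4 x h10]
          · rw [h9, h5]
          · rw [h9', h5']
      · rw [if_pos hG]
        have hjP' : j ∉ insert h P := by
          rw [Finset.mem_insert, not_or]
          exact ⟨hjh, hjP⟩
        have h6 := ih (c + 1) R' (insert j (insert h P)) τ1j τ0 hcard ?_ ?_
          (inv_erase2 hR1 h3 h5) ?_ h3 h0 ha ?_
        · refine h6.trans (le_of_eq ?_)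
          rw [pow_succ]
          ring
        · rw [Finset.card_insert_of_notMem hjP', Finset.card_insert_of_notMem hhP, hPc]
          ring
        · rw [Finset.disjoint_left] at hRP ⊢
          intro x hx h7
          rw [Finset.mem_insert, Finset.mem_insert] at h7
          rw [hR', Finset.mem_erase, Finset.mem_erase] at hx
          rcases h7 with h7 | h7 | h7
          · exact hx.1 h7
          · exact hx.2.1 h7
          · exact hRP hx.2.2 h7
        · intro x hx
          rw [Finset.mem_insert, Finset.mem_insert] at hx ⊢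
          rcases hx with rfl | rfl | hx
          · exact Or.inr (Or.inl h5')
          · exact Or.inl h5
          · exact Or.inr (Or.inr (hPinv x hx))
        · intro x hx
          rw [Finset.mem_union, not_or, Finset.mem_insert, Finset.mem_insert, not_or, not_or] at hx
          obtain ⟨h10, h11, h12, h13⟩ := hx
          rcases hR'mem x h10 with h14 | h14 | h14
          · rw [ho x (by rw [Finset.mem_union, not_or]; exact ⟨h14, h13⟩), h4 x h14]
          · exact absurd h14 h12
          · exact absurd h14 h11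
    refine (Finset.sum_le_sum hstep).trans ?_
    rw [← Finset.mul_sum, Finset.prod_range_succ, ← mul_assoc]
    refine Nat.mul_le_mul_left _ ?_
    rw [Finset.sum_add_distrib, Finset.sum_const, Finset.card_erase_of_mem hh, hRc, smul_eq_mul,
      mul_one, ← Finset.card_filter]
    have h7 := hF.bad (R ∪ P) τ0 hRP0 h0 ha h (Finset.mem_union_left P hh)
    have h8 : ((R.erase h).filter (fun j => ¬ Good F (R ∪ P) τ0 h j)).card ≤
        ((R ∪ P).filter (fun j => j ≠ h ∧ ¬ Good F (R ∪ P) τ0 h j)).card := by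
      refine Finset.card_le_card fun x hx => ?_
      rw [Finset.mem_filter, Finset.mem_erase] at hx
      rw [Finset.mem_filter]
      exact ⟨Finset.mem_union_left _ hx.1.2, hx.1.1, hx.2⟩
    omega

/-! ### Repair -/

/-- close to a vertex of `Q` -/
def Nq (v : H → V) (τ : Perm H) (Q : Finset H) (u : V) : Prop :=
  ∃ y ∈ Q, u = v y ∨ ∃ z, v z = v y ∧ v (τ z) = u

open Classical in
theorem exists_far2 (hfib : ∀ u : V, (univ.filter (fun x => v x = u)).card ≤ D) (τ : Perm H)
    (Q : Finset H) (h : 2 * (Q.card * (D + D * D)) < Fintype.card H) :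
    ∃ c, ¬ Nq v τ Q (v c) ∧ ¬ Nq v τ Q (v (τ c)) := by
  set N := Q.biUnion (fun y => (univ.filter (fun x => v x = v y)) ∪
    (univ.filter (fun z => v z = v y)).biUnion (fun z => univ.filter (fun x => v x = v (τ z))))
    with hN
  have hNc : N.card ≤ Q.card * (D + D * D) := by
    rw [hN]
    refine Finset.card_biUnion_le_card_mul _ _ _ fun y _ => ?_
    refine (Finset.card_union_le _ _).trans (Nat.add_le_add (hfib _) ?_)
    refine (Finset.card_biUnion_le_card_mul _ _ _ (fun z _ => hfib _)).trans ?_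
    exact Nat.mul_le_mul_right _ (hfib _)
  have hmem : ∀ x, Nq v τ Q (v x) → x ∈ N := by
    rintro x ⟨y, hy, h1⟩
    rw [hN, Finset.mem_biUnion]
    refine ⟨y, hy, ?_⟩
    rw [Finset.mem_union, Finset.mem_filter, Finset.mem_biUnion]
    rcases h1 with h1 | ⟨z, h1, h2⟩
    · exact Or.inl ⟨Finset.mem_univ _, h1⟩
    · exact Or.inr ⟨z, Finset.mem_filter.2 ⟨Finset.mem_univ _, h1⟩,
        Finset.mem_filter.2 ⟨Finset.mem_univ _, h2.symm⟩⟩
  have hMc : (N ∪ N.image τ.symm).card < Fintype.card H := by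
    have h2 := Finset.card_union_le N (N.image τ.symm)
    have h3 : (N.image τ.symm).card ≤ N.card := Finset.card_image_le
    omega
  obtain ⟨c, hc⟩ : ∃ c, c ∉ N ∪ N.image τ.symm := by
    by_contra h1
    push Not at h1
    rw [Finset.eq_univ_iff_forall.2 h1, Finset.card_univ] at hMc
    exact lt_irrefl _ hMc
  rw [Finset.mem_union, not_or] at hc
  refine ⟨c, fun h1 => hc.1 (hmem _ h1), fun h1 => hc.2 ?_⟩
  rw [Finset.mem_image]
  exact ⟨τ c, hmem _ h1, τ.symm_apply_apply c⟩

open Classical in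
/-- far away edges -/
theorem spread (hfib : ∀ u : V, (univ.filter (fun x => v x = u)).card ≤ D) {τ : Perm H}
    (hM : Mt τ) (hl : ∀ h, v (τ h) ≠ v h) {S : Finset H} (hs : Simp v S τ) {a : H}
    (haS : a ∈ S) (hbS : τ a ∈ S) : ∀ t : ℕ,
    2 * ((S.card + 2 * t + 2) * (D + D * D)) < Fintype.card H →
    ∃ R : Finset H, a ∈ R ∧ Inv R τ ∧ R.card = 2 * t + 2 ∧
      (∀ x, x ∈ R → x ∈ S → x = a ∨ x = τ a) ∧ (∀ x y, x ∈ R → y ∈ R → v x = v y → x = y) ∧
      (∀ z x y, z ∉ R → x ∈ R → y ∈ R → v z = v x → v (τ z) = v y →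
        (x = a ∧ y = τ a) ∨ (x = τ a ∧ y = a)) := by
  intro t
  induction t with
  | zero =>
    intro _
    refine ⟨{a, τ a}, Finset.mem_insert_self _ _, ?_, ?_, ?_, ?_, ?_⟩
    · intro x hx
      rw [Finset.mem_insert, Finset.mem_singleton] at hx ⊢
      rcases hx with rfl | rfl
      · exact Or.inr rfl
      · exact Or.inl (hM.1 a)
    · rw [Finset.card_pair (hM.2 a).symm]
    · intro x hx _
      rwa [Finset.mem_insert, Finset.mem_singleton] at hx
    · intro x y hx hy hxy
      rw [Finset.mem_insert, Finset.mem_singleton] at hx hy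
      rcases hx with rfl | rfl <;> rcases hy with rfl | rfl
      · rfl
      · exact absurd hxy.symm (hl _)
      · exact absurd hxy (hl _)
      · rfl
    · intro z x y _ hx hy h1 h2
      rw [Finset.mem_insert, Finset.mem_singleton] at hx hy
      rcases hx with rfl | rfl <;> rcases hy with rfl | rfl
      · exact absurd (h2.trans h1.symm) (hl z)
      · exact Or.inl ⟨rfl, rfl⟩
      · exact Or.inr ⟨rfl, rfl⟩
      · exact absurd (h2.trans h1.symm) (hl z)
  | succ t ih =>
    intro hH
    obtain ⟨R, h1, h2, h3, h4, h5, h6⟩ := ih (by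
      refine lt_of_le_of_lt (Nat.mul_le_mul_left _ (Nat.mul_le_mul_right _ ?_)) hH
      omega)
    obtain ⟨c, h7, h8⟩ := exists_far2 hfib τ (S ∪ R) (by
      refine lt_of_le_of_lt (Nat.mul_le_mul_left _ (Nat.mul_le_mul_right _ ?_)) hH
      have := Finset.card_union_le S R
      omega)
    have nc : ∀ y, y ∈ S ∪ R → v c ≠ v y := fun y hy h => h7 ⟨y, hy, Or.inl h⟩
    have nd : ∀ y, y ∈ S ∪ R → v (τ c) ≠ v y := fun y hy h => h8 ⟨y, hy, Or.inl h⟩
    have ec : ∀ y z, y ∈ S ∪ R → v z = v y → v (τ z) ≠ v c := fun y z hy hz h =>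
      h7 ⟨y, hy, Or.inr ⟨z, hz, h⟩⟩
    have ed : ∀ y z, y ∈ S ∪ R → v z = v y → v (τ z) ≠ v (τ c) := fun y z hy hz h =>
      h8 ⟨y, hy, Or.inr ⟨z, hz, h⟩⟩
    have hR : ∀ y, y ∈ R → y ∈ S ∪ R := fun y hy => Finset.mem_union_right _ hy
    have hS' : ∀ y, y ∈ S → y ∈ S ∪ R := fun y hy => Finset.mem_union_left _ hy
    have hcR : c ∉ R := fun h => nc c (hR _ h) rfl
    have hdR : τ c ∉ R := fun h => nd (τ c) (hR _ h) rfl
    have hcS : c ∉ S := fun h => nc c (hS' _ h) rfl
    have hdS : τ c ∉ S := fun h => nd (τ c) (hS' _ h) rfl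
    have hcd : c ∉ insert (τ c) R := by
      rw [Finset.mem_insert, not_or]
      exact ⟨(hM.2 c).symm, hcR⟩
    have hmem : ∀ x, x ∈ insert c (insert (τ c) R) ↔ x = c ∨ x = τ c ∨ x ∈ R := by
      intro x
      rw [Finset.mem_insert, Finset.mem_insert]
    refine ⟨insert c (insert (τ c) R), (hmem a).2 (Or.inr (Or.inr h1)), ?_, ?_, ?_, ?_, ?_⟩
    · intro x hx
      rw [hmem] at hx ⊢
      rcases hx with rfl | rfl | hx
      · exact Or.inr (Or.inl rfl)
      · exact Or.inl (hM.1 c)
      · exact Or.inr (Or.inr (h2 x hx))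
    · rw [Finset.card_insert_of_notMem hcd, Finset.card_insert_of_notMem hdR, h3]
      ring
    · intro x hx hxS
      rw [hmem] at hx
      rcases hx with rfl | rfl | hx
      · exact absurd hxS hcS
      · exact absurd hxS hdS
      · exact h4 x hx hxS
    · intro x y hx hy hxy
      rw [hmem] at hx hy
      rcases hx with rfl | rfl | hx <;> rcases hy with rfl | rfl | hy
      · rfl
      · exact absurd hxy.symm (hl _)
      · exact absurd hxy (nc y (hR y hy))
      · exact absurd hxy (hl _)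
      · rfl
      · exact absurd hxy (nd y (hR y hy))
      · exact absurd hxy.symm (nc x (hR x hx))
      · exact absurd hxy.symm (nd x (hR x hx))
      · exact h5 x y hx hy hxy
    · intro z x y hz hx hy hzx hzy
      rw [hmem, not_or, not_or] at hz
      rw [hmem] at hx hy
      obtain ⟨hzc, hzd, hzR⟩ := hz
      rcases hx with rfl | rfl | hx <;> rcases hy with rfl | rfl | hy
      · exact absurd (hzy.trans hzx.symm) (hl z)
      · -- `z` parallel to `c`
        exfalso
        by_cases hzS : z ∈ S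
        · exact nc z (hS' z hzS) hzx.symm
        · exact hzc (hs z x hzS hcS hzx hzy)
      · exact absurd (by rw [hM.1, hzx]) (ec y (τ z) (hR y hy) hzy)
      · exfalso
        by_cases hzS : z ∈ S
        · exact nd z (hS' z hzS) hzx.symm
        · refine hzd (hs z (τ y) hzS hdS hzx ?_)
          rw [hzy, hM.1]
      · exact absurd (hzy.trans hzx.symm) (hl z)
      · exact absurd (by rw [hM.1, hzx]) (ed y (τ z) (hR y hy) hzy)
      · exact absurd hzy (ec x z (hR x hx) hzx)
      · exact absurd hzy (ed x z (hR x hx) hzx)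
      · exact h6 z x y hzR hx hy hzx hzy

open Classical in
theorem repair2 (hF : Bd β F v) (hfib : ∀ u : V, (univ.filter (fun x => v x = u)).card ≤ D)
    {c : ℕ} (hH : 2 * ((c + 2 + 2 * (β + 1) + 2) * (D + D * D)) < Fintype.card H) {τ : Perm H}
    (hτ : τ ∈ AA F v (c + 2)) :
    ∃ (R : Finset H) (τ' : Perm H), R.card ≤ 2 * β + 4 ∧ Off R τ τ' ∧ τ' ∈ AA F v c := by
  rw [mem_AA] at hτ
  obtain ⟨hM, ha, S, hSc, hS, hs⟩ := hτ
  rcases S.eq_empty_or_nonempty with rfl | ⟨a, haS⟩
  · refine ⟨∅, τ, by simp, fun _ _ => rfl, ?_⟩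
    rw [mem_AA]
    exact ⟨hM, ha, ∅, by simp, hS, hs⟩
  · have hl := hF.loop τ hM ha
    have hbS := hS a haS
    obtain ⟨R, h1, h2, h3, h4, h5, h6⟩ := spread hfib hM hl hs haS hbS (β + 1) (by
      refine lt_of_le_of_lt (Nat.mul_le_mul_left _ (Nat.mul_le_mul_right _ ?_)) hH
      omega)
    have hbR : τ a ∈ R := h2 a h1
    -- a good partner
    have hbad := hF.bad R τ h2 hM ha a h1
    obtain ⟨j, hjR, hja, hjb, hG⟩ : ∃ j, j ∈ R ∧ j ≠ a ∧ j ≠ τ a ∧ Good F R τ a j := by
      by_contra h7
      push Not at h7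
      have h8 : (R.erase a).erase (τ a) ⊆ R.filter (fun j => j ≠ a ∧ ¬ Good F R τ a j) := by
        intro x hx
        rw [Finset.mem_erase, Finset.mem_erase] at hx
        rw [Finset.mem_filter]
        exact ⟨hx.2.2, hx.2.1, h7 x hx.2.2 hx.2.1 hx.1⟩
      have h9 := Finset.card_le_card h8
      rw [Finset.card_erase_of_mem (Finset.mem_erase.2 ⟨hM.2 a, hbR⟩),
        Finset.card_erase_of_mem h1, h3] at h9
      omega
    obtain ⟨τ', h7, h8, h9, h10⟩ := hG
    have hR' := h2.of_off hM h7 h9
    have hτ'a : τ' a ≠ τ a := by rw [h10]; exact hjb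
    have hτ'b : τ' (τ a) ≠ a := by
      intro h11
      apply hτ'a
      rw [← h11, h7.1, h11]
    refine ⟨R, τ', by omega, fun x hx => (h9 x hx).symm, ?_⟩
    rw [mem_AA]
    refine ⟨h7, h8, (S.erase a).erase (τ a), ?_, ?_, ?_⟩
    · rw [Finset.card_erase_of_mem (Finset.mem_erase.2 ⟨hM.2 a, hbS⟩),
        Finset.card_erase_of_mem haS]
      omega
    · intro x hx
      rw [Finset.mem_erase, Finset.mem_erase] at hx
      obtain ⟨h11, h12, h13⟩ := hx
      have hxR : x ∉ R := fun h => (h4 x h h13).elim h12 h11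
      rw [h9 x hxR, Finset.mem_erase, Finset.mem_erase]
      refine ⟨fun h => h12 (τ.injective h), fun h => h11 ?_, hS x h13⟩
      rw [← h, hM.1]
    · have hnot : ∀ x, x ∉ (S.erase a).erase (τ a) → x ∉ R → x ∉ S := by
        intro x hx hxR hxS
        apply hx
        rw [Finset.mem_erase, Finset.mem_erase]
        exact ⟨fun h => hxR (h ▸ hbR), fun h => hxR (h ▸ h1), hxS⟩
      have hmix : ∀ x x', x ∈ R → x' ∉ R → v x = v x' → v (τ' x) = v (τ' x') → False := by
        intro x x' hx hx' h11 h12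
        rw [h9 x' hx'] at h12
        rcases h6 x' x (τ' x) hx' hx (hR' x hx) h11.symm h12.symm with ⟨h13, h14⟩ | ⟨h13, h14⟩
        · rw [h13] at h14
          exact hτ'a h14
        · rw [h13] at h14
          exact hτ'b h14
      intro x x' hx hx' h11 h12
      by_cases hxR : x ∈ R <;> by_cases hxR' : x' ∈ R
      · exact h5 x x' hxR hxR' h11
      · exact (hmix x x' hxR hxR' h11 h12).elim
      · exact (hmix x' x hxR' hxR h11.symm h12.symm).elim
      · rw [h9 x hxR, h9 x' hxR'] at h12
        exact hs x x' (hnot x hx hxR) (hnot x' hx' hxR') h11 h12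

/-- encoding of the local changes -/
theorem encode {X Y : Finset (Perm H)} {M : ℕ} (hne : Nonempty H)
    (h : ∀ τ ∈ X, ∃ (R : Finset H) (τ' : Perm H), R.card ≤ M ∧ Off R τ τ' ∧ τ' ∈ Y) :
    X.card ≤ (Fintype.card H) ^ (2 * M) * Y.card := by
  classical
  have h1 : ∀ τ : Perm H, ∃ q : (Fin M → H × H) × Perm H, τ ∈ X → q.2 ∈ Y ∧
      (∀ k, (q.1 k).2 = τ (q.1 k).1) ∧ ∀ x, (∀ k, (q.1 k).1 ≠ x) → τ x = q.2 x := by
    intro τ
    by_cases hτ : τ ∈ X
    · obtain ⟨R, τ', h2, h3, h4⟩ := h τ hτ
      let w : Fin M → H := fun k => if hk : (k : ℕ) < R.card then (R.equivFin.symm ⟨k, hk⟩ : H)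
        else hne.some
      refine ⟨(fun k => (w k, τ (w k)), τ'), fun _ => ⟨h4, fun k => rfl, fun x hx => h3 x ?_⟩⟩
      intro hxR
      have h5 : ((R.equivFin ⟨x, hxR⟩ : Fin R.card) : ℕ) < M := lt_of_lt_of_le (R.equivFin ⟨x, hxR⟩).2 h2
      apply hx ⟨_, h5⟩
      show w ⟨_, h5⟩ = x
      simp only [w]
      rw [dif_pos (R.equivFin ⟨x, hxR⟩).2]
      simp
    · exact ⟨(fun _ => (hne.some, hne.some), 1), fun h' => absurd h' hτ⟩
  choose q hq using h1
  have h2 : X.card ≤ ((univ : Finset (Fin M → H × H)) ×ˢ Y).card := by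
    refine Finset.card_le_card_of_injOn q ?_ ?_
    · intro τ hτ
      rw [Finset.mem_coe] at hτ ⊢
      rw [Finset.mem_product]
      exact ⟨Finset.mem_univ _, (hq τ hτ).1⟩
    · intro τ hτ τ' hτ' heq
      rw [Finset.mem_coe] at hτ hτ'
      obtain ⟨-, h3, h4⟩ := hq τ hτ
      obtain ⟨-, h3', h4'⟩ := hq τ' hτ'
      rw [← heq] at h3' h4'
      refine Equiv.ext fun x => ?_
      by_cases hx : ∃ k, ((q τ).1 k).1 = x
      · obtain ⟨k, rfl⟩ := hx
        rw [← h3, ← h3']
      · push Not at hx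
        rw [h4 x hx, h4' x hx]
  rw [Finset.card_product, Finset.card_univ, Fintype.card_fun, Fintype.card_prod, Fintype.card_fin,
    ← sq, ← pow_mul] at h2
  exact h2

open Classical in
theorem card_AA2 (hF : Bd β F v)
    (hfib : ∀ u : V, (univ.filter (fun x => v x = u)).card ≤ D) (k : ℕ)
    (hH : 2 * ((2 * k + 2 * (β + 1) + 2) * (D + D * D)) < Fintype.card H) :
    (AA F v (2 * k)).card ≤ (Fintype.card H) ^ (2 * (2 * β + 4) * k) * (AA F v 0).card := by
  have hne : Nonempty H := Fintype.card_pos_iff.1 (by omega)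
  induction k with
  | zero => simp
  | succ k ih =>
    have h1 : (AA F v (2 * k + 2)).card ≤ (Fintype.card H) ^ (2 * (2 * β + 4)) *
        (AA F v (2 * k)).card :=
      encode hne fun τ hτ => repair2 hF hfib (c := 2 * k) (by
        refine lt_of_le_of_lt (Nat.mul_le_mul_left _ (Nat.mul_le_mul_right _ ?_)) hH
        omega) hτ
    have h2 := ih (by
      refine lt_of_le_of_lt (Nat.mul_le_mul_left _ (Nat.mul_le_mul_right _ ?_)) hH
      omega)
    calc (AA F v (2 * (k + 1))).card = (AA F v (2 * k + 2)).card := by ring_nf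
      _ ≤ (Fintype.card H) ^ (2 * (2 * β + 4)) * (AA F v (2 * k)).card := h1
      _ ≤ (Fintype.card H) ^ (2 * (2 * β + 4)) *
          ((Fintype.card H) ^ (2 * (2 * β + 4) * k) * (AA F v 0).card) :=
        Nat.mul_le_mul_left _ h2
      _ = _ := by rw [← mul_assoc, ← pow_add]; ring_nf

open Classical in
theorem main_count2 (hF : Bd β F v)
    (hfib : ∀ u : V, (univ.filter (fun x => v x = u)).card ≤ D) (k b : ℕ)
    (hb : 1 + β + D * D ≤ b) (hk : Fintype.card H = 2 * k)
    (hH : 2 * ((2 * b + 2 * (β + 1) + 2) * (D + D * D)) < Fintype.card H) (hD : 1 ≤ D)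
    (hbase : ∃ τ0, Mt τ0 ∧ F τ0 ≠ 0) :
    ∑ τ ∈ univ.filter (fun τ : Perm H => Mt τ), 2 ^ (aa F τ) ≤
      (Fintype.card H) ^ (2 * b + β + 2 * (2 * β + 4) * b) * (AA F v 0).card := by
  obtain ⟨τ0, h0, ha⟩ := hbase
  have h1 := up2 hF k 0 univ ∅ τ0 τ0 (by rw [Finset.card_univ, hk]) (by simp) (by simp)
    (fun _ _ => Finset.mem_univ _) (fun _ h => absurd h (Finset.notMem_empty _)) h0 h0 ha
    (fun _ _ => rfl)
  have h2 : EX univ τ0 = univ.filter (fun τ : Perm H => Mt τ) := by
    ext τ
    rw [mem_EX, Finset.mem_filter]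
    exact ⟨fun h => ⟨Finset.mem_univ _, h.1⟩, fun h => ⟨h.2, fun x hx => absurd (Finset.mem_univ x) hx⟩⟩
  rw [h2, pow_zero, one_mul] at h1
  have h3 := low2 hF hfib (2 * b) (by omega) k univ τ0 (by rw [Finset.card_univ, hk])
    (fun _ _ => Finset.mem_univ _) h0 ha (fun h h' hh => absurd (Finset.mem_univ h) hh)
  rw [h2] at h3
  have h4 : ((univ.filter (fun τ : Perm H => Mt τ)).filter
      (fun τ => F τ ≠ 0 ∧ Few v (2 * b) τ)).card ≤ (AA F v (2 * b)).card := by
    refine Finset.card_le_card fun τ hτ => ?_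
    rw [Finset.mem_filter, Finset.mem_filter] at hτ
    rw [mem_AA]
    exact ⟨hτ.1.2, hτ.2⟩
  have h5 := card_AA2 hF hfib b hH
  have hbig : 2 * (2 * b + 2 * (β + 1) + 2) ≤ Fintype.card H := by
    refine le_trans (Nat.mul_le_mul_left _ ?_) hH.le
    exact Nat.le_mul_of_pos_right _ (by omega)
  have h6 := num β b k (by omega) (by omega) (by omega)
  rw [hk] at h5 ⊢
  calc _ ≤ ∏ i ∈ range k, (2 * (i + 1) + β) := h1
    _ ≤ (2 * k) ^ (2 * b + β) * ∏ i ∈ range k, max 1 (2 * (i + 1) - 2 * b) := h6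
    _ ≤ (2 * k) ^ (2 * b + β) * ((2 * k) ^ (2 * (2 * β + 4) * b) * (AA F v 0).card) :=
        Nat.mul_le_mul_left _ (h3.trans (h4.trans h5))
    _ = _ := by
        rw [← mul_assoc, ← pow_add]

end Pool.Agent.Y342.LE.Cfg
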