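import Pool.Agent.Y342.LE.MR
import Pool.Agent.Y342.LE.Gen2
import Pool.Agent.Y342.LE.CfgFin

/-!
# Random regular graphs of odd degree
-/

set_option autoImplicit false
set_option linter.unusedSectionVars false

namespace Pool.Agent.Y342.LE.Cfg

open Finset Equiv Pool.Agent.W426.LE Pool.Agent.Y342.LE

theorem Bd_of_Ax2 {H V K : Type} [Fintype H] [DecidableEq H] [Field K] {D s : ℕ}
    {F : Perm H → K} {v : H → V} (hF : Ax2 D s F v) : Bd ((s - 1) * D) F v where
  bad := fun R τ0 hR h0 ha i hi => bad_card2 hF hR h0 ha hi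
  loop := hF.loop

section

variable {A : Type} [Fintype A] [DecidableEq A] {p D : ℕ}

open Classical in
theorem near_Ch2 (hp : p.Prime) [Fact p.Prime] (hD : D < p) {a : ℕ}
    {G : SimpleGraph (A × Bool)} {τ : Perm (HH A D)} (hτ : IsC G τ)
    (ha : aa (Fq p) τ ≤ a) : Ch D a G := by
  obtain ⟨hM, hs, hA⟩ := hτ
  have hne : {a | NearA (Fq p) a τ}.Nonempty := by
    obtain ⟨τ0, h1, h2⟩ := baseq (A := A) hp hD
    refine ⟨Fintype.card (HH A D), τ0, h1, h2, univ, ?_, fun _ _ => Finset.mem_univ _,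
      fun x hx => absurd (Finset.mem_univ x) hx⟩
    rw [Finset.card_univ]
    omega
  obtain ⟨τ', hM', h0, S, hSc, hS, ho⟩ := Nat.sInf_mem hne
  change S.card ≤ 2 * aa (Fq p) τ at hSc
  let f : HH A D → Sym2 (A × Bool) := fun h => s(vt0 h, vt0 (τ h))
  have hf : ∀ h, f (τ h) = f h := by
    intro h
    show s(vt0 (τ h), vt0 (τ (τ h))) = s(vt0 h, vt0 (τ h))
    rw [hM.1, Sym2.eq_swap]
  refine ⟨S.image f, ?_, ?_⟩
  · have h1 : 2 * (S.image f).card ≤ S.card := by
      refine Finset.mul_card_image_le_card S 2 fun e he => ?_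
      obtain ⟨h, hh, rfl⟩ := Finset.mem_image.1 he
      have h2 : ({h, τ h} : Finset (HH A D)) ⊆ S.filter (fun x => f x = f h) := by
        intro x hx
        rw [Finset.mem_insert, Finset.mem_singleton] at hx
        rw [Finset.mem_filter]
        rcases hx with rfl | rfl
        · exact ⟨hh, rfl⟩
        · exact ⟨hS _ hh, hf _⟩
      have h3 := Finset.card_le_card h2
      rwa [Finset.card_pair (hM.2 h).symm] at h3
    omega
  · refine EL_of_alive hM' (fun h1 => h0 (by unfold Fq; rw [h1]; simp)) _ ?_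
    intro v w hvw
    rw [SimpleGraph.deleteEdges_adj] at hvw
    obtain ⟨h, rfl, rfl⟩ := (hA v w).1 hvw.1
    have hhS : h ∉ S := by
      intro h2
      apply hvw.2
      rw [Finset.mem_coe]
      exact Finset.mem_image.2 ⟨h, h2, rfl⟩
    exact ⟨h, rfl, by rw [ho h hhS]⟩

/-- the numerical estimates -/
theorem num2 {D s : ℕ} (hD : 1 ≤ D) (hs : s ≤ D + 1) :
    2 * (2 * (1 + (s - 1) * D + D * D) + (s - 1) * D +
      2 * (2 * ((s - 1) * D) + 4) * (1 + (s - 1) * D + D * D)) ≤ 100 * D ^ 4 ∧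
    2 * ((2 * (1 + (s - 1) * D + D * D) + 2 * ((s - 1) * D + 1) + 2) * (D + D * D)) <
      100 * D ^ 4 := by
  have h1 : (s - 1) * D ≤ D * D := Nat.mul_le_mul_right _ (by omega)
  have h2 : 1 ≤ D * D := Nat.mul_pos hD hD
  have h3 : D ≤ D * D := Nat.le_mul_of_pos_left _ hD
  have h4 : D ^ 4 = (D * D) * (D * D) := by ring
  rw [h4]
  generalize hq : D * D = q at *
  generalize hβ : (s - 1) * D = β at *
  have hb : 1 + β + q ≤ 3 * q := by omega
  have h5 : 2 * (2 * β + 4) * (1 + β + q) ≤ 2 * (2 * q + 4 * q) * (3 * q) :=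
    Nat.mul_le_mul (by omega) hb
  have h6 : 2 * (2 * q + 4 * q) * (3 * q) = 36 * (q * q) := by ring
  have h7 : q ≤ q * q := Nat.le_mul_of_pos_left _ h2
  have h8 : (2 * (1 + β + q) + 2 * (β + 1) + 2) * (D + q) ≤ (12 * q) * (2 * q) :=
    Nat.mul_le_mul (by omega) (by omega)
  have h9 : (12 * q) * (2 * q) = 24 * (q * q) := by ring
  constructor
  · omega
  · omega

open Classical in
theorem core2 (hp : p.Prime) [Fact p.Prime] (hD1 : 1 ≤ D) {s : ℕ} (hs : Even s) (hs0 : 0 < s)
    (hsD : s ≤ D + 1) (hDs : D + s = p)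
    (hn : 100 * D ^ 4 ≤ Fintype.card (A × Bool)) (a : ℕ)
    (Q : SimpleGraph (A × Bool) → Prop)
    (hQ : ∀ (G : SimpleGraph (A × Bool)) (τ : Perm (HH A D)), Q G → IsC G τ →
      a ≤ aa (Fq p) τ) :
    2 ^ a * Nat.card {G : SimpleGraph (A × Bool) // Reg D G ∧ Q G} ≤
      (Fintype.card (A × Bool)) ^ (100 * D ^ 4) *
        Nat.card {G : SimpleGraph (A × Bool) // Reg D G ∧ EL.EL G D} := by
  obtain ⟨hnum1, hnum2⟩ := num2 hD1 hsD
  have : Fintype (SimpleGraph (A × Bool)) := Fintype.ofFinite _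
  set n := Fintype.card (A × Bool) with hnd
  have hnA : n = Fintype.card A * 2 := by rw [hnd, Fintype.card_prod, Fintype.card_bool]
  have hHc : Fintype.card (HH A D) = 2 * (Fintype.card A * D) := by
    rw [Fintype.card_prod, Fintype.card_prod, Fintype.card_bool, Fintype.card_fin]
    ring
  have hHn : Fintype.card (HH A D) = n * D := by rw [hHc, hnA]; ring
  have hD4 : D ≤ D ^ 4 := Nat.le_self_pow (by norm_num) D
  have hnD : D ≤ n := by omega
  have hmain := main_count2 (Bd_of_Ax2 (Fq_ax (A := A) hp hs hs0 hDs)) (fun u => fib_card' u _)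
    (Fintype.card A * D) (1 + (s - 1) * D + D * D) le_rfl hHc (by
      rw [hHn]
      refine lt_of_lt_of_le hnum2 (hn.trans ?_)
      exact Nat.le_mul_of_pos_right _ hD1) hD1 (baseq hp (by omega))
  -- the configurations
  let TH : SimpleGraph (A × Bool) → Finset (Perm (HH A D)) := fun G =>
    univ.filter (fun τ => IsC G τ)
  have hTHdis : ∀ G G' : SimpleGraph (A × Bool), G ≠ G' → Disjoint (TH G) (TH G') := by
    intro G G' hGG'
    rw [Finset.disjoint_left]
    intro τ h3 h4
    apply hGG'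
    have h5 := (Finset.mem_filter.1 h3).2.2.2
    have h6 := (Finset.mem_filter.1 h4).2.2.2
    ext v w
    rw [h5, h6]
  set good := (univ : Finset (SimpleGraph (A × Bool))).filter
    (fun G => Reg D G ∧ EL.EL G D) with hgood
  set bad := (univ : Finset (SimpleGraph (A × Bool))).filter
    (fun G => Reg D G ∧ Q G) with hbad
  have hTHc : ∀ G, Reg D G → (TH G).card = D.factorial ^ n := by
    intro G hG
    exact card_IsC G hG
  have hI : (AA (Fq (A := A) (D := D) p) vt0 0).card ≤ good.card * D.factorial ^ n := by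
    have h3 : AA (Fq (A := A) (D := D) p) vt0 0 ⊆ good.biUnion TH := by
      intro τ hτ
      rw [mem_AA] at hτ
      obtain ⟨hM, h0, S, hSc, -, hs⟩ := hτ
      have hSe : S = ∅ := by
        rw [← Finset.card_eq_zero]; omega
      subst hSe
      have h0' : FZ τ ≠ 0 := fun h1 => h0 (by unfold Fq; rw [h1]; simp)
      have hl := FZ_loop hM h0'
      rw [Finset.mem_biUnion]
      refine ⟨Gr τ, ?_, Finset.mem_filter.2 ⟨Finset.mem_univ _, Gr_IsC hM hl hs⟩⟩
      rw [hgood, Finset.mem_filter]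
      exact ⟨Finset.mem_univ _, Gr_reg hM hl hs, EL_of_alive hM h0' _
        (fun v w h => (Gr_adj hM hl v w).1 h)⟩
    refine (Finset.card_le_card h3).trans ?_
    exact Finset.card_biUnion_le_card_mul _ _ _ fun G hG =>
      (hTHc G (Finset.mem_filter.1 hG).2.1).le
  have hII : 2 ^ a * bad.card * D.factorial ^ n ≤
      ∑ τ ∈ univ.filter (fun τ : Perm (HH A D) => Mt τ), 2 ^ (aa (Fq p) τ) := by
    have h3 : bad.biUnion TH ⊆ univ.filter (fun τ : Perm (HH A D) => Mt τ) := by
      intro τ hτ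
      obtain ⟨G, -, h4⟩ := Finset.mem_biUnion.1 hτ
      exact Finset.mem_filter.2 ⟨Finset.mem_univ _, (Finset.mem_filter.1 h4).2.1⟩
    refine le_trans ?_ (Finset.sum_le_sum_of_subset h3)
    rw [Finset.sum_biUnion (fun G _ G' _ h => hTHdis G G' h)]
    have h4 : ∀ G ∈ bad, 2 ^ a * D.factorial ^ n ≤
        ∑ τ ∈ TH G, 2 ^ (aa (Fq p) τ) := by
      intro G hG
      have h5 := (Finset.mem_filter.1 hG).2
      rw [← hTHc G h5.1, mul_comm, ← smul_eq_mul]
      refine Finset.card_nsmul_le_sum _ _ _ fun τ hτ => ?_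
      exact Nat.pow_le_pow_right (by norm_num) (hQ G τ h5.2 (Finset.mem_filter.1 hτ).2)
    have h5 := Finset.card_nsmul_le_sum bad _ _ h4
    rw [smul_eq_mul] at h5
    calc _ = bad.card * (2 ^ a * D.factorial ^ n) := by ring
      _ ≤ _ := h5
  have hpos : 0 < D.factorial ^ n := Nat.pow_pos (Nat.factorial_pos _)
  have hpow : (Fintype.card (HH A D)) ^ (2 * (1 + (s - 1) * D + D * D) + (s - 1) * D +
      2 * (2 * ((s - 1) * D) + 4) * (1 + (s - 1) * D + D * D)) ≤ n ^ (100 * D ^ 4) := by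
    rw [hHn]
    have h3 : n * D ≤ n ^ 2 := by
      rw [sq]
      exact Nat.mul_le_mul_left _ hnD
    refine (Nat.pow_le_pow_left h3 _).trans ?_
    rw [← pow_mul]
    exact Nat.pow_le_pow_right (by omega) hnum1
  have hfin : (2 ^ a * bad.card) * D.factorial ^ n ≤
      (n ^ (100 * D ^ 4) * good.card) * D.factorial ^ n := by
    calc _ ≤ _ := hII
      _ ≤ _ := hmain
      _ ≤ n ^ (100 * D ^ 4) * (good.card * D.factorial ^ n) :=
        Nat.mul_le_mul hpow hI
      _ = _ := by ring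
  have hres := Nat.le_of_mul_le_mul_right hfin hpos
  rw [Nat.card_eq_fintype_card, Nat.card_eq_fintype_card, Fintype.card_subtype,
    Fintype.card_subtype]
  exact hres

end

theorem exists_p (D : ℕ) (hD : Odd D) : ∃ p s : ℕ, p.Prime ∧ Even s ∧ 0 < s ∧ s ≤ D + 1 ∧
    D + s = p := by
  have h1 : 1 ≤ D := hD.pos
  rcases Nat.lt_or_ge D 2 with h2 | h2
  · have h3 : D = 1 := by omega
    subst h3
    exact ⟨3, 2, Nat.prime_three, by decide, by norm_num, by norm_num, by norm_num⟩
  · obtain ⟨p, hp, h3, h4⟩ := Nat.exists_prime_lt_and_le_two_mul D (by omega)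
    have h5 : Odd p := hp.odd_of_ne_two (by omega)
    refine ⟨p, p - D, hp, ?_, by omega, by omega, by omega⟩
    exact Nat.Odd.sub_odd h5 hD

theorem final2 (D : ℕ) (hD : Odd D) (n : ℕ) (hn : Even n) (hn5 : 100 * D ^ 4 ≤ n) :
    Nat.card {G : SimpleGraph (Fin n) // Reg D G} ≤ n ^ (100 * D ^ 4) *
      Nat.card {G : SimpleGraph (Fin n) // Reg D G ∧ EL.EL G D} ∧
    ∀ a, 2 ^ a * Nat.card {G : SimpleGraph (Fin n) // Reg D G ∧ ¬ Ch D a G} ≤
      n ^ (100 * D ^ 4) * Nat.card {G : SimpleGraph (Fin n) // Reg D G ∧ EL.EL G D} := by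
  obtain ⟨p, s, hp, hs, hs0, hsD, hDs⟩ := exists_p D hD
  have : Fact p.Prime := ⟨hp⟩
  have hD1 : 1 ≤ D := hD.pos
  obtain ⟨m, hm⟩ := hn
  have hc : Fintype.card (Fin m × Bool) = n := by
    rw [Fintype.card_prod, Fintype.card_fin, Fintype.card_bool, hm]
    ring
  let e : Fin n ≃ Fin m × Bool := Fintype.equivOfCardEq (by rw [hc, Fintype.card_fin])
  have t1 := transport e (fun X G => Reg D G) (fun X Y f G h => h.comap f)
  have t2 := transport e (fun X G => Reg D G ∧ EL.EL G D)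
    (fun X Y f G h => ⟨h.1.comap f, EL_comap f h.2⟩)
  have t3 := fun a => transport e (fun X G => Reg D G ∧ ¬ Ch D a G)
    (fun X Y f G h => ⟨h.1.comap f, fun h1 => h.2 (by
      have h2 := h1.comap f.symm
      have h3 : (G.comap f.symm).comap f.symm.symm = G := by
        ext v w
        simp
      rwa [h3] at h2)⟩)
  constructor
  · have h1 := core2 (A := Fin m) hp hD1 hs hs0 hsD hDs (by rw [hc]; exact hn5) 0 (fun _ => True)
      (fun _ _ _ _ => Nat.zero_le _)
    rw [pow_zero, one_mul, hc, ← t2] at h1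
    rw [t1]
    have h2 : Nat.card {G : SimpleGraph (Fin m × Bool) // Reg D G ∧ True} =
        Nat.card {G : SimpleGraph (Fin m × Bool) // Reg D G} :=
      Nat.card_congr (Equiv.subtypeEquivRight fun G => and_iff_left trivial)
    rwa [h2] at h1
  · intro a
    have h1 := core2 (A := Fin m) hp hD1 hs hs0 hsD hDs (by rw [hc]; exact hn5) a
      (fun G => ¬ Ch D a G) (fun G τ hG hτ => by
        by_contra h2
        push Not at h2
        exact hG (near_Ch2 hp (by omega) hτ h2.le))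
    rw [hc, ← t2] at h1
    have h3 := t3 a
    rw [h3]
    exact h1

end Pool.Agent.Y342.LE.Cfg
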