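import Pool.Agent.Y342.LE.Sg

/-!
# The signed number of colourings with `-2` colours

`θ : E × Bool ≃ (A × D) × Bool` describes a `D`-regular multigraph with the vertex set `A × Bool`:
`θ (e, b) = ((a, i), c)` means that the end `b` of the edge `e` is the `i`-th half-edge at the vertex
`(a, c)`. If the number of colours is `-2` modulo `p`, the signed number of colourings is, up to sign,
a signed sum over the orientations of the edges.
-/

set_option autoImplicit false
set_option linter.unusedSectionVars false

namespace Pool.Agent.Y342.LE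

open Finset Pool.Agent.W426.LE

/-- flip or not -/
def bx (c : Bool) : Equiv.Perm Bool := if c then Equiv.swap true false else 1

theorem bx_apply (c b : Bool) : bx c b = xor b c := by
  cases b <;> cases c <;> simp [bx]

theorem sign_bx (c : Bool) : Equiv.Perm.sign (bx c) = if c = true then (-1 : ℤˣ) else 1 := by
  cases c
  · simp [bx]
  · simp only [bx, if_true]
    exact Equiv.Perm.sign_swap (by decide)

/-- `true` if the half-edge `h` is the tail of its edge in the orientation `y` -/
def tt {E : Type} (y : E → Bool) (h : E × Bool) : Bool := xor h.2 (y h.1)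

section

variable {A D E C : Type} [Fintype A] [Fintype D] [Fintype E] [DecidableEq A] [DecidableEq D]
  [DecidableEq E]
variable (θ : E × Bool ≃ (A × D) × Bool)

/-- the edge of a half-edge -/
def inc (v : A × Bool) (i : D) : E := (θ.symm ((v.1, i), v.2)).1

/-- constant along the gluing `π` -/
def Cst {X : Type} (π : A → Equiv.Perm D) (x : E → X) : Prop :=
  ∀ a i, x (θ.symm ((a, i), false)).1 = x (θ.symm ((a, π a i), true)).1

/-- compatible orientation -/
def Coh (π : A → Equiv.Perm D) (y : E → Bool) : Prop :=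
  ∀ a i, tt y (θ.symm ((a, π a i), true)) = !tt y (θ.symm ((a, i), false))

open Classical in
/-- the signed number as a sum over gluings -/
theorem NN_eq [Fintype C] (ρ : D ≃ C) : NN ρ (inc θ) =
    ∑ π : A → Equiv.Perm D, (∏ a, ((Equiv.Perm.sign (π a) : ℤˣ) : ℤ)) *
      (Nat.card {x : E → C // Cst θ π x} : ℤ) := by
  have h1 : ∀ x : E → C, ∏ v : A × Bool, sg ρ (fun i => x (inc θ v i)) =
      ∑ π : A → Equiv.Perm D, (∏ a, ((Equiv.Perm.sign (π a) : ℤˣ) : ℤ)) *
        (if Cst θ π x then 1 else 0) := by
    intro x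
    rw [Fintype.prod_prod_type]
    have h2 : ∀ a : A, ∏ b : Bool, sg ρ (fun i => x (inc θ (a, b) i)) =
        ∑ τ : Equiv.Perm D, ((Equiv.Perm.sign τ : ℤˣ) : ℤ) *
          (if ∀ i, x (inc θ (a, false) i) = x (inc θ (a, true) (τ i)) then 1 else 0) := by
      intro a
      rw [Fintype.prod_bool, mul_comm]
      exact sg_mul' ρ _ _ _ fun τ => Iff.rfl
    rw [Finset.prod_congr rfl fun a _ => h2 a, Finset.prod_univ_sum, Fintype.piFinset_univ]
    refine Finset.sum_congr rfl fun π _ => ?_
    rw [Finset.prod_mul_distrib]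
    congr 1
    rw [Finset.prod_ite_zero]
    simp only [Finset.mem_univ, true_implies, Finset.prod_const_one]
    exact if_congr Iff.rfl rfl rfl
  unfold NN
  rw [Finset.sum_congr rfl fun x _ => h1 x, Finset.sum_comm]
  refine Finset.sum_congr rfl fun π _ => ?_
  rw [← Finset.mul_sum]
  congr 1
  rw [Finset.sum_ite, Finset.sum_const_zero, add_zero, Finset.sum_const, nsmul_eq_mul, mul_one,
    Nat.card_eq_fintype_card, Fintype.card_subtype]
  refine congrArg Nat.cast (congrArg Finset.card ?_)
  ext x
  simp only [Finset.mem_filter, Finset.mem_univ, true_and]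

/-- the number of constant maps -/
theorem card_Cst (π : A → Equiv.Perm D) : ∃ q : ℕ, ∀ (X : Type) [Finite X],
    Nat.card {x : E → X // Cst θ π x} = (Nat.card X) ^ q := by
  let r : E → E → Prop := fun e e' => ∃ a i, e = (θ.symm ((a, i), false)).1 ∧
    e' = (θ.symm ((a, π a i), true)).1
  refine ⟨Nat.card (Quot r), fun X _ => ?_⟩
  rw [← card_const r]
  refine Nat.card_congr (Equiv.subtypeEquivRight fun x => ?_)
  constructor
  · rintro h e e' ⟨a, i, rfl, rfl⟩
    exact h a i
  · intro h a i
    exact h _ _ ⟨a, i, rfl, rfl⟩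

/-- the gluing permutation of the half-edges at the vertices -/
def GG (π : A → Equiv.Perm D) : Equiv.Perm ((A × D) × Bool) :=
  Equiv.prodCongrLeft (fun b : Bool => if b = true then Equiv.prodCongrRight π else 1)

theorem GG_true (π : A → Equiv.Perm D) (a : A) (i : D) :
    GG π ((a, i), true) = ((a, π a i), true) := by
  simp [GG]

theorem GG_false (π : A → Equiv.Perm D) (a : A) (i : D) :
    GG π ((a, i), false) = ((a, i), false) := by
  simp [GG]

theorem GG_snd (π : A → Equiv.Perm D) (z : (A × D) × Bool) : (GG π z).2 = z.2 := by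
  obtain ⟨⟨a, i⟩, b⟩ := z
  cases b
  · rw [GG_false]
  · rw [GG_true]

theorem sign_GG (π : A → Equiv.Perm D) :
    Equiv.Perm.sign (GG π) = ∏ a, Equiv.Perm.sign (π a) := by
  unfold GG
  rw [Equiv.Perm.sign_prodCongrLeft, Fintype.prod_bool]
  simp [Equiv.Perm.sign_prodCongrRight]

/-- the flip of the second coordinate -/
def flp (X : Type) : Equiv.Perm (X × Bool) := Equiv.prodCongrRight (fun _ => bx true)

theorem flp_apply {X : Type} (x : X) (b : Bool) : flp X (x, b) = (x, !b) := by
  simp [flp, bx_apply]

/-- the gluing involution -/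
def kap (π : A → Equiv.Perm D) : Equiv.Perm ((A × D) × Bool) := GG π * flp (A × D) * (GG π)⁻¹

theorem kap_false (π : A → Equiv.Perm D) (a : A) (i : D) :
    kap π ((a, i), false) = ((a, π a i), true) := by
  have h1 : (GG π)⁻¹ ((a, i), false) = ((a, i), false) := by
    rw [Equiv.Perm.inv_eq_iff_eq, GG_false]
  simp only [kap, Equiv.Perm.mul_apply, h1, flp_apply, Bool.not_false, GG_true]

theorem kap_true (π : A → Equiv.Perm D) (a : A) (i : D) :
    kap π ((a, π a i), true) = ((a, i), false) := by
  have h1 : (GG π)⁻¹ ((a, π a i), true) = ((a, i), true) := by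
    rw [Equiv.Perm.inv_eq_iff_eq, GG_true]
  simp only [kap, Equiv.Perm.mul_apply, h1, flp_apply, Bool.not_true, GG_false]

theorem flp_flp {X : Type} : flp X * flp X = 1 := by
  ext ⟨x, b⟩ : 1
  rw [Equiv.Perm.mul_apply, flp_apply, flp_apply, Bool.not_not]
  rfl

theorem kap_kap (π : A → Equiv.Perm D) (z : (A × D) × Bool) : kap π (kap π z) = z := by
  have h : kap π * kap π = 1 := by
    unfold kap
    calc GG π * flp (A × D) * (GG π)⁻¹ * (GG π * flp (A × D) * (GG π)⁻¹)
        = GG π * (flp (A × D) * flp (A × D)) * (GG π)⁻¹ := by group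
      _ = 1 := by rw [flp_flp]; group
  rw [← Equiv.Perm.mul_apply, h]
  rfl

theorem kap_snd (π : A → Equiv.Perm D) (z : (A × D) × Bool) : (kap π z).2 = !z.2 := by
  obtain ⟨⟨a, i⟩, b⟩ := z
  cases b
  · rw [kap_false]
    rfl
  · obtain ⟨j, rfl⟩ := (π a).surjective i
    rw [kap_true]
    rfl

/-- orientation shift -/
def Ph (y : E → Bool) : Equiv.Perm (E × Bool) := Equiv.prodCongrRight (fun e => bx (y e))

theorem Ph_apply (y : E → Bool) (h : E × Bool) : Ph y h = (h.1, tt y h) := by
  obtain ⟨e, b⟩ := h
  simp [Ph, bx_apply, tt]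

theorem Ph_Ph (y : E → Bool) (h : E × Bool) : Ph y (Ph y h) = h := by
  rw [Ph_apply, Ph_apply]
  refine Prod.ext rfl ?_
  simp [tt]

theorem sign_Ph (y : E → Bool) :
    Equiv.Perm.sign (Ph y) = ∏ e, (if y e = true then (-1 : ℤˣ) else 1) := by
  unfold Ph
  rw [Equiv.Perm.sign_prodCongrRight]
  exact Finset.prod_congr rfl fun e _ => sign_bx (y e)

/-- compatibility in terms of the gluing involution -/
theorem coh_iff (π : A → Equiv.Perm D) (y : E → Bool) :
    Coh θ π y ↔ ∀ h, tt y (θ.symm (kap π (θ h))) = !tt y h := by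
  constructor
  · intro hc h
    obtain ⟨z, rfl⟩ := θ.symm.surjective h
    rw [Equiv.apply_symm_apply]
    obtain ⟨⟨a, i⟩, b⟩ := z
    cases b
    · rw [kap_false]
      exact hc a i
    · obtain ⟨j, rfl⟩ := (π a).surjective i
      rw [kap_true, hc a j, Bool.not_not]
  · intro h a i
    have h1 := h (θ.symm ((a, i), false))
    rwa [Equiv.apply_symm_apply, kap_false] at h1

/-- there is a compatible orientation -/
theorem exists_coh (π : A → Equiv.Perm D) : ∃ y : E → Bool, Coh θ π y := by
  obtain ⟨Y, h1, h2⟩ := exists_alt (H := E × Bool) (fun h => (h.1, !h.2))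
    (fun h => θ.symm (kap π (θ h))) (fun h => by simp) (fun h => by
      intro h'
      have := congrArg Prod.snd h'
      simp at this) (fun h => by
      rw [Equiv.apply_symm_apply, kap_kap, Equiv.symm_apply_apply]) (fun h => by
      intro h'
      have h3 : kap π (θ h) = θ h := (Equiv.symm_apply_eq θ).1 h'
      have h4 := kap_snd π (θ h)
      rw [h3] at h4
      revert h4
      cases (θ h).2 <;> simp)
  have h3 : ∀ h : E × Bool, Y h = tt (fun e => Y (e, false)) h := by
    rintro ⟨e, b⟩
    cases b
    · simp [tt]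
    · have := h1 (e, false)
      simp only [Bool.not_false] at this
      rw [this]
      simp [tt]
  refine ⟨fun e => Y (e, false), (coh_iff θ π _).2 fun h => ?_⟩
  rw [← h3, ← h3]
  exact h2 h

/-- constant two-colourings and compatible orientations -/
theorem card_coh (π : A → Equiv.Perm D) :
    Nat.card {z : E → Bool // Cst θ π z} = Nat.card {y : E → Bool // Coh θ π y} := by
  obtain ⟨y0, h0⟩ := exists_coh θ π
  refine Nat.card_congr
    { toFun := fun z => ⟨fun e => xor (z.1 e) (y0 e), fun a i => ?_⟩
      invFun := fun y => ⟨fun e => xor (y.1 e) (y0 e), fun a i => ?_⟩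
      left_inv := fun z => Subtype.ext (funext fun e => by simp)
      right_inv := fun y => Subtype.ext (funext fun e => by simp) }
  · have h1 := z.2 a i
    have h2 := h0 a i
    simp only [tt] at h2 ⊢
    rw [h1]
    revert h2
    generalize (θ.symm ((a, π a i), true)) = u
    generalize (θ.symm ((a, i), false)) = w
    cases z.1 u.1 <;> cases u.2 <;> cases y0 u.1 <;> cases w.2 <;> cases y0 w.1 <;> simp
  · have h1 := y.2 a i
    have h2 := h0 a i
    simp only [tt] at h1 h2 ⊢
    revert h1 h2
    generalize (θ.symm ((a, π a i), true)) = u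
    generalize (θ.symm ((a, i), false)) = w
    cases y.1 u.1 <;> cases u.2 <;> cases y0 u.1 <;> cases w.2 <;> cases y0 w.1 <;>
      cases y.1 w.1 <;> simp

end

end Pool.Agent.Y342.LE
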