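import Pool.Agent.Y342.LE.Kill
import Pool.Agent.Y342.LE.CfgRepair

/-!
# Functions on perfect matchings satisfying the two symmetrization relations
-/

set_option autoImplicit false
set_option linter.unusedSectionVars false

namespace Pool.Agent.Y342.LE.Cfg

open Finset Equiv Kill

variable {H V K : Type} [Fintype H] [DecidableEq H] [Field K]

/-- the axioms -/
structure Ax2 (D s : ℕ) (F : Perm H → K) (v : H → V) : Prop where
  alt : ∀ τ, Mt τ → ∀ B : Finset H, B.card = D + 1 →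
    ∑ σ ∈ PA B, ((Perm.sign σ : ℤ) : K) * F (σ * τ * σ⁻¹) = 0
  sym : ∀ τ, Mt τ → ∀ P : Finset H, P.card = s + 1 → ∑ σ ∈ PA P, F (σ * τ * σ⁻¹) = 0
  ne : ∀ k : ℕ, 0 < k → k < D + s → (k : K) ≠ 0
  pos : 0 < s
  loop : ∀ τ, Mt τ → F τ ≠ 0 → ∀ h, v (τ h) ≠ v h

variable {D s : ℕ} {F : Perm H → K} {v : H → V}

/-- the action by conjugation on functions -/
def act (H K : Type) [Fintype H] [DecidableEq H] [Field K] :
    Perm H →* Module.End K (Perm H → K) where
  toFun g := LinearMap.funLeft K K (fun τ => g⁻¹ * τ * g)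
  map_one' := by
    refine LinearMap.ext fun φ => funext fun τ => ?_
    show φ (1⁻¹ * τ * 1) = φ τ
    simp
  map_mul' g h := by
    refine LinearMap.ext fun φ => funext fun τ => ?_
    show φ ((g * h)⁻¹ * τ * (g * h)) = φ (h⁻¹ * (g⁻¹ * τ * g) * h)
    rw [mul_inv_rev]
    simp only [mul_assoc]

theorem act_apply (g : Perm H) (φ : Perm H → K) (τ : Perm H) :
    act H K g φ τ = φ (g⁻¹ * τ * g) := rfl

theorem sum_inv_PA {N : Type} [AddCommMonoid N] (A : Finset H) (f : Perm H → N) :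
    ∑ σ ∈ PA A, f σ⁻¹ = ∑ σ ∈ PA A, f σ :=
  Finset.sum_nbij' (fun σ => σ⁻¹) (fun σ => σ⁻¹) (fun _ h => PA_inv h) (fun _ h => PA_inv h)
    (fun _ _ => inv_inv _) (fun _ _ => inv_inv _) (fun _ _ => rfl)

open Classical in
theorem bad_card2 (hF : Ax2 D s F v) {R : Finset H} {τ0 : Perm H} (hR : Inv R τ0) (h0 : Mt τ0)
    (ha : F τ0 ≠ 0) {i : H} (hi : i ∈ R) :
    (R.filter (fun j => j ≠ i ∧ ¬ Good F R τ0 i j)).card ≤ (s - 1) * D := by
  by_contra hlt
  push Not at hlt
  set J := R.filter (fun j => j ≠ i ∧ ¬ Good F R τ0 i j) with hJ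
  have hJR : ∀ j, j ∈ J → j ∈ R := fun j hj => (Finset.mem_filter.1 hj).1
  have hJi : i ∉ J := fun h => (Finset.mem_filter.1 h).2.1 rfl
  have hJG : ∀ j, j ∈ J → ¬ Good F R τ0 i j := fun j hj => (Finset.mem_filter.1 hj).2.2
  let cond : Perm H → Prop := fun τ => Mt τ ∧ Off R τ τ0 ∧ τ i ∉ J
  let φ : Perm H → K := fun τ => if cond τ then F τ else 0
  have hcondi : ∀ (σ : Perm H) (A : Finset H), A ⊆ J → σ ∈ PA A → ∀ τ, cond τ →
      cond (σ * τ * σ⁻¹) := by
    rintro σ A hA hσ τ ⟨h1, h2, h3⟩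
    have hσR : ∀ x, x ∉ R → σ x = x := fun x hx => mem_PA.1 hσ x (fun h => hx (hJR _ (hA h)))
    refine ⟨conj_Mt _ h1, conj_off hR h0 h2 σ hσR, ?_⟩
    have h4 : σ⁻¹ i = i := mem_PA.1 (PA_inv hσ) i (fun h => hJi (hA h))
    have h5 : σ (τ i) = τ i := mem_PA.1 hσ _ (fun h => h3 (hA h))
    rw [Perm.mul_apply, Perm.mul_apply, h4, h5]
    exact h3
  have hcond : ∀ (σ : Perm H) (A : Finset H), A ⊆ J → σ ∈ PA A → ∀ τ,
      φ (σ * τ * σ⁻¹) = if cond τ then F (σ * τ * σ⁻¹) else 0 := by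
    intro σ A hA hσ τ
    have h1 : cond (σ * τ * σ⁻¹) ↔ cond τ := by
      constructor
      · intro h
        have h2 := hcondi σ⁻¹ A hA (PA_inv hσ) _ h
        have h3 : σ⁻¹ * (σ * τ * σ⁻¹) * σ⁻¹⁻¹ = τ := by group
        rwa [h3] at h2
      · exact hcondi σ A hA hσ τ
    show (if cond (σ * τ * σ⁻¹) then F (σ * τ * σ⁻¹) else 0) = _
    exact if_congr h1 rfl rfl
  have hφ0 : φ = 0 := by
    refine kill (act H K) _ (s - 1) D rfl J φ (fun k h1 h2 => hF.ne k h1 ?_) ?_ ?_ hlt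
    · have := hF.pos
      omega
    · intro A hA hAc
      have hAc' : A.card = s := by
        have := hF.pos
        omega
      funext τ
      have h1 : sy (act H K) A φ τ = ∑ σ ∈ PA A, φ (σ⁻¹ * τ * σ) := by
        unfold sy
        rw [Finset.sum_apply]
        rfl
      have h1' : ∑ σ ∈ PA A, φ (σ⁻¹ * τ * σ) = ∑ σ ∈ PA A, φ (σ * τ * σ⁻¹) := by
        rw [← sum_inv_PA A (fun σ => φ (σ * τ * σ⁻¹))]
        refine Finset.sum_congr rfl fun σ _ => ?_
        rw [inv_inv]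
      rw [h1, h1', Finset.sum_congr rfl fun σ hσ => hcond σ A hA hσ τ]
      show _ = (0 : K)
      by_cases hc : cond τ
      · rw [Finset.sum_congr rfl fun σ _ => if_pos hc]
        obtain ⟨h2, h3, h4⟩ := hc
        have hR' := hR.of_off h0 h2 h3
        have hxA : τ i ∉ A := fun h => h4 (hA h)
        have h5 := hF.sym τ h2 (insert (τ i) A) (by
          rw [Finset.card_insert_of_notMem hxA, hAc'])
        rw [Kill.sum_insert hxA] at h5
        have h6 : ∑ j ∈ A, ∑ σ ∈ PA A,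
            F (swap (τ i) j * σ * τ * (swap (τ i) j * σ)⁻¹) = 0 := by
          refine Finset.sum_eq_zero fun j hj => Finset.sum_eq_zero fun σ hσ => ?_
          by_contra h7
          have hjJ := hA hj
          have hσR : ∀ x, x ∉ R → (swap (τ i) j * σ) x = x := by
            intro x hx
            rw [Perm.mul_apply, mem_PA.1 hσ x (fun h => hx (hJR _ (hA h)))]
            refine swap_apply_of_ne_of_ne ?_ ?_
            · rintro rfl; exact hx (hR' _ hi)
            · rintro rfl; exact hx (hJR _ hjJ)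
          refine hJG j hjJ ⟨_, conj_Mt _ h2, h7, conj_off hR h0 h3 _ hσR, ?_⟩
          have h8 : (swap (τ i) j * σ)⁻¹ i = i := by
            rw [Perm.inv_eq_iff_eq, Perm.mul_apply, mem_PA.1 hσ i (fun h => hJi (hA h))]
            exact (swap_apply_of_ne_of_ne (h2.2 i).symm (by rintro rfl; exact hJi hjJ)).symm
          rw [Perm.mul_apply, Perm.mul_apply, h8, Perm.mul_apply, mem_PA.1 hσ _ hxA,
            swap_apply_left]
        rw [h6, add_zero] at h5
        exact h5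
      · rw [Finset.sum_congr rfl fun σ _ => if_neg hc, Finset.sum_const_zero]
    · intro B hB hBc
      funext τ
      have h1 : al (act H K) B φ τ = ∑ σ ∈ PA B, ((Perm.sign σ : ℤ) : K) * φ (σ⁻¹ * τ * σ) := by
        unfold al
        rw [Finset.sum_apply]
        rfl
      have h1' : ∑ σ ∈ PA B, ((Perm.sign σ : ℤ) : K) * φ (σ⁻¹ * τ * σ) =
          ∑ σ ∈ PA B, ((Perm.sign σ : ℤ) : K) * φ (σ * τ * σ⁻¹) := by
        rw [← sum_inv_PA B (fun σ => ((Perm.sign σ : ℤ) : K) * φ (σ * τ * σ⁻¹))]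
        refine Finset.sum_congr rfl fun σ _ => ?_
        rw [inv_inv, Perm.sign_inv]
      rw [h1, h1', Finset.sum_congr rfl fun σ hσ => by rw [hcond σ B hB hσ τ]]
      show _ = (0 : K)
      by_cases hc : cond τ
      · rw [Finset.sum_congr rfl fun σ _ => by rw [if_pos hc]]
        exact hF.alt τ hc.1 B hBc
      · rw [Finset.sum_congr rfl fun σ _ => by rw [if_neg hc, mul_zero], Finset.sum_const_zero]
  have h1 : τ0 i ∉ J := fun h => hJG _ h ⟨τ0, h0, ha, fun _ _ => rfl, rfl⟩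
  have h2 : φ τ0 = F τ0 := if_pos ⟨h0, fun _ _ => rfl, h1⟩
  rw [hφ0] at h2
  exact ha h2.symm

end Pool.Agent.Y342.LE.Cfg
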