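import Pool.Agent.Y342.LE.Count
import Pool.Agent.W426.LE.EL

/-!
# The complete graph on `p - 1` vertices
-/

set_option autoImplicit false
set_option linter.unusedSectionVars false

namespace Pool.Agent.Y342.LE

open Finset Pool.Agent.W426.LE Nat

section theta

variable {A D : Type} [Fintype A] [Fintype D] [DecidableEq A] [DecidableEq D]
variable {n : ℕ} (ν : A × Bool ≃ Fin n)

/-- the edges of the complete graph -/
abbrev EK : Type := {q : (A × Bool) × (A × Bool) // ν q.1 < ν q.2}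

variable (dv : ∀ v : A × Bool, {w : A × Bool // w ≠ v} ≃ D)

/-- the vertex at an end -/
def vK (h : EK ν × Bool) : A × Bool := if h.2 = true then h.1.1.2 else h.1.1.1

/-- the vertex at the other end -/
def wK (h : EK ν × Bool) : A × Bool := if h.2 = true then h.1.1.1 else h.1.1.2

theorem wK_ne (h : EK ν × Bool) : wK ν h ≠ vK ν h := by
  obtain ⟨⟨⟨u, v⟩, huv⟩, b⟩ := h
  have huv' : ν u < ν v := huv
  intro h'
  have h2 := congrArg ν h'
  cases b
  · simp only [wK, vK, Bool.false_eq_true, if_false] at h2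
    exact absurd h2 (ne_of_gt huv')
  · simp only [wK, vK, if_true] at h2
    exact absurd h2 (ne_of_lt huv')

/-- the incidence structure of the complete graph as a map -/
def toK (h : EK ν × Bool) : (A × D) × Bool :=
  (((vK ν h).1, dv (vK ν h) ⟨wK ν h, wK_ne ν h⟩), (vK ν h).2)

theorem toK_eq_false (v w : A × Bool) (h : ν v < ν w) :
    toK ν dv (⟨(v, w), h⟩, false) = ((v.1, dv v ⟨w, by rintro rfl; exact lt_irrefl _ h⟩), v.2) := rfl

theorem toK_eq_true (v w : A × Bool) (h : ν w < ν v) :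
    toK ν dv (⟨(w, v), h⟩, true) = ((v.1, dv v ⟨w, by rintro rfl; exact lt_irrefl _ h⟩), v.2) := rfl

/-- the inverse -/
theorem toK_surj' (v : A × Bool) (i : D) :
    (∃ h : ν v < ν ((dv v).symm i).1,
      toK ν dv (⟨(v, ((dv v).symm i).1), h⟩, false) = ((v.1, i), v.2)) ∨
    (∃ h : ν ((dv v).symm i).1 < ν v,
      toK ν dv (⟨(((dv v).symm i).1, v), h⟩, true) = ((v.1, i), v.2)) := by
  rcases lt_trichotomy (ν v) (ν ((dv v).symm i).1) with h | h | h
  · left
    refine ⟨h, ?_⟩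
    rw [toK_eq_false]
    simp
  · exact absurd (ν.injective h).symm ((dv v).symm i).2
  · right
    refine ⟨h, ?_⟩
    rw [toK_eq_true]
    simp

theorem toK_bij : Function.Bijective (toK ν dv) := by
  constructor
  · intro h g hg
    have h1 : vK ν h = vK ν g := Prod.ext (congrArg (fun z : (A × D) × Bool => z.1.1) hg)
      (congrArg (fun z : (A × D) × Bool => z.2) hg)
    have h2 : ∀ (v v' : A × Bool) (w : {w : A × Bool // w ≠ v}) (w' : {w : A × Bool // w ≠ v'}),
        v = v' → dv v w = dv v' w' → w.1 = w'.1 := by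
      rintro v _ w w' rfl h
      rw [(dv v).injective h]
    have h3 : wK ν h = wK ν g := h2 _ _ ⟨wK ν h, wK_ne ν h⟩ ⟨wK ν g, wK_ne ν g⟩ h1
      (congrArg (fun z : (A × D) × Bool => z.1.2) hg)
    obtain ⟨⟨⟨u, v⟩, huv⟩, b⟩ := h
    obtain ⟨⟨⟨u', v'⟩, huv'⟩, b'⟩ := g
    have huv1 : ν u < ν v := huv
    have huv2 : ν u' < ν v' := huv'
    cases b <;> cases b' <;>
      simp only [vK, wK, Bool.false_eq_true, if_false, if_true] at h1 h3 <;> subst h1 <;> subst h3
    · rfl
    · exact absurd huv1 (not_lt.2 huv2.le)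
    · exact absurd huv1 (not_lt.2 huv2.le)
    · rfl
  · rintro ⟨⟨a, i⟩, b⟩
    rcases toK_surj' ν dv (a, b) i with ⟨h, h1⟩ | ⟨h, h1⟩
    · exact ⟨_, h1⟩
    · exact ⟨_, h1⟩

/-- the incidence structure of the complete graph -/
noncomputable def thK : EK ν × Bool ≃ (A × D) × Bool := Equiv.ofBijective _ (toK_bij ν dv)

theorem vx_thK (h : EK ν × Bool) : vx (thK ν dv) h = vK ν h := rfl

theorem inc_thK (v : A × Bool) (i : D) :
    (inc (thK ν dv) v i).1 = (v, ((dv v).symm i).1) ∨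
    (inc (thK ν dv) v i).1 = (((dv v).symm i).1, v) := by
  rcases toK_surj' ν dv v i with ⟨h, h1⟩ | ⟨h, h1⟩
  · left
    have h2 : (thK ν dv).symm ((v.1, i), v.2) = (⟨(v, ((dv v).symm i).1), h⟩, false) := by
      rw [Equiv.symm_apply_eq]
      exact h1.symm
    unfold inc
    rw [h2]
  · right
    have h2 : (thK ν dv).symm ((v.1, i), v.2) = (⟨(((dv v).symm i).1, v), h⟩, true) := by
      rw [Equiv.symm_apply_eq]
      exact h1.symm
    unfold inc
    rw [h2]

end theta

section vand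

variable {A : Type} [Fintype A] [DecidableEq A] {R : Type} [CommRing R]
variable {n : ℕ} (ν : A × Bool ≃ Fin n)

theorem prod_EK (Y : A × Bool → MvPolynomial (A × Bool) R) :
    ∏ e : EK ν, (Y e.1.2 - Y e.1.1) = (Matrix.vandermonde (fun i => Y (ν.symm i))).det := by
  rw [Matrix.det_vandermonde, Finset.prod_sigma']
  refine Finset.prod_bij' (fun e _ => (⟨ν e.1.1, ν e.1.2⟩ : (_ : Fin n) × Fin n))
    (fun x hx => (⟨(ν.symm x.1, ν.symm x.2), by
      rw [Finset.mem_sigma, Finset.mem_Ioi] at hx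
      simpa using hx.2⟩ : EK ν)) ?_ ?_ ?_ ?_ ?_
  · intro e _
    rw [Finset.mem_sigma, Finset.mem_Ioi]
    exact ⟨Finset.mem_univ _, e.2⟩
  · intro x _
    exact Finset.mem_univ _
  · intro e _
    refine Subtype.ext ?_
    simp
  · intro x _
    simp
  · intro e _
    simp

theorem sv_sq (v : A × Bool) : sv v * sv v = 1 := by
  unfold sv
  split_ifs <;> norm_num

/-- the exponents belonging to a permutation -/
noncomputable def mS (σ : Equiv.Perm (Fin n)) : (A × Bool) →₀ ℕ :=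
  ∑ i : Fin n, Finsupp.single (ν.symm i) ((σ i : Fin n) : ℕ)

theorem mS_apply (σ : Equiv.Perm (Fin n)) (v : A × Bool) : mS ν σ v = (σ (ν v) : ℕ) := by
  unfold mS
  rw [Finsupp.finsetSum_apply, Finset.sum_eq_single (ν v)]
  · simp
  · intro i _ hi
    rw [Finsupp.single_apply, if_neg]
    rintro rfl
    simp at hi
  · intro h
    exact absurd (Finset.mem_univ _) h

theorem LL_vand (F : ((A × Bool) →₀ ℕ) → R) :
    LL F (Matrix.vandermonde (fun i => (MvPolynomial.C ((sv (ν.symm i) : ℤ) : R) *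
      MvPolynomial.X (ν.symm i) : MvPolynomial (A × Bool) R))).det =
    ∑ σ : Equiv.Perm (Fin n), ((Equiv.Perm.sign σ : ℤ) : R) *
      ((∏ v : A × Bool, (sv v) ^ ((σ (ν v) : Fin n) : ℕ) : ℤ) : R) * F (mS ν σ) := by
  rw [← Matrix.det_transpose, Matrix.det_apply, map_sum]
  refine Finset.sum_congr rfl fun σ _ => ?_
  have h1 : ∏ i, (Matrix.vandermonde (fun i => (MvPolynomial.C ((sv (ν.symm i) : ℤ) : R) *
      MvPolynomial.X (ν.symm i) : MvPolynomial (A × Bool) R))).transpose (σ i) i =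
      MvPolynomial.C ((∏ v : A × Bool, (sv v) ^ ((σ (ν v) : Fin n) : ℕ) : ℤ) : R) *
        MvPolynomial.monomial (mS ν σ) 1 := by
    have h2 : ∀ i, (Matrix.vandermonde (fun i => (MvPolynomial.C ((sv (ν.symm i) : ℤ) : R) *
      MvPolynomial.X (ν.symm i) : MvPolynomial (A × Bool) R))).transpose (σ i) i =
        MvPolynomial.C (((sv (ν.symm i)) ^ ((σ i : Fin n) : ℕ) : ℤ) : R) *
          MvPolynomial.monomial (Finsupp.single (ν.symm i) ((σ i : Fin n) : ℕ)) 1 := by
      intro i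
      rw [Matrix.transpose_apply, Matrix.vandermonde_apply, mul_pow, MvPolynomial.X_pow_eq_monomial]
      push_cast
      rw [map_pow]
    rw [Finset.prod_congr rfl fun i _ => h2 i, Finset.prod_mul_distrib, ← map_prod]
    congr 2
    · rw [← Int.cast_prod]
      congr 1
      refine (Fintype.prod_equiv ν _ _ fun v => ?_).symm
      rw [Equiv.symm_apply_apply]
    · unfold mS
      rw [MvPolynomial.monomial_sum_one]
  rw [h1]
  have h3 : (Equiv.Perm.sign σ) • (MvPolynomial.C ((∏ v : A × Bool,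
      (sv v) ^ ((σ (ν v) : Fin n) : ℕ) : ℤ) : R) *
        (MvPolynomial.monomial (mS ν σ) 1 : MvPolynomial (A × Bool) R)) =
      (((Equiv.Perm.sign σ : ℤ) : R) *
      ((∏ v : A × Bool, (sv v) ^ ((σ (ν v) : Fin n) : ℕ) : ℤ) : R)) •
        MvPolynomial.monomial (mS ν σ) 1 := by
    rw [MvPolynomial.smul_eq_C_mul, MvPolynomial.C_mul, mul_assoc]
    rcases Int.units_eq_one_or (Equiv.Perm.sign σ) with h | h <;> rw [h] <;> simp
  rw [h3, map_smul, LL_monomial, smul_eq_mul]

end vand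

section rev

variable {A : Type} [Fintype A] [DecidableEq A]
variable {n : ℕ} (ν : A × Bool ≃ Fin n) (hν : ∀ a, ν (a, true) = Fin.rev (ν (a, false)))

include hν in
theorem nu_not (a : A) (b : Bool) : ν (a, !b) = Fin.rev (ν (a, b)) := by
  cases b
  · exact hν a
  · rw [hν]
    simp

include hν in
theorem FF_mS (d : ℕ) (hd : d + 1 = n) (σ : Equiv.Perm (Fin n)) :
    FF d (mS ν σ) = if (∀ i, σ (Fin.rev i) = Fin.rev (σ i)) then ∏ j : Fin n, (j : ℕ)! else 0 := by
  have h0 : ∀ a, ((mS ν σ (a, false) + mS ν σ (a, true) = d) ↔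
      σ (Fin.rev (ν (a, false))) = Fin.rev (σ (ν (a, false)))) := by
    intro a
    rw [mS_apply, mS_apply, hν, Fin.ext_iff, Fin.val_rev]
    have := (σ (ν (a, false))).isLt
    omega
  unfold FF
  by_cases h : ∀ i, σ (Fin.rev i) = Fin.rev (σ i)
  · rw [if_pos h]
    have h1 : ∀ a, (if mS ν σ (a, false) + mS ν σ (a, true) = d then
        (mS ν σ (a, false))! * (mS ν σ (a, true))! else 0) =
        (mS ν σ (a, false))! * (mS ν σ (a, true))! := fun a => if_pos ((h0 a).2 (h _))
    rw [Finset.prod_congr rfl fun a _ => h1 a]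
    have h2 : ∏ a : A, (mS ν σ (a, false))! * (mS ν σ (a, true))! =
        ∏ v : A × Bool, (mS ν σ v)! := by
      rw [Fintype.prod_prod_type]
      refine Finset.prod_congr rfl fun a _ => ?_
      rw [Fintype.prod_bool, mul_comm]
    rw [h2]
    refine Fintype.prod_equiv (ν.trans σ) _ _ fun v => ?_
    rw [mS_apply]
    rfl
  · rw [if_neg h]
    push Not at h
    obtain ⟨i, hi⟩ := h
    obtain ⟨⟨a, b⟩, rfl⟩ := ν.surjective i
    refine Finset.prod_eq_zero (Finset.mem_univ a) (if_neg fun h1 => hi ?_)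
    rw [h0] at h1
    cases b
    · exact h1
    · rw [hν, Fin.rev_rev, h1, Fin.rev_rev]

include hν in
theorem sign_valid (hn : Even n) (σ : Equiv.Perm (Fin n)) (hσ : ∀ i, σ (Fin.rev i) = Fin.rev (σ i)) :
    ((Equiv.Perm.sign σ : ℤˣ) : ℤ) * (∏ v : A × Bool, (sv v) ^ ((σ (ν v) : Fin n) : ℕ)) =
      ∏ a : A, (-1 : ℤ) ^ ((ν (a, true) : Fin n) : ℕ) := by
  let ζ : Equiv.Perm (A × Bool) := (ν.trans σ).trans ν.symm
  have hνζ : ∀ v, ν (ζ v) = σ (ν v) := fun v => by simp [ζ]
  have hζs : Equiv.Perm.sign ζ = Equiv.Perm.sign σ := Equiv.Perm.sign_trans_trans_symm σ ν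
  have hζ : ∀ a b, ζ (a, !b) = ((ζ (a, b)).1, !(ζ (a, b)).2) := by
    intro a b
    apply ν.injective
    rw [hνζ, nu_not ν hν, nu_not ν hν, hσ, ← hνζ]
  have h1 := sign_comm_flip ζ hζ
  rw [hζs] at h1
  have h2 : ∏ v : A × Bool, (sv v) ^ ((σ (ν v) : Fin n) : ℕ) =
      ∏ a : A, (-1 : ℤ) ^ ((ν (ζ (a, true)) : Fin n) : ℕ) := by
    rw [Fintype.prod_prod_type]
    refine Finset.prod_congr rfl fun a _ => ?_
    rw [Fintype.prod_bool, hνζ]
    simp [sv]
  have hQ : ∀ a, (-1 : ℤ) ^ ((ν (a, false) : Fin n) : ℕ) = -(-1) ^ ((ν (a, true) : Fin n) : ℕ) := by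
    intro a
    have h3 : ((ν (a, true) : Fin n) : ℕ) + (ν (a, false) : Fin n) + 1 = n := by
      rw [hν, Fin.val_rev]
      have := (ν (a, false)).isLt
      omega
    rcases Nat.even_or_odd ((ν (a, true) : Fin n) : ℕ) with h4 | h4
    · have h5 : Odd ((ν (a, false) : Fin n) : ℕ) := by
        by_contra h6
        rw [Nat.not_odd_iff_even] at h6
        have := (h4.add h6).add_one
        rw [h3] at this
        exact (Nat.not_even_iff_odd.2 this) hn
      rw [h4.neg_one_pow, h5.neg_one_pow]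
    · have h5 : Even ((ν (a, false) : Fin n) : ℕ) := by
        by_contra h6
        rw [Nat.not_even_iff_odd] at h6
        have := (h4.add_odd h6).add_one
        rw [h3] at this
        exact (Nat.not_even_iff_odd.2 this) hn
      rw [h4.neg_one_pow, h5.neg_one_pow]
      norm_num
  have h3 : ∀ a, (-1 : ℤ) ^ ((ν (ζ (a, true)) : Fin n) : ℕ) =
      (if (ζ (a, false)).2 = true then (-1 : ℤ) else 1) *
        (-1) ^ ((ν ((ζ (a, false)).1, true) : Fin n) : ℕ) := by
    intro a
    have h4 := hζ a false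
    simp only [Bool.not_false] at h4
    rw [h4]
    cases h5 : (ζ (a, false)).2
    · simp
    · simp only [Bool.not_true, if_true]
      rw [hQ]
      ring
  let s : Equiv.Perm A := Equiv.ofBijective _ (Finite.injective_iff_bijective.1 (comm_data ζ hζ))
  have h4 : ∏ a : A, (-1 : ℤ) ^ ((ν ((ζ (a, false)).1, true) : Fin n) : ℕ) =
      ∏ a : A, (-1 : ℤ) ^ ((ν (a, true) : Fin n) : ℕ) :=
    Fintype.prod_equiv s _ _ fun a => rfl
  have h5 : ∏ a : A, (if (ζ (a, false)).2 = true then (-1 : ℤ) else 1) =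
      ((Equiv.Perm.sign σ : ℤˣ) : ℤ) := by
    rw [h1]
    push_cast
    refine Finset.prod_congr rfl fun a _ => ?_
    split_ifs <;> simp
  rw [h2, Finset.prod_congr rfl fun a _ => h3 a, Finset.prod_mul_distrib, h4, h5, ← mul_assoc]
  have h6 : ((Equiv.Perm.sign σ : ℤˣ) : ℤ) * ((Equiv.Perm.sign σ : ℤˣ) : ℤ) = 1 := by
    rw [← Units.val_mul, Int.units_mul_self, Units.val_one]
  rw [h6, one_mul]

end rev

end Pool.Agent.Y342.LE
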