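import Pool.Agent.Y342.LE.Cfg

/-!
# Vectors killed by symmetrizers and alternators
-/

set_option autoImplicit false
set_option linter.unusedSectionVars false

namespace Pool.Agent.Y342.LE.Kill

open Finset Equiv

variable {H K M : Type} [Fintype H] [DecidableEq H] [Field K] [AddCommGroup M] [Module K M]

/-- the permutations moving only points of `A` -/
def PA (A : Finset H) : Finset (Perm H) := univ.filter (fun σ => ∀ x, x ∉ A → σ x = x)

theorem mem_PA {A : Finset H} {σ : Perm H} : σ ∈ PA A ↔ ∀ x, x ∉ A → σ x = x := by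
  unfold PA
  rw [Finset.mem_filter]
  exact ⟨fun h => h.2, fun h => ⟨Finset.mem_univ _, h⟩⟩

theorem PA_inv {A : Finset H} {σ : Perm H} (h : σ ∈ PA A) : σ⁻¹ ∈ PA A := by
  rw [mem_PA] at h ⊢
  intro x hx
  rw [Perm.inv_eq_iff_eq]
  exact (h x hx).symm

theorem PA_mul {A : Finset H} {σ τ : Perm H} (h : σ ∈ PA A) (h' : τ ∈ PA A) : σ * τ ∈ PA A := by
  rw [mem_PA] at h h' ⊢
  intro x hx
  rw [Perm.mul_apply, h' x hx, h x hx]

theorem PA_swap {A : Finset H} {x y : H} (hx : x ∈ A) (hy : y ∈ A) : swap x y ∈ PA A := by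
  rw [mem_PA]
  intro z hz
  refine swap_apply_of_ne_of_ne ?_ ?_
  · rintro rfl; exact hz hx
  · rintro rfl; exact hz hy

theorem PA_mono {A B : Finset H} (h : A ⊆ B) {σ : Perm H} (hσ : σ ∈ PA A) : σ ∈ PA B := by
  rw [mem_PA] at hσ ⊢
  exact fun x hx => hσ x (fun h' => hx (h h'))

theorem PA_mapsTo {A : Finset H} {σ : Perm H} (h : σ ∈ PA A) {x : H} (hx : x ∈ A) : σ x ∈ A := by
  by_contra h1
  rw [mem_PA] at h
  have h2 := h _ h1
  have h3 := σ.injective h2
  rw [h3] at h1
  exact h1 hx

/-- decomposition into cosets -/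
theorem sum_insert {N : Type} [AddCommMonoid N] {A : Finset H} {x : H} (hx : x ∉ A)
    (f : Perm H → N) : ∑ σ ∈ PA (insert x A), f σ = ∑ σ ∈ PA A, f σ +
      ∑ i ∈ A, ∑ σ ∈ PA A, f (swap x i * σ) := by
  have h1 : ∀ σ ∈ PA (insert x A), σ x ∈ insert x A := fun σ hσ =>
    PA_mapsTo hσ (Finset.mem_insert_self x A)
  rw [← Finset.sum_fiberwise_of_maps_to h1, Finset.sum_insert hx]
  congr 1
  · refine Finset.sum_congr ?_ fun _ _ => rfl
    ext σ
    rw [Finset.mem_filter, mem_PA, mem_PA]
    constructor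
    · rintro ⟨h2, h3⟩ y hy
      by_cases hyx : y = x
      · rw [hyx, h3]
      · exact h2 y (by rw [Finset.mem_insert, not_or]; exact ⟨hyx, hy⟩)
    · intro h2
      exact ⟨fun y hy => h2 y (fun h3 => hy (Finset.mem_insert_of_mem h3)), h2 x hx⟩
  · refine Finset.sum_congr rfl fun i hi => ?_
    have hxi : x ≠ i := by rintro rfl; exact hx hi
    refine Finset.sum_nbij' (fun σ => swap x i * σ) (fun σ => swap x i * σ) ?_ ?_ ?_ ?_ ?_
    · intro σ hσ
      rw [Finset.mem_filter, mem_PA] at hσ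
      rw [mem_PA]
      intro y hy
      rw [Perm.mul_apply]
      by_cases hyx : y = x
      · rw [hyx, hσ.2, swap_apply_right]
      · rw [hσ.1 y (by rw [Finset.mem_insert, not_or]; exact ⟨hyx, hy⟩)]
        exact swap_apply_of_ne_of_ne hyx (by rintro rfl; exact hy hi)
    · intro σ hσ
      rw [mem_PA] at hσ
      rw [Finset.mem_filter, mem_PA]
      constructor
      · intro y hy
        rw [Finset.mem_insert, not_or] at hy
        rw [Perm.mul_apply, hσ y hy.2]
        exact swap_apply_of_ne_of_ne hy.1 (by rintro rfl; exact hy.2 hi)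
      · rw [Perm.mul_apply, hσ x hx, swap_apply_left]
    · intro σ _
      rw [← mul_assoc, swap_mul_self, one_mul]
    · intro σ _
      rw [← mul_assoc, swap_mul_self, one_mul]
    · intro σ _
      rw [← mul_assoc, swap_mul_self, one_mul]

variable (ρ : Perm H →* Module.End K M)

/-- symmetrization -/
def sy (A : Finset H) (v : M) : M := ∑ σ ∈ PA A, ρ σ v

/-- alternation -/
def al (A : Finset H) (v : M) : M := ∑ σ ∈ PA A, ((Perm.sign σ : ℤ) : K) • ρ σ v

theorem rho_mul (σ τ : Perm H) (v : M) : ρ (σ * τ) v = ρ σ (ρ τ v) := by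
  rw [map_mul]
  rfl

theorem sy_insert {A : Finset H} {x : H} (hx : x ∉ A) (v : M) :
    sy ρ (insert x A) v = sy ρ A v + ∑ i ∈ A, ρ (swap x i) (sy ρ A v) := by
  unfold sy
  rw [sum_insert hx]
  congr 1
  refine Finset.sum_congr rfl fun i _ => ?_
  rw [map_sum]
  exact Finset.sum_congr rfl fun σ _ => rho_mul ρ _ _ _

theorem al_insert {A : Finset H} {x : H} (hx : x ∉ A) (v : M) :
    al ρ (insert x A) v = al ρ A v - ∑ i ∈ A, ρ (swap x i) (al ρ A v) := by
  unfold al
  rw [sum_insert hx, sub_eq_add_neg, ← Finset.sum_neg_distrib]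
  congr 1
  refine Finset.sum_congr rfl fun i hi => ?_
  have hxi : x ≠ i := by rintro rfl; exact hx hi
  rw [map_sum, ← Finset.sum_neg_distrib]
  refine Finset.sum_congr rfl fun σ _ => ?_
  rw [rho_mul, Perm.sign_mul, Perm.sign_swap hxi, map_smul]
  push_cast
  rw [neg_one_mul, neg_smul]

theorem rho_al {A : Finset H} (g : Perm H) (v : M) :
    ρ g (al ρ A v) = al ρ (A.map g.toEmbedding) (ρ g v) := by
  unfold al
  rw [map_sum]
  refine Finset.sum_nbij' (fun σ => g * σ * g⁻¹) (fun σ => g⁻¹ * σ * g) ?_ ?_ ?_ ?_ ?_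
  · intro σ hσ
    rw [mem_PA] at hσ ⊢
    intro x hx
    have h1 : g⁻¹ x ∉ A := by
      intro h2
      apply hx
      rw [Finset.mem_map]
      exact ⟨_, h2, g.apply_symm_apply x⟩
    rw [Perm.mul_apply, Perm.mul_apply, hσ _ h1]
    exact g.apply_symm_apply x
  · intro σ hσ
    rw [mem_PA] at hσ ⊢
    intro x hx
    have h1 : g x ∉ A.map g.toEmbedding := by
      rw [Finset.mem_map]
      rintro ⟨y, hy, h2⟩
      rw [g.injective h2] at hy
      exact hx hy
    rw [Perm.mul_apply, Perm.mul_apply, hσ _ h1]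
    exact g.symm_apply_apply x
  · intro σ _
    group
  · intro σ _
    group
  · intro σ _
    have h1 : Perm.sign (g * σ * g⁻¹) = Perm.sign σ := by
      rw [Perm.sign_mul, Perm.sign_mul, mul_comm (Perm.sign g), mul_assoc, ← Perm.sign_mul,
        mul_inv_cancel, map_one, mul_one]
    rw [h1, map_smul, ← rho_mul, ← rho_mul]
    congr 3
    group

theorem map_eq_self {A : Finset H} {σ : Perm H} (h : ∀ x ∈ A, σ x ∈ A) :
    A.map σ.toEmbedding = A := by
  refine Finset.eq_of_subset_of_card_le ?_ (by rw [Finset.card_map])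
  intro x hx
  obtain ⟨y, hy, rfl⟩ := Finset.mem_map.1 hx
  exact h y hy

theorem al_sum {ι : Type} (s : Finset ι) (f : ι → M) (A : Finset H) :
    al ρ A (∑ i ∈ s, f i) = ∑ i ∈ s, al ρ A (f i) := by
  unfold al
  rw [Finset.sum_comm]
  refine Finset.sum_congr rfl fun σ _ => ?_
  rw [map_sum, Finset.smul_sum]

theorem al_smul (c : K) (v : M) (A : Finset H) : al ρ A (c • v) = c • al ρ A v := by
  unfold al
  rw [Finset.smul_sum]
  refine Finset.sum_congr rfl fun σ _ => ?_
  rw [map_smul, smul_comm]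

/-- closure of the vectors killed by alternators -/
theorem al_sy_zero {J A B : Finset H} {v : M} {b : ℕ}
    (hv : ∀ B, B ⊆ J → B.card = b → al ρ B v = 0) (hA : A ⊆ J) (hB : B ⊆ J) (hBc : B.card = b) :
    al ρ B (sy ρ A v) = 0 := by
  unfold sy
  rw [al_sum]
  refine Finset.sum_eq_zero fun σ hσ => ?_
  have h1 : al ρ B (ρ σ v) = ρ σ (al ρ (B.map σ⁻¹.toEmbedding) v) := by
    rw [rho_al]
    congr 1
    ext x
    simp only [Finset.mem_map_equiv]
    rw [show (Equiv.symm σ⁻¹) (Equiv.symm σ x) = x from σ.apply_symm_apply x]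
  rw [h1, hv, map_zero]
  · intro x hx
    obtain ⟨y, hy, rfl⟩ := Finset.mem_map.1 hx
    exact PA_mapsTo (PA_mono hA (PA_inv hσ)) (hB hy)
  · rw [Finset.card_map, hBc]

theorem sy_sy_comm {A B : Finset H} (h : Disjoint A B) (v : M) :
    sy ρ A (sy ρ B v) = sy ρ B (sy ρ A v) := by
  unfold sy
  have h1 : ∀ σ : Perm H, ρ σ (∑ τ ∈ PA B, ρ τ v) = ∑ τ ∈ PA B, ρ σ (ρ τ v) := fun σ => map_sum _ _ _
  have h2 : ∀ σ : Perm H, ρ σ (∑ τ ∈ PA A, ρ τ v) = ∑ τ ∈ PA A, ρ σ (ρ τ v) := fun σ => map_sum _ _ _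
  rw [Finset.sum_congr rfl fun σ _ => h1 σ, Finset.sum_congr rfl fun σ _ => h2 σ,
    Finset.sum_comm]
  refine Finset.sum_congr rfl fun τ hτ => Finset.sum_congr rfl fun σ hσ => ?_
  rw [← rho_mul, ← rho_mul]
  congr 2
  rw [mem_PA] at hσ hτ
  rw [Finset.disjoint_left] at h
  ext x : 1
  rw [Perm.mul_apply, Perm.mul_apply]
  by_cases hx : x ∈ A
  · have h3 : σ x ∈ A := PA_mapsTo (mem_PA.2 hσ) hx
    rw [hτ x (h hx), hτ _ (h h3)]
  · rw [hσ x hx]
    by_cases hxB : x ∈ B
    · have h3 : τ x ∈ B := PA_mapsTo (mem_PA.2 hτ) hxB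
      exact hσ _ (fun h4 => h h4 h3)
    · rw [hτ x hxB, hσ x hx]

/-- the sum of the transpositions commutes with alternation -/
theorem al_swaps {B : Finset H} {i : H} (hi : i ∉ B) (w : M) :
    ∑ x ∈ B, ρ (swap i x) (al ρ B w) = al ρ B (∑ x ∈ B, ρ (swap i x) w) := by
  unfold al
  have h1 : ∀ x ∈ B, ρ (swap i x) (∑ σ ∈ PA B, ((Perm.sign σ : ℤ) : K) • ρ σ w) =
      ∑ σ ∈ PA B, ((Perm.sign σ : ℤ) : K) • ρ (swap i x) (ρ σ w) := by
    intro x _
    rw [map_sum]
    exact Finset.sum_congr rfl fun σ _ => map_smul _ _ _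
  rw [Finset.sum_congr rfl h1, Finset.sum_comm]
  refine Finset.sum_congr rfl fun σ hσ => ?_
  rw [← Finset.smul_sum]
  congr 1
  rw [map_sum]
  have hσi : σ i = i := (mem_PA.1 hσ) i hi
  refine Finset.sum_nbij' (fun x => σ⁻¹ x) (fun x => σ x) ?_ ?_ ?_ ?_ ?_
  · intro x hx
    exact PA_mapsTo (PA_inv hσ) hx
  · intro x hx
    exact PA_mapsTo hσ hx
  · intro x _
    exact σ.apply_symm_apply x
  · intro x _
    exact σ.symm_apply_apply x
  · intro x _
    rw [← rho_mul, ← rho_mul]
    congr 2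
    have h2 : σ * swap i (σ⁻¹ x) = swap (σ i) (σ (σ⁻¹ x)) * σ := by
      rw [Equiv.swap_apply_apply]
      group
    rw [h2, hσi]
    congr 2
    exact (σ.apply_symm_apply x).symm

theorem kill : ∀ (n a b : ℕ), a + b = n → ∀ (J : Finset H) (v : M),
    (∀ k : ℕ, 0 < k → k ≤ a + b → (k : K) ≠ 0) →
    (∀ A, A ⊆ J → A.card = a + 1 → sy ρ A v = 0) →
    (∀ B, B ⊆ J → B.card = b + 1 → al ρ B v = 0) → a * b < J.card → v = 0 := by
  intro n
  induction n using Nat.strong_induction_on with
  | _ n ih =>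
  intro a b hab J v hk hS hA hJ
  have hone : ∀ x : H, PA ({x} : Finset H) = {1} := by
    intro x
    ext σ
    rw [mem_PA, Finset.mem_singleton]
    constructor
    · intro h
      ext y : 1
      by_cases hy : y = x
      · subst hy
        by_contra h1
        have h2 : σ (σ y) = σ y := h (σ y) (by rw [Finset.mem_singleton]; exact h1)
        exact h1 (σ.injective h2)
      · exact h y (by rw [Finset.mem_singleton]; exact hy)
    · rintro rfl y _
      rfl
  have hne : J.Nonempty := Finset.card_pos.1 (by omega)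
  obtain ⟨x0, hx0⟩ := hne
  rcases Nat.eq_zero_or_pos a with ha | ha
  · have h1 := hS {x0} (Finset.singleton_subset_iff.2 hx0) (by rw [Finset.card_singleton, ha])
    unfold sy at h1
    rw [hone, Finset.sum_singleton, map_one] at h1
    exact h1
  rcases Nat.eq_zero_or_pos b with hb | hb
  · have h1 := hA {x0} (Finset.singleton_subset_iff.2 hx0) (by rw [Finset.card_singleton, hb])
    unfold al at h1
    rw [hone, Finset.sum_singleton, map_one, map_one] at h1
    simpa using h1
  have hclaim : ∀ A', A' ⊆ J → A'.card = a → sy ρ A' v = 0 := by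
    intro A' hA'J hA'c
    refine ih (a + (b - 1)) (by omega) a (b - 1) rfl (J \ A') (sy ρ A' v)
      (fun k h1 h2 => hk k h1 (by omega)) ?_ ?_ ?_
    · intro A hAJ hAc
      have hd : Disjoint A A' := (Finset.sdiff_disjoint).mono_left hAJ
      rw [sy_sy_comm ρ hd, hS A (hAJ.trans Finset.sdiff_subset) hAc]
      unfold sy
      exact Finset.sum_eq_zero fun σ _ => map_zero _
    · intro B' hB'J hB'c
      have hd : Disjoint B' A' := (Finset.sdiff_disjoint).mono_left hB'J
      have hB'J' : B' ⊆ J := hB'J.trans Finset.sdiff_subset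
      set w := sy ρ A' v with hw
      -- the points outside of `A'`
      have h1 : ∀ x ∈ B', ∑ i ∈ A', ρ (swap x i) w = -w := by
        intro x hx
        have hxA : x ∉ A' := Finset.disjoint_left.1 hd hx
        have h2 := hS (insert x A') (by
          intro y hy
          rcases Finset.mem_insert.1 hy with rfl | hy
          · exact hB'J' hx
          · exact hA'J hy) (by rw [Finset.card_insert_of_notMem hxA, hA'c])
        rw [sy_insert ρ hxA] at h2
        exact (neg_eq_of_add_eq_zero_right h2).symm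
      have h2 : ∀ i ∈ A', al ρ B' w = ∑ x ∈ B', ρ (swap i x) (al ρ B' w) := by
        intro i hi
        have hiB : i ∉ B' := fun h => Finset.disjoint_left.1 hd h hi
        have h3 := al_sy_zero ρ hA hA'J (B := insert i B') (by
          intro y hy
          rcases Finset.mem_insert.1 hy with rfl | hy
          · exact hA'J hi
          · exact hB'J' hy) (by rw [Finset.card_insert_of_notMem hiB, hB'c]; omega)
        rw [al_insert ρ hiB, sub_eq_zero] at h3
        exact h3
      have h3 : (A'.card : K) • al ρ B' w = -((B'.card : K) • al ρ B' w) := by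
        calc (A'.card : K) • al ρ B' w = ∑ i ∈ A', al ρ B' w := by
              rw [Finset.sum_const, Nat.cast_smul_eq_nsmul]
          _ = ∑ i ∈ A', ∑ x ∈ B', ρ (swap i x) (al ρ B' w) := Finset.sum_congr rfl h2
          _ = ∑ i ∈ A', al ρ B' (∑ x ∈ B', ρ (swap i x) w) :=
              Finset.sum_congr rfl fun i hi => al_swaps ρ
                (fun h => Finset.disjoint_left.1 hd h hi) w
          _ = al ρ B' (∑ i ∈ A', ∑ x ∈ B', ρ (swap i x) w) := (al_sum ρ _ _ _).symm
          _ = al ρ B' (∑ x ∈ B', ∑ i ∈ A', ρ (swap x i) w) := by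
              rw [Finset.sum_comm]
              congr 1
              refine Finset.sum_congr rfl fun x _ => Finset.sum_congr rfl fun i _ => ?_
              rw [swap_comm]
          _ = al ρ B' ((-(B'.card : K)) • w) := by
              rw [Finset.sum_congr rfl h1, Finset.sum_const, neg_smul, Nat.cast_smul_eq_nsmul,
                smul_neg]
          _ = _ := by rw [al_smul, neg_smul]
      rw [eq_neg_iff_add_eq_zero, ← add_smul, ← Nat.cast_add] at h3
      rcases smul_eq_zero.1 h3 with h4 | h4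
      · exact absurd h4 (hk _ (by omega) (by omega))
      · exact h4
    · rw [Finset.card_sdiff_of_subset hA'J, hA'c]
      have h1 : a * (b - 1) + a = a * b := by
        obtain ⟨b', rfl⟩ : ∃ b', b = b' + 1 := ⟨b - 1, by omega⟩
        rw [Nat.add_sub_cancel]
        ring
      omega
  refine ih (a - 1 + b) (by omega) (a - 1) b rfl J v (fun k h1 h2 => hk k h1 (by omega)) ?_ hA ?_
  · intro A' h1 h2
    exact hclaim A' h1 (by omega)
  · have h1 : (a - 1) * b ≤ a * b := Nat.mul_le_mul_right _ (by omega)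
    omega

end Pool.Agent.Y342.LE.Kill
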