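import Pool.Agent.Y342.LE.CfgF
import Pool.Agent.Y342.LE.Gen

/-!
# Symmetrization over `p - D + 1` half-edges
-/

set_option autoImplicit false
set_option linter.unusedSectionVars false

namespace Pool.Agent.Y342.LE.Cfg

open Finset Equiv Kill Pool.Agent.W426.LE Pool.Agent.Y342.LE

section gen

variable {H : Type} [Fintype H] [DecidableEq H]

/-- functions constant along two matchings -/
noncomputable def NX (X : Type) (τ ι : Perm H) : ℕ :=
  Nat.card {y : H → X // (∀ h, y (τ h) = y h) ∧ ∀ h, y (ι h) = y h}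

/-- adjacency in the union of two matchings -/
def rl (τ ι : Perm H) (x y : H) : Prop := y = τ x ∨ y = ι x

theorem NX_eq (X : Type) [Finite X] (τ ι : Perm H) :
    NX X τ ι = (Nat.card X) ^ (Nat.card (Quot (rl τ ι))) := by
  unfold NX
  rw [← card_const (rl τ ι)]
  refine Nat.card_congr (Equiv.subtypeEquivRight fun y => ?_)
  constructor
  · rintro ⟨h1, h2⟩ x x' (rfl | rfl)
    · exact (h1 x).symm
    · exact (h2 x).symm
  · intro h
    exact ⟨fun x => (h x (τ x) (Or.inl rfl)).symm, fun x => (h x (ι x) (Or.inr rfl)).symm⟩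

/-- flipping -/
def fl {r : ℕ} (c : Bool × Fin r) : Bool × Fin r := (!c.1, c.2)

theorem NX_equiv {τ ι : Perm H} (hτ : Mt τ) (hι : Mt ι) (r : ℕ) :
    Nat.card {z : H → Bool × Fin r // (∀ h, z (τ h) = fl (z h)) ∧ ∀ h, z (ι h) = fl (z h)} =
      NX (Bool × Fin r) τ ι := by
  obtain ⟨y0, h1, h2⟩ := exists_alt (τ : H → H) (ι : H → H) hτ.1 hτ.2 hι.1 hι.2
  unfold NX
  refine Nat.card_congr
    { toFun := fun z => ⟨fun h => (xor (z.1 h).1 (y0 h), (z.1 h).2), ?_, ?_⟩
      invFun := fun z => ⟨fun h => (xor (z.1 h).1 (y0 h), (z.1 h).2), ?_, ?_⟩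
      left_inv := ?_
      right_inv := ?_ }
  · intro h
    simp only [z.2.1 h, h1 h, fl]
    cases (z.1 h).1 <;> cases y0 h <;> rfl
  · intro h
    simp only [z.2.2 h, h2 h, fl]
    cases (z.1 h).1 <;> cases y0 h <;> rfl
  · intro h
    simp only [z.2.1 h, h1 h, fl]
    cases (z.1 h).1 <;> cases y0 h <;> rfl
  · intro h
    simp only [z.2.2 h, h2 h, fl]
    cases (z.1 h).1 <;> cases y0 h <;> rfl
  · intro z
    refine Subtype.ext (funext fun h => ?_)
    simp
  · intro z
    refine Subtype.ext (funext fun h => ?_)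
    simp

/-- the permutation of one side -/
def rr (τ ι : Perm H) (hτ : Mt τ) (hι : Mt ι) (y0 : H → Bool) (h1 : ∀ h, y0 (τ h) = !y0 h)
    (h2 : ∀ h, y0 (ι h) = !y0 h) : Perm {h : H // y0 h = true} where
  toFun e := ⟨ι (τ e.1), by rw [h2, h1, e.2]; rfl⟩
  invFun e := ⟨τ (ι e.1), by rw [h1, h2, e.2]; rfl⟩
  left_inv e := by
    refine Subtype.ext ?_
    show τ (ι (ι (τ e.1))) = e.1
    rw [hι.1, hτ.1]
  right_inv e := by
    refine Subtype.ext ?_
    show ι (τ (τ (ι e.1))) = e.1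
    rw [hτ.1, hι.1]

theorem NK_sign {R : Type} [CommRing R] {K : Type} [Finite K] (hK : ((Nat.card K : ℕ) : R) = -1)
    (τ ι : Perm H) (hτ : Mt τ) (hι : Mt ι) (y0 : H → Bool) (h1 : ∀ h, y0 (τ h) = !y0 h)
    (h2 : ∀ h, y0 (ι h) = !y0 h) :
    ((NX K τ ι : ℕ) : R) = (-1) ^ (Fintype.card {h : H // y0 h = true}) *
      ((Perm.sign (rr τ ι hτ hι y0 h1 h2) : ℤ) : R) := by
  rw [← card_fix hK]
  congr 1
  unfold NX
  refine Nat.card_congr
    { toFun := fun y => ⟨fun e => y.1 e.1, fun e => by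
        show y.1 (ι (τ e.1)) = y.1 e.1
        rw [y.2.2, y.2.1]⟩
      invFun := fun x => ⟨fun h => if hh : y0 h = true then x.1 ⟨h, hh⟩ else
        x.1 ⟨τ h, by rw [h1]; simpa using hh⟩, ?_, ?_⟩
      left_inv := ?_
      right_inv := ?_ }
  · intro h
    beta_reduce
    by_cases hh : y0 h = true
    · have hh' : ¬ y0 (τ h) = true := by rw [h1, hh]; simp
      rw [dif_pos hh, dif_neg hh']
      exact congrArg x.1 (Subtype.ext (hτ.1 h))
    · have hh' : y0 (τ h) = true := by rw [h1]; simpa using hh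
      rw [dif_neg hh, dif_pos hh']
  · intro h
    beta_reduce
    by_cases hh : y0 h = true
    · have hh' : ¬ y0 (ι h) = true := by rw [h2, hh]; simp
      rw [dif_pos hh, dif_neg hh']
      -- `x (τ (ι h)) = x h`
      have h3 := x.2 ⟨τ (ι h), by rw [h1, h2, hh]; rfl⟩
      rw [← h3]
      refine congrArg x.1 (Subtype.ext ?_)
      show ι (τ (τ (ι h))) = h
      rw [hτ.1, hι.1]
    · have hh' : y0 (ι h) = true := by rw [h2]; simpa using hh
      rw [dif_neg hh, dif_pos hh']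
      have h3 := x.2 ⟨τ h, by rw [h1]; simpa using hh⟩
      rw [← h3]
      refine congrArg x.1 (Subtype.ext ?_)
      show ι h = ι (τ (τ h))
      rw [hτ.1]
  · intro y
    refine Subtype.ext (funext fun h => ?_)
    by_cases hh : y0 h = true
    · show (if hh : y0 h = true then y.1 h else y.1 (τ h)) = y.1 h
      rw [dif_pos hh]
    · show (if hh : y0 h = true then y.1 h else y.1 (τ h)) = y.1 h
      rw [dif_neg hh, y.2.1]
  · intro x
    refine Subtype.ext (funext fun e => ?_)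
    show (if hh : y0 e.1 = true then x.1 ⟨e.1, hh⟩ else x.1 ⟨τ e.1, _⟩) = x.1 e
    rw [dif_pos e.2]

theorem NK_swap_aux {R : Type} [CommRing R] {K : Type} [Finite K]
    (hK : ((Nat.card K : ℕ) : R) = -1)
    (τ ι : Perm H) (hτ : Mt τ) (hι : Mt ι) (y0 : H → Bool) (h1 : ∀ h, y0 (τ h) = !y0 h)
    (h2 : ∀ h, y0 (ι h) = !y0 h) {x y : H} (hne : x ≠ y) (hx : y0 x = true) (hy : y0 y = true) :
    ((NX K (cj x y τ) ι : ℕ) : R) = -((NX K τ ι : ℕ) : R) := by
  have hsw : ∀ h, y0 (swap x y h) = y0 h := by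
    intro h
    by_cases e1 : h = x
    · rw [e1, swap_apply_left, hx, hy]
    · by_cases e2 : h = y
      · rw [e2, swap_apply_right, hx, hy]
      · rw [swap_apply_of_ne_of_ne e1 e2]
  have h1' : ∀ h, y0 (cj x y τ h) = !y0 h := by
    intro h
    unfold cj
    rw [Perm.mul_apply, Perm.mul_apply, hsw, h1, hsw]
  rw [NK_sign hK τ ι hτ hι y0 h1 h2, NK_sign hK (cj x y τ) ι (cj_Mt x y hτ) hι y0 h1' h2]
  have hr : rr (cj x y τ) ι (cj_Mt x y hτ) hι y0 h1' h2 =
      rr τ ι hτ hι y0 h1 h2 * swap ⟨x, hx⟩ ⟨y, hy⟩ := by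
    ext e : 2
    show ι (cj x y τ e.1) = ι (τ ((swap (⟨x, hx⟩ : {h : H // y0 h = true}) ⟨y, hy⟩ e).1))
    have h3 : (swap (⟨x, hx⟩ : {h : H // y0 h = true}) ⟨y, hy⟩ e).1 = swap x y e.1 := by
      by_cases e1 : e = ⟨x, hx⟩
      · rw [e1, swap_apply_left, swap_apply_left]
      · by_cases e2 : e = ⟨y, hy⟩
        · rw [e2, swap_apply_right, swap_apply_right]
        · rw [swap_apply_of_ne_of_ne e1 e2, swap_apply_of_ne_of_ne]
          · exact fun h => e1 (Subtype.ext h)
          · exact fun h => e2 (Subtype.ext h)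
    rw [h3]
    congr 1
    unfold cj
    rw [Perm.mul_apply, Perm.mul_apply]
    have h4 : y0 (τ (swap x y e.1)) = false := by
      rw [h1, hsw, e.2]
      rfl
    refine swap_apply_of_ne_of_ne ?_ ?_
    · intro h5
      rw [h5, hx] at h4
      exact Bool.noConfusion h4
    · intro h5
      rw [h5, hy] at h4
      exact Bool.noConfusion h4
  have hne' : (⟨x, hx⟩ : {h : H // y0 h = true}) ≠ ⟨y, hy⟩ := fun h => hne (congrArg Subtype.val h)
  rw [hr, Perm.sign_mul, Perm.sign_swap hne']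
  push_cast
  ring

theorem NK_swap {R : Type} [CommRing R] {K : Type} [Finite K]
    (hK : ((Nat.card K : ℕ) : R) = -1)
    (τ ι : Perm H) (hτ : Mt τ) (hι : Mt ι) (y0 : H → Bool) (h1 : ∀ h, y0 (τ h) = !y0 h)
    (h2 : ∀ h, y0 (ι h) = !y0 h) {x y : H} (hne : x ≠ y) (hxy : y0 x = y0 y) :
    ((NX K (cj x y τ) ι : ℕ) : R) = -((NX K τ ι : ℕ) : R) := by
  by_cases hx : y0 x = true
  · exact NK_swap_aux hK τ ι hτ hι y0 h1 h2 hne hx (by rw [← hxy]; exact hx)
  · have hx' : y0 x = false := by simpa using hx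
    refine NK_swap_aux hK τ ι hτ hι (fun h => !y0 h) (fun h => ?_) (fun h => ?_) hne ?_ ?_
    · show (!y0 (τ h)) = !!y0 h
      rw [h1]
    · show (!y0 (ι h)) = !!y0 h
      rw [h2]
    · show (!y0 x) = true
      rw [hx']; rfl
    · show (!y0 y) = true
      rw [← hxy, hx']; rfl

open Classical in
/-- the symmetrization relation for one gluing -/
theorem sym_one {R : Type} [CommRing R] {K X : Type} [Finite K] [Finite X] {r : ℕ}
    (hK : ((Nat.card K : ℕ) : R) = -1) (hX : ((Nat.card X : ℕ) : R) = -((2 * r : ℕ) : R))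
    (τ ι : Perm H) (hτ : Mt τ) (hι : Mt ι) (P : Finset H) (hP : 2 * r < P.card) :
    ∑ σ ∈ PA P, ((NX X (σ * τ * σ⁻¹) ι : ℕ) : R) = 0 := by
  have h1 : ∀ σ : Perm H, ((NX X (σ * τ * σ⁻¹) ι : ℕ) : R) =
      ∑ z ∈ univ.filter (fun z : H → Bool × Fin r => ∀ h, z (ι h) = fl (z h)),
        (if ∀ h, z ((σ * τ * σ⁻¹) h) = fl (z h) then ((NX K (σ * τ * σ⁻¹) ι : ℕ) : R) else 0) := by
    intro σ
    have hM := conj_Mt σ hτ
    generalize σ * τ * σ⁻¹ = τ' at *
    rw [← Finset.sum_filter, Finset.sum_const, nsmul_eq_mul]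
    have h2 : (((univ.filter (fun z : H → Bool × Fin r => ∀ h, z (ι h) = fl (z h))).filter
        (fun z => ∀ h, z (τ' h) = fl (z h))).card) = NX (Bool × Fin r) τ' ι := by
      rw [← NX_equiv hM hι, Nat.card_eq_fintype_card, Fintype.card_subtype, Finset.filter_filter]
      congr 1
      ext z
      simp only [Finset.mem_filter, Finset.mem_univ, true_and]
      exact and_comm
    rw [h2, NX_eq, NX_eq, NX_eq, Nat.card_prod, Nat.card_eq_fintype_card (α := Bool),
      Fintype.card_bool, Nat.card_eq_fintype_card (α := Fin r), Fintype.card_fin, Nat.cast_pow,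
      Nat.cast_pow, Nat.cast_pow, hK, hX, ← mul_pow]
    congr 1
    ring
  rw [Finset.sum_congr rfl fun σ _ => h1 σ, Finset.sum_comm]
  refine Finset.sum_eq_zero fun z hz => ?_
  have hz' := (Finset.mem_filter.1 hz).2
  obtain ⟨x, hx, y, hy, hne, hxy⟩ := Finset.exists_ne_map_eq_of_card_lt_of_maps_to
    (s := P) (t := (univ : Finset (Bool × Fin r))) (by
      rw [Finset.card_univ, Fintype.card_prod, Fintype.card_bool, Fintype.card_fin]
      exact hP) (f := z) (fun _ _ => Finset.mem_coe.2 (Finset.mem_univ _))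
  have hsw : ∀ h, z (swap x y h) = z h := by
    intro h
    by_cases e1 : h = x
    · rw [e1, swap_apply_left, hxy]
    · by_cases e2 : h = y
      · rw [e2, swap_apply_right, hxy]
      · rw [swap_apply_of_ne_of_ne e1 e2]
  have hcj : ∀ σ : Perm H, (swap x y * σ) * τ * (swap x y * σ)⁻¹ = cj x y (σ * τ * σ⁻¹) := by
    intro σ
    rw [cj_eq]
    group
  have hiff : ∀ σ : Perm H, (∀ h, z (cj x y (σ * τ * σ⁻¹) h) = fl (z h)) ↔
      ∀ h, z ((σ * τ * σ⁻¹) h) = fl (z h) := by
    intro σ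
    generalize σ * τ * σ⁻¹ = τ'
    unfold cj
    constructor
    · intro h3 h
      have h4 := h3 (swap x y h)
      rwa [Perm.mul_apply, Perm.mul_apply, swap_apply_self, hsw, hsw] at h4
    · intro h3 h
      rw [Perm.mul_apply, Perm.mul_apply, hsw, h3, hsw]
  refine Finset.sum_involution (fun σ _ => swap x y * σ) ?_ ?_ ?_ ?_
  · intro σ hσ
    rw [hcj]
    by_cases h3 : ∀ h, z ((σ * τ * σ⁻¹) h) = fl (z h)
    · rw [if_pos h3, if_pos ((hiff σ).2 h3)]
      have h4 := NK_swap hK (σ * τ * σ⁻¹) ι (conj_Mt σ hτ) hι (fun h => (z h).1)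
        (fun h => by
          show (z ((σ * τ * σ⁻¹) h)).1 = !(z h).1
          rw [h3]; rfl)
        (fun h => by
          show (z (ι h)).1 = !(z h).1
          rw [hz']; rfl) hne (congrArg Prod.fst hxy)
      rw [h4]
      ring
    · rw [if_neg h3, if_neg (fun h => h3 ((hiff σ).1 h)), add_zero]
  · intro σ _ _ h
    have h3 : swap x y = 1 := by
      rw [← mul_left_inj σ, one_mul]
      exact h
    exact hne (swap_eq_one_iff.1 h3)
  · intro σ hσ
    exact PA_mul (PA_swap hx hy) hσ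
  · intro σ _
    rw [← mul_assoc, swap_mul_self, one_mul]

end gen

section conc

variable {A : Type} [Fintype A] [DecidableEq A] {D : ℕ}

/-- the gluing of the vertices `(a, false)` and `(a, true)` -/
def io (π : A → Perm (Fin D)) : Perm (HH A D) where
  toFun z := if z.2 = true then ((z.1.1, (π z.1.1).symm z.1.2), false)
    else ((z.1.1, π z.1.1 z.1.2), true)
  invFun z := if z.2 = true then ((z.1.1, (π z.1.1).symm z.1.2), false)
    else ((z.1.1, π z.1.1 z.1.2), true)
  left_inv z := by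
    obtain ⟨⟨a, i⟩, b⟩ := z
    cases b <;> simp
  right_inv z := by
    obtain ⟨⟨a, i⟩, b⟩ := z
    cases b <;> simp

theorem io_false (π : A → Perm (Fin D)) (a : A) (i : Fin D) :
    io π ((a, i), false) = ((a, π a i), true) := rfl

theorem io_true (π : A → Perm (Fin D)) (a : A) (i : Fin D) :
    io π ((a, i), true) = ((a, (π a).symm i), false) := rfl

theorem io_Mt (π : A → Perm (Fin D)) : Mt (io π) := by
  constructor
  · rintro ⟨⟨a, i⟩, b⟩
    cases b
    · rw [io_false, io_true]; simp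
    · rw [io_true, io_false]; simp
  · rintro ⟨⟨a, i⟩, b⟩ h
    have h1 := congrArg Prod.snd h
    cases b
    · rw [io_false] at h1
      exact Bool.noConfusion h1
    · rw [io_true] at h1
      exact Bool.noConfusion h1

open Classical in
theorem FZ_sum (τ : Perm (HH A D)) : FZ τ =
    ∑ π : A → Perm (Fin D), (∏ a, ((Perm.sign (π a) : ℤˣ) : ℤ)) * (NX (Fin D) τ (io π) : ℤ) := by
  have h1 : ∀ y : HH A D → Fin D, ww y =
      ∑ π : A → Perm (Fin D), (∏ a, ((Perm.sign (π a) : ℤˣ) : ℤ)) *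
        (if ∀ h, y (io π h) = y h then 1 else 0) := by
    intro y
    unfold ww
    rw [Fintype.prod_prod_type]
    have h2 : ∀ a : A, ∏ b : Bool, sg (Equiv.refl (Fin D)) (fun i => y (mk0 (a, b) i)) =
        ∑ κ : Perm (Fin D), ((Perm.sign κ : ℤˣ) : ℤ) *
          (if ∀ i, y (mk0 (a, false) i) = y (mk0 (a, true) (κ i)) then 1 else 0) := by
      intro a
      rw [Fintype.prod_bool, mul_comm]
      exact sg_mul' _ _ _ _ fun κ => Iff.rfl
    rw [Finset.prod_congr rfl fun a _ => h2 a, Finset.prod_univ_sum, Fintype.piFinset_univ]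
    refine Finset.sum_congr rfl fun π _ => ?_
    rw [Finset.prod_mul_distrib]
    congr 1
    rw [Finset.prod_ite_zero]
    simp only [Finset.mem_univ, true_implies, Finset.prod_const_one]
    refine if_congr ?_ rfl rfl
    constructor
    · rintro h ⟨⟨a, i⟩, b⟩
      cases b
      · rw [io_false]
        exact (h a i).symm
      · rw [io_true]
        have h3 := h a ((π a).symm i)
        rw [Equiv.apply_symm_apply] at h3
        exact h3
    · intro h a i
      have h3 := h ((a, i), false)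
      rw [io_false] at h3
      exact h3.symm
  unfold FZ
  rw [Finset.sum_congr rfl fun y _ => h1 y, Finset.sum_comm]
  refine Finset.sum_congr rfl fun π _ => ?_
  rw [← Finset.mul_sum]
  congr 1
  rw [← Finset.sum_filter, Finset.sum_const, nsmul_eq_mul, mul_one]
  congr 1
  unfold NX
  rw [Nat.card_eq_fintype_card, Fintype.card_subtype, Finset.filter_filter]

theorem FZ_sym {R : Type} [CommRing R] {K : Type} [Finite K] {r : ℕ}
    (hK : ((Nat.card K : ℕ) : R) = -1) (hX : ((D : ℕ) : R) = -((2 * r : ℕ) : R))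
    (τ : Perm (HH A D)) (hτ : Mt τ) (P : Finset (HH A D)) (hP : 2 * r < P.card) :
    ∑ σ ∈ PA P, ((FZ (σ * τ * σ⁻¹) : ℤ) : R) = 0 := by
  classical
  have h1 : ∀ σ : Perm (HH A D), ((FZ (σ * τ * σ⁻¹) : ℤ) : R) =
      ∑ π : A → Perm (Fin D), ((∏ a, ((Perm.sign (π a) : ℤˣ) : ℤ) : ℤ) : R) *
        ((NX (Fin D) (σ * τ * σ⁻¹) (io π) : ℕ) : R) := by
    intro σ
    rw [FZ_sum, Int.cast_sum]
    refine Finset.sum_congr rfl fun π _ => ?_
    rw [Int.cast_mul, Int.cast_natCast]
  rw [Finset.sum_congr rfl fun σ _ => h1 σ, Finset.sum_comm]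
  refine Finset.sum_eq_zero fun π _ => ?_
  rw [← Finset.mul_sum, sym_one hK (by
    rw [Nat.card_eq_fintype_card, Fintype.card_fin]
    exact hX) τ (io π) hτ (io_Mt π) P hP, mul_zero]

theorem FZ_alt2 (τ : Perm (HH A D)) (B : Finset (HH A D)) (hB : D < B.card) :
    ∑ σ ∈ PA B, (Perm.sign σ : ℤ) * FZ (σ * τ * σ⁻¹) = 0 := by
  classical
  have h1 : ∀ σ : Perm (HH A D), (Perm.sign σ : ℤ) * FZ (σ * τ * σ⁻¹) =
      ∑ z ∈ univ.filter (fun y : HH A D → Fin D => ∀ h, y (τ h) = y h),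
        (Perm.sign σ : ℤ) * ww (fun h => z (σ⁻¹ h)) := by
    intro σ
    rw [FZ_conj, Finset.mul_sum]
  rw [Finset.sum_congr rfl fun σ _ => h1 σ, Finset.sum_comm]
  refine Finset.sum_eq_zero fun z _ => ?_
  obtain ⟨x, hx, y, hy, hne, hxy⟩ := Finset.exists_ne_map_eq_of_card_lt_of_maps_to
    (s := B) (t := (univ : Finset (Fin D))) (by
      rw [Finset.card_univ, Fintype.card_fin]
      exact hB) (f := z) (fun _ _ => Finset.mem_coe.2 (Finset.mem_univ _))
  have hsw : ∀ h, z (swap x y h) = z h := by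
    intro h
    by_cases e1 : h = x
    · rw [e1, swap_apply_left, hxy]
    · by_cases e2 : h = y
      · rw [e2, swap_apply_right, hxy]
      · rw [swap_apply_of_ne_of_ne e1 e2]
  refine Finset.sum_involution (fun σ _ => σ * swap x y) ?_ ?_ ?_ ?_
  · intro σ _
    have h2 : (fun h => z ((σ * swap x y)⁻¹ h)) = fun h => z (σ⁻¹ h) := by
      funext h
      rw [mul_inv_rev, swap_inv, Perm.mul_apply, hsw]
    rw [h2, Perm.sign_mul, Perm.sign_swap hne]
    push_cast
    ring
  · intro σ _ _ h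
    have h2 : swap x y = 1 := by
      rw [← mul_right_inj σ, mul_one]
      exact h
    exact hne (swap_eq_one_iff.1 h2)
  · intro σ hσ
    exact PA_mul hσ (PA_swap hx hy)
  · intro σ _
    rw [mul_assoc, swap_mul_self, mul_one]

/-- the signed number modulo `p` -/
noncomputable def Fq (p : ℕ) (τ : Perm (HH A D)) : ZMod p := ((FZ τ : ℤ) : ZMod p)

theorem Fq_ax {p : ℕ} (hp : p.Prime) [Fact p.Prime] {s : ℕ} (hs : Even s) (hs0 : 0 < s)
    (hD : D + s = p) : Ax2 D s (Fq (A := A) (D := D) p) vt0 where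
  alt := fun τ _ B hB => by
    have h1 := FZ_alt2 τ B (by omega)
    have h2 := congrArg (fun z : ℤ => (z : ZMod p)) h1
    simp only [Int.cast_sum, Int.cast_mul, Int.cast_zero] at h2
    exact h2
  sym := fun τ hτ P hP => by
    obtain ⟨r, hr⟩ := hs
    refine FZ_sym (K := Fin (p - 1)) (r := r) (cast_p1 hp) ?_ τ hτ P (by omega)
    have h1 : ((D + s : ℕ) : ZMod p) = 0 := by rw [hD]; exact ZMod.natCast_self p
    rw [show 2 * r = s by omega, eq_neg_iff_add_eq_zero, ← Nat.cast_add]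
    exact h1
  ne := fun k h1 h2 h3 => by
    rw [ZMod.natCast_eq_zero_iff] at h3
    exact absurd (Nat.le_of_dvd h1 h3) (by omega)
  pos := hs0
  loop := fun τ hM h0 h => FZ_loop hM (fun h1 => h0 (by unfold Fq; rw [h1]; simp)) h

theorem baseq {p : ℕ} (hp : p.Prime) [Fact p.Prime] (hD : D < p) :
    ∃ τ0 : Perm (HH A D), Mt τ0 ∧ Fq p τ0 ≠ 0 := by
  refine ⟨dip A D, dip_Mt, ?_⟩
  unfold Fq
  rw [FZ_dip]
  push_cast
  refine pow_ne_zero _ ?_
  rw [Ne, ZMod.natCast_eq_zero_iff, hp.dvd_factorial]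
  omega

end conc

end Pool.Agent.Y342.LE.Cfg
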