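import Pool.Agent.Y342.LE.Formula

/-!
# The signed number of colourings with `-2` colours as a signed sum over orientations
-/

set_option autoImplicit false
set_option linter.unusedSectionVars false

namespace Pool.Agent.Y342.LE

open Finset Pool.Agent.W426.LE

theorem permApplyInv {X : Type} (f : Equiv.Perm X) (x : X) : f (f⁻¹ x) = x :=
  f.apply_symm_apply x

theorem permInvApply {X : Type} (f : Equiv.Perm X) (x : X) : f⁻¹ (f x) = x :=
  f.symm_apply_apply x

section

variable {A D E C : Type} [Fintype A] [Fintype D] [Fintype E] [DecidableEq A] [DecidableEq D]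
  [DecidableEq E]
variable (θ : E × Bool ≃ (A × D) × Bool) (π : A → Equiv.Perm D) (y : E → Bool)

/-- the gluing involution in the coordinates of the orientation `y` -/
def SS : Equiv.Perm (E × Bool) := Ph y * ((θ.trans (kap π)).trans θ.symm) * Ph y

theorem SS_apply (h : E × Bool) : SS θ π y h = Ph y (θ.symm (kap π (θ (Ph y h)))) := rfl

theorem SS_SS (h : E × Bool) : SS θ π y (SS θ π y h) = h := by
  rw [SS_apply, SS_apply, Ph_Ph, Equiv.apply_symm_apply, kap_kap, Equiv.symm_apply_apply, Ph_Ph]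

variable {θ π y} (hc : Coh θ π y)

include hc

theorem SS_snd (h : E × Bool) : (SS θ π y h).2 = !h.2 := by
  have h1 := (coh_iff θ π y).1 hc (Ph y h)
  rw [SS_apply, Ph_apply]
  show tt y _ = _
  rw [h1]
  congr 1
  have h2 := Ph_Ph y h
  rw [Ph_apply y (Ph y h)] at h2
  exact congrArg Prod.snd h2

/-- the permutation of the edges -/
def sE : Equiv.Perm E where
  toFun e := (SS θ π y (e, true)).1
  invFun e := (SS θ π y (e, false)).1
  left_inv e := by
    have h1 : SS θ π y (e, true) = ((SS θ π y (e, true)).1, false) :=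
      Prod.ext rfl (SS_snd hc (e, true))
    have h2 := SS_SS θ π y (e, true)
    rw [h1] at h2
    exact congrArg Prod.fst h2
  right_inv e := by
    have h1 : SS θ π y (e, false) = ((SS θ π y (e, false)).1, true) :=
      Prod.ext rfl (SS_snd hc (e, false))
    have h2 := SS_SS θ π y (e, false)
    rw [h1] at h2
    exact congrArg Prod.fst h2

theorem SS_true (e : E) : SS θ π y (e, true) = (sE hc e, false) :=
  Prod.ext rfl (SS_snd hc (e, true))

theorem SS_false (e : E) : SS θ π y (e, false) = ((sE hc)⁻¹ e, true) :=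
  Prod.ext rfl (SS_snd hc (e, false))

theorem cst_iff {X : Type} (x : E → X) : Cst θ π x ↔ ∀ e, x (sE hc e) = x e := by
  have h1 : Cst θ π x ↔ ∀ h, x (θ.symm (kap π (θ h))).1 = x h.1 := by
    constructor
    · intro hx h
      obtain ⟨z, rfl⟩ := θ.symm.surjective h
      rw [Equiv.apply_symm_apply]
      obtain ⟨⟨a, i⟩, b⟩ := z
      cases b
      · rw [kap_false]
        exact (hx a i).symm
      · obtain ⟨j, rfl⟩ := (π a).surjective i
        rw [kap_true]
        exact hx a j
    · intro h a i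
      have h1 := h (θ.symm ((a, i), false))
      rw [Equiv.apply_symm_apply, kap_false] at h1
      exact h1.symm
  rw [h1]
  constructor
  · intro h e
    have h2 := h (Ph y (e, true))
    have h3 : (SS θ π y (e, true)).1 = (θ.symm (kap π (θ (Ph y (e, true))))).1 := by
      rw [SS_apply, Ph_apply]
    rw [← h3, SS_true hc, Ph_apply] at h2
    exact h2
  · intro h g
    obtain ⟨g, rfl⟩ := (Ph y).surjective g
    have h3 : (SS θ π y g).1 = (θ.symm (kap π (θ (Ph y g)))).1 := by
      rw [SS_apply, Ph_apply]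
    rw [← h3]
    rw [Ph_apply]
    obtain ⟨e, b⟩ := g
    show x (SS θ π y (e, b)).1 = x e
    cases b
    · rw [SS_false hc]
      have h4 := h ((sE hc)⁻¹ e)
      rw [permApplyInv] at h4
      exact h4.symm
    · rw [SS_true hc]
      exact h e

theorem sign_sE (β : E ≃ A × D) :
    Equiv.Perm.sign (sE hc) * ∏ a, Equiv.Perm.sign (π a) =
      Equiv.Perm.sign ((β.prodCongr (Equiv.refl Bool)).trans θ.symm) *
        ((∏ e, (if y e = true then (-1 : ℤˣ) else 1)) *
          ∏ e, (if (θ (e, y e)).2 = true then (-1 : ℤˣ) else 1)) := by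
  set B : E × Bool ≃ (A × D) × Bool := β.prodCongr (Equiv.refl Bool) with hB
  let Γ : Equiv.Perm (E × Bool) :=
    Equiv.prodCongrLeft (fun b : Bool => if b = true then (sE hc)⁻¹ else 1)
  have hΓt : ∀ e, Γ (e, true) = ((sE hc)⁻¹ e, true) := fun e => by simp [Γ]
  have hΓf : ∀ e, Γ (e, false) = (e, false) := fun e => by simp [Γ]
  have hΓs : Equiv.Perm.sign Γ = Equiv.Perm.sign (sE hc) := by
    simp only [Γ]
    rw [Equiv.Perm.sign_prodCongrLeft, Fintype.prod_bool]
    simp
  let Λ : Equiv.Perm (E × Bool) := Ph y * ((θ.trans (GG π)).trans θ.symm) * (B.trans θ.symm)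
  have hΛa : ∀ h, Λ h = Ph y (θ.symm (GG π (B h))) := by
    intro h
    show Ph y (θ.symm (GG π (θ (θ.symm (B h))))) = _
    rw [Equiv.apply_symm_apply]
  have hΛs : Equiv.Perm.sign Λ = (∏ e, (if y e = true then (-1 : ℤˣ) else 1)) *
      (∏ a, Equiv.Perm.sign (π a)) * Equiv.Perm.sign (B.trans θ.symm) := by
    simp only [Λ, Equiv.Perm.sign_mul, sign_Ph]
    rw [Equiv.Perm.sign_trans_trans_symm, sign_GG]
  have hBf : ∀ h, B (flp E h) = flp (A × D) (B h) := by
    rintro ⟨e, b⟩
    rw [flp_apply]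
    show (β e, !b) = flp (A × D) (β e, b)
    rw [flp_apply]
  have hΛf : Λ * flp E = SS θ π y * Λ := by
    ext h : 1
    show Λ (flp E h) = SS θ π y (Λ h)
    rw [hΛa, hΛa, SS_apply, Ph_Ph, Equiv.apply_symm_apply, hBf]
    congr 2
    show GG π (flp (A × D) (B h)) = (GG π * flp (A × D) * (GG π)⁻¹) (GG π (B h))
    simp only [Equiv.Perm.mul_apply, permInvApply]
  have hΓf' : Γ * flp E = SS θ π y * Γ := by
    ext h : 1
    obtain ⟨e, b⟩ := h
    show Γ (flp E (e, b)) = SS θ π y (Γ (e, b))
    rw [flp_apply]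
    cases b
    · rw [hΓf, SS_false hc]
      exact hΓt e
    · rw [hΓt, SS_true hc, permApplyInv]
      exact hΓf e
  have hζ : (Λ⁻¹ * Γ) * flp E = flp E * (Λ⁻¹ * Γ) := by
    have h1 : Λ⁻¹ * SS θ π y = flp E * Λ⁻¹ := by
      rw [inv_mul_eq_iff_eq_mul, ← mul_assoc, hΛf, mul_inv_cancel_right]
    rw [mul_assoc, hΓf', ← mul_assoc, h1, mul_assoc]
  have hs := sign_comm_flip (Λ⁻¹ * Γ) (fun e b => by
    have h1 := congrArg (fun g : Equiv.Perm (E × Bool) => g (e, b)) hζ
    simp only [Equiv.Perm.mul_apply] at h1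
    rw [flp_apply] at h1
    rw [Equiv.Perm.mul_apply, h1]
    have h2 : ∀ z : E × Bool, flp E z = (z.1, !z.2) := fun z => flp_apply z.1 z.2
    rw [h2]
    rfl)
  have h2 : ∀ e, ((Λ⁻¹ * Γ) (e, false)).2 = (θ (e, y e)).2 := by
    intro e
    rw [Equiv.Perm.mul_apply, hΓf]
    set u := Λ⁻¹ (e, false) with hu
    have h3 : Λ u = (e, false) := by rw [hu, permApplyInv]
    rw [hΛa] at h3
    have h4 : θ.symm (GG π (B u)) = (e, y e) := by
      rw [← Ph_Ph y (θ.symm (GG π (B u))), h3, Ph_apply]
      simp [tt]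
    have h5 : GG π (B u) = θ (e, y e) := by
      rw [← h4, Equiv.apply_symm_apply]
    rw [← h5, GG_snd]
    rfl
  rw [Equiv.Perm.sign_mul, Equiv.Perm.sign_inv, hΛs, hΓs] at hs
  simp only [h2] at hs
  have hsq : ∀ u : ℤˣ, u * u = 1 := Int.units_mul_self
  rw [← hs]
  generalize (∏ e, (if y e = true then (-1 : ℤˣ) else 1)) = a at *
  generalize Equiv.Perm.sign (B.trans θ.symm) = b at *
  generalize (∏ a, Equiv.Perm.sign (π a)) = c at *
  generalize Equiv.Perm.sign (sE hc) = d at *
  calc d * c = (b * b) * (a * a) * (d * c) := by rw [hsq, hsq]; simp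
    _ = b * (a * (a * c * b * d)) := by
      simp only [mul_comm, mul_left_comm]

end

section

variable {A D E C : Type} [Fintype A] [Fintype D] [Fintype E] [DecidableEq A] [DecidableEq D]
  [DecidableEq E]
variable (θ : E × Bool ≃ (A × D) × Bool)

/-- the sign of an orientation -/
def wt (y : E → Bool) : ℤ := (∏ e, (if y e = true then (-1 : ℤ) else 1)) *
  ∏ e, (if (θ (e, y e)).2 = true then (-1 : ℤ) else 1)

theorem wt_units (y : E → Bool) : wt θ y =
    (((∏ e, (if y e = true then (-1 : ℤˣ) else 1)) *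
          ∏ e, (if (θ (e, y e)).2 = true then (-1 : ℤˣ) else 1) : ℤˣ) : ℤ) := by
  unfold wt
  push_cast
  congr 1
  · refine Finset.prod_congr rfl fun e _ => ?_
    split_ifs <;> simp
  · refine Finset.prod_congr rfl fun e _ => ?_
    split_ifs <;> simp

/-- **Main formula**: the signed number of colourings with `-2` colours. -/
theorem main_formula {R : Type} [CommRing R] [Fintype C] (ρ : D ≃ C)
    (hC : ((Nat.card C : ℕ) : R) = -2) (K : Type) [Finite K] (hK : ((Nat.card K : ℕ) : R) = -1)
    (β : E ≃ A × D) :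
    ((NN ρ (inc θ) : ℤ) : R) = (-1) ^ (Fintype.card E) *
      ((Equiv.Perm.sign ((β.prodCongr (Equiv.refl Bool)).trans θ.symm) : ℤ) : R) *
      ∑ y : E → Bool, ((wt θ y : ℤ) : R) *
        ((Nat.card {π : A → Equiv.Perm D // Coh θ π y} : ℕ) : R) := by
  classical
  rw [NN_eq]
  push_cast
  have h1 : ∀ π : A → Equiv.Perm D, ((Nat.card {x : E → C // Cst θ π x} : ℕ) : R) =
      ∑ y : E → Bool, (if Coh θ π y then
        ((Nat.card {x : E → K // Cst θ π x} : ℕ) : R) else 0) := by
    intro π
    obtain ⟨q, hq⟩ := card_Cst θ π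
    rw [Finset.sum_ite, Finset.sum_const_zero, add_zero, Finset.sum_const, nsmul_eq_mul,
      ← Fintype.card_subtype, ← Nat.card_eq_fintype_card, ← card_coh, hq, hq, hq,
      Nat.card_eq_fintype_card (α := Bool), Fintype.card_bool]
    push_cast
    rw [hC, hK, ← mul_pow]
    norm_num
  have h2 : ∀ π : A → Equiv.Perm D, ∀ y : E → Bool,
      (∏ a, (((Equiv.Perm.sign (π a) : ℤˣ) : ℤ) : R)) * (if Coh θ π y then
        ((Nat.card {x : E → K // Cst θ π x} : ℕ) : R) else 0) =
      if Coh θ π y then (-1) ^ (Fintype.card E) *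
        ((Equiv.Perm.sign ((β.prodCongr (Equiv.refl Bool)).trans θ.symm) : ℤ) : R) *
        ((wt θ y : ℤ) : R) else 0 := by
    intro π y
    by_cases hc : Coh θ π y
    · rw [if_pos hc, if_pos hc]
      have h3 : Nat.card {x : E → K // Cst θ π x} = Nat.card {x : E → K // ∀ e, x (sE hc e) = x e} :=
        Nat.card_congr (Equiv.subtypeEquivRight fun x => cst_iff hc x)
      rw [h3, card_fix hK]
      have h4 := congrArg (fun u : ℤˣ => ((u : ℤ) : R)) (sign_sE hc β)
      simp only [Units.val_mul, Units.coe_prod, Int.cast_mul, Int.cast_prod] at h4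
      rw [wt_units]
      push_cast
      rw [mul_assoc, ← h4]
      ring
    · rw [if_neg hc, if_neg hc, mul_zero]
  simp only [h1]
  rw [Finset.sum_congr rfl fun π _ => Finset.mul_sum _ _ _, Finset.sum_comm, Finset.mul_sum]
  refine Finset.sum_congr rfl fun y _ => ?_
  rw [Finset.sum_congr rfl fun π _ => h2 π y, Finset.sum_ite, Finset.sum_const_zero, add_zero,
    Finset.sum_const, nsmul_eq_mul, ← Fintype.card_subtype, ← Nat.card_eq_fintype_card]
  ring

end

end Pool.Agent.Y342.LE
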