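import Pool.Agent.Y342.LE.ATF
import Pool.Agent.TH378.LCClass

/-!
# Simple graphs with a nonzero signed number of colourings modulo `p`
-/

set_option autoImplicit false
set_option linter.unusedSectionVars false

namespace Pool.Agent.Y342.LE

open Finset Pool.Agent.W426.LE Pool.Agent.TH378.LC

/-- `F` is a 1-factorization of the simple graph `G` -/
structure Fac {V : Type} (d : ℕ) (G : SimpleGraph V) (F : Fin d → V → V) : Prop where
  inv : ∀ i v, F i (F i v) = v
  ne : ∀ i v, F i v ≠ v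
  inj : ∀ v i j, F i v = F j v → i = j
  adj : ∀ v w, G.Adj v w ↔ ∃ i, F i v = w

/-- the signed number of colourings of `G` with `d` colours is not divisible by `p` -/
def NZ {V : Type} (p d : ℕ) (G : SimpleGraph V) : Prop :=
  Finite V ∧ ∃ F : Fin d → V → V, Fac d G F ∧ ∀ _ : Fintype V, ¬ ((p : ℤ) ∣ AT F)

section

variable {A E : Type} [Fintype A] [Fintype E] [DecidableEq A] [DecidableEq E] {d : ℕ}
variable (θ : E × Bool ≃ (A × Fin d) × Bool) (G : SimpleGraph (A × Bool))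

/-- `θ` is an incidence structure of the simple graph `G` -/
structure Rep : Prop where
  adj : ∀ v w, G.Adj v w ↔ ∃ x, vt θ x = v ∧ vt θ (op x) = w
  inj : ∀ x x', vt θ x = vt θ x' → vt θ (op x) = vt θ (op x') → x = x'

theorem Rep.NZ {θ : E × Bool ≃ (A × Fin d) × Bool} {G : SimpleGraph (A × Bool)} (h : Rep θ G)
    (p : ℕ) (hN : ((NN (Equiv.refl (Fin d)) (inc θ) : ℤ) : ZMod p) ≠ 0) :
    NZ p d G := by
  classical
  have hN0 : NN (Equiv.refl (Fin d)) (inc θ) ≠ 0 := by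
    intro h0
    rw [h0] at hN
    simp at hN
  unfold NN at hN0
  obtain ⟨x, -, hx⟩ := Finset.exists_ne_zero_of_sum_ne_zero hN0
  have hb : ∀ v, Function.Bijective (fun i => x (inc θ v i)) := by
    intro v
    by_contra hb
    refine hx (Finset.prod_eq_zero (Finset.mem_univ v) ?_)
    unfold sg
    rw [dif_neg hb]
  let g : A × Bool → Equiv.Perm (Fin d) := fun v => Equiv.ofBijective _ (hb v)
  have hg : ∀ v j, g v j = x (inc θ v j) := fun v j => rfl
  have hloop : ∀ e, vt θ (e, false) ≠ vt θ (e, true) := by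
    intro e h1
    have h2 : G.Adj (vt θ (e, false)) (vt θ (e, true)) := (h.adj _ _).2 ⟨(e, false), rfl, rfl⟩
    exact h2.ne h1
  refine ⟨inferInstance, FF1 θ g, ⟨FF1_inv θ x g hg, FF1_ne θ g hloop, ?_, ?_⟩, ?_⟩
  · intro v i j hij
    have h1 : hf θ v ((g v).symm i) = hf θ v ((g v).symm j) := by
      refine h.inj _ _ ?_ hij
      rw [vt_hf, vt_hf]
    have h2 := congrArg (sl θ) h1
    rw [sl_hf, sl_hf] at h2
    exact (g v).symm.injective h2
  · intro v w
    rw [h.adj]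
    constructor
    · rintro ⟨y, rfl, rfl⟩
      refine ⟨g (vt θ y) (sl θ y), ?_⟩
      unfold FF1
      rw [Equiv.symm_apply_apply, hf_vt]
    · rintro ⟨i, rfl⟩
      exact ⟨hf θ v ((g v).symm i), vt_hf θ v _, rfl⟩
  · intro inst hdvd
    have h1 : inst = instFintypeProd A Bool := Subsingleton.elim _ _
    subst h1
    rw [AT_FF1 θ x g hg] at hdvd
    apply hN
    have h2 : (((∏ v, ((Equiv.Perm.sign (g v) : ℤˣ) : ℤ)) * NN (Equiv.refl (Fin d)) (inc θ) : ℤ) :
        ZMod p) = 0 := (ZMod.intCast_zmod_eq_zero_iff_dvd _ p).2 hdvd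
    have h3 : (∏ v, ((Equiv.Perm.sign (g v) : ℤˣ) : ℤ)) * (∏ v, ((Equiv.Perm.sign (g v) : ℤˣ) : ℤ)) =
        1 := by
      rw [← Finset.prod_mul_distrib]
      refine Finset.prod_eq_one fun v _ => ?_
      rw [← Units.val_mul, Int.units_mul_self, Units.val_one]
    have h4 : ((NN (Equiv.refl (Fin d)) (inc θ) : ℤ) : ZMod p) =
        (((∏ v, ((Equiv.Perm.sign (g v) : ℤˣ) : ℤ)) * ((∏ v, ((Equiv.Perm.sign (g v) : ℤˣ) : ℤ)) *
          NN (Equiv.refl (Fin d)) (inc θ)) : ℤ) : ZMod p) := by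
      rw [← mul_assoc, h3, one_mul]
    rw [h4, Int.cast_mul, h2, mul_zero]

theorem Rep.NN_ne {θ : E × Bool ≃ (A × Fin d) × Bool} {G : SimpleGraph (A × Bool)} (h : Rep θ G)
    (p : ℕ) (hG : Pool.Agent.Y342.LE.NZ p d G) :
    ((NN (Equiv.refl (Fin d)) (inc θ) : ℤ) : ZMod p) ≠ 0 := by
  classical
  obtain ⟨-, F, hF, hAT⟩ := hG
  have hc : ∀ e : E, ∃ i, F i (vt θ (e, false)) = vt θ (e, true) := fun e =>
    (hF.adj _ _).1 ((h.adj _ _).2 ⟨(e, false), rfl, rfl⟩)
  choose x hx using hc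
  have hx' : ∀ y : E × Bool, F (x y.1) (vt θ y) = vt θ (op y) := by
    rintro ⟨e, b⟩
    cases b
    · exact hx e
    · show F (x e) (vt θ (e, true)) = vt θ (e, false)
      rw [← hx e, hF.inv]
  have hinj : ∀ v, Function.Injective (fun j => x (inc θ v j)) := by
    intro v i j hij
    have h1 : hf θ v i = hf θ v j := by
      refine h.inj _ _ ?_ ?_
      · rw [vt_hf, vt_hf]
      · rw [← hx', ← hx', vt_hf, vt_hf]
        congr 1
    have h2 := congrArg (sl θ) h1
    rwa [sl_hf, sl_hf] at h2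
  let g : A × Bool → Equiv.Perm (Fin d) := fun v =>
    Equiv.ofBijective _ (Finite.injective_iff_bijective.1 (hinj v))
  have hg : ∀ v j, g v j = x (inc θ v j) := fun v j => rfl
  have hFF : FF1 θ g = F := by
    funext i v
    unfold FF1
    rw [← hx', vt_hf, ← inc_eq, ← hg, Equiv.apply_symm_apply]
  have h5 := AT_FF1 θ x g hg
  rw [hFF] at h5
  intro h0
  refine hAT (instFintypeProd A Bool) ?_
  rw [← ZMod.intCast_zmod_eq_zero_iff_dvd, h5, Int.cast_mul, h0, mul_zero]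

end

section ops

variable {p d : ℕ}

theorem NZ.iso {V W : Type} {G : SimpleGraph V} {H : SimpleGraph W} (e : G ≃g H) (h : NZ p d G) :
    NZ p d H := by
  obtain ⟨hV, F, hF, hAT⟩ := h
  refine ⟨Finite.of_equiv V e.toEquiv, fun i v => e.toEquiv (F i (e.toEquiv.symm v)),
    ⟨?_, ?_, ?_, ?_⟩, ?_⟩
  · intro i v
    rw [Equiv.symm_apply_apply, hF.inv, Equiv.apply_symm_apply]
  · intro i v h1
    refine hF.ne i (e.toEquiv.symm v) ?_
    rw [Equiv.eq_symm_apply]
    exact h1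
  · intro v i j h1
    exact hF.inj _ i j (e.toEquiv.injective h1)
  · intro v w
    have h1 : H.Adj v w ↔ G.Adj (e.toEquiv.symm v) (e.toEquiv.symm w) := by
      rw [← e.map_adj_iff]
      show _ ↔ H.Adj (e.toEquiv (e.toEquiv.symm v)) (e.toEquiv (e.toEquiv.symm w))
      rw [Equiv.apply_symm_apply, Equiv.apply_symm_apply]
    rw [h1, hF.adj]
    refine exists_congr fun i => ?_
    rw [Equiv.eq_symm_apply]
  · intro inst
    have := Fintype.ofFinite V
    rw [AT_iso]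
    exact hAT _

/-- covers -/
def gcover {V Q Ω : Type} [Group Q] [MulAction Q Ω] (G : SimpleGraph V) (β : V → V → Q) :
    SimpleGraph (V × Ω) :=
  SimpleGraph.fromRel fun x y => G.Adj x.1 y.1 ∧ β x.1 y.1 • x.2 = y.2

theorem gcover_adj {V Q Ω : Type} [Group Q] [MulAction Q Ω] (G : SimpleGraph V) (β : V → V → Q)
    (hβ : ∀ v w, β w v = (β v w)⁻¹) (x y : V × Ω) :
    (gcover G β).Adj x y ↔ G.Adj x.1 y.1 ∧ β x.1 y.1 • x.2 = y.2 := by
  unfold gcover
  rw [SimpleGraph.fromRel_adj]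
  constructor
  · rintro ⟨-, h | ⟨h1, h2⟩⟩
    · exact h
    · refine ⟨h1.symm, ?_⟩
      rw [hβ, ← h2, inv_smul_smul]
  · rintro ⟨h1, h2⟩
    refine ⟨fun h => h1.ne (congrArg Prod.fst h), Or.inl ⟨h1, h2⟩⟩

theorem NZ.cover [Fact p.Prime] {V Q Ω : Type} [Group Q] [MulAction Q Ω] [Finite Q] [Finite Ω]
    {G : SimpleGraph V} (hQ : IsPGroup p Q) (β : V → V → Q) (hβ : ∀ v w, β w v = (β v w)⁻¹)
    (h : NZ p d G) : NZ p d (gcover (Ω := Ω) G β) := by
  obtain ⟨hV, F, hF, hAT⟩ := h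
  have hβ' : ∀ i v, β (F i v) (F i (F i v)) = (β v (F i v))⁻¹ := by
    intro i v
    rw [hF.inv, hβ]
  refine ⟨inferInstance, pcov F (fun i v => β v (F i v)), ⟨?_, ?_, ?_, ?_⟩, ?_⟩
  · exact fun i v => pcov_inv F _ hF.inv hβ' i v
  · exact fun i v => pcov_ne F _ hF.ne i v
  · intro v i j h1
    exact hF.inj v.1 i j (congrArg Prod.fst h1)
  · intro v w
    rw [gcover_adj G β hβ, hF.adj]
    constructor
    · rintro ⟨⟨i, h1⟩, h2⟩
      refine ⟨i, Prod.ext h1 ?_⟩
      show β v.1 (F i v.1) • v.2 = w.2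
      rw [h1, h2]
    · rintro ⟨i, rfl⟩
      exact ⟨⟨i, rfl⟩, rfl⟩
  · exact pcov_not_dvd p hQ F _ hAT

end ops

end Pool.Agent.Y342.LE
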