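import Pool.Agent.Y342.LE.SW
import Pool.Agent.Y342.LE.CCF

/-!
# Operations and basic graphs
-/

set_option autoImplicit false
set_option linter.unusedSectionVars false

namespace Pool.Agent.Y342.LE

open Finset Pool.Agent.W426.LE Pool.Agent.TH378.LC

theorem gswitch_adj {V : Type} (G : SimpleGraph V) (a b c e v w : V) :
    (gswitch G a b c e).Adj v w ↔ ((G.Adj v w ∧ s(v, w) ≠ s(a, b) ∧ s(v, w) ≠ s(c, e)) ∨
      s(v, w) = s(a, c) ∨ s(v, w) = s(b, e)) ∧ v ≠ w := by
  unfold gswitch
  rw [SimpleGraph.fromEdgeSet_adj]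
  simp only [Set.mem_union, Set.mem_sdiff, Set.mem_insert_iff, Set.mem_singleton_iff,
    SimpleGraph.mem_edgeSet, not_or, ne_eq]

def gswitch_iso {V W : Type} {G : SimpleGraph V} {H : SimpleGraph W} (f : G ≃g H) (a b c e : V) :
    gswitch G a b c e ≃g gswitch H (f a) (f b) (f c) (f e) where
  toEquiv := f.toEquiv
  map_rel_iff' := by
    intro v w
    have hs : ∀ x y z t : V, s(f.toEquiv x, f.toEquiv y) = s(f z, f t) ↔ s(x, y) = s(z, t) := by
      intro x y z t
      have h1 : s(f.toEquiv x, f.toEquiv y) = Sym2.map f.toEquiv s(x, y) := by rw [Sym2.map_mk]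
      have h2 : s(f z, f t) = Sym2.map f.toEquiv s(z, t) := by rw [Sym2.map_mk]; rfl
      rw [h1, h2]
      exact (Sym2.map.injective f.toEquiv.injective).eq_iff
    have h3 : H.Adj (f.toEquiv v) (f.toEquiv w) ↔ G.Adj v w := f.map_adj_iff
    rw [gswitch_adj, gswitch_adj, h3]
    simp only [ne_eq, hs, EmbeddingLike.apply_eq_iff_eq]

theorem NZ.exchange {V : Type} {p : ℕ} (hp : p.Prime) (hp2 : p ≠ 2)
    (G : SimpleGraph V) (a b c e : V) (hab : G.Adj a b) (hce : G.Adj c e)
    (hac : a ≠ c) (hae : a ≠ e) (hbc : b ≠ c) (hbe : b ≠ e)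
    (nac : ¬ G.Adj a c) (nae : ¬ G.Adj a e) (nbc : ¬ G.Adj b c) (nbe : ¬ G.Adj b e)
    (h : NZ p (p - 2) G) :
    NZ p (p - 2) (gswitch G a b c e) ∨ NZ p (p - 2) (gswitch G a b e c) := by
  classical
  have : Fact p.Prime := ⟨hp⟩
  have h2 := hp.two_le
  have h' := h
  obtain ⟨hV, F, hF, -⟩ := h'
  have := Fintype.ofFinite V
  let i0 : Fin (p - 2) := ⟨0, by omega⟩
  obtain ⟨m, hm⟩ := even_of_inv (F i0) (fun v => hF.inv i0 v) (fun v => hF.ne i0 v)
  have hcard : Fintype.card V = Fintype.card (Fin m × Bool) := by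
    rw [Fintype.card_prod, Fintype.card_fin, Fintype.card_bool, hm]
    ring
  let f : V ≃ Fin m × Bool := Fintype.equivOfCardEq hcard
  let φ : G ≃g G.comap f.symm := (SimpleGraph.Iso.comap f.symm G).symm
  have hφ : ∀ v w, (G.comap f.symm).Adj (φ v) (φ w) ↔ G.Adj v w := fun v w => φ.map_adj_iff
  have hne : ∀ v w, φ v ≠ φ w ↔ v ≠ w := fun v w => φ.injective.ne_iff
  rcases NZ.exchange_aux (G.comap f.symm) (φ a) (φ b) (φ c) (φ e) ((hφ _ _).2 hab)
    ((hφ _ _).2 hce) ((hne _ _).2 hac) ((hne _ _).2 hae) ((hne _ _).2 hbc) ((hne _ _).2 hbe)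
    (fun h => nac ((hφ _ _).1 h)) (fun h => nae ((hφ _ _).1 h)) (fun h => nbc ((hφ _ _).1 h))
    (fun h => nbe ((hφ _ _).1 h)) (h.iso φ) with h1 | h1
  · exact Or.inl (h1.iso (gswitch_iso φ a b c e).symm)
  · exact Or.inr (h1.iso (gswitch_iso φ a b e c).symm)

open Classical in
theorem AT_sum {d : ℕ} {V W : Type} [Fintype V] [Fintype W] (f : Fin d → V → V)
    (g : Fin d → W → W) : AT (fun i => Sum.map (f i) (g i)) = AT f * AT g := by
  have hAT : AT (fun i => Sum.map (f i) (g i)) = ∑ σ : V ⊕ W → Equiv.Perm (Fin d),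
      if Cons (fun i => Sum.map (f i) (g i)) σ then ∏ w, ((Equiv.Perm.sign (σ w) : ℤˣ) : ℤ)
        else 0 := by
    unfold AT
    rw [Finset.sum_filter]
    refine Finset.sum_congr ?_ fun _ _ => rfl
    ext σ
    simp only [Finset.mem_univ]
  rw [hAT]
  unfold AT
  rw [Finset.sum_filter, Finset.sum_filter, Finset.sum_mul_sum,
    ← Fintype.sum_prod_type' (fun (σ : V → Equiv.Perm (Fin d)) (τ : W → Equiv.Perm (Fin d)) =>
      (if Cons f σ then ∏ w, ((Equiv.Perm.sign (σ w) : ℤˣ) : ℤ) else 0) *
        (if Cons g τ then ∏ w, ((Equiv.Perm.sign (τ w) : ℤˣ) : ℤ) else 0))]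
  refine Fintype.sum_equiv (Equiv.sumArrowEquivProdArrow V W (Equiv.Perm (Fin d))) _ _ ?_
  intro σ
  have h1 : Cons (fun i => Sum.map (f i) (g i)) σ ↔
      Cons f (fun v => σ (Sum.inl v)) ∧ Cons g (fun w => σ (Sum.inr w)) := by
    constructor
    · intro h
      exact ⟨fun v i => h (Sum.inl v) i, fun w i => h (Sum.inr w) i⟩
    · rintro ⟨h1, h2⟩ (v | w) i
      · exact h1 v i
      · exact h2 w i
  show (if Cons (fun i => Sum.map (f i) (g i)) σ then _ else (0 : ℤ)) =
    (if Cons f (fun v => σ (Sum.inl v)) then _ else (0 : ℤ)) *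
      (if Cons g (fun w => σ (Sum.inr w)) then _ else (0 : ℤ))
  rw [Fintype.prod_sum_type]
  by_cases h2 : Cons f (fun v => σ (Sum.inl v)) <;> by_cases h3 : Cons g (fun w => σ (Sum.inr w)) <;>
    simp [h1, h2, h3]

theorem NZ.union {V W : Type} {p d : ℕ} (hp : p.Prime) {G : SimpleGraph V} {H : SimpleGraph W}
    (hG : NZ p d G) (hH : NZ p d H) : NZ p d (SimpleGraph.sum G H) := by
  obtain ⟨hV, F, hF, hAT⟩ := hG
  obtain ⟨hW, F', hF', hAT'⟩ := hH
  refine ⟨inferInstance, fun i => Sum.map (F i) (F' i), ⟨?_, ?_, ?_, ?_⟩, ?_⟩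
  · rintro i (v | w)
    · exact congrArg Sum.inl (hF.inv i v)
    · exact congrArg Sum.inr (hF'.inv i w)
  · rintro i (v | w) h
    · exact hF.ne i v (Sum.inl_injective h)
    · exact hF'.ne i w (Sum.inr_injective h)
  · rintro (v | w) i j h
    · exact hF.inj v i j (Sum.inl_injective h)
    · exact hF'.inj w i j (Sum.inr_injective h)
  · rintro (v | v) (w | w)
    · rw [SimpleGraph.sum_adj_inl, hF.adj]
      exact exists_congr fun i => ⟨fun h => congrArg Sum.inl h, fun h => Sum.inl_injective h⟩
    · constructor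
      · intro h
        exact absurd h (SimpleGraph.not_adj_sum_inl_inr v w)
      · rintro ⟨i, h⟩
        exact absurd h Sum.inl_ne_inr
    · constructor
      · intro h
        exact absurd h.symm (SimpleGraph.not_adj_sum_inl_inr w v)
      · rintro ⟨i, h⟩
        exact absurd h Sum.inr_ne_inl
    · rw [SimpleGraph.sum_adj_inr, hF'.adj]
      exact exists_congr fun i => ⟨fun h => congrArg Sum.inr h, fun h => Sum.inr_injective h⟩
  · intro inst hdvd
    have i1 := Fintype.ofFinite V
    have i2 := Fintype.ofFinite W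
    have hi : inst = instFintypeSum V W := Subsingleton.elim _ _
    subst hi
    rw [AT_sum] at hdvd
    rcases (Nat.prime_iff_prime_int.1 hp).dvd_or_dvd hdvd with h | h
    · exact hAT _ h
    · exact hAT' _ h

/-- splicing of simple graphs at the vertices `none` -/
def gsplice {V W : Type} (G : SimpleGraph (Option V)) (H : SimpleGraph (Option W)) (φ : V → W) :
    SimpleGraph (V ⊕ W) :=
  SimpleGraph.fromRel fun x y => match x, y with
    | Sum.inl v, Sum.inl v' => G.Adj (some v) (some v')
    | Sum.inr w, Sum.inr w' => H.Adj (some w) (some w')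
    | Sum.inl v, Sum.inr w => G.Adj none (some v) ∧ φ v = w
    | Sum.inr _, Sum.inl _ => False

theorem NZ.spl {V W : Type} {p d : ℕ} (hp : p.Prime) (hd : 1 ≤ d) {G : SimpleGraph (Option V)}
    {H : SimpleGraph (Option W)} (φ : V → W)
    (hφ : Set.BijOn φ {v | G.Adj none (some v)} {w | H.Adj none (some w)})
    (hG : NZ p d G) (hH : NZ p d H) : NZ p d (gsplice G H φ) := by
  obtain ⟨hV, F, hF, hAT⟩ := hG
  obtain ⟨hW, F', hF', hAT'⟩ := hH
  have : Finite V := Finite.of_injective some (Option.some_injective V)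
  have : Finite W := Finite.of_injective some (Option.some_injective W)
  -- the neighbours of `none`
  have ha : ∀ i, ∃ v, F i none = some v := exists_a F hF.ne
  choose f hf using ha
  have hfa : ∀ i, G.Adj none (some (f i)) := fun i => (hF.adj _ _).2 ⟨i, hf i⟩
  have hb : ∀ i, ∃ j, F' j none = some (φ (f i)) := by
    intro i
    have h1 : H.Adj none (some (φ (f i))) := hφ.mapsTo (hfa i)
    exact (hF'.adj _ _).1 h1
  choose π0 hπ0 using hb
  have hπi : Function.Injective π0 := by
    intro i j hij
    have h1 : φ (f i) = φ (f j) := by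
      have h2 := hπ0 i
      rw [hij, hπ0 j] at h2
      exact (Option.some.inj h2).symm
    have h3 := hφ.injOn (hfa i) (hfa j) h1
    refine hF.inj none i j ?_
    rw [hf, hf, h3]
  let π : Equiv.Perm (Fin d) := Equiv.ofBijective π0 (Finite.injective_iff_bijective.1 hπi)
  let F2 : Fin d → Option W → Option W := fun i => F' (π i)
  have hF2 : ∀ i, F2 i none = some (φ (f i)) := hπ0
  have hinv2 : ∀ i w, F2 i (F2 i w) = w := fun i w => hF'.inv _ w
  have hne2 : ∀ i w, F2 i w ≠ w := fun i w => hF'.ne _ w
  have hinj2 : ∀ w i j, F2 i w = F2 j w → i = j := fun w i j h =>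
    π.injective (hF'.inj w _ _ h)
  have hadj2 : ∀ v w, H.Adj v w ↔ ∃ i, F2 i v = w := by
    intro v w
    rw [hF'.adj]
    constructor
    · rintro ⟨i, hi⟩
      refine ⟨π.symm i, ?_⟩
      show F' (π (π.symm i)) v = w
      rw [Equiv.apply_symm_apply]
      exact hi
    · rintro ⟨i, hi⟩
      exact ⟨π i, hi⟩
  have hlr : ∀ v w, (∃ i, splice F F2 i (Sum.inl v) = Sum.inr w) ↔
      (G.Adj none (some v) ∧ φ v = w) := by
    intro v w
    constructor
    · rintro ⟨i, hi⟩
      cases h : F i (some v) with
      | some v' =>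
        rw [splice_inl_some F F2 h] at hi
        exact absurd hi Sum.inl_ne_inr
      | none =>
        rw [splice_inl_none F F2 h (hF2 i)] at hi
        have h1 : F i none = some v := by rw [← h, hF.inv]
        have h2 : f i = v := by
          rw [hf] at h1
          exact Option.some.inj h1
        refine ⟨(hF.adj _ _).2 ⟨i, h1⟩, ?_⟩
        rw [← h2]
        exact Sum.inr_injective hi
    · rintro ⟨h1, h2⟩
      obtain ⟨i, hi⟩ := (hF.adj _ _).1 h1
      refine ⟨i, ?_⟩
      have h3 : F i (some v) = none := by rw [← hi, hF.inv]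
      rw [splice_inl_none F F2 h3 (hF2 i)]
      rw [hf] at hi
      rw [Option.some.inj hi, h2]
  refine ⟨inferInstance, splice F F2, ⟨?_, ?_, ?_, ?_⟩, ?_⟩
  · exact splice_inv F F2 hF.inv hF.ne hinv2 hne2
  · exact splice_ne F F2 hF.ne hne2
  · rintro (v | w) i j h
    · cases h1 : F i (some v) with
      | some v' =>
        cases h2 : F j (some v) with
        | some v'' =>
          rw [splice_inl_some F F2 h1, splice_inl_some F F2 h2] at h
          refine hF.inj (some v) i j ?_
          rw [h1, h2, Sum.inl_injective h]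
        | none =>
          rw [splice_inl_some F F2 h1, splice_inl_none F F2 h2 (hF2 j)] at h
          exact absurd h Sum.inl_ne_inr
      | none =>
        cases h2 : F j (some v) with
        | some v'' =>
          rw [splice_inl_none F F2 h1 (hF2 i), splice_inl_some F F2 h2] at h
          exact absurd h Sum.inr_ne_inl
        | none =>
          refine hF.inj (some v) i j ?_
          rw [h1, h2]
    · cases h1 : F2 i (some w) with
      | some v' =>
        cases h2 : F2 j (some w) with
        | some v'' =>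
          rw [splice_inr_some F F2 h1, splice_inr_some F F2 h2] at h
          refine hinj2 (some w) i j ?_
          rw [h1, h2, Sum.inr_injective h]
        | none =>
          rw [splice_inr_some F F2 h1, splice_inr_none F F2 h2 (hf j)] at h
          exact absurd h Sum.inr_ne_inl
      | none =>
        cases h2 : F2 j (some w) with
        | some v'' =>
          rw [splice_inr_none F F2 h1 (hf i), splice_inr_some F F2 h2] at h
          exact absurd h Sum.inl_ne_inr
        | none =>
          refine hinj2 (some w) i j ?_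
          rw [h1, h2]
  · have hll : ∀ v v', (∃ i, splice F F2 i (Sum.inl v) = Sum.inl v') ↔ G.Adj (some v) (some v') := by
      intro v v'
      rw [hF.adj]
      refine exists_congr fun i => ?_
      cases h : F i (some v) with
      | some v'' =>
        rw [splice_inl_some F F2 h]
        exact ⟨fun h => by rw [Sum.inl_injective h], fun h => by rw [Option.some.inj h]⟩
      | none =>
        rw [splice_inl_none F F2 h (hF2 i)]
        exact ⟨fun h => absurd h Sum.inr_ne_inl, fun h => by simp at h⟩
    have hrr : ∀ v v', (∃ i, splice F F2 i (Sum.inr v) = Sum.inr v') ↔ H.Adj (some v) (some v') := by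
      intro v v'
      rw [hadj2]
      refine exists_congr fun i => ?_
      cases h : F2 i (some v) with
      | some v'' =>
        rw [splice_inr_some F F2 h]
        exact ⟨fun h => by rw [Sum.inr_injective h], fun h => by rw [Option.some.inj h]⟩
      | none =>
        rw [splice_inr_none F F2 h (hf i)]
        exact ⟨fun h => absurd h Sum.inl_ne_inr, fun h => by simp at h⟩
    have hsymm : ∀ x y, (∃ i, splice F F2 i x = y) ↔ (∃ i, splice F F2 i y = x) := by
      intro x y
      constructor
      · rintro ⟨i, rfl⟩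
        exact ⟨i, splice_inv F F2 hF.inv hF.ne hinv2 hne2 i x⟩
      · rintro ⟨i, rfl⟩
        exact ⟨i, splice_inv F F2 hF.inv hF.ne hinv2 hne2 i y⟩
    rintro (v | v) (w | w)
    · rw [hll]
      unfold gsplice
      rw [SimpleGraph.fromRel_adj]
      constructor
      · rintro ⟨-, h | h⟩
        · exact h
        · exact h.symm
      · intro h
        exact ⟨fun h1 => h.ne (congrArg some (Sum.inl_injective h1)), Or.inl h⟩
    · rw [hlr]
      unfold gsplice
      rw [SimpleGraph.fromRel_adj]
      constructor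
      · rintro ⟨-, h | h⟩
        · exact h
        · exact h.elim
      · intro h
        exact ⟨Sum.inl_ne_inr, Or.inl h⟩
    · rw [hsymm, hlr]
      unfold gsplice
      rw [SimpleGraph.fromRel_adj]
      constructor
      · rintro ⟨-, h | h⟩
        · exact h.elim
        · exact h
      · intro h
        exact ⟨Sum.inr_ne_inl, Or.inr h⟩
    · rw [hrr]
      unfold gsplice
      rw [SimpleGraph.fromRel_adj]
      constructor
      · rintro ⟨-, h | h⟩
        · exact h
        · exact h.symm
      · intro h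
        exact ⟨fun h1 => h.ne (congrArg some (Sum.inr_injective h1)), Or.inl h⟩
  · refine splice_not_dvd p hp hd F F2 hF.inv hF.ne hinv2 hne2 hAT ?_
    intro inst
    let i0 : Fin d := ⟨0, by omega⟩
    have h5 : AT F2 = AT F' := AT_relabel (even_of_inv (F' i0) (fun v => hF'.inv i0 v)
      (fun v => hF'.ne i0 v)) F' π
    rw [h5]
    exact hAT' _

end Pool.Agent.Y342.LE
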