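import Pool.Agent.Y342.LE.Basic
import Pool.Agent.W426.LE.SG

/-!
# Products of two signs as sums over permutations
-/

set_option autoImplicit false

namespace Pool.Agent.Y342.LE

open Finset Pool.Agent.W426.LE

open Classical in
theorem sg_mul {D C : Type} [Fintype D] (ρ : D ≃ C) (f g : D → C) :
    sg ρ f * sg ρ g =
      ∑ π : Equiv.Perm D, ((Equiv.Perm.sign π : ℤˣ) : ℤ) * (if ∀ i, f i = g (π i) then 1 else 0) := by
  by_cases hg : Function.Bijective g
  · by_cases hf : Function.Bijective f
    · let π0 : Equiv.Perm D := (Equiv.ofBijective f hf).trans (Equiv.ofBijective g hg).symm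
      have h0 : ∀ i, f i = g (π0 i) := by
        intro i
        show f i = (Equiv.ofBijective g hg) ((Equiv.ofBijective g hg).symm (f i))
        rw [Equiv.apply_symm_apply]
      have h1 : sg ρ f = ((Equiv.Perm.sign π0 : ℤˣ) : ℤ) * sg ρ g := by
        rw [← sg_comp_perm]
        congr 1
        exact funext h0
      rw [Finset.sum_eq_single π0]
      · rw [if_pos h0, h1, mul_assoc, sg_sq ρ g hg]
      · intro π _ hπ
        rw [if_neg, mul_zero]
        intro h
        apply hπ
        ext i
        exact hg.1 ((h i).symm.trans (h0 i))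
      · intro h
        exact absurd (Finset.mem_univ _) h
    · rw [sg_of_not ρ f hf, zero_mul]
      symm
      refine Finset.sum_eq_zero fun π _ => ?_
      rw [if_neg, mul_zero]
      intro h
      apply hf
      have : f = g ∘ π := funext h
      rw [this]
      exact hg.comp π.bijective
  · rw [sg_of_not ρ g hg, mul_zero]
    symm
    have hinj : ¬ Function.Injective g := by
      intro hi
      apply hg
      refine ⟨hi, ?_⟩
      have h2 : Function.Injective (ρ.symm ∘ g) := ρ.symm.injective.comp hi
      have h3 := (Finite.injective_iff_surjective.1 h2)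
      intro c
      obtain ⟨i, hi'⟩ := h3 (ρ.symm c)
      exact ⟨i, ρ.symm.injective hi'⟩
    unfold Function.Injective at hinj
    push Not at hinj
    obtain ⟨i, j, hij, hne⟩ := hinj
    have hs : ∀ k, g (Equiv.swap i j k) = g k := by
      intro k
      by_cases h1 : k = i
      · rw [h1, Equiv.swap_apply_left, hij]
      · by_cases h2 : k = j
        · rw [h2, Equiv.swap_apply_right, hij]
        · rw [Equiv.swap_apply_of_ne_of_ne h1 h2]
    refine Finset.sum_involution (fun π _ => Equiv.swap i j * π) ?_ ?_ ?_ ?_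
    · intro π _
      have h1 : (∀ k, f k = g ((Equiv.swap i j * π) k)) ↔ ∀ k, f k = g (π k) := by
        refine forall_congr' fun k => ?_
        rw [Equiv.Perm.mul_apply, hs]
      simp only [h1, Equiv.Perm.sign_mul, Equiv.Perm.sign_swap hne]
      push_cast
      ring
    · intro π _ _ h
      have h2 := congrArg (fun τ : Equiv.Perm D => (τ * π⁻¹) i) h
      simp at h2
      exact hne h2.symm
    · intro π _
      exact Finset.mem_univ _
    · intro π _
      rw [← mul_assoc, Equiv.swap_mul_self, one_mul]

theorem sg_mul' {D C : Type} [Fintype D] [DecidableEq D] (ρ : D ≃ C) (f g : D → C)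
    (P : Equiv.Perm D → Prop) [DecidablePred P] (hP : ∀ π, P π ↔ ∀ i, f i = g (π i)) :
    sg ρ f * sg ρ g =
      ∑ π : Equiv.Perm D, ((Equiv.Perm.sign π : ℤˣ) : ℤ) * (if P π then 1 else 0) := by
  classical
  rw [sg_mul]
  have hs' : ∀ (i1 i2 : DecidableEq D) (τ : Equiv.Perm D),
      ((@Equiv.Perm.sign _ i1 _ τ : ℤˣ) : ℤ) = ((@Equiv.Perm.sign _ i2 _ τ : ℤˣ) : ℤ) :=
    fun i1 i2 τ => by rw [Subsingleton.elim i1 i2]
  refine Finset.sum_congr (by ext; simp) fun π _ => ?_
  congr 1
  · exact hs' _ _ _
  · exact if_congr (hP π).symm rfl rfl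

end Pool.Agent.Y342.LE
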